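import Pool.Agent.CorE.Targets

/-!
# COE-SLF: local solutions and their cocycles
-/

set_option autoImplicit false

namespace Pool.Agent.CorE

open Complex Metric Set Filter Topology MeasureTheory
open Pool.Corona91698f
open scoped Real

namespace SLF_

theorem dist_cc (v : List D) (z : ℂ) : dist (Psi v z) ctr = 3 ^ v.length * dist z (cc v) := by
  have h := dist_Psi v z (Phi v ctr)
  rw [Psi_Phi] at h
  exact h

/-- the radius of the circle of `v` -/
noncomputable def rad (v : List D) : ℝ := 77 / 100 * (1 / 3) ^ v.length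

theorem rad_pos (v : List D) : 0 < rad v := by unfold rad; positivity

theorem rad_mul (v : List D) : rad v * 3 ^ v.length = 77 / 100 := by
  have h : ((1 : ℝ) / 3) ^ v.length * 3 ^ v.length = 1 := by rw [← mul_pow]; norm_num
  unfold rad
  linear_combination (77 / 100) * h

theorem circ {v : List D} {z : ℂ} (hz : z ∈ sphere (cc v) (rad v)) :
    dist (Psi v z) ctr = 77 / 100 := by
  rw [dist_cc, mem_sphere.1 hz, mul_comm, rad_mul]

theorem circ_NR {v : List D} {z : ℂ} (hz : dist (Psi v z) ctr = 77 / 100) : z ∈ NR (some v) := by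
  refine ⟨by rw [hz]; norm_num, fun d => ?_⟩
  have := dist_psi_ge d (Psi v z)
  rw [hz] at this
  linarith

theorem circ_par {p : List D} {d : D} {z : ℂ} (hz : dist (Psi (p ++ [d]) z) ctr = 77 / 100) :
    z ∈ NR (some p) := by
  have h := annulus_par (v := p ++ [d]) (y := Psi (p ++ [d]) z) (by rw [hz]; norm_num)
    (by rw [hz]; norm_num)
  rw [Phi_Psi, par_snoc] at h
  exact h

theorem NR_X {v : List D} {z : ℂ} (hz : z ∈ NR (some v)) : Psi v z ∈ nodeX := nodeV_subset hz

theorem dist_Phi_ctr_lt (x : List D) : dist (Phi x ctr) ctr < 71 / 100 := by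
  induction x with
  | nil => simp
  | cons d x ih =>
    rw [Phi_cons]
    have h1 := dist_triangle (phi d (Phi x ctr)) (phi d ctr) ctr
    rw [dist_phi'] at h1
    have h2 := dist_phi_ctr d
    linarith

theorem charge_pre {v q : List D} (hvq : v <+: q) : dist (Psi v (cc q)) ctr < 71 / 100 := by
  obtain ⟨x, rfl⟩ := hvq
  unfold cc
  rw [Phi_append, Psi_Phi]
  exact dist_Phi_ctr_lt x

theorem charge_self (q : List D) : dist (Psi q (cc q)) ctr ≤ 78 / 100 := by
  unfold cc
  rw [Psi_Phi, dist_self]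
  norm_num

theorem charge_circle {N : ℕ} {v q : List D} (hv : v.length ≤ N) (hq : q ∈ lv N) {z : ℂ}
    (hz : dist (Psi v z) ctr = 77 / 100) : z ≠ cc q := by
  rintro rfl
  have hq' := mem_lv.1 hq
  have h2 : dist (Psi v (cc q)) ctr ≤ 78 / 100 := by rw [hz]; norm_num
  have h3 : v <+: q := by
    rcases chain h2 (charge_self q) with h | h
    · exact h
    · have h4 : q = v := h.eq_of_length_le (by omega)
      rw [h4]
  have := charge_pre h3
  linarith

theorem charge_Nd {N : ℕ} {p q : List D} (hp : p.length < N) (hq : q ∈ lv N) {z : ℂ}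
    (hz : z ∈ Nd (some p)) : z ≠ cc q := by
  rintro rfl
  have hq' := mem_lv.1 hq
  obtain ⟨h1, h2⟩ := hz
  rcases chain h1.le (charge_self q) with h | h
  · obtain ⟨x, hx⟩ := h
    cases x with
    | nil =>
      rw [List.append_nil] at hx
      rw [hx] at hp
      omega
    | cons d x =>
      have h3 : (p ++ [d]) <+: q := ⟨x, by rw [← hx]; simp⟩
      have h4 := charge_pre h3
      rw [Psi_snoc] at h4
      have h5 := h2 d
      linarith
  · have := h.length_le
    omega

theorem ps_diff {N : ℕ} {w : List D → ℝ} {z : ℂ} (h : ∀ q ∈ lv N, z ≠ cc q) :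
    DifferentiableAt ℂ (ps N w) z := by
  unfold ps
  refine DifferentiableAt.fun_sum fun q hq => ?_
  exact (differentiableAt_const _).div (differentiableAt_id.sub_const _) (sub_ne_zero.2 (h q hq))

theorem ps_cont {N : ℕ} {w : List D → ℝ} {v : List D} (hv : v.length ≤ N) :
    ContinuousOn (ps N w) (sphere (cc v) (rad v)) := fun _ hz =>
  (ps_diff fun _ hq => charge_circle hv hq (circ hz)).continuousAt.continuousWithinAt

theorem cm_eq (v : List D) (h : ℂ → ℂ) :
    cm v h = (2 * π * I : ℂ)⁻¹ • ∮ z in C(cc v, rad v), h z := rfl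

/-- the basic estimate -/
theorem cm_near (hCMP : T_CMP) {N : ℕ} {w : List D → ℝ} {V CG G : ℝ} (hGB : GB N w V CG)
    (hG : CG ≤ G) (hG0 : 0 ≤ G) {u : List D} (hu : u.length ≤ N) {W : ℂ → ℂ}
    (hW : ContinuousOn W (sphere (cc u) (rad u))) (c : ℂ) {M : ℝ} (hM0 : 0 ≤ M)
    (hM : ∀ z, dist (Psi u z) ctr = 77 / 100 → ‖W z - c‖ ≤ M) :
    ‖cm u (fun z => W z * ps N w z) - c * (w u : ℂ)‖ ≤ M * G * w u := by
  have hw : 0 < w u := hGB.pos u hu
  have hcm := (hCMP N w hGB.add u hu).1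
  have hr := (rad_pos u).le
  have hc := ps_cont (w := w) hu
  have i1 : CircleIntegrable (fun z => W z * ps N w z) (cc u) (rad u) :=
    (hW.mul hc).circleIntegrable hr
  have i2 : CircleIntegrable (fun z => c * ps N w z) (cc u) (rad u) :=
    (continuousOn_const.mul hc).circleIntegrable hr
  have e1 : cm u (fun z => W z * ps N w z) - c * (w u : ℂ) =
      cm u (fun z => (W z - c) * ps N w z) := by
    rw [← hcm]
    simp only [cm_eq, smul_eq_mul]
    have e2 : (∮ z in C(cc u, rad u), (W z - c) * ps N w z) =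
        (∮ z in C(cc u, rad u), W z * ps N w z) - c * ∮ z in C(cc u, rad u), ps N w z := by
      rw [← circleIntegral.integral_const_mul, ← circleIntegral.integral_sub i1 i2]
      refine circleIntegral.integral_congr hr fun z _ => ?_
      ring
    rw [e2]
    ring
  rw [e1, cm_eq]
  refine (circleIntegral.norm_two_pi_i_inv_smul_integral_le_of_norm_le_const hr
    (C := M * (G * 3 ^ u.length * w u)) fun z hz => ?_).trans ?_
  · have h1 := circ hz
    rw [norm_mul]
    have h2 : ‖ps N w z‖ ≤ G * 3 ^ u.length * w u := by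
      refine (hGB.ann u hu z (by rw [h1]; norm_num) (by rw [h1]; norm_num)).trans ?_
      gcongr
    exact mul_le_mul (hM z h1) h2 (norm_nonneg _) hM0
  · have h3 : rad u * (M * (G * 3 ^ u.length * w u)) = 77 / 100 * (M * G * w u) := by
      rw [← rad_mul u]; ring
    rw [h3]
    have : 0 ≤ M * G * w u := by positivity
    linarith

theorem f_cont {F : ℂ → ℂ} (hF : DifferentiableOn ℂ F squareCantorᶜ) {v : List D} :
    ContinuousOn F (sphere (cc v) (rad v)) := by
  intro z hz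
  have h1 : z ∉ squareCantor := NR_notMem (circ_NR (circ hz))
  exact (hF.differentiableAt
    (isClosed_squareCantor.isOpen_compl.mem_nhds h1)).continuousAt.continuousWithinAt

theorem near (hCMP : T_CMP) {N : ℕ} {w : List D → ℝ} {V CG G : ℝ} (hGB : GB N w V CG)
    (hG : CG ≤ G) (hG0 : 0 ≤ G) {v : List D} (hv : v.length ≤ N) {F : ℂ → ℂ}
    (hF : DifferentiableOn ℂ F squareCantorᶜ) {o : ℝ} (ho : 0 ≤ o)
    (hosc : ∀ x y, Psi v x ∈ nodeX → Psi v y ∈ nodeX → ‖F x - F y‖ ≤ o) {z : ℂ}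
    (hz : Psi v z ∈ nodeX) :
    ‖cm v (fun y => F y * ps N w y) / (w v : ℂ) - F z‖ ≤ G * o := by
  have hw : 0 < w v := hGB.pos v hv
  have h := cm_near hCMP hGB hG hG0 hv (f_cont hF) (F z) ho
    (fun y hy => hosc y z (NR_X (circ_NR hy)) hz)
  have hw' : (w v : ℂ) ≠ 0 := by exact_mod_cast hw.ne'
  have e : cm v (fun y => F y * ps N w y) / (w v : ℂ) - F z =
      (cm v (fun y => F y * ps N w y) - F z * (w v : ℂ)) / (w v : ℂ) := by
    field_simp
  rw [e, norm_div, Complex.norm_real, Real.norm_eq_abs, abs_of_pos hw, div_le_iff₀ hw]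
  linarith

/-! ### linear algebra -/

theorem sum_norm_le {n : ℕ} (F : Fin n → ℂ) {c : ℝ} (h : ∀ k, ‖F k‖ ≤ c) :
    ‖∑ k, F k‖ ≤ n * c := by
  refine (norm_sum_le _ _).trans ?_
  refine (Finset.sum_le_sum fun k _ => h k).trans ?_
  simp

/-- the denominator -/
noncomputable def den {n : ℕ} (x a : Fin n → ℂ) : ℂ := ∑ k, x k * (starRingEnd ℂ) (a k)

theorem den_low {n : ℕ} {δ e : ℝ} (hδ : 0 < δ) {x a : Fin n → ℂ}
    (hx : ∀ k, ‖x k‖ ≤ 1) (ha : ∀ k, ‖a k - x k‖ ≤ e) (hne : n * e ≤ δ ^ 2 / 8)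
    (hj : ∃ j, δ ≤ ‖x j‖) : δ ^ 2 / 2 ≤ ‖den x a‖ := by
  obtain ⟨j, hj⟩ := hj
  have e1 : den x a = ((∑ k, ‖x k‖ ^ 2 : ℝ) : ℂ) + ∑ k, x k * (starRingEnd ℂ) (a k - x k) := by
    unfold den
    push_cast
    rw [← Finset.sum_add_distrib]
    refine Finset.sum_congr rfl fun k _ => ?_
    rw [map_sub, ← Complex.mul_conj']
    ring
  have h1 : δ ^ 2 ≤ ∑ k, ‖x k‖ ^ 2 := by
    refine le_trans ?_ (Finset.single_le_sum (f := fun k => ‖x k‖ ^ 2)
      (fun k _ => by positivity) (Finset.mem_univ j))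
    gcongr
  have h2 : ‖∑ k, x k * (starRingEnd ℂ) (a k - x k)‖ ≤ n * e := by
    refine sum_norm_le _ fun k => ?_
    rw [norm_mul, RCLike.norm_conj]
    calc ‖x k‖ * ‖a k - x k‖ ≤ 1 * e := mul_le_mul (hx k) (ha k) (norm_nonneg _) zero_le_one
      _ = e := one_mul e
  have h3 : ‖((∑ k, ‖x k‖ ^ 2 : ℝ) : ℂ)‖ = ∑ k, ‖x k‖ ^ 2 := by
    rw [Complex.norm_real, Real.norm_eq_abs, abs_of_nonneg (by positivity)]
  have h4 := norm_sub_le (den x a) (∑ k, x k * (starRingEnd ℂ) (a k - x k))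
  have h5 : den x a - ∑ k, x k * (starRingEnd ℂ) (a k - x k) = ((∑ k, ‖x k‖ ^ 2 : ℝ) : ℂ) := by
    rw [e1]; ring
  rw [h5, h3] at h4
  nlinarith [sq_nonneg δ]

/-- The linear algebra of the cocycle. -/
theorem alg {n : ℕ} {δ e : ℝ} (hδ : 0 < δ) (x a b : Fin n → ℂ)
    (hx : ∀ k, ‖x k‖ ≤ 1) (ha : ∀ k, ‖a k - x k‖ ≤ e) (hb : ∀ k, ‖b k - x k‖ ≤ e)
    (he0 : 0 ≤ e) (he1 : e ≤ 1) (hne : n * e ≤ δ ^ 2 / 8) (hj : ∃ j, δ ≤ ‖x j‖) (i j : Fin n) :
    ‖(starRingEnd ℂ) (b i) / den x b * ((starRingEnd ℂ) (a j) / den x a) -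
      (starRingEnd ℂ) (b j) / den x b * ((starRingEnd ℂ) (a i) / den x a)‖ ≤ 32 * e / δ ^ 4 ∧
    ‖(starRingEnd ℂ) (b i) / den x b * ((starRingEnd ℂ) (a j) / den x a) -
      (starRingEnd ℂ) (b j) / den x b * ((starRingEnd ℂ) (a i) / den x a) -
      ((starRingEnd ℂ) (b i) * (starRingEnd ℂ) (a j) -
        (starRingEnd ℂ) (b j) * (starRingEnd ℂ) (a i)) / den a a ^ 2‖ ≤
      10240 * n ^ 2 * e ^ 2 / δ ^ 8 := by
  have hA : ∀ k, ‖a k‖ ≤ 2 := fun k => by
    have := norm_add_le (a k - x k) (x k)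
    rw [sub_add_cancel] at this
    linarith [ha k, hx k]
  have hB : ∀ k, ‖b k‖ ≤ 2 := fun k => by
    have := norm_add_le (b k - x k) (x k)
    rw [sub_add_cancel] at this
    linarith [hb k, hx k]
  have hba : ∀ k, ‖b k - a k‖ ≤ 2 * e := fun k => by
    have := norm_sub_le (b k - x k) (a k - x k)
    rw [sub_sub_sub_cancel_right] at this
    linarith [ha k, hb k]
  set Da := den x a with hDa
  set Db := den x b with hDb
  set s := den a a with hs
  have hDa1 : δ ^ 2 / 2 ≤ ‖Da‖ := den_low hδ hx ha hne hj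
  have hDb1 : δ ^ 2 / 2 ≤ ‖Db‖ := den_low hδ hx hb hne hj
  have hsDa : ‖s - Da‖ ≤ n * (2 * e) := by
    have e1 : s - Da = ∑ k, (a k - x k) * (starRingEnd ℂ) (a k) := by
      rw [hs, hDa]; unfold den
      rw [← Finset.sum_sub_distrib]
      exact Finset.sum_congr rfl fun k _ => by ring
    rw [e1]
    refine sum_norm_le _ fun k => ?_
    rw [norm_mul, RCLike.norm_conj, mul_comm 2 e]
    exact mul_le_mul (ha k) (hA k) (norm_nonneg _) he0
  have hsDb : ‖s - Db‖ ≤ n * (4 * e) := by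
    have e1 : s - Db = ∑ k, ((a k - x k) * (starRingEnd ℂ) (a k) -
        x k * (starRingEnd ℂ) (b k - a k)) := by
      rw [hs, hDb]; unfold den
      rw [← Finset.sum_sub_distrib]
      refine Finset.sum_congr rfl fun k _ => ?_
      rw [map_sub]; ring
    rw [e1]
    refine sum_norm_le _ fun k => ?_
    refine (norm_sub_le _ _).trans ?_
    rw [norm_mul, norm_mul, RCLike.norm_conj, RCLike.norm_conj]
    have h1 : ‖a k - x k‖ * ‖a k‖ ≤ e * 2 := mul_le_mul (ha k) (hA k) (norm_nonneg _) he0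
    have h2 : ‖x k‖ * ‖b k - a k‖ ≤ 1 * (2 * e) :=
      mul_le_mul (hx k) (hba k) (norm_nonneg _) zero_le_one
    linarith
  have hs1 : δ ^ 2 / 4 ≤ ‖s‖ := by
    have h1 := norm_sub_norm_le Da s
    rw [norm_sub_rev] at h1
    nlinarith
  have hs2 : ‖s‖ ≤ n * 4 := by
    rw [hs]; unfold den
    refine sum_norm_le _ fun k => ?_
    rw [norm_mul, RCLike.norm_conj]
    nlinarith [hA k, norm_nonneg (a k)]
  have hDb2 : ‖Db‖ ≤ n * 2 := by
    rw [hDb]; unfold den
    refine sum_norm_le _ fun k => ?_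
    rw [norm_mul, RCLike.norm_conj]
    nlinarith [hB k, hx k, norm_nonneg (b k), norm_nonneg (x k)]
  have hδ2 : 0 < δ ^ 2 := by positivity
  have pDa : 0 < ‖Da‖ := by linarith
  have pDb : 0 < ‖Db‖ := by linarith
  have ps0 : 0 < ‖s‖ := by linarith
  have nDa : Da ≠ 0 := norm_pos_iff.1 pDa
  have nDb : Db ≠ 0 := norm_pos_iff.1 pDb
  have ns : s ≠ 0 := norm_pos_iff.1 ps0
  set β : ℂ := (starRingEnd ℂ) (b i) * (starRingEnd ℂ) (a j) -
    (starRingEnd ℂ) (b j) * (starRingEnd ℂ) (a i) with hβ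
  have hβ1 : ‖β‖ ≤ 8 * e := by
    have e1 : β = (starRingEnd ℂ) (b i - a i) * (starRingEnd ℂ) (a j) -
        (starRingEnd ℂ) (b j - a j) * (starRingEnd ℂ) (a i) := by
      rw [hβ, map_sub, map_sub]; ring
    rw [e1]
    refine (norm_sub_le _ _).trans ?_
    rw [norm_mul, norm_mul, RCLike.norm_conj, RCLike.norm_conj, RCLike.norm_conj,
      RCLike.norm_conj]
    have h1 : ‖b i - a i‖ * ‖a j‖ ≤ 2 * e * 2 :=
      mul_le_mul (hba i) (hA j) (norm_nonneg _) (by positivity)
    have h2 : ‖b j - a j‖ * ‖a i‖ ≤ 2 * e * 2 :=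
      mul_le_mul (hba j) (hA i) (norm_nonneg _) (by positivity)
    linarith
  have e2 : (starRingEnd ℂ) (b i) / Db * ((starRingEnd ℂ) (a j) / Da) -
      (starRingEnd ℂ) (b j) / Db * ((starRingEnd ℂ) (a i) / Da) = β / (Db * Da) := by
    rw [hβ]; field_simp
  have hprod : δ ^ 4 / 4 ≤ ‖Db‖ * ‖Da‖ := by
    have := mul_le_mul hDb1 hDa1 (by positivity) pDb.le
    have e3 : δ ^ 2 / 2 * (δ ^ 2 / 2) = δ ^ 4 / 4 := by ring
    rwa [e3] at this
  have hsq : δ ^ 4 / 16 ≤ ‖s‖ ^ 2 := by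
    have := mul_le_mul hs1 hs1 (by positivity) ps0.le
    have e3 : δ ^ 2 / 4 * (δ ^ 2 / 4) = δ ^ 4 / 16 := by ring
    rw [e3] at this
    rw [sq]; exact this
  rw [e2]
  constructor
  · rw [norm_div, norm_mul]
    calc ‖β‖ / (‖Db‖ * ‖Da‖) ≤ (8 * e) / (δ ^ 4 / 4) := by gcongr
      _ = 32 * e / δ ^ 4 := by field_simp; ring
  · have e4 : β / (Db * Da) - β / s ^ 2 =
        β * (s * (s - Db) + Db * (s - Da)) / (Db * Da * s ^ 2) := by
      field_simp; ring
    rw [e4, norm_div, norm_mul, norm_mul, norm_mul, norm_pow]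
    have h5 : ‖s * (s - Db) + Db * (s - Da)‖ ≤ 20 * n ^ 2 * e := by
      refine (norm_add_le _ _).trans ?_
      rw [norm_mul, norm_mul]
      have h1 : ‖s‖ * ‖s - Db‖ ≤ n * 4 * (n * (4 * e)) :=
        mul_le_mul hs2 hsDb (norm_nonneg _) (by positivity)
      have h2 : ‖Db‖ * ‖s - Da‖ ≤ n * 2 * (n * (2 * e)) :=
        mul_le_mul hDb2 hsDa (norm_nonneg _) (by positivity)
      nlinarith
    calc ‖β‖ * ‖s * (s - Db) + Db * (s - Da)‖ / (‖Db‖ * ‖Da‖ * ‖s‖ ^ 2)
        ≤ (8 * e) * (20 * n ^ 2 * e) / (δ ^ 4 / 4 * (δ ^ 4 / 16)) := by gcongr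
      _ = 10240 * n ^ 2 * e ^ 2 / δ ^ 8 := by field_simp; ring

/-! ### local solutions of the library -/

theorem local_sol (n : ℕ) (δ : ℝ) (hδ : 0 < δ) : ∃ B : ℝ, 1 ≤ B ∧
    ∀ f : Fin n → ℂ → ℂ, Dat n δ f → ∃ g : Option (List D) → Fin n → ℂ → ℂ,
      (∀ R i, DifferentiableOn ℂ (g R i) (NR R)) ∧ (∀ R i, ∀ z ∈ NR R, ‖g R i z‖ ≤ B) ∧
      ∀ R, ∀ z ∈ NR R, ∑ j, f j z * g R j z = 1 := by
  obtain ⟨C1, hC1⟩ := node_corona n δ hδ
  obtain ⟨C2, hC2⟩ := exterior_corona (ρ := 72 / 100) (ρ' := 74 / 100) (by norm_num)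
    (by norm_num) n δ hδ
  refine ⟨max (max C1 C2) 1, le_max_right _ _, fun f hf => ?_⟩
  have hBC1 : C1 ≤ max (max C1 C2) 1 := (le_max_left _ _).trans (le_max_left _ _)
  have hBC2 : C2 ≤ max (max C1 C2) 1 := (le_max_right _ _).trans (le_max_left _ _)
  have hfd := hf.diff
  have hopE : IsOpen squareCantorᶜ := isClosed_squareCantor.isOpen_compl
  have hloc := fun v : List D => hC1 (fun j z => f j (Phi v z))
    (fun j z hz => by
      have h1 : DifferentiableAt ℂ (f j) (Phi v z) :=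
        (hfd j).differentiableAt (hopE.mem_nhds (Phi_notMem hz))
      exact (DifferentiableAt.comp (g := f j) (f := Phi v) z h1
        (differentiable_Phi v z)).differentiableWithinAt)
    (fun j z hz => hf.le j _ (Phi_notMem hz))
    (fun z hz => hf.ge _ (Phi_notMem hz))
  choose g hgd hgb hgs using hloc
  have hext : {z : ℂ | (72 / 100 : ℝ) < dist z ctr} ⊆ squareCantorᶜ := by
    intro z hz hE
    have h1 := squareCantor_dist' hE
    have h2 : (72 / 100 : ℝ) < dist z ctr := hz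
    linarith
  obtain ⟨h, hhd, hhb, hhs⟩ := hC2 ctr f (fun j => (hfd j).mono hext)
    (fun j z hz => hf.le j z (hext hz)) (fun z hz => hf.ge z (hext hz))
  let gR : Option (List D) → Fin n → ℂ → ℂ := fun R =>
    match R with
    | none => h
    | some v => fun i z => g v i (Psi v z)
  refine ⟨gR, ?_, ?_, ?_⟩
  · intro R i
    cases R with
    | none => exact hhd i
    | some v =>
      intro z hz
      have h1 : DifferentiableAt ℂ (g v i) (Psi v z) :=
        (hgd v i).differentiableAt (isOpen_nodeV.mem_nhds hz)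
      exact (DifferentiableAt.comp (g := g v i) (f := Psi v) z h1
        (differentiable_Psi v z)).differentiableWithinAt
  · intro R i z hz
    cases R with
    | none => exact (hhb i z hz).trans hBC2
    | some v => exact (hgb v i _ hz).trans hBC1
  · intro R z hz
    cases R with
    | none => exact hhs z hz
    | some v =>
      have := hgs v _ hz
      simp only [Phi_Psi] at this
      exact this

/-! ### the main construction -/

theorem constr (hCMP : T_CMP) (hADD : T_ADD) {n : ℕ} {δ CG G ε B : ℝ} (hδ : 0 < δ)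
    (hG : CG ≤ G) (hG1 : 1 ≤ G) (hε : 0 < ε) (hε1 : G * ε ≤ 1)
    (hε2 : n * (G * ε) ≤ δ ^ 2 / 8) (hB : 1 ≤ B) {N : ℕ} {w : List D → ℝ} {V : ℝ}
    {f : Fin n → ℂ → ℂ} {o : List D → ℝ} (hGB : GB N w V CG) (hf : Dat n δ f)
    (ho : ∀ p, 0 ≤ o p)
    (hosc : ∀ j p x y, Psi p x ∈ nodeX → Psi p y ∈ nodeX → ‖f j x - f j y‖ ≤ o p)
    {g₀ : Option (List D) → Fin n → ℂ → ℂ} (hgd₀ : ∀ R i, DifferentiableOn ℂ (g₀ R i) (NR R))
    (hgb₀ : ∀ R i, ∀ z ∈ NR R, ‖g₀ R i z‖ ≤ B)
    (hgs₀ : ∀ R, ∀ z ∈ NR R, ∑ j, f j z * g₀ R j z = 1) :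
    ∃ g : Option (List D) → Fin n → ℂ → ℂ, (∀ R i, DifferentiableOn ℂ (g R i) (NR R)) ∧
      (∀ R i, ∀ z ∈ NR R, ‖g R i z‖ ≤ B + 4 / δ ^ 2) ∧
      (∀ R, ∀ z ∈ NR R, ∑ j, f j z * g R j z = 1) ∧
      ∀ p : List D, p.length + 1 < N → ∀ i j,
        (∀ (d : D) (z : ℂ), z ∈ NR (some p) → z ∈ NR (some (p ++ [d])) →
          ‖g (some (p ++ [d])) i z * g (some p) j z -
            g (some (p ++ [d])) j z * g (some p) i z‖ ≤
          (2 * (B + 4 / δ ^ 2) ^ 2 / ε + 32 * G / δ ^ 4) * (o p + ∑ d : D, o (p ++ [d]))) ∧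
        ‖∑ d : D, cm (p ++ [d]) (fun z => (g (some (p ++ [d])) i z * g (some p) j z -
            g (some (p ++ [d])) j z * g (some p) i z) * ps N w z)‖ ≤
          (2 * (B + 4 / δ ^ 2) ^ 2 * G / ε ^ 2 + 10240 * n ^ 2 * G ^ 3 / δ ^ 8) * w p *
            (o p + ∑ d : D, o (p ++ [d])) ^ 2 := by
  classical
  have hG0 : 0 ≤ G := by linarith
  have hopE : IsOpen squareCantorᶜ := isClosed_squareCantor.isOpen_compl
  -- the means
  obtain ⟨a, ha⟩ : ∃ a : List D → Fin n → ℂ, ∀ v k,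
      a v k = cm v (fun y => f k y * ps N w y) / (w v : ℂ) := ⟨_, fun _ _ => rfl⟩
  have hnear : ∀ v : List D, v.length ≤ N → ∀ k z, Psi v z ∈ nodeX →
      ‖a v k - f k z‖ ≤ G * o v := by
    intro v hv k z hz
    rw [ha]
    exact near hCMP hGB hG hG0 hv (hf.diff k) (ho v) (hosc k v) hz
  obtain ⟨g, hg0, hgc, hgn⟩ : ∃ g : Option (List D) → Fin n → ℂ → ℂ, g none = g₀ none ∧
      (∀ v : List D, v.length < N → o v ≤ ε → ∀ i z, g (some v) i z =
        (starRingEnd ℂ) (a v i) / den (fun k => f k z) (a v)) ∧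
      (∀ v : List D, ¬ (v.length < N ∧ o v ≤ ε) → g (some v) = g₀ (some v)) := by
    refine ⟨fun R => match R with
      | none => g₀ none
      | some v => if v.length < N ∧ o v ≤ ε then
          (fun i z => (starRingEnd ℂ) (a v i) / den (fun k => f k z) (a v)) else g₀ (some v),
      rfl, ?_, ?_⟩
    · intro v h1 h2 i z
      simp only [h1, h2, and_self, if_true]
    · intro v h
      simp only [h, if_false]
  have hlow : ∀ v : List D, v.length < N → o v ≤ ε → ∀ z ∈ NR (some v),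
      δ ^ 2 / 2 ≤ ‖den (fun k => f k z) (a v)‖ := by
    intro v h1 h2 z hz
    have hzc : z ∈ squareCantorᶜ := NR_notMem hz
    refine den_low (e := G * ε) hδ (fun k => hf.le k z hzc) (fun k => ?_) hε2 (hf.ge z hzc)
    refine (hnear v h1.le k z (NR_X hz)).trans ?_
    gcongr
  have ha2 : ∀ v : List D, v.length < N → o v ≤ ε → ∀ z ∈ NR (some v), ∀ k, ‖a v k‖ ≤ 2 := by
    intro v h1 h2 z hz k
    have hzc : z ∈ squareCantorᶜ := NR_notMem hz
    have h3 := hnear v h1.le k z (NR_X hz)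
    have h4 : G * o v ≤ G * ε := by gcongr
    have h5 := norm_add_le (a v k - f k z) (f k z)
    rw [sub_add_cancel] at h5
    linarith [hf.le k z hzc]
  have hδ2 : 0 < δ ^ 2 := by positivity
  have hBB : 1 ≤ B + 4 / δ ^ 2 := by
    have : 0 < 4 / δ ^ 2 := by positivity
    linarith
  -- differentiability
  have hgd : ∀ R i, DifferentiableOn ℂ (g R i) (NR R) := by
    intro R i
    cases R with
    | none => rw [hg0]; exact hgd₀ none i
    | some v =>
      by_cases h : v.length < N ∧ o v ≤ ε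
      · have e : g (some v) i = fun z => (starRingEnd ℂ) (a v i) / den (fun k => f k z) (a v) :=
          funext fun z => hgc v h.1 h.2 i z
        rw [e]
        refine DifferentiableOn.div (differentiableOn_const _) ?_ ?_
        · unfold den
          refine DifferentiableOn.fun_sum fun k _ => ?_
          exact ((hf.diff k).mono fun z hz => NR_notMem hz).mul_const _
        · intro z hz h0
          have h1 := hlow v h.1 h.2 z hz
          rw [h0, norm_zero] at h1
          linarith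
      · rw [hgn v h]; exact hgd₀ _ i
  have hgb : ∀ R i, ∀ z ∈ NR R, ‖g R i z‖ ≤ B + 4 / δ ^ 2 := by
    intro R i z hz
    have h4 : 0 < 4 / δ ^ 2 := by positivity
    cases R with
    | none => rw [hg0]; exact (hgb₀ none i z hz).trans (by linarith)
    | some v =>
      by_cases h : v.length < N ∧ o v ≤ ε
      · rw [hgc v h.1 h.2, norm_div, RCLike.norm_conj]
        have h1 := hlow v h.1 h.2 z hz
        have h2 := ha2 v h.1 h.2 z hz i
        calc ‖a v i‖ / ‖den (fun k => f k z) (a v)‖ ≤ 2 / (δ ^ 2 / 2) := by gcongr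
          _ = 4 / δ ^ 2 := by field_simp; norm_num
          _ ≤ B + 4 / δ ^ 2 := by linarith
      · rw [hgn v h]; exact (hgb₀ _ i z hz).trans (by linarith)
  have hgs : ∀ R, ∀ z ∈ NR R, ∑ j, f j z * g R j z = 1 := by
    intro R z hz
    cases R with
    | none => rw [hg0]; exact hgs₀ none z hz
    | some v =>
      by_cases h : v.length < N ∧ o v ≤ ε
      · have h1 := hlow v h.1 h.2 z hz
        have h0 : den (fun k => f k z) (a v) ≠ 0 := norm_pos_iff.1 (by linarith)
        have e : ∑ j, f j z * g (some v) j z =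
            den (fun k => f k z) (a v) / den (fun k => f k z) (a v) := by
          conv_rhs => enter [1]; unfold den
          rw [Finset.sum_div]
          refine Finset.sum_congr rfl fun j _ => ?_
          rw [hgc v h.1 h.2, mul_div_assoc]
        rw [e, div_self h0]
      · rw [hgn v h]; exact hgs₀ _ z hz
  refine ⟨g, hgd, hgb, hgs, fun p hp i j => ?_⟩
  have hpN : p.length < N := by omega
  have huN : ∀ d : D, (p ++ [d]).length < N := fun d => by
    rw [List.length_append, List.length_singleton]; exact hp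
  set O : ℝ := o p + ∑ d : D, o (p ++ [d]) with hO
  have hsO : 0 ≤ ∑ d : D, o (p ++ [d]) := Finset.sum_nonneg fun d _ => ho _
  have hO0 : 0 ≤ O := by have := ho p; linarith
  have hOp : o p ≤ O := by linarith
  have hOd : ∀ d : D, o (p ++ [d]) ≤ O := fun d => by
    have h1 : o (p ++ [d]) ≤ ∑ d : D, o (p ++ [d]) :=
      Finset.single_le_sum (f := fun d : D => o (p ++ [d])) (fun d _ => ho _) (Finset.mem_univ d)
    have := ho p
    linarith
  have hwp : 0 < w p := hGB.pos p hpN.le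
  have hwd : ∀ d : D, 0 < w (p ++ [d]) := fun d => hGB.pos _ (huN d).le
  have hws : ∑ d : D, w (p ++ [d]) = w p := hGB.add p hpN
  -- trivial bound
  have htriv : ∀ (d : D) (z : ℂ), z ∈ NR (some p) → z ∈ NR (some (p ++ [d])) →
      ‖g (some (p ++ [d])) i z * g (some p) j z - g (some (p ++ [d])) j z * g (some p) i z‖ ≤
        2 * (B + 4 / δ ^ 2) ^ 2 := by
    intro d z h1 h2
    refine (norm_sub_le _ _).trans ?_
    rw [norm_mul, norm_mul]
    have b1 := mul_le_mul (hgb _ i z h2) (hgb _ j z h1) (norm_nonneg _) (by linarith)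
    have b2 := mul_le_mul (hgb _ j z h2) (hgb _ i z h1) (norm_nonneg _) (by linarith)
    nlinarith
  -- continuity on the circle
  have hcont : ∀ d : D, ContinuousOn (fun z => g (some (p ++ [d])) i z * g (some p) j z -
      g (some (p ++ [d])) j z * g (some p) i z) (sphere (cc (p ++ [d])) (rad (p ++ [d]))) := by
    intro d z hz
    have c1 := circ hz
    have m1 := circ_NR c1
    have m2 := circ_par c1
    have d1 : ∀ k, DifferentiableAt ℂ (g (some (p ++ [d])) k) z := fun k =>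
      (hgd _ k).differentiableAt ((isOpen_NR _).mem_nhds m1)
    have d2 : ∀ k, DifferentiableAt ℂ (g (some p) k) z := fun k =>
      (hgd _ k).differentiableAt ((isOpen_NR _).mem_nhds m2)
    exact (((d1 i).mul (d2 j)).sub ((d1 j).mul (d2 i))).continuousAt.continuousWithinAt
  have hM1 : 0 ≤ 2 * (B + 4 / δ ^ 2) ^ 2 := by positivity
  by_cases hc : O ≤ ε
  · -- calm case
    have hcp : o p ≤ ε := hOp.trans hc
    have hcd : ∀ d : D, o (p ++ [d]) ≤ ε := fun d => (hOd d).trans hc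
    have he0 : 0 ≤ G * O := by positivity
    have he1 : G * O ≤ 1 := le_trans (by gcongr) hε1
    have hne : n * (G * O) ≤ δ ^ 2 / 8 := le_trans (by gcongr) hε2
    have hal : ∀ (d : D) (z : ℂ), z ∈ NR (some p) → z ∈ NR (some (p ++ [d])) → _ :=
      fun d z h1 h2 => alg (e := G * O) hδ (fun k => f k z) (a p) (a (p ++ [d]))
        (fun k => hf.le k z (NR_notMem h1))
        (fun k => (hnear p hpN.le k z (NR_X h1)).trans (by gcongr))
        (fun k => (hnear _ (huN d).le k z (NR_X h2)).trans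
          (mul_le_mul_of_nonneg_left (hOd d) hG0))
        he0 he1 hne (hf.ge z (NR_notMem h1)) i j
    constructor
    · intro d z h1 h2
      have h3 := (hal d z h1 h2).1
      rw [hgc _ (huN d) (hcd d), hgc _ (huN d) (hcd d), hgc _ hpN hcp, hgc _ hpN hcp]
      refine h3.trans ?_
      have h4 : 32 * (G * O) / δ ^ 4 = 32 * G / δ ^ 4 * O := by ring
      have h5 : 0 ≤ 2 * (B + 4 / δ ^ 2) ^ 2 / ε * O := by positivity
      rw [h4, add_mul]
      linarith
    · -- the zero mean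
      have hmean : ∀ k, ∑ d : D, (w (p ++ [d]) : ℂ) * a (p ++ [d]) k = (w p : ℂ) * a p k := by
        intro k
        have hp' : (w p : ℂ) ≠ 0 := by exact_mod_cast hwp.ne'
        have e1 : (w p : ℂ) * a p k = cm p (fun y => f k y * ps N w y) := by
          rw [ha]; field_simp
        have e2 : ∀ d : D, (w (p ++ [d]) : ℂ) * a (p ++ [d]) k =
            cm (p ++ [d]) (fun y => f k y * ps N w y) := by
          intro d
          have hd' : (w (p ++ [d]) : ℂ) ≠ 0 := by exact_mod_cast (hwd d).ne'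
          rw [ha]; field_simp
        rw [e1, Finset.sum_congr rfl fun d _ => e2 d]
        symm
        refine hADD p _ ?_
        intro z hz
        have h1 : DifferentiableAt ℂ (f k) z :=
          (hf.diff k).differentiableAt (hopE.mem_nhds (NR_notMem (Nd_subset_NR _ hz)))
        exact (h1.mul (ps_diff fun q hq => charge_Nd hpN hq hz)).differentiableWithinAt
      set s : ℂ := den (a p) (a p) with hs
      have hzero : ∑ d : D, (((starRingEnd ℂ) (a (p ++ [d]) i) * (starRingEnd ℂ) (a p j) -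
          (starRingEnd ℂ) (a (p ++ [d]) j) * (starRingEnd ℂ) (a p i)) / s ^ 2) *
          (w (p ++ [d]) : ℂ) = 0 := by
        have hk : ∀ k, ∑ d : D, (w (p ++ [d]) : ℂ) * (starRingEnd ℂ) (a (p ++ [d]) k) =
            (w p : ℂ) * (starRingEnd ℂ) (a p k) := by
          intro k
          have := congrArg (starRingEnd ℂ) (hmean k)
          rw [map_sum, map_mul, Complex.conj_ofReal] at this
          rw [← this]
          refine Finset.sum_congr rfl fun d _ => ?_
          rw [map_mul, Complex.conj_ofReal]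
        have e : ∀ d : D, (((starRingEnd ℂ) (a (p ++ [d]) i) * (starRingEnd ℂ) (a p j) -
          (starRingEnd ℂ) (a (p ++ [d]) j) * (starRingEnd ℂ) (a p i)) / s ^ 2) *
          (w (p ++ [d]) : ℂ) = (w (p ++ [d]) : ℂ) * (starRingEnd ℂ) (a (p ++ [d]) i) *
            ((starRingEnd ℂ) (a p j) / s ^ 2) -
            (w (p ++ [d]) : ℂ) * (starRingEnd ℂ) (a (p ++ [d]) j) *
            ((starRingEnd ℂ) (a p i) / s ^ 2) := fun d => by ring
        rw [Finset.sum_congr rfl fun d _ => e d, Finset.sum_sub_distrib, ← Finset.sum_mul,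
          ← Finset.sum_mul, hk, hk]
        ring
      have hM2 : 0 ≤ 10240 * (n : ℝ) ^ 2 * (G * O) ^ 2 / δ ^ 8 := by positivity
      have hone : ∀ d : D, ‖cm (p ++ [d]) (fun z => (g (some (p ++ [d])) i z * g (some p) j z -
            g (some (p ++ [d])) j z * g (some p) i z) * ps N w z) -
          (((starRingEnd ℂ) (a (p ++ [d]) i) * (starRingEnd ℂ) (a p j) -
          (starRingEnd ℂ) (a (p ++ [d]) j) * (starRingEnd ℂ) (a p i)) / s ^ 2) *
          (w (p ++ [d]) : ℂ)‖ ≤
          10240 * (n : ℝ) ^ 2 * (G * O) ^ 2 / δ ^ 8 * G * w (p ++ [d]) := by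
        intro d
        refine cm_near hCMP hGB hG hG0 (huN d).le (hcont d) _ hM2 fun z hz => ?_
        have m1 := circ_NR hz
        have m2 := circ_par hz
        rw [hgc _ (huN d) (hcd d), hgc _ (huN d) (hcd d), hgc _ hpN hcp, hgc _ hpN hcp]
        exact (hal d z m2 m1).2
      have e3 : ∑ d : D, cm (p ++ [d]) (fun z => (g (some (p ++ [d])) i z * g (some p) j z -
            g (some (p ++ [d])) j z * g (some p) i z) * ps N w z) =
          ∑ d : D, (cm (p ++ [d]) (fun z => (g (some (p ++ [d])) i z * g (some p) j z -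
            g (some (p ++ [d])) j z * g (some p) i z) * ps N w z) -
          (((starRingEnd ℂ) (a (p ++ [d]) i) * (starRingEnd ℂ) (a p j) -
          (starRingEnd ℂ) (a (p ++ [d]) j) * (starRingEnd ℂ) (a p i)) / s ^ 2) *
          (w (p ++ [d]) : ℂ)) := by
        rw [Finset.sum_sub_distrib, hzero, sub_zero]
      rw [e3]
      refine (norm_sum_le _ _).trans ((Finset.sum_le_sum fun d _ => hone d).trans ?_)
      rw [← Finset.mul_sum, hws]
      have h6 : 10240 * (n : ℝ) ^ 2 * (G * O) ^ 2 / δ ^ 8 * G * w p =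
          10240 * n ^ 2 * G ^ 3 / δ ^ 8 * w p * O ^ 2 := by ring
      have h7 : 0 ≤ 2 * (B + 4 / δ ^ 2) ^ 2 * G / ε ^ 2 * w p * O ^ 2 := by positivity
      rw [h6, add_mul, add_mul]
      linarith
  · -- large oscillation
    have hc' : ε ≤ O := (not_le.1 hc).le
    have hOε : 1 ≤ O / ε := (one_le_div hε).2 hc'
    constructor
    · intro d z h1 h2
      refine (htriv d z h1 h2).trans ?_
      have h3 : 2 * (B + 4 / δ ^ 2) ^ 2 * 1 ≤ 2 * (B + 4 / δ ^ 2) ^ 2 * (O / ε) := by gcongr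
      have h4 : 2 * (B + 4 / δ ^ 2) ^ 2 * (O / ε) = 2 * (B + 4 / δ ^ 2) ^ 2 / ε * O := by ring
      have h5 : 0 ≤ 32 * G / δ ^ 4 * O := by positivity
      rw [add_mul]
      linarith
    · have hone : ∀ d : D, ‖cm (p ++ [d]) (fun z => (g (some (p ++ [d])) i z * g (some p) j z -
            g (some (p ++ [d])) j z * g (some p) i z) * ps N w z)‖ ≤
          2 * (B + 4 / δ ^ 2) ^ 2 * G * w (p ++ [d]) := by
        intro d
        have h := cm_near hCMP hGB hG hG0 (huN d).le (hcont d) 0 hM1 fun z hz => by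
          rw [sub_zero]
          exact htriv d z (circ_par hz) (circ_NR hz)
        rwa [zero_mul, sub_zero] at h
      refine (norm_sum_le _ _).trans ((Finset.sum_le_sum fun d _ => hone d).trans ?_)
      rw [← Finset.mul_sum, hws]
      have h2 : 1 ≤ (O / ε) ^ 2 := one_le_pow₀ hOε
      have h3 : 2 * (B + 4 / δ ^ 2) ^ 2 * G * w p * 1 ≤
          2 * (B + 4 / δ ^ 2) ^ 2 * G * w p * (O / ε) ^ 2 := by gcongr
      have h4 : 2 * (B + 4 / δ ^ 2) ^ 2 * G * w p * (O / ε) ^ 2 =
          2 * (B + 4 / δ ^ 2) ^ 2 * G / ε ^ 2 * w p * O ^ 2 := by ring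
      have h5 : 0 ≤ 10240 * (n : ℝ) ^ 2 * G ^ 3 / δ ^ 8 * w p * O ^ 2 := by positivity
      rw [add_mul, add_mul]
      linarith

end SLF_

open SLF_ in
/-- COE-SLF. -/
theorem p_SLF (hCMP : T_CMP) (hADD : T_ADD) : T_SLF := by
  intro n δ CG hδ
  obtain ⟨B, hB1, hB⟩ := local_sol n δ hδ
  set G : ℝ := |CG| + 1 with hGdef
  have hG1 : 1 ≤ G := by have := abs_nonneg CG; linarith
  have hGC : CG ≤ G := by have := le_abs_self CG; linarith
  have hG0 : 0 < G := by linarith
  have hn0 : (0 : ℝ) ≤ n := Nat.cast_nonneg n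
  have hδ2 : 0 < δ ^ 2 := by positivity
  set m : ℝ := min 1 (δ ^ 2 / 8) with hm
  have hm0 : 0 < m := lt_min one_pos (by positivity)
  have hm1 : m ≤ 1 := min_le_left _ _
  have hm2 : m ≤ δ ^ 2 / 8 := min_le_right _ _
  set ε : ℝ := m / ((n + 1) * G) with hεdef
  have hε : 0 < ε := by positivity
  have hGε : G * ε = m / (n + 1) := by rw [hεdef]; field_simp
  have hε1 : G * ε ≤ 1 := by
    rw [hGε, div_le_one (by positivity)]
    linarith
  have hε2 : n * (G * ε) ≤ δ ^ 2 / 8 := by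
    rw [hGε]
    refine le_trans ?_ hm2
    rw [← mul_div_assoc, div_le_iff₀ (by positivity)]
    nlinarith
  set K1 : ℝ := 2 * (B + 4 / δ ^ 2) ^ 2 / ε + 32 * G / δ ^ 4 with hK1
  set K2 : ℝ := 2 * (B + 4 / δ ^ 2) ^ 2 * G / ε ^ 2 + 10240 * n ^ 2 * G ^ 3 / δ ^ 8 with hK2
  have hK10 : 0 ≤ K1 := by positivity
  have hK20 : 0 ≤ K2 := by positivity
  have hK00 : 0 < B + 4 / δ ^ 2 := by positivity
  refine ⟨(B + 4 / δ ^ 2) + K1 + K2, by positivity, fun N w V f o hN hGB hDat ho hosc => ?_⟩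
  obtain ⟨g₀, hgd₀, hgb₀, hgs₀⟩ := hB f hDat
  obtain ⟨g, h1, h2, h3, h4⟩ := constr hCMP hADD hδ hGC hG1 hε hε1 hε2 hB1 hGB hDat ho hosc
    hgd₀ hgb₀ hgs₀
  refine ⟨g, h1, fun R i z hz => (h2 R i z hz).trans (by linarith), h3, fun p hp i j => ?_⟩
  have hO0 : 0 ≤ o p + ∑ d : D, o (p ++ [d]) := add_nonneg (ho p)
    (Finset.sum_nonneg fun d _ => ho _)
  have hwp : 0 < w p := hGB.pos p (by omega)
  refine ⟨fun d z hz hz' => ((h4 p hp i j).1 d z hz hz').trans ?_, (h4 p hp i j).2.trans ?_⟩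
  · exact mul_le_mul_of_nonneg_right (by linarith) hO0
  · have : K2 ≤ (B + 4 / δ ^ 2) + K1 + K2 := by linarith
    gcongr

end Pool.Agent.CorE
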