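import Pool.Agent.CorE.Targets

/-!
# COE, block GEO: positions of the centres
-/

set_option autoImplicit false

namespace Pool.Agent.CorE

open Complex Metric Set Filter Topology MeasureTheory
open Pool.Corona91698f
open scoped Real

namespace GEO_

theorem near (x : List D) :
    dist (Phi x ctr) ctr ≤ 7073 / 10000 * (1 - (1 / 3) ^ x.length) := by
  induction x with
  | nil =>
    rw [Phi_nil, dist_self, List.length_nil, pow_zero]
    norm_num
  | cons d x ih =>
    rw [Phi_cons, List.length_cons, pow_succ]
    have h1 := dist_triangle (phi d (Phi x ctr)) (phi d ctr) ctr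
    have h2 := dist_phi' d (Phi x ctr) ctr
    have h3 := dist_phi_ctr d
    linarith

theorem keep (x : List D) {z : ℂ} (hz : 1 ≤ dist z ctr) : 1 ≤ dist (Psi x z) ctr := by
  induction x generalizing z with
  | nil => simpa using hz
  | cons d x ih =>
    rw [Psi_cons]
    have h1 := dist_psi_ge d z
    exact ih (by linarith)

theorem pow_le_one' (n : ℕ) : ((1 : ℝ) / 3) ^ n ≤ 1 :=
  pow_le_one₀ (by norm_num) (by norm_num)

theorem near_lt (x : List D) : dist (Phi x ctr) ctr < 1 := by
  have h1 := near x
  have h2 : (0 : ℝ) < (1 / 3) ^ x.length := by positivity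
  linarith

theorem far (v : List D) : ∀ q : List D, v.length ≤ q.length → ¬ v <+: q →
    1 ≤ dist (Psi v (Phi q ctr)) ctr := by
  induction v with
  | nil =>
    intro q _ h
    exact absurd (List.nil_prefix) h
  | cons d v ih =>
    intro q hl h
    cases q with
    | nil => simp at hl
    | cons d' q =>
      rw [Psi_cons, Phi_cons]
      by_cases hd : d = d'
      · subst hd
        rw [psi_phi]
        refine ih q (by simpa using hl) fun h' => h ?_
        exact (List.cons_prefix_cons).2 ⟨rfl, h'⟩
      · refine keep v ?_
        by_contra hlt
        push Not at hlt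
        refine hd (psi_disj hlt ?_)
        rw [psi_phi]
        exact near_lt q

theorem sep (q : List D) : ∀ q' : List D, q.length = q'.length → q ≠ q' →
    2 * (1 / 3 : ℝ) ^ q.length ≤ dist (Phi q ctr) (Phi q' ctr) := by
  induction q with
  | nil =>
    intro q' hl h
    exact absurd (List.length_eq_zero_iff.1 hl.symm).symm h
  | cons d x ih =>
    intro q' hl h
    cases q' with
    | nil => simp at hl
    | cons d' x' =>
      have hl' : x.length = x'.length := by simpa using hl
      rw [Phi_cons, Phi_cons, List.length_cons, pow_succ]
      by_cases hd : d = d'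
      · subst hd
        have hx : x ≠ x' := fun hx => h (by rw [hx])
        have h1 := ih x' hl' hx
        rw [dist_phi']
        linarith
      · have h1 := dist_phi_phi hd
        have h2 := dist_phi' d (Phi x ctr) ctr
        have h3 := dist_phi' d' (Phi x' ctr) ctr
        have h4 := near x
        have h5 := near x'
        rw [← hl'] at h5
        have h6 := dist_triangle4 (phi d ctr) (phi d (Phi x ctr)) (phi d' (Phi x' ctr)) (phi d' ctr)
        rw [dist_comm (phi d ctr) (phi d (Phi x ctr))] at h6
        have h7 := pow_le_one' x.length
        linarith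

end GEO_

open GEO_ in
/-- **GEO**: positions of the centres -/
theorem p_GEO : T_GEO := by
  intro N
  refine ⟨⟨by positivity, ?_⟩, ?_⟩
  · intro q hq q' hq' hne
    have h1 := mem_lv.1 hq
    have h2 := mem_lv.1 hq'
    have h3 := sep q q' (by rw [h1, h2]) hne
    rw [h1] at h3
    exact h3
  · intro v q hv hq
    refine ⟨?_, fun h => far v q (by rw [hq]; exact hv) h⟩
    rintro ⟨x, rfl⟩
    unfold cc
    rw [Phi_append, Psi_Phi]
    have h1 := near x
    have h2 : N - v.length = x.length := by
      rw [List.length_append] at hq
      omega
    rw [h2]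
    exact h1

end Pool.Agent.CorE
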