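import Pool.Agent.CorE.Targets

/-!
# Passage to the limit (block LIM)

Project COE (helper24), block by helper92.
-/

set_option autoImplicit false

namespace Pool.Agent.CorE

open Complex Metric Set Filter Topology MeasureTheory
open Pool.Corona91698f
open scoped Real

namespace LIM_

/-! ### limits along an ultrafilter -/

theorem lim_exists {E : Type} [NormedAddCommGroup E] [ProperSpace E] (U : Ultrafilter ℕ)
    {a : ℕ → E} {M : ℝ} (h : ∀ᶠ N in (U : Filter ℕ), ‖a N‖ ≤ M) :
    ∃ l, Tendsto a U (𝓝 l) := by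
  have h1 : closedBall (0 : E) M ∈ (U.map a) := by
    show ∀ᶠ N in (U : Filter ℕ), a N ∈ closedBall (0 : E) M
    filter_upwards [h] with N hN
    exact mem_closedBall_zero_iff.2 hN
  obtain ⟨l, _, hl⟩ := (isCompact_closedBall (0 : E) M).ultrafilter_le_nhds' (U.map a) h1
  exact ⟨l, hl⟩

/-- Pointwise limits of uniformly bounded holomorphic functions. -/
theorem lim_hol {Φ : Filter ℕ} [NeBot Φ] {V : Set ℂ} (hV : IsOpen V) {F : ℕ → ℂ → ℂ}
    {g : ℂ → ℂ} {M : ℝ} (hd : ∀ᶠ N in Φ, DifferentiableOn ℂ (F N) V)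
    (hb : ∀ᶠ N in Φ, ∀ z ∈ V, ‖F N z‖ ≤ M)
    (hg : ∀ z ∈ V, Tendsto (fun N => F N z) Φ (𝓝 (g z))) : DifferentiableOn ℂ g V := by
  have hloc : TendstoLocallyUniformlyOn F g Φ V := by
    rw [Metric.tendstoLocallyUniformlyOn_iff]
    intro ε hε x hx
    obtain ⟨r, hr, hrV⟩ := Metric.isOpen_iff.1 hV x hx
    -- the Lipschitz bound
    have hM : 0 ≤ M := by
      obtain ⟨N, hN⟩ := hb.exists
      exact (norm_nonneg _).trans (hN x hx)
    have hlip : ∀ᶠ N in Φ, ∀ y ∈ ball x (r / 4), ‖F N y - F N x‖ ≤ (4 * M / r) * ‖y - x‖ := by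
      filter_upwards [hd, hb] with N hN1 hN2
      intro y hy
      have hdd : ∀ u ∈ ball x (r / 4), DifferentiableAt ℂ (F N) u := fun u hu =>
        hN1.differentiableAt (hV.mem_nhds (hrV (ball_subset_ball (by linarith) hu)))
      refine Convex.norm_image_sub_le_of_norm_deriv_le (s := ball x (r / 4)) hdd ?_
        (convex_ball _ _) (mem_ball_self (by linarith)) hy
      intro u hu
      have hsub : closedBall u (r / 4) ⊆ V := by
        intro v hv
        apply hrV
        rw [mem_closedBall] at hv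
        rw [mem_ball] at hu ⊢
        have := dist_triangle v u x
        linarith
      have := Complex.norm_deriv_le_of_forall_mem_sphere_norm_le (c := u) (R := r / 4) (C := M)
        (f := F N) (by linarith) ((hN1.mono hsub).diffContOnCl_ball (le_refl _)) (by
          intro v hv
          exact hN2 v (hsub (sphere_subset_closedBall hv)))
      calc ‖deriv (F N) u‖ ≤ M / (r / 4) := this
        _ = 4 * M / r := by field_simp
    set L : ℝ := 4 * M / r + 1 with hL
    have hL0 : 0 < L := by positivity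
    have hlip' : ∀ᶠ N in Φ, ∀ y ∈ ball x (r / 4), ‖F N y - F N x‖ ≤ L * ‖y - x‖ := by
      filter_upwards [hlip] with N hN y hy
      refine (hN y hy).trans (mul_le_mul_of_nonneg_right ?_ (norm_nonneg _))
      rw [hL]
      linarith
    have hlipg : ∀ y ∈ ball x (r / 4), ‖g y - g x‖ ≤ L * ‖y - x‖ := by
      intro y hy
      have hyV : y ∈ V := hrV (ball_subset_ball (by linarith) hy)
      refine le_of_tendsto ((hg y hyV).sub (hg x hx)).norm ?_
      filter_upwards [hlip'] with N hN
      exact hN y hy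
    refine ⟨ball x (min (r / 4) (ε / (4 * L))), mem_nhdsWithin_of_mem_nhds
      (ball_mem_nhds x (lt_min (by linarith) (by positivity))), ?_⟩
    have h0 : ∀ᶠ N in Φ, ‖g x - F N x‖ < ε / 4 := by
      have := Metric.tendsto_nhds.1 (hg x hx) (ε / 4) (by linarith)
      filter_upwards [this] with N hN
      rw [← dist_eq_norm, dist_comm]
      exact hN
    filter_upwards [h0, hlip'] with N hN1 hN2 y hy
    have hy1 : y ∈ ball x (r / 4) := ball_subset_ball (min_le_left _ _) hy
    have hy2 : ‖y - x‖ < ε / (4 * L) := by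
      have := ball_subset_ball (min_le_right (r / 4) (ε / (4 * L))) hy
      rwa [mem_ball, dist_eq_norm] at this
    have hy3 : L * ‖y - x‖ < ε / 4 := by
      calc L * ‖y - x‖ < L * (ε / (4 * L)) := mul_lt_mul_of_pos_left hy2 hL0
        _ = ε / 4 := by field_simp
    have e1 := hlipg y hy1
    have e2 := hN2 y hy1
    rw [dist_eq_norm]
    have e3 : g y - F N y = (g y - g x) + ((g x - F N x) - (F N y - F N x)) := by ring
    rw [e3]
    have e4 := norm_add_le (g y - g x) ((g x - F N x) - (F N y - F N x))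
    have e5 := norm_sub_le (g x - F N x) (F N y - F N x)
    linarith
  exact hloc.differentiableOn hd hV

/-- Pointwise limits of positive harmonic functions. -/
theorem lim_harm (U : Ultrafilter ℕ) {V : Set ℂ} (hV : IsOpen V) {h : ℕ → ℂ → ℝ}
    {u : ℂ → ℝ} (hh : ∀ᶠ N in (U : Filter ℕ), InnerProductSpace.HarmonicOnNhd (h N) V)
    (hb : ∀ᶠ N in (U : Filter ℕ), ∀ z ∈ V, 0 ≤ h N z)
    (hu : ∀ z ∈ V, Tendsto (fun N => h N z) U (𝓝 (u z))) :
    InnerProductSpace.HarmonicOnNhd u V := by
  intro x hx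
  obtain ⟨r, hr, hrV⟩ := Metric.isOpen_iff.1 hV x hx
  have hx0 : x ∈ ball x r := mem_ball_self hr
  -- holomorphic functions with the modulus `exp (- h N)`
  have hE : ∀ N, ∃ F : ℕ → ℂ → ℂ, InnerProductSpace.HarmonicOnNhd (h N) V →
      DifferentiableOn ℂ (F N) (ball x r) ∧ ∀ z ∈ ball x r, ‖F N z‖ = Real.exp (- h N z) := by
    intro N
    by_cases hN : InnerProductSpace.HarmonicOnNhd (h N) V
    · obtain ⟨F, hF1, hF2⟩ :=
        InnerProductSpace.HarmonicOnNhd.exists_analyticOnNhd_ball_re_eq (hN.mono hrV)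
      refine ⟨fun _ z => Complex.exp (- F z), fun _ => ⟨?_, fun z hz => ?_⟩⟩
      · exact (hF1.differentiableOn.neg).cexp
      · have h2 : (F z).re = h N z := hF2 hz
        rw [Complex.norm_exp, Complex.neg_re, h2]
    · exact ⟨fun _ _ => 0, fun h => absurd h hN⟩
  choose E hE using hE
  have hEd : ∀ᶠ N in (U : Filter ℕ), DifferentiableOn ℂ (E N N) (ball x r) := by
    filter_upwards [hh] with N hN
    exact (hE N hN).1
  have hEn : ∀ᶠ N in (U : Filter ℕ), ∀ z ∈ ball x r, ‖E N N z‖ = Real.exp (- h N z) := by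
    filter_upwards [hh] with N hN
    exact (hE N hN).2
  have hEb : ∀ᶠ N in (U : Filter ℕ), ∀ z ∈ ball x r, ‖E N N z‖ ≤ 1 := by
    filter_upwards [hEn, hb] with N hN1 hN2 z hz
    rw [hN1 z hz, Real.exp_le_one_iff]
    have := hN2 z (hrV hz)
    linarith
  have hlim : ∀ z, ∃ l, z ∈ ball x r → Tendsto (fun N => E N N z) U (𝓝 l) := by
    intro z
    by_cases hz : z ∈ ball x r
    · obtain ⟨l, hl⟩ := lim_exists U (a := fun N => E N N z) (M := 1) (by
        filter_upwards [hEb] with N hN
        exact hN z hz)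
      exact ⟨l, fun _ => hl⟩
    · exact ⟨0, fun h => absurd h hz⟩
  choose g hg using hlim
  have hgd : DifferentiableOn ℂ g (ball x r) :=
    lim_hol isOpen_ball (F := fun N => E N N) hEd hEb hg
  have hgn : ∀ z ∈ ball x r, ‖g z‖ = Real.exp (- u z) := by
    intro z hz
    have h1 : Tendsto (fun N => ‖E N N z‖) U (𝓝 ‖g z‖) := (hg z hz).norm
    have h2 : Tendsto (fun N => Real.exp (- h N z)) U (𝓝 (Real.exp (- u z))) :=
      (Real.continuous_exp.tendsto _).comp (hu z (hrV hz)).neg
    refine tendsto_nhds_unique h1 (h2.congr' ?_)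
    filter_upwards [hEn] with N hN
    exact (hN z hz).symm
  have hga : AnalyticAt ℂ g x := hgd.analyticAt (ball_mem_nhds x hr)
  have hg0 : g x ≠ 0 := by
    intro h0
    have := hgn x hx0
    rw [h0, norm_zero] at this
    exact (Real.exp_pos _).ne this
  have h3 := (hga.harmonicAt_log_norm hg0).neg
  refine (InnerProductSpace.harmonicAt_congr_nhds ?_).1 h3
  filter_upwards [ball_mem_nhds x hr] with z hz
  simp [hgn z hz]

/-! ### geometry -/

/-- depth of a node -/
def dp : Option (List D) → ℕ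
  | none => 0
  | some v => v.length

theorem Nd_Om {R : Option (List D)} {N : ℕ} (hN : dp R + 2 ≤ N) {z : ℂ} (hz : z ∈ Nd R) :
    z ∈ Om N := by
  intro q hq
  rw [mem_lv] at hq
  by_contra hcon
  push Not at hcon
  rcases List.eq_nil_or_concat q with rfl | ⟨q', e, hqe⟩
  · simp at hq
    omega
  rw [List.concat_eq_append] at hqe
  subst hqe
  have h1 := near_append (u := q') (v := [e]) (z := z) (by simp) (by linarith)
  have h2 := Nd_not_anc (v := q') hz (by
    intro h
    have hl : q'.length + 1 = N := by simpa using hq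
    cases R with
    | none => exact h
    | some v =>
      have h3 : q' <+: v := h
      have := h3.length_le
      simp only [dp] at hN
      omega)
  linarith

theorem Nd_RN (hNIN : T_NIN) {R : Option (List D)} {N : ℕ} (hN : dp R + 2 ≤ N) {z : ℂ}
    (hz : z ∈ Nd R) : z ∈ RN N := by
  cases R with
  | none =>
    have h : 76 / 100 < dist z ctr := hz
    exact (hNIN N).2.2 z (by linarith)
  | some v =>
    obtain ⟨h1, h2⟩ := hz
    simp only [dp] at hN
    exact (hNIN N).1 v (by omega) z (by linarith) fun d => by have := h2 d; linarith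

theorem Nd_bd {C : ℝ} {N : ℕ} {w : List D → ℝ} {V : ℝ}
    (h1 : ∀ p : List D, p.length < N → ∀ z, Psi p z ∈ XH → gr N w V z ≤ C ^ (p.length + 1) * V)
    (h2 : ∀ z, 87 / 100 ≤ dist z ctr → gr N w V z ≤ C * V)
    {R : Option (List D)} (hN : dp R + 2 ≤ N) {z : ℂ} (hz : z ∈ Nd R) :
    gr N w V z ≤ C ^ (dp R + 1) * V := by
  cases R with
  | none =>
    have h : 76 / 100 < dist z ctr := hz
    rcases le_or_gt (87 / 100) (dist z ctr) with h3 | h3
    · simpa [dp] using h2 z h3
    · refine h1 [] (by simp; omega) z ⟨h3.le, fun d => ?_⟩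
      have := dist_psi_ge d z
      simp only [Psi_nil]
      linarith
  | some v =>
    obtain ⟨h3, h4⟩ := hz
    simp only [dp] at hN
    exact h1 v (by omega) z ⟨by linarith, fun d => by have := h4 d; linarith⟩

theorem RN_notMem {N : ℕ} {z : ℂ} (hz : z ∈ RN N) : ∀ q ∈ lv N, z ≠ cc q := by
  intro q hq h
  have h1 : (1 / 3 : ℝ) ^ N / 10 ≤ dist z (cc q) := hz q hq
  rw [h, dist_self] at h1
  have h2 : (0 : ℝ) < (1 / 3) ^ N / 10 := by positivity
  linarith

end LIM_

open LIM_ in
theorem p_LIM (hGRW : T_GRW) (hLOG : T_LOG) (hNIN : T_NIN) : T_LIM := by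
  intro hFIN n δ hδ
  obtain ⟨c, C, hc, hC, hF⟩ := hFIN n δ hδ
  obtain ⟨Cg, hCg, hG⟩ := hGRW
  refine ⟨c, 50 * (Cg * C) + C, hc, by positivity, fun f hf => ?_⟩
  choose! w V G hV hw hnn hGd hGs hGe using hF f hf
  -- the ultrafilter
  obtain ⟨U, hU⟩ : ∃ U : Ultrafilter ℕ, (U : Filter ℕ) ≤ atTop :=
    ⟨Ultrafilter.of atTop, Ultrafilter.of_le atTop⟩
  have hev : ∀ k : ℕ, ∀ᶠ N in (U : Filter ℕ), k ≤ N := fun k => hU (eventually_ge_atTop k)
  have hpos : ∀ N z, 2 ≤ N → z ∈ RN N → 0 ≤ gr N (w N) (V N) z := fun N z hN hz =>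
    hnn N hN z hz
  set u' : ℕ → ℂ → ℝ := fun N z => 50 * gr N (w N) (V N) z + C with hu'
  have hgrw : ∀ N, 2 ≤ N →
      (∀ p : List D, p.length < N → ∀ z, Psi p z ∈ XH →
        gr N (w N) (V N) z ≤ Cg ^ (p.length + 1) * V N) ∧
      ∀ z, 87 / 100 ≤ dist z ctr → gr N (w N) (V N) z ≤ Cg * V N := fun N hN =>
    hG N (w N) (V N) (by omega) (hnn N hN) (hw N hN)
  -- bounds on the nodes
  have hub : ∀ (R : Option (List D)) (N : ℕ), dp R + 2 ≤ N → ∀ z ∈ Nd R,
      0 ≤ u' N z ∧ u' N z ≤ 50 * (Cg ^ (dp R + 1) * C) + C := by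
    intro R N hN z hz
    have hN2 : 2 ≤ N := by omega
    have h1 := hpos N z hN2 (Nd_RN hNIN hN hz)
    have h2 := Nd_bd (hgrw N hN2).1 (hgrw N hN2).2 hN hz
    have h3 : Cg ^ (dp R + 1) * V N ≤ Cg ^ (dp R + 1) * C :=
      mul_le_mul_of_nonneg_left (hV N hN2) (by positivity)
    simp only [hu']
    constructor <;> linarith
  have hGb : ∀ (R : Option (List D)) (N : ℕ), dp R + 2 ≤ N → ∀ z ∈ Nd R, ∀ j,
      ‖G N j z‖ ≤ (50 * (Cg ^ (dp R + 1) * C) + C) / c := by
    intro R N hN z hz j
    have hN2 : 2 ≤ N := by omega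
    have h1 := hGe N hN2 j z (Nd_Om hN hz)
    have h2 := (hub R N hN z hz).2
    have h3 := Real.add_one_le_exp (c * ‖G N j z‖)
    simp only [hu'] at h2
    rw [le_div_iff₀ hc]
    linarith
  -- the limits
  have hulim : ∀ z, ∃ l, z ∉ squareCantor → Tendsto (fun N => u' N z) U (𝓝 l) := by
    intro z
    by_cases hz : z ∈ squareCantor
    · exact ⟨0, fun h => absurd hz h⟩
    obtain ⟨R, hR⟩ := Nd_cover hz
    obtain ⟨l, hl⟩ := lim_exists U (a := fun N => u' N z)
      (M := 50 * (Cg ^ (dp R + 1) * C) + C) (by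
        filter_upwards [hev (dp R + 2)] with N hN
        have := hub R N hN z hR
        rw [Real.norm_of_nonneg this.1]
        exact this.2)
    exact ⟨l, fun _ => hl⟩
  choose u hu using hulim
  have hglim : ∀ j z, ∃ l, z ∉ squareCantor → Tendsto (fun N => G N j z) U (𝓝 l) := by
    intro j z
    by_cases hz : z ∈ squareCantor
    · exact ⟨0, fun h => absurd hz h⟩
    obtain ⟨R, hR⟩ := Nd_cover hz
    obtain ⟨l, hl⟩ := lim_exists U (a := fun N => G N j z)
      (M := (50 * (Cg ^ (dp R + 1) * C) + C) / c) (by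
        filter_upwards [hev (dp R + 2)] with N hN
        exact hGb R N hN z hR j)
    exact ⟨l, fun _ => hl⟩
  choose g hg using hglim
  have hNdm : ∀ R, ∀ z ∈ Nd R, z ∉ squareCantor := fun R z hz => Nd_notMem hz
  refine ⟨g, u, ?_, ?_, ?_, ?_, ?_⟩
  · -- holomorphic
    intro j z hz
    obtain ⟨R, hR⟩ := Nd_cover hz
    have h1 : DifferentiableOn ℂ (g j) (Nd R) := by
      refine lim_hol (Φ := (U : Filter ℕ)) (isOpen_Nd R) (F := fun N => G N j)
        (M := (50 * (Cg ^ (dp R + 1) * C) + C) / c) ?_ ?_ ?_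
      · filter_upwards [hev (dp R + 2)] with N hN
        exact (hGd N (by omega) j).mono fun z hz => Nd_Om hN hz
      · filter_upwards [hev (dp R + 2)] with N hN z hz
        exact hGb R N hN z hz j
      · intro z hz
        exact hg j z (hNdm R z hz)
    exact (h1.differentiableAt ((isOpen_Nd R).mem_nhds hR)).differentiableWithinAt
  · -- the sum
    intro z hz
    obtain ⟨R, hR⟩ := Nd_cover hz
    have h1 : Tendsto (fun N => ∑ j, f j z * G N j z) U (𝓝 (∑ j, f j z * g j z)) :=
      tendsto_finsetSum _ fun j _ => (hg j z hz).const_mul _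
    refine tendsto_nhds_unique h1 (tendsto_const_nhds.congr' ?_)
    filter_upwards [hev (dp R + 2)] with N hN
    exact (hGs N (by omega) z (Nd_Om hN hR)).symm
  · -- harmonic
    intro z hz
    obtain ⟨R, hR⟩ := Nd_cover hz
    refine lim_harm U (isOpen_Nd R) (h := u') ?_ ?_ (fun z hz => hu z (hNdm R z hz)) z hR
    · filter_upwards [hev (dp R + 2)] with N hN
      have h1 := hLOG (List D) (lv N) cc (fun q => 50 * w N q) (50 * V N + C)
      have h2 : hp (lv N) cc (fun q => 50 * w N q) (50 * V N + C) = u' N := by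
        funext z
        simp only [hp, hu', gr, mul_add, Finset.mul_sum, mul_assoc]
        ring
      rw [h2] at h1
      exact h1.mono fun z hz => RN_notMem (Nd_RN hNIN hN hz)
    · filter_upwards [hev (dp R + 2)] with N hN z hz
      exact (hub R N hN z hz).1
  · -- the exterior
    intro z hz
    have hz0 : z ∉ squareCantor := by
      intro h
      have := squareCantor_dist' h
      linarith
    refine le_of_tendsto (hu z hz0) ?_
    filter_upwards [hev 2] with N hN
    have h1 := (hgrw N hN).2 z (by linarith)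
    have h2 : Cg * V N ≤ Cg * C := mul_le_mul_of_nonneg_left (hV N hN) (by linarith)
    simp only [hu']
    linarith
  · -- the exponential bound
    intro j z hz
    obtain ⟨R, hR⟩ := Nd_cover hz
    have h1 : Tendsto (fun N => Real.exp (c * ‖G N j z‖)) U (𝓝 (Real.exp (c * ‖g j z‖))) :=
      (Real.continuous_exp.tendsto _).comp ((hg j z hz).norm.const_mul c)
    refine le_of_tendsto_of_tendsto h1 (hu z hz) ?_
    filter_upwards [hev (dp R + 2)] with N hN
    exact hGe N (by omega) j z (Nd_Om hN hR)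

end Pool.Agent.CorE
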