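import Pool.Agent.CorE.Targets

set_option autoImplicit false

/-!
# LPO: Littlewood-Paley inequality, telescoping sum on the tree
-/

namespace Pool.Agent.CorE

open Complex Metric Set Filter Topology MeasureTheory
open Pool.Corona91698f
open scoped Real

namespace LPO_

theorem bl_eq (M : ℕ) (v : List D) (hv : v.length ≤ M) :
    bl M v = (wd (M - v.length)).image (fun x => v ++ x) := by
  ext p
  simp only [bl, Finset.mem_filter, mem_wd, Finset.mem_image]
  constructor
  · rintro ⟨h1, x, rfl⟩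
    exact ⟨x, by rw [List.length_append] at h1; omega, rfl⟩
  · rintro ⟨x, hx, rfl⟩
    exact ⟨by rw [List.length_append]; omega, x, rfl⟩

theorem sum_wd_lv (n : ℕ) (F : List D → ℝ) :
    ∑ x ∈ wd n, F x = ∑ k ∈ Finset.range (n + 1), ∑ x ∈ lv k, F x := by
  have h : ∀ i ∈ wd n, List.length i ∈ Finset.range (n + 1) := fun i hi => by
    rw [Finset.mem_range]
    have := mem_wd.1 hi
    omega
  rw [← Finset.sum_fiberwise_of_maps_to h F]
  refine Finset.sum_congr rfl fun k hk => ?_
  refine Finset.sum_congr ?_ fun _ _ => rfl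
  ext x
  rw [Finset.mem_filter, mem_wd, mem_lv]
  rw [Finset.mem_range] at hk
  constructor
  · exact fun h => h.2
  · exact fun h => ⟨by omega, h⟩

theorem sum_bl (M : ℕ) (v : List D) (hv : v.length ≤ M) (F : List D → ℝ) :
    ∑ p ∈ bl M v, F p = ∑ k ∈ Finset.range (M - v.length + 1), ∑ x ∈ lv k, F (v ++ x) := by
  rw [bl_eq M v hv, Finset.sum_image (fun a _ b _ h => List.append_cancel_left h), sum_wd_lv]

theorem sum_lv_snoc (k : ℕ) (F : List D → ℝ) :
    ∑ x ∈ lv (k + 1), F x = ∑ x ∈ lv k, ∑ d : D, F (x ++ [d]) := by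
  rw [sum_lv_add k 1 F]
  refine Finset.sum_congr rfl fun x _ => ?_
  refine (sum_lv_succ 0 (fun q => F (x ++ q))).trans ?_
  refine Finset.sum_congr rfl fun d _ => ?_
  show ∑ v ∈ ({[]} : Finset (List D)), F (x ++ d :: v) = F (x ++ [d])
  rw [Finset.sum_singleton]

theorem sum_w {N : ℕ} {w : List D → ℝ} (h : GD N w) (v : List D) (k : ℕ)
    (hk : v.length + k ≤ N) : ∑ x ∈ lv k, w (v ++ x) = w v := by
  induction k with
  | zero =>
    show ∑ x ∈ ({[]} : Finset (List D)), w (v ++ x) = w v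
    rw [Finset.sum_singleton, List.append_nil]
  | succ k ih =>
    rw [sum_lv_snoc, ← ih (by omega)]
    refine Finset.sum_congr rfl fun x hx => ?_
    rw [← h.add (v ++ x) (by rw [List.length_append, mem_lv.1 hx]; omega)]
    simp only [List.append_assoc]

theorem tele {N : ℕ} {E J : List D → ℝ} (h : ∀ p : List D, p.length < N →
    J p - ∑ d : D, J (p ++ [d]) = - E p) (v : List D) (m : ℕ) (hm : v.length + m ≤ N) :
    ∑ k ∈ Finset.range m, ∑ x ∈ lv k, E (v ++ x) = ∑ x ∈ lv m, J (v ++ x) - J v := by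
  induction m with
  | zero =>
    have e : ∑ x ∈ lv 0, J (v ++ x) = J v := by
      show ∑ x ∈ ({[]} : Finset (List D)), J (v ++ x) = J v
      rw [Finset.sum_singleton, List.append_nil]
    rw [e, Finset.range_zero, Finset.sum_empty, sub_self]
  | succ m ih =>
    rw [Finset.sum_range_succ, ih (by omega), sum_lv_snoc]
    have h1 : ∀ x ∈ lv m, E (v ++ x) = ∑ d : D, J (v ++ (x ++ [d])) - J (v ++ x) := by
      intro x hx
      have h2 := h (v ++ x) (by rw [List.length_append, mem_lv.1 hx]; omega)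
      simp only [List.append_assoc] at h2
      linarith
    rw [Finset.sum_congr rfl h1, Finset.sum_sub_distrib]
    ring

theorem energy_le {N : ℕ} {w E J : List D → ℝ} {C : ℝ} (hw : GD N w)
    (h : ∀ p : List D, p.length < N → J p - ∑ d : D, J (p ++ [d]) = - E p)
    (hJ : ∀ v : List D, v.length < N → |J v| ≤ C * w v) (v : List D) (m : ℕ)
    (hm : v.length + m < N) :
    ∑ k ∈ Finset.range m, ∑ x ∈ lv k, E (v ++ x) ≤ 2 * C * w v := by
  rw [tele h v m hm.le]
  have h1 : ∑ x ∈ lv m, J (v ++ x) ≤ C * w v := by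
    rw [← sum_w hw v m hm.le, Finset.mul_sum]
    refine Finset.sum_le_sum fun x hx => ?_
    exact (le_abs_self _).trans (hJ _ (by rw [List.length_append, mem_lv.1 hx]; omega))
  have h2 := neg_abs_le (J v)
  have h3 := hJ v (by omega)
  linarith

/-- the energy of a level -/
noncomputable def lev (E : List D → ℝ) (v : List D) (m : ℕ) : ℝ := ∑ y ∈ lv m, E (v ++ y)

theorem lev_add (E : List D → ℝ) (v : List D) (k j : ℕ) :
    lev E v (k + j) = ∑ x ∈ lv k, ∑ s ∈ lv j, E ((v ++ x) ++ s) := by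
  unfold lev
  rw [sum_lv_add k j]
  simp only [List.append_assoc]

theorem card_D : (Finset.univ : Finset D).card = 4 := rfl

theorem level_le {N : ℕ} {w E o : List D → ℝ} {CO : ℝ}
    (ho : ∀ p : List D, p ≠ [] → p.length + 5 ≤ N →
      w p * o p ^ 2 ≤ CO * ∑ s ∈ wd 3, E (p.dropLast ++ s)) (v : List D) (k : ℕ)
    (hk : v.length + (k + 1) + 5 ≤ N) :
    ∑ x ∈ lv (k + 1), w (v ++ x) * o (v ++ x) ^ 2 ≤
      4 * CO * ∑ j ∈ Finset.range 4, lev E v (k + j) := by
  rw [sum_lv_snoc]
  have h1 : ∀ x ∈ lv k, ∑ d : D, w (v ++ (x ++ [d])) * o (v ++ (x ++ [d])) ^ 2 ≤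
      4 * CO * ∑ j ∈ Finset.range 4, ∑ s ∈ lv j, E ((v ++ x) ++ s) := by
    intro x hx
    have h2 : ∀ d : D, w (v ++ (x ++ [d])) * o (v ++ (x ++ [d])) ^ 2 ≤
        CO * ∑ s ∈ wd 3, E ((v ++ x) ++ s) := by
      intro d
      have e : v ++ (x ++ [d]) = (v ++ x) ++ [d] := (List.append_assoc _ _ _).symm
      have h3 := ho ((v ++ x) ++ [d]) (by simp) (by
        rw [List.length_append, List.length_append, mem_lv.1 hx]
        simp only [List.length_singleton]
        omega)
      rw [List.dropLast_concat] at h3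
      rw [e]
      exact h3
    calc ∑ d : D, w (v ++ (x ++ [d])) * o (v ++ (x ++ [d])) ^ 2
        ≤ ∑ _d : D, CO * ∑ s ∈ wd 3, E ((v ++ x) ++ s) := Finset.sum_le_sum fun d _ => h2 d
      _ = 4 * CO * ∑ j ∈ Finset.range 4, ∑ s ∈ lv j, E ((v ++ x) ++ s) := by
        rw [Finset.sum_const, card_D, sum_wd_lv, nsmul_eq_mul]
        push_cast
        ring
  refine (Finset.sum_le_sum h1).trans (le_of_eq ?_)
  rw [← Finset.mul_sum, Finset.sum_comm]
  congr 1
  exact Finset.sum_congr rfl fun j _ => (lev_add E v k j).symm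

theorem shift_le {e : ℕ → ℝ} {m j : ℕ} (hj : j ≤ 3) (h : ∀ l < m + 3, 0 ≤ e l) :
    ∑ i ∈ Finset.range m, e (i + j) ≤ ∑ l ∈ Finset.range (m + 3), e l := by
  have e1 : ∑ i ∈ Finset.range m, e (i + j) =
      ∑ l ∈ (Finset.range m).image (fun i => i + j), e l := by
    rw [Finset.sum_image (fun a _ b _ h => Nat.add_right_cancel h)]
  rw [e1]
  refine Finset.sum_le_sum_of_subset_of_nonneg ?_ fun l hl _ => h l (Finset.mem_range.1 hl)
  intro l hl
  obtain ⟨i, hi, rfl⟩ := Finset.mem_image.1 hl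
  rw [Finset.mem_range] at hi ⊢
  omega

theorem main_sum {N : ℕ} {w E J o : List D → ℝ} {CJ CO : ℝ} (hw : GD N w) (hCO : 0 < CO)
    (hCJ : 0 < CJ) (hE : ∀ s : List D, s.length < N → 0 ≤ E s)
    (h : ∀ p : List D, p.length < N → J p - ∑ d : D, J (p ++ [d]) = - E p)
    (hJ : ∀ v : List D, v.length < N → |J v| ≤ CJ * w v)
    (ho2 : ∀ p, 0 ≤ o p ∧ o p ≤ 2)
    (ho : ∀ p : List D, p ≠ [] → p.length + 5 ≤ N →
      w p * o p ^ 2 ≤ CO * ∑ s ∈ wd 3, E (p.dropLast ++ s)) (v : List D) (hv : v.length < N) :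
    ∑ p ∈ bl (N - 1) v, w p * o p ^ 2 ≤ (20 + 32 * CO * CJ) * w v := by
  rw [sum_bl (N - 1) v (by omega)]
  have hwv : 0 < w v := hw.pos v hv.le
  have h4 : ∀ k, v.length + k ≤ N → ∑ x ∈ lv k, w (v ++ x) * o (v ++ x) ^ 2 ≤ 4 * w v := by
    intro k hk
    rw [← sum_w hw v k hk, Finset.mul_sum]
    refine Finset.sum_le_sum fun x hx => ?_
    have h1 : 0 < w (v ++ x) := hw.pos _ (by rw [List.length_append, mem_lv.1 hx]; omega)
    have h2 := ho2 (v ++ x)
    have h3 : o (v ++ x) ^ 2 ≤ 4 := by nlinarith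
    nlinarith
  have hpos : 0 ≤ 32 * CO * CJ * w v := by positivity
  rcases Nat.lt_or_ge (N - v.length) 5 with hn | hn
  · have h5 : ∑ k ∈ Finset.range (N - 1 - v.length + 1), ∑ x ∈ lv k,
        w (v ++ x) * o (v ++ x) ^ 2 ≤ ∑ _k ∈ Finset.range (N - 1 - v.length + 1), 4 * w v :=
      Finset.sum_le_sum fun k hk => h4 k (by rw [Finset.mem_range] at hk; omega)
    rw [Finset.sum_const, Finset.card_range, nsmul_eq_mul] at h5
    have h6 : ((N - 1 - v.length + 1 : ℕ) : ℝ) ≤ 5 := by
      have : N - 1 - v.length + 1 ≤ 5 := by omega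
      exact_mod_cast this
    have h7 : ((N - 1 - v.length + 1 : ℕ) : ℝ) * (4 * w v) ≤ 5 * (4 * w v) :=
      mul_le_mul_of_nonneg_right h6 (by positivity)
    linarith
  · obtain ⟨m, hm⟩ : ∃ m, N = v.length + (m + 5) := ⟨N - v.length - 5, by omega⟩
    have e1 : N - 1 - v.length + 1 = m + 5 := by omega
    rw [e1]
    have hlev : ∀ l < m + 3, 0 ≤ lev E v l := fun l hl =>
      Finset.sum_nonneg fun y hy => hE _ (by rw [List.length_append, mem_lv.1 hy]; omega)
    have hen := energy_le hw h hJ v (m + 3) (by omega)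
    have hmid : ∑ i ∈ Finset.range m, ∑ x ∈ lv (i + 1), w (v ++ x) * o (v ++ x) ^ 2 ≤
        32 * CO * CJ * w v := by
      have h5 : ∑ i ∈ Finset.range m, ∑ x ∈ lv (i + 1), w (v ++ x) * o (v ++ x) ^ 2 ≤
          ∑ i ∈ Finset.range m, 4 * CO * ∑ j ∈ Finset.range 4, lev E v (i + j) :=
        Finset.sum_le_sum fun i hi =>
          level_le ho v i (by rw [Finset.mem_range] at hi; omega)
      rw [← Finset.mul_sum, Finset.sum_comm] at h5
      have h6 : ∑ j ∈ Finset.range 4, ∑ i ∈ Finset.range m, lev E v (i + j) ≤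
          ∑ _j ∈ Finset.range 4, 2 * CJ * w v := by
        refine Finset.sum_le_sum fun j hj => ?_
        rw [Finset.mem_range] at hj
        exact (shift_le (by omega) hlev).trans hen
      rw [Finset.sum_const, Finset.card_range, nsmul_eq_mul] at h6
      have h7 := mul_le_mul_of_nonneg_left h6 (show 0 ≤ 4 * CO by positivity)
      refine h5.trans (h7.trans (le_of_eq ?_))
      push_cast
      ring
    have k0 := h4 0 (by omega)
    have k1 := h4 (m + 1) (by omega)
    have k2 := h4 (m + 2) (by omega)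
    have k3 := h4 (m + 3) (by omega)
    have k4 := h4 (m + 4) (by omega)
    rw [Finset.sum_range_succ, Finset.sum_range_succ, Finset.sum_range_succ,
      Finset.sum_range_succ, Finset.sum_range_succ']
    linarith

end LPO_

open LPO_ in
theorem p_LPO (hDEC : T_DEC) (hJBD : T_JBD) (hOSE : T_OSE) : T_LPO := by
  intro CG
  obtain ⟨CJ, hCJ, hJ⟩ := hJBD CG
  obtain ⟨CO, hCO, hO⟩ := hOSE CG
  refine ⟨20 + 32 * CO * CJ, by positivity, ?_⟩
  intro N w V f hN hG hf hf1
  obtain ⟨hE0, hOs⟩ := hO N w V f hG hf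
  have hdec := hDEC N w V f hf
  have hj := hJ N w V f hG hf hf1
  have hGD : GD N w := hG.toGD
  set Sm : List D → ℝ := fun p => ∑ s ∈ wd 3, EN N w V f (p.dropLast ++ s) with hSm
  set A : List D → ℝ := fun p => CO * Sm p / w p with hA
  have hA0 : ∀ p : List D, p ≠ [] → p.length + 5 ≤ N → 0 ≤ A p := by
    intro p hp h5
    have h1 : 0 < w p := hGD.pos p (by omega)
    have h2 : 0 ≤ Sm p := Finset.sum_nonneg fun s hs => hE0 _ (by
      have h3 := mem_wd.1 hs
      rw [List.length_append, List.length_dropLast]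
      omega)
    exact div_nonneg (mul_nonneg hCO.le h2) h1.le
  classical
  set o : List D → ℝ := fun p => if p ≠ [] ∧ p.length + 5 ≤ N then min 2 (√(A p)) else 2
    with ho
  have ho2 : ∀ p, 0 ≤ o p ∧ o p ≤ 2 := by
    intro p
    simp only [ho]
    split_ifs with hc
    · exact ⟨le_min (by norm_num) (Real.sqrt_nonneg _), min_le_left _ _⟩
    · exact ⟨by norm_num, le_rfl⟩
  have hoS : ∀ p : List D, p ≠ [] → p.length + 5 ≤ N →
      w p * o p ^ 2 ≤ CO * ∑ s ∈ wd 3, EN N w V f (p.dropLast ++ s) := by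
    intro p hp h5
    have h1 : 0 < w p := hGD.pos p (by omega)
    have h2 : o p ≤ √(A p) := by
      simp only [ho]
      rw [if_pos ⟨hp, h5⟩]
      exact min_le_right _ _
    have h3 : o p ^ 2 ≤ A p := by
      calc o p ^ 2 ≤ √(A p) ^ 2 := pow_le_pow_left₀ (ho2 p).1 h2 2
        _ = A p := Real.sq_sqrt (hA0 p hp h5)
    calc w p * o p ^ 2 ≤ w p * A p := mul_le_mul_of_nonneg_left h3 h1.le
      _ = CO * Sm p := by
        simp only [hA]
        field_simp
  refine ⟨o, ho2, ?_, ?_⟩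
  · intro p x y hx hy
    have hx1 : x ∈ squareCantorᶜ := by
      have := Phi_notMem (v := p) (nodeX_subset hx)
      rw [Phi_Psi] at this
      exact this
    have hy1 : y ∈ squareCantorᶜ := by
      have := Phi_notMem (v := p) (nodeX_subset hy)
      rw [Phi_Psi] at this
      exact this
    have h2 : ‖f x - f y‖ ≤ 2 := by
      have h3 := norm_sub_le (f x) (f y)
      have h4 := hf1 x hx1
      have h5 := hf1 y hy1
      linarith
    simp only [ho]
    split_ifs with hc
    · refine le_min h2 ?_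
      have h1 : 0 < w p := hGD.pos p (by omega)
      have h3 := hOs p hc.1 hc.2 x y hx hy
      refine Real.le_sqrt_of_sq_le ?_
      simp only [hA]
      rw [le_div_iff₀ h1, mul_comm]
      exact h3
    · exact h2
  · intro v hv
    exact main_sum hGD hCO hCJ hE0 hdec hj ho2 hoS v hv

end Pool.Agent.CorE
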