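import Pool.Agent.CorE.Targets

/-!
# CorE, target TAI: expansion at infinity in powers of `W`
-/

set_option autoImplicit false

namespace Pool.Agent.CorE

open Complex Metric Set Filter Topology MeasureTheory
open Pool.Corona91698f
open scoped Real

namespace TAI_

/-- One step of the expansion at infinity in powers of `(z - c)⁻¹`. -/
theorem key {c : ℂ} {ρ : ℝ} (hρ : 0 < ρ) (n : ℕ) {H : ℂ → ℂ} {A : ℝ} (hA : 0 ≤ A)
    (hH : DifferentiableOn ℂ H {z | ρ < dist z c})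
    (hb : ∀ z, ρ < dist z c → ‖H z‖ ≤ A * ‖(z - c)⁻¹‖ ^ n) :
    ∃ a : ℂ, ‖a‖ ≤ A ∧ ∀ z, ρ < dist z c →
      ‖H z - a * ((z - c)⁻¹) ^ n‖ ≤ 2 * ρ * A * ‖(z - c)⁻¹‖ ^ (n + 1) := by
  rcases hA.eq_or_lt with h0 | hpos
  · refine ⟨0, by rw [norm_zero, ← h0], fun z hz => ?_⟩
    have h1 := hb z hz
    rw [← h0, zero_mul] at h1
    rw [zero_mul, sub_zero, ← h0, mul_zero, zero_mul]
    exact h1
  have hAc : (A : ℂ) ≠ 0 := by exact_mod_cast hpos.ne'
  have hne : ∀ z, ρ < dist z c → z - c ≠ 0 := by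
    intro z hz h0
    rw [dist_eq_norm, h0, norm_zero] at hz
    linarith
  obtain ⟨Φ, hΦ, hΦb, hΦf⟩ := exterior_ext (c := c) (ρ := ρ)
    (f := fun z => (z - c) ^ n * H z / (A : ℂ)) hρ
    ((((differentiableOn_id.sub_const c).pow n).mul hH).div_const _) (fun z hz => by
      have hz0 : 0 < ‖z - c‖ := norm_pos_iff.2 (hne z hz)
      rw [norm_div, Complex.norm_real, Real.norm_eq_abs, abs_of_pos hpos, div_le_one hpos,
        norm_mul, norm_pow]
      have h1 := hb z hz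
      rw [norm_inv, inv_pow] at h1
      have h2 : 0 < ‖z - c‖ ^ n := pow_pos hz0 n
      calc ‖z - c‖ ^ n * ‖H z‖ ≤ ‖z - c‖ ^ n * (A * (‖z - c‖ ^ n)⁻¹) := by gcongr
        _ = A := by field_simp)
  have hρi : 0 < ρ⁻¹ := inv_pos.2 hρ
  have h0mem : (0 : ℂ) ∈ ball (0 : ℂ) ρ⁻¹ := mem_ball_self hρi
  have hmaps : MapsTo Φ (ball 0 ρ⁻¹) (closedBall (Φ 0) 2) := by
    intro v hv
    rw [mem_closedBall, dist_eq_norm]
    have h1 := hΦb v hv
    have h2 := hΦb 0 h0mem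
    have h3 := norm_sub_le (Φ v) (Φ 0)
    linarith
  refine ⟨A * Φ 0, ?_, fun z hz => ?_⟩
  · rw [norm_mul, Complex.norm_real, Real.norm_eq_abs, abs_of_pos hpos]
    have h2 := hΦb 0 h0mem
    nlinarith
  · have hmem : (z - c)⁻¹ ∈ ball (0 : ℂ) ρ⁻¹ := by
      rw [mem_ball_zero_iff, norm_inv, ← dist_eq_norm]
      exact inv_strictAnti₀ hρ hz
    have h1 := Complex.dist_le_div_mul_dist_of_mapsTo_ball hΦ hmaps hmem
    rw [dist_eq_norm, dist_zero_right, div_inv_eq_mul] at h1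
    have h2 := hΦf z hz
    have hz0 := hne z hz
    have h4 : (z - c)⁻¹ ^ n * (z - c) ^ n = 1 := by
      rw [← mul_pow, inv_mul_cancel₀ hz0, one_pow]
    have h5 : (A : ℂ) * (z - c)⁻¹ ^ n * Φ ((z - c)⁻¹) = H z := by
      rw [h2]
      have h6 : (A : ℂ) * (z - c)⁻¹ ^ n * ((z - c) ^ n * H z / A) =
          ((z - c)⁻¹ ^ n * (z - c) ^ n) * H z * ((A : ℂ) / A) := by ring
      rw [h6, h4, div_self hAc, one_mul, mul_one]
    have h3 : H z - A * Φ 0 * ((z - c)⁻¹) ^ n =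
        A * ((z - c)⁻¹) ^ n * (Φ ((z - c)⁻¹) - Φ 0) := by
      rw [mul_sub, h5]
      ring
    rw [h3, norm_mul, norm_mul, Complex.norm_real, Real.norm_eq_abs, abs_of_pos hpos, norm_pow]
    calc A * ‖(z - c)⁻¹‖ ^ n * ‖Φ ((z - c)⁻¹) - Φ 0‖
        ≤ A * ‖(z - c)⁻¹‖ ^ n * (2 * ρ * ‖(z - c)⁻¹‖) := by gcongr
      _ = 2 * ρ * A * ‖(z - c)⁻¹‖ ^ (n + 1) := by ring

theorem inv_le {z : ℂ} (hz : (75 / 100 : ℝ) < dist z ctr) : ‖(z - ctr)⁻¹‖ ≤ 4 / 3 := by
  rw [norm_inv, ← dist_eq_norm]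
  have h1 : (dist z ctr)⁻¹ ≤ (75 / 100 : ℝ)⁻¹ := inv_anti₀ (by norm_num) hz.le
  refine h1.trans ?_
  norm_num

/-- The function `W` is close to `(z - ctr)⁻¹`. -/
theorem W_close {z : ℂ} (hz : (75 / 100 : ℝ) < dist z ctr) :
    ‖W z - (z - ctr)⁻¹‖ ≤ 7924 * ‖(z - ctr)⁻¹‖ ^ 2 := by
  have hpos : 0 < dist z ctr := by linarith
  rcases le_or_gt 1 (dist z ctr) with h | h
  · have h1 := W_far h
    have e : ‖(z - ctr)⁻¹‖ ^ 2 = 1 / dist z ctr ^ 2 := by
      rw [norm_inv, ← dist_eq_norm, inv_pow, one_div]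
    rw [e]
    have h2 : 0 < 1 / dist z ctr ^ 2 := by positivity
    refine h1.trans ?_
    nlinarith
  · have h1 := W_norm z
    have h2 := inv_le hz
    have h3 := norm_sub_le (W z) (z - ctr)⁻¹
    have h4 : 1 ≤ ‖(z - ctr)⁻¹‖ := by
      rw [norm_inv, ← dist_eq_norm]
      exact (one_le_inv₀ hpos).2 h.le
    nlinarith

theorem W_le {z : ℂ} (hz : (75 / 100 : ℝ) < dist z ctr) :
    ‖W z‖ ≤ 10567 * ‖(z - ctr)⁻¹‖ := by
  have h1 := W_close hz
  have h2 := inv_le hz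
  have h3 : ‖W z‖ ≤ ‖W z - (z - ctr)⁻¹‖ + ‖(z - ctr)⁻¹‖ := by
    have := norm_add_le (W z - (z - ctr)⁻¹) (z - ctr)⁻¹
    rwa [sub_add_cancel] at this
  have h4 := norm_nonneg (z - ctr)⁻¹
  nlinarith

/-- The powers of `W` are close to the powers of `(z - ctr)⁻¹`. -/
theorem W_pow (n : ℕ) : ∃ K : ℝ, 0 ≤ K ∧ ∀ z : ℂ, (75 / 100 : ℝ) < dist z ctr →
    ‖W z ^ n - (z - ctr)⁻¹ ^ n‖ ≤ K * ‖(z - ctr)⁻¹‖ ^ (n + 1) := by
  induction n with
  | zero =>
    refine ⟨0, le_rfl, fun z _ => ?_⟩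
    rw [pow_zero, pow_zero, sub_self, norm_zero, zero_mul]
  | succ n ih =>
    obtain ⟨K, hK, h⟩ := ih
    refine ⟨10567 ^ n * 7924 + K, by positivity, fun z hz => ?_⟩
    have h1 := h z hz
    have h2 := W_close hz
    have h3 := W_le hz
    have e : W z ^ (n + 1) - (z - ctr)⁻¹ ^ (n + 1) =
        W z ^ n * (W z - (z - ctr)⁻¹) + (z - ctr)⁻¹ * (W z ^ n - (z - ctr)⁻¹ ^ n) := by ring
    rw [e]
    refine (norm_add_le _ _).trans ?_
    rw [norm_mul, norm_mul, norm_pow]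
    have hq := norm_nonneg (z - ctr)⁻¹
    calc ‖W z‖ ^ n * ‖W z - (z - ctr)⁻¹‖ + ‖(z - ctr)⁻¹‖ * ‖W z ^ n - (z - ctr)⁻¹ ^ n‖
        ≤ (10567 * ‖(z - ctr)⁻¹‖) ^ n * (7924 * ‖(z - ctr)⁻¹‖ ^ 2) +
          ‖(z - ctr)⁻¹‖ * (K * ‖(z - ctr)⁻¹‖ ^ (n + 1)) := by gcongr
      _ = (10567 ^ n * 7924 + K) * ‖(z - ctr)⁻¹‖ ^ (n + 1 + 1) := by
        rw [mul_pow]
        ring

/-- Comparison of the two kinds of decay. -/
theorem to_rk (n : ℕ) {z : ℂ} (hz : (75 / 100 : ℝ) < dist z ctr) :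
    ‖(z - ctr)⁻¹‖ ^ n ≤ (7 / 3) ^ n * rk n z := by
  unfold rk
  have hpos : 0 < dist z ctr := by linarith
  rw [norm_inv, ← dist_eq_norm, ← inv_pow, ← mul_pow]
  refine pow_le_pow_left₀ (by positivity) ?_ n
  rw [inv_eq_one_div, ← div_eq_mul_inv, div_le_div_iff₀ hpos (by linarith)]
  linarith

theorem of_rk (n : ℕ) {z : ℂ} (hz : (75 / 100 : ℝ) < dist z ctr) :
    rk n z ≤ ‖(z - ctr)⁻¹‖ ^ n := by
  unfold rk
  have hpos : 0 < dist z ctr := by linarith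
  rw [norm_inv, ← dist_eq_norm, ← inv_pow]
  refine pow_le_pow_left₀ (by positivity) ?_ n
  exact inv_anti₀ hpos (by linarith)

theorem sub_compl : {z : ℂ | (75 / 100 : ℝ) < dist z ctr} ⊆ squareCantorᶜ := by
  intro z hz hzE
  have h1 := squareCantor_dist' hzE
  have h2 : (75 / 100 : ℝ) < dist z ctr := hz
  linarith

/-- The claim in terms of powers of `(z - ctr)⁻¹`. -/
theorem main (m : ℕ) : ∃ C : ℝ, 0 < C ∧ ∀ (F : ℂ → ℂ) (B : ℝ), 0 ≤ B →
    DifferentiableOn ℂ F {z | (75 / 100 : ℝ) < dist z ctr} →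
    (∀ z, (75 / 100 : ℝ) < dist z ctr → ‖F z‖ ≤ B) → Tendsto F (cocompact ℂ) (𝓝 0) →
    ∃ b : Fin m → ℂ, (∀ k, ‖b k‖ ≤ C * B) ∧ ∀ z, (75 / 100 : ℝ) < dist z ctr →
      ‖F z - ∑ k : Fin m, b k * W z ^ (k.val + 1)‖ ≤ C * B * ‖(z - ctr)⁻¹‖ ^ (m + 1) := by
  have hWd : DifferentiableOn ℂ W squareCantorᶜ := fun z hz =>
    (W_differentiableAt hz).differentiableWithinAt
  induction m with
  | zero =>
    refine ⟨2, by norm_num, fun F B hB hF hb hlim => ⟨Fin.elim0, fun k => k.elim0, ?_⟩⟩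
    obtain ⟨a, -, ha⟩ := key (c := ctr) (ρ := 75 / 100) (by norm_num) 0 hB hF (fun z hz => by
      rw [pow_zero, mul_one]
      exact hb z hz)
    have hinv : Tendsto (fun z : ℂ => 2 * (75 / 100) * B * ‖(z - ctr)⁻¹‖ ^ (0 + 1))
        (cocompact ℂ) (𝓝 0) := by
      have h1 : Tendsto (fun z : ℂ => (z - ctr)⁻¹) (cocompact ℂ) (𝓝 0) := by
        have h2 : Tendsto (fun z : ℂ => z - ctr) (cocompact ℂ) (cocompact ℂ) :=
          (Homeomorph.subRight ctr).isClosedEmbedding.tendsto_cocompact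
        have h3 : Tendsto (fun z : ℂ => z⁻¹) (cocompact ℂ) (𝓝 0) := by
          rw [← Metric.cobounded_eq_cocompact]
          exact Filter.tendsto_inv₀_cobounded
        exact h3.comp h2
      have h4 := (h1.norm.pow (0 + 1)).const_mul (2 * (75 / 100) * B)
      simpa using h4
    have hd : ∀ᶠ z : ℂ in cocompact ℂ, (75 / 100 : ℝ) < dist z ctr :=
      ((tendsto_dist_left_cocompact_atTop ctr).congr (fun z => dist_comm _ _)).eventually
        (eventually_gt_atTop (75 / 100 : ℝ))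
    have ha0 : a = 0 := by
      have h5 : Tendsto (fun z : ℂ => F z - a * ((z - ctr)⁻¹) ^ 0) (cocompact ℂ) (𝓝 0) := by
        rw [tendsto_zero_iff_norm_tendsto_zero]
        refine squeeze_zero' (Eventually.of_forall fun z => norm_nonneg _) ?_ hinv
        filter_upwards [hd] with z hz
        exact ha z hz
      have h6 : Tendsto (fun z : ℂ => F z - a * ((z - ctr)⁻¹) ^ 0) (cocompact ℂ)
          (𝓝 (0 - a)) := by
        simp only [pow_zero, mul_one]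
        exact hlim.sub_const a
      have h7 := tendsto_nhds_unique h5 h6
      rw [zero_sub] at h7
      exact (neg_eq_zero.1 h7.symm)
    intro z hz
    have h8 := ha z hz
    rw [ha0, zero_mul, sub_zero] at h8
    rw [Finset.univ_eq_empty, Finset.sum_empty, sub_zero]
    have h9 : 0 ≤ B * ‖(z - ctr)⁻¹‖ ^ (0 + 1) := by positivity
    refine h8.trans ?_
    nlinarith
  | succ m ih =>
    obtain ⟨C, hC, h⟩ := ih
    obtain ⟨K, hK, hKW⟩ := W_pow (m + 1)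
    refine ⟨C * (2 + K), by positivity, fun F B hB hF hb hlim => ?_⟩
    obtain ⟨b, hbb, hbF⟩ := h F B hB hF hb hlim
    have hCB : 0 ≤ C * B := by positivity
    have hdiff : DifferentiableOn ℂ (fun z => F z - ∑ k : Fin m, b k * W z ^ (k.val + 1))
        {z | (75 / 100 : ℝ) < dist z ctr} := by
      refine hF.sub (DifferentiableOn.fun_sum fun k _ => ?_)
      exact ((hWd.mono sub_compl).pow _).const_mul _
    obtain ⟨a, ha, haF⟩ := key (c := ctr) (ρ := 75 / 100) (by norm_num) (m + 1) hCB hdiff hbF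
    refine ⟨Fin.snoc b a, fun k => ?_, fun z hz => ?_⟩
    · have hle : C * B ≤ C * (2 + K) * B := by
        have : 0 ≤ C * B * (1 + K) := by positivity
        nlinarith
      refine Fin.lastCases ?_ (fun i => ?_) k
      · rw [Fin.snoc_last]
        exact ha.trans hle
      · rw [Fin.snoc_castSucc]
        exact (hbb i).trans hle
    · rw [Fin.sum_univ_castSucc]
      simp only [Fin.snoc_castSucc, Fin.snoc_last, Fin.val_castSucc, Fin.val_last]
      have e : F z - (∑ k : Fin m, b k * W z ^ (k.val + 1) + a * W z ^ (m + 1)) =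
          (F z - ∑ k : Fin m, b k * W z ^ (k.val + 1) - a * ((z - ctr)⁻¹) ^ (m + 1)) -
            a * (W z ^ (m + 1) - (z - ctr)⁻¹ ^ (m + 1)) := by ring
      rw [e]
      refine (norm_sub_le _ _).trans ?_
      rw [norm_mul]
      have h1 := haF z hz
      have h2 := hKW z hz
      have h3 : 0 ≤ ‖(z - ctr)⁻¹‖ ^ (m + 1 + 1) := by positivity
      calc _ ≤ 2 * (75 / 100) * (C * B) * ‖(z - ctr)⁻¹‖ ^ (m + 1 + 1) +
            C * B * (K * ‖(z - ctr)⁻¹‖ ^ (m + 1 + 1)) := by gcongr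
        _ ≤ C * (2 + K) * B * ‖(z - ctr)⁻¹‖ ^ (m + 1 + 1) := by
          have : 0 ≤ C * B * ‖(z - ctr)⁻¹‖ ^ (m + 1 + 1) := by positivity
          nlinarith

end TAI_

theorem p_TAI : T_TAI := by
  intro m
  obtain ⟨C, hC, h⟩ := TAI_.main m
  refine ⟨C * (7 / 3) ^ (m + 1), by positivity, fun F B hB hF hb hlim => ?_⟩
  obtain ⟨b, hbb, hbF⟩ := h F B hB hF hb hlim
  have h1 : (1 : ℝ) ≤ (7 / 3) ^ (m + 1) := one_le_pow₀ (by norm_num)
  refine ⟨b, fun k => (hbb k).trans ?_, fun z hz => ?_⟩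
  · have h2 : 0 ≤ C * B := by positivity
    nlinarith
  · have hz' : (75 / 100 : ℝ) < dist z ctr := by linarith
    refine (hbF z hz').trans ?_
    have h2 := TAI_.to_rk (m + 1) hz'
    have h3 : 0 ≤ C * B := by positivity
    calc C * B * ‖(z - ctr)⁻¹‖ ^ (m + 1) ≤ C * B * ((7 / 3) ^ (m + 1) * rk (m + 1) z) := by
          gcongr
      _ = C * (7 / 3) ^ (m + 1) * B * rk (m + 1) z := by ring

end Pool.Agent.CorE
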