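import Pool.Agent.CorE.Targets

/-!
# CorE, LWB: lower bound for the charge below a word
-/

set_option autoImplicit false

namespace Pool.Agent.CorE

open Complex Metric Set Filter Topology MeasureTheory
open Pool.Corona91698f
open scoped Real

namespace LWB_

/-! ### counting -/

theorem one_lv (k : ℕ) : ∑ _x ∈ lv k, (1 : ℝ) = 4 ^ k := by
  induction k with
  | zero => simp [lv]
  | succ k ih =>
    rw [sum_lv_succ k (fun _ => (1 : ℝ))]
    simp only [ih, Finset.sum_const, card_D]
    rw [pow_succ]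
    simp
    ring

theorem sum_cpl (k : ℕ) (x : List D) (hx : x.length = k) :
    ∑ x0 ∈ lv k, (cpl x0 x : ℝ) ≤ 4 ^ k := by
  induction k generalizing x with
  | zero =>
    rw [List.length_eq_zero_iff] at hx
    subst hx
    simp [lv, cpl]
  | succ k ih =>
    cases x with
    | nil => simp at hx
    | cons d x' =>
      have hx' : x'.length = k := by simpa using hx
      rw [sum_lv_succ]
      have e : ∀ d0 : D, ∑ x0 ∈ lv k, (cpl (d0 :: x0) (d :: x') : ℝ) =
          if d0 = d then ∑ x0 ∈ lv k, ((cpl x0 x' : ℝ) + 1) else 0 := by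
        intro d0
        by_cases h : d0 = d
        · rw [if_pos h]
          refine Finset.sum_congr rfl fun x0 _ => ?_
          have : cpl (d0 :: x0) (d :: x') = cpl x0 x' + 1 := by
            rw [cpl, if_pos h]
          rw [this]
          push_cast
          ring
        · rw [if_neg h]
          refine Finset.sum_eq_zero fun x0 _ => ?_
          have : cpl (d0 :: x0) (d :: x') = 0 := by
            rw [cpl, if_neg h]
          rw [this]
          simp
      simp only [e]
      rw [Finset.sum_ite_eq' Finset.univ d, if_pos (Finset.mem_univ d), Finset.sum_add_distrib,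
        one_lv]
      have h1 := ih x' hx'
      have h2 : (0 : ℝ) < 4 ^ k := by positivity
      rw [pow_succ]
      linarith

theorem sum_A {N : ℕ} {v : List D} (hv : v.length ≤ N) (F : List D → ℝ) :
    ∑ q ∈ (lv N).filter (fun q => v <+: q), F q = ∑ x ∈ lv (N - v.length), F (v ++ x) := by
  have e : (lv N).filter (fun q => v <+: q) = (lv (N - v.length)).image fun x => v ++ x := by
    ext q
    simp only [Finset.mem_filter, Finset.mem_image, mem_lv]
    constructor
    · rintro ⟨hq, x, rfl⟩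
      refine ⟨x, ?_, rfl⟩
      rw [List.length_append] at hq
      omega
    · rintro ⟨x, hx, rfl⟩
      refine ⟨?_, List.prefix_append v x⟩
      rw [List.length_append, hx]
      omega
  rw [e, Finset.sum_image]
  intro x _ x' _ h
  exact List.append_cancel_left h

/-- the first digit where two words differ -/
theorem split (x x0 : List D) (h : x.length = x0.length) (hne : x ≠ x0) :
    ∃ u : List D, u.length = cpl x0 x + 1 ∧ u <+: x ∧ ¬ u <+: x0 := by
  induction x generalizing x0 with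
  | nil =>
    exfalso
    rw [List.length_nil] at h
    exact hne (List.length_eq_zero_iff.1 h.symm).symm
  | cons a x ih =>
    cases x0 with
    | nil => simp at h
    | cons b x0 =>
      by_cases hab : b = a
      · subst hab
        have hne' : x ≠ x0 := fun h' => hne (by rw [h'])
        obtain ⟨u, h1, h2, h3⟩ := ih x0 (by simpa using h) hne'
        refine ⟨b :: u, ?_, ?_, ?_⟩
        · rw [cpl, if_pos rfl, List.length_cons, h1]
        · exact List.cons_prefix_cons.2 ⟨rfl, h2⟩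
        · intro h4
          exact h3 (List.cons_prefix_cons.1 h4).2
      · refine ⟨[a], ?_, ?_, ?_⟩
        · rw [cpl, if_neg hab]
          rfl
        · exact List.cons_prefix_cons.2 ⟨rfl, List.nil_prefix⟩
        · intro h4
          exact hab (List.cons_prefix_cons.1 h4).1.symm

/-! ### the reflected logarithm -/

/-- the linear function whose modulus is the distance to `a` on the circle of radius `ρ` -/
noncomputable def bq (ρ : ℝ) (a ζ : ℂ) : ℂ := ρ - ζ * (starRingEnd ℂ) a / ρ

theorem bq_ne {ρ : ℝ} (hρ : 0 < ρ) {a ζ : ℂ} (ha : ‖a‖ < ρ) (hζ : ‖ζ‖ ≤ ρ) : bq ρ a ζ ≠ 0 := by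
  intro h
  unfold bq at h
  have h1 : (ρ : ℂ) = ζ * (starRingEnd ℂ) a / ρ := sub_eq_zero.1 h
  have h2 : ρ = ‖ζ‖ * ‖a‖ / ρ := by
    have h3 := congrArg norm h1
    rw [norm_div, norm_mul, RCLike.norm_conj, Complex.norm_real, Real.norm_of_nonneg hρ.le] at h3
    exact h3
  have h4 : ‖ζ‖ * ‖a‖ / ρ ≤ ‖a‖ := by
    rw [div_le_iff₀ hρ, mul_comm]
    exact mul_le_mul_of_nonneg_left hζ (norm_nonneg _)
  linarith

theorem bq_sphere {ρ : ℝ} (hρ : 0 < ρ) {a ζ : ℂ} (hζ : ‖ζ‖ = ρ) : ‖bq ρ a ζ‖ = ‖ζ - a‖ := by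
  have hρ' : (ρ : ℂ) ≠ 0 := by exact_mod_cast hρ.ne'
  have h1 : bq ρ a ζ = ζ * (starRingEnd ℂ) (ζ - a) / ρ := by
    unfold bq
    have h2 : ζ * (starRingEnd ℂ) ζ = (ρ : ℂ) ^ 2 := by
      rw [Complex.mul_conj', hζ]
    rw [map_sub, mul_sub, h2]
    field_simp
  rw [h1, norm_div, norm_mul, RCLike.norm_conj, Complex.norm_real, Real.norm_of_nonneg hρ.le, hζ]
  field_simp

theorem bq_le {ρ : ℝ} (hρ : 0 < ρ) (a ζ : ℂ) : ‖bq ρ a ζ‖ ≤ ρ + ‖ζ‖ * ‖a‖ / ρ := by
  unfold bq
  refine (norm_sub_le _ _).trans (le_of_eq ?_)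
  rw [norm_div, norm_mul, RCLike.norm_conj, Complex.norm_real, Real.norm_of_nonneg hρ.le]

/-! ### harmonic functions -/

theorem harm_sum {ι : Type} (S : Finset ι) (f : ι → ℂ → ℝ) (z : ℂ)
    (h : ∀ q ∈ S, InnerProductSpace.HarmonicAt (f q) z) :
    InnerProductSpace.HarmonicAt (fun y => ∑ q ∈ S, f q y) z := by
  classical
  induction S using Finset.induction_on with
  | empty =>
    simp only [Finset.sum_empty]
    exact InnerProductSpace.harmonicAt_const 0
  | insert a S ha ih =>
    have h1 : (fun y => ∑ q ∈ insert a S, f q y) = f a + fun y => ∑ q ∈ S, f q y := by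
      funext y
      rw [Finset.sum_insert ha]
      rfl
    rw [h1]
    exact (h a (Finset.mem_insert_self a S)).add
      (ih fun q hq => h q (Finset.mem_insert_of_mem hq))

theorem harm_log (c : ℝ) {g : ℂ → ℂ} {z : ℂ} (hg : AnalyticAt ℂ g z) (hz : g z ≠ 0) :
    InnerProductSpace.HarmonicAt (fun y => c * Real.log ‖g y‖) z :=
  (hg.harmonicAt_log_norm hz).const_smul

/-- the minimum principle at the centre and around -/
theorem har0 (hHAR : T_HAR) {F : ℂ → ℝ} {c : ℂ} {R : ℝ} (hR : 0 < R)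
    (hF : InnerProductSpace.HarmonicOnNhd F (closedBall c R)) (h0 : ∀ z ∈ sphere c R, 0 ≤ F z)
    {s : ℝ} (hs0 : 0 ≤ s) (hs : s < 1) {z : ℂ} (hz : dist z c ≤ s * R) : 0 ≤ F z := by
  have h1 := (hHAR F c R hR hF h0 (1 / 2) (by norm_num) (by norm_num) c (by
    rw [dist_self]
    positivity)).1
  have h2 : 0 ≤ F c := by
    norm_num at h1
    linarith
  have h3 := (hHAR F c R hR hF h0 s hs0 hs z hz).1
  refine le_trans ?_ h3
  have : 0 ≤ (1 - s) / (1 + s) := div_nonneg (by linarith) (by linarith)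
  positivity

/-! ### geometry -/

theorem scale (v : List D) (z w : ℂ) :
    dist z w = (1 / 3) ^ v.length * dist (Psi v z) (Psi v w) := by
  rw [dist_Psi, ← mul_assoc, ← mul_pow]
  norm_num

theorem Psi_cc (v : List D) : Psi v (cc v) = ctr := Psi_Phi v ctr

theorem geoA (hGEO : T_GEO) {N : ℕ} {v q : List D} (hv : v.length ≤ N) (hq : q.length = N)
    (h : v <+: q) : dist (cc q) (cc v) ≤ 7073 / 10000 * (1 / 3) ^ v.length := by
  have h1 := ((hGEO N).2 v q hv hq).1 h
  rw [scale v (cc q) (cc v), Psi_cc, mul_comm]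
  refine mul_le_mul_of_nonneg_right (h1.trans ?_) (by positivity)
  have h2 : (0 : ℝ) ≤ (1 / 3) ^ (N - v.length) := by positivity
  linarith

theorem geoB (hGEO : T_GEO) {N : ℕ} {v q : List D} (hv : v.length ≤ N) (hq : q.length = N)
    (h : ¬ v <+: q) : (1 / 3) ^ v.length ≤ dist (cc q) (cc v) := by
  have h1 := ((hGEO N).2 v q hv hq).2 h
  rw [scale v (cc q) (cc v), Psi_cc]
  have h2 : (0 : ℝ) ≤ (1 / 3) ^ v.length := by positivity
  nlinarith

theorem sepd (hGEO : T_GEO) {N : ℕ} {v x x0 : List D} (hx : (v ++ x).length = N)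
    (hx0 : (v ++ x0).length = N) (hne : x ≠ x0) :
    2927 / 10000 * (1 / 3) ^ (v.length + cpl x0 x + 1) ≤ dist (cc (v ++ x0)) (cc (v ++ x)) := by
  have hxx : x.length = x0.length := by
    rw [List.length_append] at hx hx0
    omega
  obtain ⟨u, h1, h2, h3⟩ := split x x0 hxx hne
  have h4 : v ++ u <+: v ++ x := (List.prefix_append_right_inj v).2 h2
  have h5 : ¬ v ++ u <+: v ++ x0 := fun h => h3 ((List.prefix_append_right_inj v).1 h)
  have h6 : (v ++ u).length ≤ N := by
    rw [← hx]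
    exact h4.length_le
  have h7 := ((hGEO N).2 (v ++ u) (v ++ x) h6 hx).1 h4
  have h8 := ((hGEO N).2 (v ++ u) (v ++ x0) h6 hx0).2 h5
  have h9 : (0 : ℝ) ≤ (1 / 3) ^ (N - (v ++ u).length) := by positivity
  have h10 := dist_triangle (Psi (v ++ u) (cc (v ++ x0))) (Psi (v ++ u) (cc (v ++ x))) ctr
  have h11 : 2927 / 10000 ≤ dist (Psi (v ++ u) (cc (v ++ x0))) (Psi (v ++ u) (cc (v ++ x))) := by
    linarith
  rw [scale (v ++ u) (cc (v ++ x0)) (cc (v ++ x)), List.length_append, h1, ← add_assoc, mul_comm]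
  exact mul_le_mul_of_nonneg_left h11 (by positivity)

theorem log_third (n : ℕ) : Real.log ((1 / 3 : ℝ) ^ n) = -(n * Real.log 3) := by
  rw [Real.log_pow, one_div, Real.log_inv]
  ring

theorem log3 : 0 ≤ Real.log 3 ∧ Real.log 3 ≤ 2 := by
  refine ⟨Real.log_nonneg (by norm_num), ?_⟩
  have := Real.log_le_sub_one_of_pos (show (0 : ℝ) < 3 by norm_num)
  linarith

/-! ### the estimate at one point -/

/-- upper bound for the reflected logarithm -/
theorem log_bq {t : ℝ} (ht : 0 < t) {a ζ : ℂ} (ha : ‖a‖ ≤ 7073 / 10000 * t)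
    (hζ : ‖ζ‖ ≤ 7073 / 10000 * t) : Real.log ‖bq (77 / 100 * t) a ζ‖ ≤ Real.log t + 1 / 2 := by
  have hρ : 0 < 77 / 100 * t := by positivity
  have h0 : 0 < ‖bq (77 / 100 * t) a ζ‖ :=
    norm_pos_iff.2 (bq_ne hρ (by linarith) (by linarith))
  have h1 := bq_le hρ a ζ
  have h2 : ‖ζ‖ * ‖a‖ ≤ (7073 / 10000 * t) * (7073 / 10000 * t) :=
    mul_le_mul hζ ha (norm_nonneg _) (by positivity)
  have h3 : ‖ζ‖ * ‖a‖ / (77 / 100 * t) ≤ 65 / 100 * t := by
    rw [div_le_iff₀ hρ]
    nlinarith
  have h4 : ‖bq (77 / 100 * t) a ζ‖ ≤ t * (3 / 2) := by linarith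
  have h5 := Real.log_le_log h0 h4
  rw [Real.log_mul ht.ne' (by norm_num)] at h5
  have h6 := Real.log_le_sub_one_of_pos (show (0 : ℝ) < 3 / 2 by norm_num)
  linarith

theorem cpl_self (x : List D) : cpl x x = x.length := by
  induction x with
  | nil => rfl
  | cons a x ih =>
    rw [cpl, if_pos rfl, ih, List.length_cons]

/-- the estimate for one word above `v` -/
theorem point (hGEO : T_GEO) (hHAR : T_HAR) {N k : ℕ} {v : List D} (hk : v.length + k = N)
    {w : List D → ℝ} {V m : ℝ} (hw : ∀ q ∈ lv N, 0 ≤ w q)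
    (hm : ∀ z, dist (Psi v z) ctr = 77 / 100 → m ≤ gr N w V z) {x0 : List D} (hx0 : x0 ∈ lv k)
    (hkp : kp (lv N) cc ((1 / 3) ^ N) w V (v ++ x0) = 0) :
    m ≤ ∑ x ∈ lv k, w (v ++ x) * (11 + 2 * cpl x0 x) := by
  have hv : v.length ≤ N := by omega
  have hkk : N - v.length = k := by omega
  set t : ℝ := (1 / 3) ^ v.length with ht
  have ht0 : 0 < t := by positivity
  set ρ : ℝ := 77 / 100 * t with hρ
  have hρ0 : 0 < ρ := by positivity
  set A := (lv N).filter (fun q => v <+: q) with hA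
  set B := (lv N).filter (fun q => ¬ v <+: q) with hB
  have hdA : ∀ q ∈ A, ‖cc q - cc v‖ ≤ 7073 / 10000 * t := by
    intro q hq
    obtain ⟨h1, h2⟩ := Finset.mem_filter.1 hq
    rw [← dist_eq_norm]
    exact geoA hGEO hv (mem_lv.1 h1) h2
  have hdB : ∀ q ∈ B, t ≤ dist (cc q) (cc v) := by
    intro q hq
    obtain ⟨h1, h2⟩ := Finset.mem_filter.1 hq
    exact geoB hGEO hv (mem_lv.1 h1) h2
  set q0 := v ++ x0 with hq0
  have hq0l : q0.length = N := by
    rw [hq0, List.length_append, mem_lv.1 hx0]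
    exact hk
  have hq0A : q0 ∈ A := Finset.mem_filter.2 ⟨mem_lv.2 hq0l, List.prefix_append v x0⟩
  set F : ℂ → ℝ := fun z => ((V - m) + ∑ q ∈ B, w q * Real.log ‖z - cc q‖) +
    ∑ q ∈ A, w q * Real.log ‖bq ρ (cc q - cc v) (z - cc v)‖ with hF
  have hharm : InnerProductSpace.HarmonicOnNhd F (closedBall (cc v) ρ) := by
    intro z hz
    rw [mem_closedBall] at hz
    have k1 : InnerProductSpace.HarmonicAt (fun z => ∑ q ∈ B, w q * Real.log ‖z - cc q‖) z := by
      refine harm_sum B _ z fun q hq => harm_log (w q) (by fun_prop) ?_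
      intro h
      have h1 : z = cc q := sub_eq_zero.1 h
      have h2 := hdB q hq
      rw [← h1] at h2
      linarith
    have k2 : InnerProductSpace.HarmonicAt
        (fun z => ∑ q ∈ A, w q * Real.log ‖bq ρ (cc q - cc v) (z - cc v)‖) z := by
      refine harm_sum A _ z fun q hq => harm_log (w q) (by unfold bq; fun_prop) ?_
      refine bq_ne hρ0 ?_ ?_
      · have := hdA q hq
        linarith
      · rw [← dist_eq_norm]
        exact hz
    exact ((InnerProductSpace.harmonicAt_const (V - m)).add k1).add k2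
  have hsph : ∀ z ∈ sphere (cc v) ρ, 0 ≤ F z := by
    intro z hz
    rw [mem_sphere] at hz
    have h1 : dist (Psi v z) ctr = 77 / 100 := by
      have h2 := scale v z (cc v)
      rw [Psi_cc, hz] at h2
      have h3 : t * (77 / 100) = t * dist (Psi v z) ctr := by
        rw [← h2]
        ring
      exact (mul_left_cancel₀ ht0.ne' h3).symm
    have h4 := hm z h1
    have h5 : F z = gr N w V z - m := by
      unfold gr hp
      rw [← Finset.sum_filter_add_sum_filter_not (lv N) (fun q => v <+: q)]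
      rw [hF]
      dsimp only
      have e1 : ∑ q ∈ A, w q * Real.log ‖bq ρ (cc q - cc v) (z - cc v)‖ =
          ∑ q ∈ A, w q * Real.log (dist z (cc q)) := by
        refine Finset.sum_congr rfl fun q _ => ?_
        rw [bq_sphere hρ0 (by rw [← dist_eq_norm]; exact hz), sub_sub_sub_cancel_right,
          ← dist_eq_norm]
      have e2 : ∑ q ∈ B, w q * Real.log ‖z - cc q‖ =
          ∑ q ∈ B, w q * Real.log (dist z (cc q)) := by
        refine Finset.sum_congr rfl fun q _ => ?_
        rw [← dist_eq_norm]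
      rw [e1, e2]
      ring
    rw [h5]
    linarith
  have hF0 : 0 ≤ F (cc q0) := by
    refine har0 hHAR hρ0 hharm hsph (s := 7073 / 7700) (by norm_num) (by norm_num) ?_
    rw [dist_eq_norm]
    refine (hdA q0 hq0A).trans (le_of_eq ?_)
    rw [hρ]
    ring
  -- the equation at `q0`
  have hkp' : V + w q0 * (Real.log ((1 / 3) ^ N) - 10) +
      (∑ q ∈ A, w q * Real.log (dist (cc q0) (cc q)) +
        ∑ q ∈ B, w q * Real.log (dist (cc q0) (cc q))) = 0 := by
    rw [← hkp]
    unfold kp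
    congr 1
    rw [hA, hB, Finset.sum_filter_add_sum_filter_not (lv N) (fun q => v <+: q),
      ← Finset.add_sum_erase (lv N) _ (mem_lv.2 hq0l), dist_self, Real.log_zero, mul_zero,
      zero_add]
  have hF0' : F (cc q0) = ((V - m) + ∑ q ∈ B, w q * Real.log (dist (cc q0) (cc q))) +
      ∑ q ∈ A, w q * Real.log ‖bq ρ (cc q - cc v) (cc q0 - cc v)‖ := by
    rw [hF]
    dsimp only
    congr 2
    refine Finset.sum_congr rfl fun q _ => ?_
    rw [← dist_eq_norm]
  rw [hF0'] at hF0
  have hite : ∑ q ∈ A, (if q = q0 then w q0 * (10 - Real.log ((1 / 3) ^ N)) else 0) =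
      w q0 * (10 - Real.log ((1 / 3) ^ N)) := by
    rw [Finset.sum_ite_eq' A q0, if_pos hq0A]
  have hmain : m ≤ ∑ q ∈ A, ((if q = q0 then w q0 * (10 - Real.log ((1 / 3) ^ N)) else 0) +
      (w q * Real.log ‖bq ρ (cc q - cc v) (cc q0 - cc v)‖ -
        w q * Real.log (dist (cc q0) (cc q)))) := by
    rw [Finset.sum_add_distrib, Finset.sum_sub_distrib, hite]
    linarith
  refine hmain.trans ?_
  rw [hA, sum_A hv, hkk]
  refine Finset.sum_le_sum fun x hx => ?_
  have hxl : (v ++ x).length = N := by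
    rw [List.length_append, mem_lv.1 hx]
    exact hk
  have hxA : v ++ x ∈ A := Finset.mem_filter.2 ⟨mem_lv.2 hxl, List.prefix_append v x⟩
  have hwx : 0 ≤ w (v ++ x) := hw _ (mem_lv.2 hxl)
  have hbq := log_bq ht0 (hdA (v ++ x) hxA) (hdA q0 hq0A)
  rw [← hρ, ht, log_third] at hbq
  obtain ⟨l1, l2⟩ := log3
  by_cases hxx : x = x0
  · subst hxx
    rw [if_pos rfl, dist_self, Real.log_zero, mul_zero, sub_zero, cpl_self, mem_lv.1 hx,
      ← mul_add]
    refine mul_le_mul_of_nonneg_left ?_ hwx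
    rw [log_third]
    have h1 : (N : ℝ) = v.length + k := by exact_mod_cast hk.symm
    rw [h1]
    have h2 : (0 : ℝ) ≤ k := Nat.cast_nonneg k
    nlinarith
  · have hne : v ++ x ≠ q0 := fun h => hxx (List.append_cancel_left h)
    rw [if_neg hne, zero_add, ← mul_sub]
    refine mul_le_mul_of_nonneg_left ?_ hwx
    have h1 := sepd hGEO hxl hq0l hxx
    have h2 : (0 : ℝ) < 2927 / 10000 * (1 / 3) ^ (v.length + cpl x0 x + 1) := by positivity
    have h3 := Real.log_le_log h2 h1
    rw [Real.log_mul (by norm_num) (by positivity), log_third] at h3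
    have h4 : -(5 / 2 : ℝ) ≤ Real.log (2927 / 10000) := by
      have h5 := Real.one_sub_inv_le_log_of_pos (show (0 : ℝ) < 2927 / 10000 by norm_num)
      norm_num at h5
      linarith
    push_cast at h3
    have h6 : (0 : ℝ) ≤ (cpl x0 x : ℝ) := Nat.cast_nonneg _
    nlinarith

end LWB_

open LWB_ in
/-- **LWB** -/
theorem p_LWB (hGEO : T_GEO) (hHAR : T_HAR) : T_LWB := by
  refine ⟨13, by norm_num, fun N v w V m hv hw hkp _ hm => ?_⟩
  obtain ⟨k, hk⟩ := Nat.exists_eq_add_of_le hv
  have hkk : N - v.length = k := by omega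
  rw [sum_A hv, hkk]
  have h1 : ∀ x0 ∈ lv k, m ≤ ∑ x ∈ lv k, w (v ++ x) * (11 + 2 * cpl x0 x) := by
    intro x0 hx0
    refine point hGEO hHAR hk.symm hw hm hx0 (hkp (v ++ x0) ?_ (List.prefix_append v x0))
    rw [mem_lv, List.length_append, mem_lv.1 hx0]
    exact hk.symm
  have h2 : (4 : ℝ) ^ k * m ≤ (4 : ℝ) ^ k * (13 * ∑ x ∈ lv k, w (v ++ x)) := by
    calc (4 : ℝ) ^ k * m = ∑ _x0 ∈ lv k, m := by
          rw [← one_lv, Finset.sum_mul]
          simp
      _ ≤ ∑ x0 ∈ lv k, ∑ x ∈ lv k, w (v ++ x) * (11 + 2 * cpl x0 x) :=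
          Finset.sum_le_sum h1
      _ = ∑ x ∈ lv k, w (v ++ x) *
          (11 * ∑ _x0 ∈ lv k, (1 : ℝ) + 2 * ∑ x0 ∈ lv k, (cpl x0 x : ℝ)) := by
          rw [Finset.sum_comm]
          refine Finset.sum_congr rfl fun x _ => ?_
          rw [← Finset.mul_sum, Finset.sum_add_distrib, Finset.mul_sum, Finset.mul_sum]
          simp
      _ ≤ ∑ x ∈ lv k, w (v ++ x) * (13 * 4 ^ k) := by
          refine Finset.sum_le_sum fun x hx => ?_
          have hwx : 0 ≤ w (v ++ x) := by
            refine hw _ ?_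
            rw [mem_lv, List.length_append, mem_lv.1 hx]
            exact hk.symm
          refine mul_le_mul_of_nonneg_left ?_ hwx
          rw [one_lv]
          have := sum_cpl k x (mem_lv.1 hx)
          linarith
      _ = (4 : ℝ) ^ k * (13 * ∑ x ∈ lv k, w (v ++ x)) := by
          rw [← Finset.sum_mul]
          ring
  exact le_of_mul_le_mul_left h2 (by positivity)

end Pool.Agent.CorE
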