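import Pool.Agent.CorE.Targets

set_option autoImplicit false

/-!
# ADD: Cauchy's theorem on a disc with four holes
-/

namespace Pool.Agent.CorE

open Complex Metric Set Filter Topology MeasureTheory
open Pool.Corona91698f
open scoped Real

namespace ADD_

theorem circ_shift (f : ℂ → ℂ) (c δ : ℂ) (R : ℝ) :
    (∮ z in C(c + δ, R), f z) = ∮ z in C(c, R), f (z + δ) := by
  have h : ∀ θ : ℝ, circleMap (c + δ) R θ = circleMap c R θ + δ := by
    intro θ
    simp only [circleMap]
    ring
  simp only [circleIntegral, deriv_circleMap, h]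

/-- integrals over circles around a hole, for functions which vanish at infinity -/
theorem shift {c o : ℂ} {ra M : ℝ} {g : ℂ → ℂ} (h0 : 0 < ra)
    (hg : DifferentiableOn ℂ g {z | ra < dist z c})
    (hM : ∀ z, ra < dist z c → ‖g z‖ ≤ ra / (dist z c - ra) * M) {ρ R : ℝ} (hρ : ra < ρ)
    (hR : ra + dist c o < R) : (∮ z in C(o, R), g z) = ∮ z in C(c, ρ), g z := by
  have hop : IsOpen {z | ra < dist z c} :=
    isOpen_lt continuous_const (continuous_id.dist continuous_const)
  have hda : ∀ z, ra < dist z c → DifferentiableAt ℂ g z := fun z hz =>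
    hg.differentiableAt (hop.mem_nhds hz)
  have hco := dist_nonneg (x := c) (y := o)
  have A1 : ∀ R2, R ≤ R2 → (∮ z in C(o, R2), g z) = ∮ z in C(o, R), g z := by
    intro R2 h2
    have h3 : ∀ z, R ≤ dist z o → ra < dist z c := by
      intro z hz
      have := dist_triangle z c o
      linarith
    refine circleIntegral_eq_of_differentiable_on_annulus_off_countable (by linarith) h2
      countable_empty (fun z hz => ?_) (fun z hz => ?_)
    · exact (hda z (h3 z (not_lt.1 fun h => hz.2 h))).continuousAt.continuousWithinAt
    · exact hda z (h3 z (not_le.1 fun h => hz.1.2 h).le)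
  have A2 : ∀ R2, ρ ≤ R2 → (∮ z in C(c, R2), g z) = ∮ z in C(c, ρ), g z := by
    intro R2 h2
    refine circleIntegral_eq_of_differentiable_on_annulus_off_countable (by linarith) h2
      countable_empty (fun z hz => ?_) (fun z hz => ?_)
    · exact (hda z (lt_of_lt_of_le hρ (not_lt.1 fun h => hz.2 h))).continuousAt.continuousWithinAt
    · exact hda z (lt_of_lt_of_le hρ (not_le.1 fun h => hz.1.2 h).le)
  set K : ℝ := ra * |M| with hK
  have hK0 : 0 ≤ K := by positivity
  have hKb : ∀ z, ra < dist z c → ‖g z‖ ≤ K / (dist z c - ra) := by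
    intro z hz
    refine (hM z hz).trans ?_
    rw [div_mul_eq_mul_div]
    exact div_le_div_of_nonneg_right (mul_le_mul_of_nonneg_left (le_abs_self M) h0.le)
      (by linarith)
  set δ : ℂ := o - c with hδ
  set D0 : ℂ := (∮ z in C(o, R), g z) - ∮ z in C(c, ρ), g z with hD0
  have main : ∀ R2, 4 * (ra + ‖δ‖ + 1) + R + ρ ≤ R2 → ‖D0‖ * R2 ≤ 32 * π * K * ‖δ‖ := by
    intro R2 h2
    have hδ0 := norm_nonneg δ
    have hR2 : 0 < R2 := by linarith
    have e1 : D0 = ∮ z in C(c, R2), (g (z + δ) - g z) := by
      have e2 : (∮ z in C(o, R2), g z) = ∮ z in C(c, R2), g (z + δ) := by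
        rw [← circ_shift, hδ]
        congr 1
        ring
      have i1 : CircleIntegrable (fun z => g (z + δ)) c R2 := by
        refine ContinuousOn.circleIntegrable hR2.le fun z hz => ?_
        have h3 : ra < dist (z + δ) c := by
          have h4 := dist_triangle z (z + δ) c
          rw [mem_sphere.1 hz, dist_self_add_right] at h4
          linarith
        have h5 : ContinuousAt (fun z : ℂ => z + δ) z := by fun_prop
        exact (ContinuousAt.comp (f := fun z : ℂ => z + δ) (hda _ h3).continuousAt
          h5).continuousWithinAt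
      have i2 : CircleIntegrable g c R2 := by
        refine ContinuousOn.circleIntegrable hR2.le fun z hz => ?_
        exact (hda z (by rw [mem_sphere.1 hz]; linarith)).continuousAt.continuousWithinAt
      rw [circleIntegral.integral_sub i1 i2, ← e2, A1 R2 (by linarith), A2 R2 (by linarith)]
    have b1 : ∀ z ∈ sphere c R2, ‖g (z + δ) - g z‖ ≤ K / (R2 / 4) / (R2 / 4) * ‖δ‖ := by
      intro z hz
      have hzc : dist z c = R2 := mem_sphere.1 hz
      have q1 : ∀ w ∈ closedBall z ‖δ‖, 3 / 4 * R2 ≤ dist w c := by
        intro w hw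
        have h4 := dist_triangle z w c
        rw [hzc, dist_comm z w] at h4
        have h5 := mem_closedBall.1 hw
        linarith
      have q2 : ∀ w ∈ closedBall z ‖δ‖, DifferentiableAt ℂ g w := fun w hw =>
        hda w (by have := q1 w hw; linarith)
      have q3 : ∀ w ∈ closedBall z ‖δ‖, ‖deriv g w‖ ≤ K / (R2 / 4) / (R2 / 4) := by
        intro w hw
        have q4 : ∀ ζ ∈ closedBall w (R2 / 4), R2 / 2 ≤ dist ζ c := by
          intro ζ hζ
          have h4 := dist_triangle w ζ c
          rw [dist_comm w ζ] at h4
          have h5 := mem_closedBall.1 hζ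
          have h6 := q1 w hw
          linarith
        refine norm_deriv_le_of_forall_mem_sphere_norm_le (by linarith) ?_ ?_
        · refine DifferentiableOn.diffContOnCl fun ζ hζ => ?_
          have h7 := q4 ζ (closure_ball_subset_closedBall hζ)
          exact (hda ζ (by linarith)).differentiableWithinAt
        · intro ζ hζ
          have h7 := q4 ζ (sphere_subset_closedBall hζ)
          refine (hKb ζ (by linarith)).trans ?_
          exact div_le_div_of_nonneg_left hK0 (by linarith) (by linarith)
      have q5 := (convex_closedBall z ‖δ‖).norm_image_sub_le_of_norm_deriv_le q2 q3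
        (mem_closedBall_self hδ0) (y := z + δ) (by
          rw [mem_closedBall, dist_self_add_left])
      rwa [add_sub_cancel_left] at q5
    have b2 := circleIntegral.norm_integral_le_of_norm_le_const hR2.le b1
    rw [← e1] at b2
    calc ‖D0‖ * R2 ≤ 2 * π * R2 * (K / (R2 / 4) / (R2 / 4) * ‖δ‖) * R2 :=
          mul_le_mul_of_nonneg_right b2 hR2.le
      _ = 32 * π * K * ‖δ‖ := by
          field_simp
          ring
  by_contra hne
  have hD : 0 < ‖D0‖ := norm_pos_iff.2 (sub_ne_zero.2 hne)
  have hδ0 := norm_nonneg δ
  have hC : 0 ≤ 32 * π * K * ‖δ‖ := by positivity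
  have h9 := main (4 * (ra + ‖δ‖ + 1) + R + ρ + 32 * π * K * ‖δ‖ / ‖D0‖)
    (by have := div_nonneg hC hD.le; linarith)
  rw [mul_add, mul_div_cancel₀ _ hD.ne'] at h9
  have h10 : 0 < ‖D0‖ * (4 * (ra + ‖δ‖ + 1) + R + ρ) := mul_pos hD (by linarith)
  linarith

theorem disc {f : ℂ → ℂ} {c : ℂ} {R : ℝ} (h0 : 0 ≤ R)
    (hf : ∀ z, dist z c ≤ R → DifferentiableAt ℂ f z) : (∮ z in C(c, R), f z) = 0 :=
  circleIntegral_eq_zero_of_differentiable_on_off_countable h0 countable_empty
    (fun z hz => (hf z (mem_closedBall.1 hz)).continuousAt.continuousWithinAt)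
    fun z hz => hf z (mem_ball.1 hz.1).le

theorem core (o : ℂ) (c : D → ℂ) (s : ℝ) (hs : 0 < s) (h1 : ∀ d, dist (c d) o ≤ 4715 / 10000 * s)
    (h2 : ∀ d d', d ≠ d' → 2 / 3 * s ≤ dist (c d) (c d')) (T : Finset D) : ∀ F : ℂ → ℂ,
    DifferentiableOn ℂ F {z | dist z o < 78 / 100 * s ∧ ∀ d ∈ T, 76 / 300 * s < dist z (c d)} →
    (∮ z in C(o, 77 / 100 * s), F z) = ∑ d ∈ T, ∮ z in C(c d, 77 / 300 * s), F z := by
  induction T using Finset.induction_on with
  | empty =>
    intro F hF
    rw [Finset.sum_empty]
    refine disc (by positivity) fun z hz => ?_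
    have hop : IsOpen {z : ℂ | dist z o < 78 / 100 * s ∧
        ∀ d ∈ (∅ : Finset D), 76 / 300 * s < dist z (c d)} := by
      have : {z : ℂ | dist z o < 78 / 100 * s ∧
        ∀ d ∈ (∅ : Finset D), 76 / 300 * s < dist z (c d)} = ball o (78 / 100 * s) := by
        ext z
        simp
      rw [this]
      exact isOpen_ball
    exact hF.differentiableAt (hop.mem_nhds ⟨by linarith, by simp⟩)
  | insert d T hd ih =>
    intro F hF
    have hopT : ∀ S : Finset D, IsOpen {z : ℂ | dist z o < 78 / 100 * s ∧
        ∀ d ∈ S, 76 / 300 * s < dist z (c d)} := by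
      intro S
      have : {z : ℂ | dist z o < 78 / 100 * s ∧ ∀ d ∈ S, 76 / 300 * s < dist z (c d)} =
          {z : ℂ | dist z o < 78 / 100 * s} ∩ ⋂ d ∈ S, {z : ℂ | 76 / 300 * s < dist z (c d)} := by
        ext z
        simp
      rw [this]
      refine (isOpen_lt (continuous_id.dist continuous_const) continuous_const).inter ?_
      exact isOpen_biInter_finset fun i _ =>
        isOpen_lt continuous_const (continuous_id.dist continuous_const)
    have hFd : ∀ z, dist z o < 78 / 100 * s → (∀ d' ∈ T, 76 / 300 * s < dist z (c d')) →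
        76 / 300 * s < dist z (c d) → DifferentiableAt ℂ F z := by
      intro z hz1 hz2 hz3
      refine hF.differentiableAt ((hopT _).mem_nhds ⟨hz1, ?_⟩)
      intro d' hd'
      rcases Finset.mem_insert.1 hd' with h | h
      · rw [h]; exact hz3
      · exact hz2 d' h
    have hne : ∀ d' ∈ T, d ≠ d' := fun d' hd' h => hd (h ▸ hd')
    -- the annulus around `c d`
    have hann : ∀ z, dist z (c d) < 78 / 300 * s → dist z o < 78 / 100 * s ∧
        ∀ d' ∈ T, 78 / 300 * s < dist z (c d') := by
      intro z hz
      refine ⟨?_, fun d' hd' => ?_⟩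
      · have h3 := dist_triangle z (c d) o
        have h4 := h1 d
        linarith
      · have h3 := dist_triangle_left (c d) (c d') z
        have h4 := h2 d d' (hne d' hd')
        linarith
    obtain ⟨wp, wm, hwp, hwm, hsum, ⟨M, hM⟩, -⟩ := laurent_full (c := c d) (r₁ := 76 / 300 * s)
      (ra := 765 / 3000 * s) (rb := 775 / 3000 * s) (r₂ := 78 / 300 * s) (by positivity)
      (by linarith) (by linarith) (by linarith) (w := F) (fun z hz => by
        obtain ⟨h3, h4⟩ := hann z hz.2
        exact (hFd z h3 (fun d' hd' => by have := h4 d' hd'; linarith)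
          hz.1).differentiableWithinAt)
    have hwmd : ∀ z, 765 / 3000 * s < dist z (c d) → DifferentiableAt ℂ wm z := fun z hz =>
      hwm.differentiableAt ((isOpen_lt continuous_const
        (continuous_id.dist continuous_const)).mem_nhds hz)
    have hwpd : ∀ z, dist z (c d) < 775 / 3000 * s → DifferentiableAt ℂ wp z := fun z hz =>
      hwp.differentiableAt (isOpen_ball.mem_nhds hz)
    classical
    set F1 : ℂ → ℂ := fun z => if dist z (c d) < 775 / 3000 * s then wp z else F z - wm z with hF1
    have eqo : ∀ z, 765 / 3000 * s < dist z (c d) → F1 z = F z - wm z := by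
      intro z hz
      simp only [hF1]
      split_ifs with h
      · rw [hsum z hz h]
        ring
      · rfl
    have hF1d : DifferentiableOn ℂ F1 {z | dist z o < 78 / 100 * s ∧
        ∀ d ∈ T, 76 / 300 * s < dist z (c d)} := by
      intro z hz
      apply DifferentiableAt.differentiableWithinAt
      rcases lt_or_ge (dist z (c d)) (775 / 3000 * s) with h | h
      · refine (hwpd z h).congr_of_eventuallyEq ?_
        filter_upwards [isOpen_ball.mem_nhds (mem_ball.2 h)] with y hy
        simp only [hF1]
        rw [if_pos (mem_ball.1 hy)]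
      · have h' : 765 / 3000 * s < dist z (c d) := by linarith
        refine ((hFd z hz.1 hz.2 (by linarith)).sub (hwmd z h')).congr_of_eventuallyEq ?_
        filter_upwards [(isOpen_lt continuous_const
          (continuous_id.dist continuous_const)).mem_nhds h'] with y hy
        exact eqo y hy
    have ihF := ih F1 hF1d
    have hc0 : ∀ z, dist z o = 77 / 100 * s → 765 / 3000 * s < dist z (c d) ∧
        ∀ d' ∈ T, 76 / 300 * s < dist z (c d') := by
      intro z hz
      refine ⟨?_, fun d' _ => ?_⟩
      · have h3 := dist_triangle z (c d) o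
        have h4 := h1 d
        linarith
      · have h3 := dist_triangle z (c d') o
        have h4 := h1 d'
        linarith
    have i1 : CircleIntegrable F o (77 / 100 * s) := by
      refine ContinuousOn.circleIntegrable (by positivity) fun z hz => ?_
      have h3 := mem_sphere.1 hz
      obtain ⟨h4, h5⟩ := hc0 z h3
      exact (hFd z (by linarith) h5 (by linarith)).continuousAt.continuousWithinAt
    have i2 : CircleIntegrable wm o (77 / 100 * s) := by
      refine ContinuousOn.circleIntegrable (by positivity) fun z hz => ?_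
      exact (hwmd z (hc0 z (mem_sphere.1 hz)).1).continuousAt.continuousWithinAt
    have e1 : (∮ z in C(o, 77 / 100 * s), F1 z) =
        (∮ z in C(o, 77 / 100 * s), F z) - ∮ z in C(o, 77 / 100 * s), wm z := by
      rw [← circleIntegral.integral_sub i1 i2]
      exact circleIntegral.integral_congr (by positivity) fun z hz =>
        eqo z (hc0 z (mem_sphere.1 hz)).1
    have e2 : (∮ z in C(o, 77 / 100 * s), wm z) = ∮ z in C(c d, 77 / 300 * s), wm z := by
      refine shift (by positivity) hwm hM (by linarith) ?_
      have := h1 d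
      linarith
    have e3 : ∀ d' ∈ T, (∮ z in C(c d', 77 / 300 * s), F1 z) =
        ∮ z in C(c d', 77 / 300 * s), F z := by
      intro d' hd'
      have g1 : ∀ z, dist z (c d') ≤ 77 / 300 * s → 765 / 3000 * s < dist z (c d) := by
        intro z hz
        have h3 := dist_triangle_left (c d) (c d') z
        have h4 := h2 d d' (hne d' hd')
        linarith
      have g2 : (∮ z in C(c d', 77 / 300 * s), wm z) = 0 :=
        disc (by positivity) fun z hz => hwmd z (g1 z hz)
      have j1 : CircleIntegrable F (c d') (77 / 300 * s) := by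
        refine ContinuousOn.circleIntegrable (by positivity) fun z hz => ?_
        have h3 := mem_sphere.1 hz
        have h5 := dist_triangle z (c d') o
        have h6 := h1 d'
        refine (hFd z (by linarith) (fun d'' hd'' => ?_)
          (by have := g1 z h3.le; linarith)).continuousAt.continuousWithinAt
        by_cases h7 : d'' = d'
        · rw [h7]
          linarith
        · have h8 := h2 d'' d' h7
          have h9 := dist_triangle_left (c d'') (c d') z
          linarith
      have j2 : CircleIntegrable wm (c d') (77 / 300 * s) := by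
        refine ContinuousOn.circleIntegrable (by positivity) fun z hz => ?_
        exact (hwmd z (g1 z (mem_sphere.1 hz).le)).continuousAt.continuousWithinAt
      have e4 : (∮ z in C(c d', 77 / 300 * s), F1 z) =
          (∮ z in C(c d', 77 / 300 * s), F z) - ∮ z in C(c d', 77 / 300 * s), wm z := by
        rw [← circleIntegral.integral_sub j1 j2]
        exact circleIntegral.integral_congr (by positivity) fun z hz =>
          eqo z (g1 z (mem_sphere.1 hz).le)
      rw [e4, g2, sub_zero]
    have e5 : (∮ z in C(c d, 77 / 300 * s), F z) = ∮ z in C(c d, 77 / 300 * s), wm z := by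
      have k1 : CircleIntegrable wp (c d) (77 / 300 * s) := by
        refine ContinuousOn.circleIntegrable (by positivity) fun z hz => ?_
        have h3 := mem_sphere.1 hz
        exact (hwpd z (by linarith)).continuousAt.continuousWithinAt
      have k2 : CircleIntegrable wm (c d) (77 / 300 * s) := by
        refine ContinuousOn.circleIntegrable (by positivity) fun z hz => ?_
        have h3 := mem_sphere.1 hz
        exact (hwmd z (by linarith)).continuousAt.continuousWithinAt
      have k3 : (∮ z in C(c d, 77 / 300 * s), wp z) = 0 :=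
        disc (by positivity) fun z hz => hwpd z (by linarith)
      have k4 : (∮ z in C(c d, 77 / 300 * s), F z) =
          (∮ z in C(c d, 77 / 300 * s), wp z) + ∮ z in C(c d, 77 / 300 * s), wm z := by
        rw [← circleIntegral.integral_add k1 k2]
        refine circleIntegral.integral_congr (by positivity) fun z hz => ?_
        have h3 := mem_sphere.1 hz
        exact hsum z (by linarith) (by linarith)
      rw [k4, k3, zero_add]
    rw [Finset.sum_insert hd, e5, ← e2, ← Finset.sum_congr rfl e3, ← ihF, e1]
    ring

theorem dist_phi (d : D) : dist (phi d ctr) ctr ≤ 4715 / 10000 := by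
  have h : dist (phi d ctr) ctr ^ 2 = 2 / 9 := by
    rw [dist_sq]
    rcases d with ⟨a, b⟩
    cases a <;> cases b <;> simp [phi, dig, ctr] <;> norm_num
  nlinarith [dist_nonneg (x := phi d ctr) (y := ctr)]

theorem dist_phi2 (d d' : D) (hd : d ≠ d') : 2 / 3 ≤ dist (phi d ctr) (phi d' ctr) := by
  have h : 4 / 9 ≤ dist (phi d ctr) (phi d' ctr) ^ 2 := by
    rw [dist_sq]
    rcases d with ⟨a, b⟩
    rcases d' with ⟨a', b'⟩
    cases a <;> cases b <;> cases a' <;> cases b' <;> simp [phi, dig, ctr] at hd ⊢ <;> norm_num
  nlinarith [dist_nonneg (x := phi d ctr) (y := phi d' ctr)]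

end ADD_

open ADD_ in
theorem p_ADD : T_ADD := by
  intro p h hh
  have hs : (0 : ℝ) < (1 / 3) ^ p.length := by positivity
  have h3n : (3 : ℝ) ^ p.length * (1 / 3) ^ p.length = 1 := by
    rw [← mul_pow]
    norm_num
  have hP : ∀ z w : ℂ, dist z w = (1 / 3) ^ p.length * dist (Psi p z) (Psi p w) := by
    intro z w
    rw [dist_Psi, ← mul_assoc, mul_comm ((1 / 3 : ℝ) ^ p.length), h3n, one_mul]
  have hq : ∀ d : D, Psi p (cc (p ++ [d])) = phi d ctr := by
    intro d
    unfold cc
    rw [Phi_snoc, Psi_Phi]
  have hp : Psi p (cc p) = ctr := by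
    unfold cc
    rw [Psi_Phi]
  have key := core (cc p) (fun d => cc (p ++ [d])) ((1 / 3) ^ p.length) hs
    (fun d => by
      rw [hP, hq, hp, mul_comm]
      exact mul_le_mul_of_nonneg_right (dist_phi d) hs.le)
    (fun d d' hd => by
      rw [hP, hq, hq, mul_comm ((1 / 3 : ℝ) ^ p.length)]
      exact mul_le_mul_of_nonneg_right (dist_phi2 d d' hd) hs.le)
    Finset.univ h (hh.mono fun z hz => by
      obtain ⟨z1, z2⟩ := hz
      refine ⟨?_, fun d => ?_⟩
      · rw [hP, hp, mul_comm] at z1
        exact lt_of_mul_lt_mul_right z1 hs.le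
      · have z3 := z2 d (Finset.mem_univ d)
        rw [hP, hq, mul_comm ((1 / 3 : ℝ) ^ p.length)] at z3
        have z4 := lt_of_mul_lt_mul_right z3 hs.le
        have z5 : dist (psi d (Psi p z)) ctr = 3 * dist (Psi p z) (phi d ctr) := by
          have e : psi d (Psi p z) - ctr = 3 * (Psi p z - phi d ctr) := by
            rw [← psi_sub, psi_phi]
          rw [dist_eq_norm, e, norm_mul, dist_eq_norm]
          norm_num
        rw [z5]
        linarith)
  unfold cm
  rw [← Finset.mul_sum, key]
  congr 1
  refine Finset.sum_congr rfl fun d _ => ?_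
  congr 1
  rw [List.length_append, List.length_singleton, pow_succ]
  ring

end Pool.Agent.CorE
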