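import Pool.Agent.CorE.Targets

/-!
# Circle averages of logarithms (target AVG)
-/

set_option autoImplicit false

namespace Pool.Agent.CorE

open Complex Metric Set Filter Topology MeasureTheory
open Pool.Corona91698f
open scoped Real

namespace AVG_

/-- the average around the charge itself -/
theorem av_self (c : ℂ) {l : ℝ} (hl : 0 < l) :
    Real.circleAverage (fun z => Real.log ‖z - c‖) c l = Real.log l := by
  rw [circleAverage_log_norm_sub_const_eq_log_radius_add_posLog hl.ne']
  simp

/-- the average around another charge -/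
theorem av_other (c c' : ℂ) {l : ℝ} (hl : 0 < l) (h : 2 * l ≤ dist c c') :
    Real.circleAverage (fun z => Real.log ‖z - c'‖) c l = Real.log (dist c c') := by
  rw [circleAverage_log_norm_sub_const_eq_log_radius_add_posLog hl.ne', ← dist_eq_norm]
  have hd : 0 < dist c c' := by linarith
  have h1 : 1 ≤ l⁻¹ * dist c c' := by
    rw [inv_mul_eq_div, le_div_iff₀ hl]
    linarith
  rw [Real.posLog_eq_log (h1.trans (le_abs_self _)), Real.log_mul (inv_ne_zero hl.ne') hd.ne',
    Real.log_inv]
  ring

end AVG_

open AVG_ in
/-- **AVG** -/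
theorem p_AVG : T_AVG := by
  intro ι _ S c l w V hSep q hq
  obtain ⟨hl, hs⟩ := hSep
  have e : hp S c w V = fun z => V + ∑ q' ∈ S, w q' • Real.log ‖z - c q'‖ := by
    funext z
    simp only [hp, dist_eq_norm, smul_eq_mul]
  have hI : ∀ q' ∈ S, CircleIntegrable (fun z => w q' • Real.log ‖z - c q'‖) (c q) l :=
    fun q' _ => (circleIntegrable_log_norm_sub_const l).const_fun_smul
  have hS : CircleIntegrable (fun z => ∑ q' ∈ S, w q' • Real.log ‖z - c q'‖) (c q) l := by
    have h := CircleIntegrable.sum S hI
    have e2 : (∑ q' ∈ S, fun z => w q' • Real.log ‖z - c q'‖) =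
        fun z => ∑ q' ∈ S, w q' • Real.log ‖z - c q'‖ := by
      funext z
      rw [Finset.sum_apply]
    rwa [e2] at h
  rw [e, Real.circleAverage_fun_add (circleIntegrable_const V _ _) hS,
    Real.circleAverage_const, Real.circleAverage_fun_sum hI, ← Finset.add_sum_erase S _ hq]
  have h1 : ∀ q' ∈ S.erase q, Real.circleAverage (fun z => w q' • Real.log ‖z - c q'‖) (c q) l =
      w q' * Real.log (dist (c q) (c q')) := by
    intro q' hq'
    rw [Real.circleAverage_fun_smul, av_other (c q) (c q') hl
      (hs q hq q' (Finset.mem_of_mem_erase hq') (Finset.ne_of_mem_erase hq').symm), smul_eq_mul]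
  rw [Finset.sum_congr rfl h1, Real.circleAverage_fun_smul, av_self (c q) hl, smul_eq_mul]
  unfold kp
  ring

end Pool.Agent.CorE
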