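import Pool.Agent.CorE.Targets

/-!
# CHG: equilibrium charges and harmonic majorants
-/

set_option autoImplicit false

namespace Pool.Agent.CorE

open Complex Metric Set Filter Topology MeasureTheory
open Pool.Corona91698f
open scoped Real

namespace CHG_

variable {ι : Type} [DecidableEq ι]

theorem sphere_Rg {S : Finset ι} {c : ι → ℂ} {l : ℝ} (hS : Sep S c l) {q : ι} (hq : q ∈ S) {z : ℂ}
    (hz : dist z (c q) = l) : z ∈ Rg S c l := by
  intro q' hq'
  have hl := hS.1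
  by_cases h : q' = q
  · subst h
    rw [hz]
    linarith
  · have h1 := hS.2 q hq q' hq' (fun h' => h h'.symm)
    have h2 := dist_triangle (c q) z (c q')
    rw [dist_comm (c q) z, hz] at h2
    linarith

theorem wpos (hAVG : T_AVG) {S : Finset ι} {c : ι → ℂ} {l : ℝ} (hS : Sep S c l) {w : ι → ℝ}
    {V : ℝ} (h : ∀ z ∈ Rg S c l, 0 ≤ hp S c w V z) {q : ι} (hq : q ∈ S) :
    0 ≤ kp S c l w V q + 10 * w q := by
  rw [← hAVG ι S c l w V hS q hq]
  unfold Real.circleAverage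
  have h1 : (0 : ℝ) ≤ ∫ θ in (0 : ℝ)..2 * π, hp S c w V (circleMap (c q) l θ) := by
    refine intervalIntegral.integral_nonneg_of_forall Real.two_pi_pos.le fun θ => ?_
    refine h _ (sphere_Rg hS hq ?_)
    rw [dist_eq_norm]
    have h2 := circleMap_mem_sphere (c q) hS.1.le θ
    rwa [mem_sphere, dist_eq_norm] at h2
  have h2 : (0 : ℝ) ≤ (2 * π)⁻¹ := by positivity
  exact smul_nonneg h2 h1

theorem kp_add (S : Finset ι) (c : ι → ℂ) (l : ℝ) (w w' : ι → ℝ) (V V' : ℝ) (q : ι) :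
    kp S c l (w + w') (V + V') q = kp S c l w V q + kp S c l w' V' q := by
  unfold kp
  simp only [Pi.add_apply, add_mul, Finset.sum_add_distrib]
  ring

theorem kp_smul (S : Finset ι) (c : ι → ℂ) (l : ℝ) (a : ℝ) (w : ι → ℝ) (V : ℝ) (q : ι) :
    kp S c l (a • w) (a * V) q = a * kp S c l w V q := by
  unfold kp
  simp only [Pi.smul_apply, smul_eq_mul, mul_add, Finset.mul_sum]
  congr 1
  · ring
  · exact Finset.sum_congr rfl fun q' _ => by ring

/-- extension by zero -/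
def ext (S : Finset ι) (v : S → ℝ) : ι → ℝ := fun i => if h : i ∈ S then v ⟨i, h⟩ else 0

theorem ext_mem {S : Finset ι} (v : S → ℝ) {q : ι} (hq : q ∈ S) : ext S v q = v ⟨q, hq⟩ := by
  simp only [ext, dif_pos hq]

theorem ext_add (S : Finset ι) (v v' : S → ℝ) : ext S (v + v') = ext S v + ext S v' := by
  funext i
  simp only [ext, Pi.add_apply]
  split_ifs
  · rfl
  · ring

theorem ext_smul (S : Finset ι) (a : ℝ) (v : S → ℝ) : ext S (a • v) = a • ext S v := by
  funext i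
  simp only [ext, Pi.smul_apply, smul_eq_mul]
  split_ifs
  · rfl
  · ring

/-- the linear system -/
noncomputable def lin (S : Finset ι) (c : ι → ℂ) (l : ℝ) :
    ((S → ℝ) × ℝ) →ₗ[ℝ] ((S → ℝ) × ℝ) where
  toFun x := (fun q => kp S c l (ext S x.1) x.2 q, ∑ q ∈ S, ext S x.1 q)
  map_add' x y := by
    refine Prod.ext ?_ ?_
    · funext q
      show kp S c l (ext S (x.1 + y.1)) (x.2 + y.2) q = _
      rw [ext_add, kp_add]
      rfl
    · show ∑ q ∈ S, ext S (x.1 + y.1) q = ∑ q ∈ S, ext S x.1 q + ∑ q ∈ S, ext S y.1 q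
      rw [ext_add, ← Finset.sum_add_distrib]
      rfl
  map_smul' a x := by
    refine Prod.ext ?_ ?_
    · funext q
      show kp S c l (ext S (a • x.1)) (a * x.2) q = _
      rw [ext_smul, kp_smul]
      rfl
    · show ∑ q ∈ S, ext S (a • x.1) q = a * ∑ q ∈ S, ext S x.1 q
      rw [ext_smul, Finset.mul_sum]
      rfl

theorem inj0 (hPOS : T_POS) (hAVG : T_AVG) {S : Finset ι} {c : ι → ℂ} {l : ℝ} (hne : S.Nonempty)
    (hS : Sep S c l) {w : ι → ℝ} {V : ℝ} (hk : ∀ q ∈ S, kp S c l w V q = 0)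
    (hs : ∑ q ∈ S, w q = 0) (hV : 0 ≤ V) : (∀ q ∈ S, w q = 0) ∧ V = 0 := by
  have h1 := hPOS ι S c l w V hS (fun q hq => (hk q hq).ge) (Or.inr ⟨hs, hV⟩)
  have h2 : ∀ q ∈ S, 0 ≤ w q := fun q hq => by
    have := wpos hAVG hS h1 hq
    rw [hk q hq] at this
    linarith
  have h3 : ∀ q ∈ S, w q = 0 := (Finset.sum_eq_zero_iff_of_nonneg h2).1 hs
  refine ⟨h3, ?_⟩
  obtain ⟨q, hq⟩ := hne
  have h4 := hk q hq
  unfold kp at h4
  rw [h3 q hq, Finset.sum_eq_zero (fun q' hq' => by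
    rw [h3 q' (Finset.mem_of_mem_erase hq'), zero_mul])] at h4
  linarith

theorem inj1 (hPOS : T_POS) (hAVG : T_AVG) {S : Finset ι} {c : ι → ℂ} {l : ℝ} (hne : S.Nonempty)
    (hS : Sep S c l) {w : ι → ℝ} {V : ℝ} (hk : ∀ q ∈ S, kp S c l w V q = 0)
    (hs : ∑ q ∈ S, w q = 0) : (∀ q ∈ S, w q = 0) ∧ V = 0 := by
  rcases le_total 0 V with hV | hV
  · exact inj0 hPOS hAVG hne hS hk hs hV
  · have h := inj0 hPOS hAVG hne hS (w := (-1 : ℝ) • w) (V := (-1 : ℝ) * V)
      (fun q hq => by rw [kp_smul, hk q hq, mul_zero])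
      (by
        simp only [Pi.smul_apply, smul_eq_mul]
        rw [← Finset.mul_sum, hs, mul_zero]) (by linarith)
    refine ⟨fun q hq => ?_, by linarith [h.2]⟩
    have h1 := h.1 q hq
    simp only [Pi.smul_apply, smul_eq_mul] at h1
    linarith

theorem solve (hPOS : T_POS) (hAVG : T_AVG) {S : Finset ι} {c : ι → ℂ} {l : ℝ} (hne : S.Nonempty)
    (hS : Sep S c l) (K : ι → ℝ) (s : ℝ) : ∃ (w : ι → ℝ) (V : ℝ),
      (∀ q ∈ S, kp S c l w V q = K q) ∧ ∑ q ∈ S, w q = s := by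
  have hinj : Function.Injective (lin S c l) := by
    rw [← LinearMap.ker_eq_bot, LinearMap.ker_eq_bot']
    intro x hx
    have h1 : (fun q : S => kp S c l (ext S x.1) x.2 q) = 0 := congrArg Prod.fst hx
    have h2 : ∑ q ∈ S, ext S x.1 q = 0 := congrArg Prod.snd hx
    obtain ⟨h3, h4⟩ := inj1 hPOS hAVG hne hS (w := ext S x.1) (V := x.2)
      (fun q hq => congrFun h1 ⟨q, hq⟩) h2
    refine Prod.ext ?_ h4
    funext q
    have := h3 q q.2
    rwa [ext_mem x.1 q.2] at this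
  obtain ⟨x, hx⟩ := LinearMap.injective_iff_surjective.1 hinj (fun q => K q, s)
  refine ⟨ext S x.1, x.2, fun q hq => ?_, congrArg Prod.snd hx⟩
  exact congrFun (congrArg Prod.fst hx) ⟨q, hq⟩

/-- the matrix -/
noncomputable def A (c : ι → ℂ) (l : ℝ) (q q' : ι) : ℝ :=
  if q = q' then Real.log l - 10 else Real.log (dist (c q) (c q'))

theorem A_symm (c : ι → ℂ) (l : ℝ) (q q' : ι) : A c l q q' = A c l q' q := by
  unfold A
  by_cases h : q = q'
  · rw [if_pos h, if_pos h.symm]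
  · rw [if_neg h, if_neg (fun h' => h h'.symm), dist_comm]

theorem kp_eq {S : Finset ι} {c : ι → ℂ} {l : ℝ} {w : ι → ℝ} {V : ℝ} {q : ι} (hq : q ∈ S) :
    kp S c l w V q = V + ∑ q' ∈ S, A c l q q' * w q' := by
  unfold kp
  rw [← Finset.add_sum_erase S _ hq, add_assoc]
  congr 1
  congr 1
  · unfold A
    rw [if_pos rfl]
    ring
  · refine Finset.sum_congr rfl fun q' hq' => ?_
    unfold A
    rw [if_neg (fun h => (Finset.ne_of_mem_erase hq') h.symm)]
    ring

theorem sym {S : Finset ι} {c : ι → ℂ} {l : ℝ} {w w' K : ι → ℝ} {V V' : ℝ}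
    (h1 : ∑ q ∈ S, w q = 1) (h2 : ∀ q ∈ S, kp S c l w V q = 0) (h3 : ∑ q ∈ S, w' q = 0)
    (h4 : ∀ q ∈ S, kp S c l w' V' q = K q) : V' = ∑ q ∈ S, w q * K q := by
  have e1 : ∑ q ∈ S, w q * K q = ∑ q ∈ S, w q * V' +
      ∑ q ∈ S, ∑ q' ∈ S, w q * (A c l q q' * w' q') := by
    rw [← Finset.sum_add_distrib]
    refine Finset.sum_congr rfl fun q hq => ?_
    rw [← h4 q hq, kp_eq hq, mul_add, Finset.mul_sum]
  have e2 : ∑ q ∈ S, ∑ q' ∈ S, w q * (A c l q q' * w' q') =
      ∑ q' ∈ S, w' q' * (kp S c l w V q' - V) := by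
    rw [Finset.sum_comm]
    refine Finset.sum_congr rfl fun q' hq' => ?_
    rw [kp_eq hq', add_sub_cancel_left, Finset.mul_sum]
    refine Finset.sum_congr rfl fun q _ => ?_
    rw [A_symm c l q q']
    ring
  have e3 : ∑ q' ∈ S, w' q' * (kp S c l w V q' - V) = 0 := by
    have : ∑ q' ∈ S, w' q' * (kp S c l w V q' - V) = ∑ q' ∈ S, w' q' * (-V) :=
      Finset.sum_congr rfl fun q' hq' => by rw [h2 q' hq', zero_sub]
    rw [this, ← Finset.sum_mul, h3, zero_mul]
  rw [e1, e2, e3, add_zero, ← Finset.sum_mul, h1, one_mul]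

theorem num {s K w : ℝ} (h1 : 1 / 10 ≤ s) (h2 : s ≤ 4 / 5) (hK : 0 ≤ K) (hw : 0 ≤ K + 10 * w) :
    K / 50 ≤ (1 - s) / (1 + s) * (K + 10 * w) + w * Real.log s := by
  have hs0 : 0 < s := by linarith
  set ρ : ℝ := (1 - s) / (1 + s) with hρ
  have hρ1 : ρ * (1 + s) = 1 - s := by
    rw [hρ]
    field_simp
  have hρ9 : 1 / 9 ≤ ρ := by
    rw [hρ, div_le_div_iff₀ (by norm_num) (by linarith)]
    linarith
  have hl2 : Real.log 2 ≤ 7 / 10 := by
    have := Real.log_two_lt_d9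
    linarith
  have hσ : 0 ≤ 10 * ρ + Real.log s := by
    rcases le_total s (1 / 2) with h | h
    · have a1 : 1 / 3 ≤ ρ := by
        rw [hρ, div_le_div_iff₀ (by norm_num) (by linarith)]
        linarith
      have a2 : Real.log (1 / 16) ≤ Real.log s :=
        Real.log_le_log (by norm_num) (by linarith)
      have a3 : Real.log (1 / 16) = -(4 * Real.log 2) := by
        rw [one_div, Real.log_inv]
        have : (16 : ℝ) = 2 ^ 4 := by norm_num
        rw [this, Real.log_pow]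
        norm_num
      linarith
    · have a2 : Real.log (1 / 2) ≤ Real.log s := Real.log_le_log (by norm_num) h
      have a3 : Real.log (1 / 2) = -Real.log 2 := by
        rw [one_div, Real.log_inv]
      linarith
  have hls : 1 / 5 ≤ -Real.log s := by
    have := Real.log_le_sub_one_of_pos hs0
    linarith
  rcases le_total 0 w with h | h
  · have a1 : 0 ≤ w * (10 * ρ + Real.log s) := mul_nonneg h hσ
    have a2 : 1 / 9 * K ≤ ρ * K := mul_le_mul_of_nonneg_right hρ9 hK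
    nlinarith
  · have a1 : -(K / 10) * (10 * ρ + Real.log s) ≤ w * (10 * ρ + Real.log s) :=
      mul_le_mul_of_nonneg_right (by linarith) hσ
    have a2 : 1 / 5 * K ≤ -Real.log s * K := mul_le_mul_of_nonneg_right hls hK
    nlinarith

theorem lower (hAVG : T_AVG) (hHAR : T_HAR) (hLOG : T_LOG) {S : Finset ι} {c : ι → ℂ} {l : ℝ}
    (hS : Sep S c l) {w : ι → ℝ} {V : ℝ} (h : ∀ z ∈ Rg S c l, 0 ≤ hp S c w V z) {q : ι}
    (hq : q ∈ S) (hK : 0 ≤ kp S c l w V q) {z : ℂ} (hz1 : l / 10 ≤ dist z (c q))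
    (hz2 : dist z (c q) ≤ 4 / 5 * l) : kp S c l w V q / 50 ≤ hp S c w V z := by
  have hl := hS.1
  have hsplit : ∀ y : ℂ, hp S c w V y =
      hp (S.erase q) c w (V + w q * Real.log l) y +
        w q * (Real.log (dist y (c q)) - Real.log l) := by
    intro y
    unfold hp
    rw [← Finset.add_sum_erase S _ hq]
    ring
  have hharm : InnerProductSpace.HarmonicOnNhd (hp (S.erase q) c w (V + w q * Real.log l))
      (closedBall (c q) l) := by
    have h1 := hLOG ι (S.erase q) c w (V + w q * Real.log l)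
    intro y hy
    refine h1 y fun q' hq' => ?_
    intro hyq
    have h2 := hS.2 q hq q' (Finset.mem_of_mem_erase hq')
      (fun h' => (Finset.ne_of_mem_erase hq') h'.symm)
    rw [mem_closedBall, hyq, dist_comm] at hy
    linarith
  have hnn : ∀ y ∈ sphere (c q) l, 0 ≤ hp (S.erase q) c w (V + w q * Real.log l) y := by
    intro y hy
    have h1 : dist y (c q) = l := hy
    have h2 := h y (sphere_Rg hS hq h1)
    rw [hsplit y, h1, sub_self, mul_zero, add_zero] at h2
    exact h2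
  have hc : hp (S.erase q) c w (V + w q * Real.log l) (c q) = kp S c l w V q + 10 * w q := by
    unfold hp kp
    ring
  have hs1 : 1 / 10 ≤ dist z (c q) / l := by
    rw [le_div_iff₀ hl]
    linarith
  have hs2 : dist z (c q) / l ≤ 4 / 5 := by
    rw [div_le_iff₀ hl]
    exact hz2
  have hH := (hHAR (hp (S.erase q) c w (V + w q * Real.log l)) (c q) l hl hharm hnn
    (dist z (c q) / l) (by linarith) (by linarith) z (by rw [div_mul_cancel₀ _ hl.ne'])).1
  rw [hc] at hH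
  have hd : 0 < dist z (c q) := by
    have : 0 < l / 10 := by positivity
    linarith
  have hlog : Real.log (dist z (c q)) - Real.log l = Real.log (dist z (c q) / l) := by
    rw [Real.log_div hd.ne' hl.ne']
  have hn := num hs1 hs2 hK (wpos hAVG hS h hq)
  rw [hsplit z, hlog]
  linarith

end CHG_

open CHG_ in
/-- **CHG** -/
theorem p_CHG (hPOS : T_POS) (hAVG : T_AVG) (hHAR : T_HAR) (hLOG : T_LOG) : T_CHG := by
  intro ι _ S c l hne hS
  obtain ⟨w, V, h1, h2⟩ := solve hPOS hAVG hne hS (fun _ => 0) 1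
  have h3 := hPOS ι S c l w V hS (fun q hq => (h1 q hq).ge) (Or.inl (by rw [h2]; norm_num))
  have h4 : ∀ q ∈ S, 0 ≤ w q := fun q hq => by
    have := wpos hAVG hS h3 hq
    rw [h1 q hq] at this
    linarith
  refine ⟨w, V, h4, h2, h1, h3, fun K hK => ?_⟩
  obtain ⟨w', V', h5, h6⟩ := solve hPOS hAVG hne hS K 0
  have h7 : V' = ∑ q ∈ S, w q * K q := sym h2 h1 h6 h5
  have h8 : 0 ≤ V' := by
    rw [h7]
    exact Finset.sum_nonneg fun q hq => mul_nonneg (h4 q hq) (hK q hq)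
  have h9 := hPOS ι S c l w' V' hS (fun q hq => by rw [h5 q hq]; exact hK q hq)
    (Or.inr ⟨h6, h8⟩)
  refine ⟨w', V', h7, h6, h9, fun q hq z hz1 hz2 => ?_⟩
  have h10 := lower hAVG hHAR hLOG hS h9 hq (by rw [h5 q hq]; exact hK q hq) hz1 hz2
  rwa [h5 q hq] at h10

end Pool.Agent.CorE
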