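import Pool.Agent.CorE.Targets

set_option autoImplicit false

/-!
# COE, target CHN: Harnack chains
-/

namespace Pool.Agent.CorE

open Complex Metric Set Filter Topology MeasureTheory
open Pool.Corona91698f
open scoped Real

namespace CHN_

/-- nonnegative harmonic functions on `U` -/
def NH (U : Set ℂ) (h : ℂ → ℝ) : Prop :=
  InnerProductSpace.HarmonicOnNhd h U ∧ ∀ z ∈ U, 0 ≤ h z

/-- comparable points -/
def Cp (U : Set ℂ) (x y : ℂ) : Prop :=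
  ∃ C : ℝ, 0 < C ∧ ∀ h : ℂ → ℝ, NH U h → h x ≤ C * h y

theorem loc (hHAR : T_HAR) {U : Set ℂ} (hU : IsOpen U) {x : ℂ} (hx : x ∈ U) :
    ∃ r : ℝ, 0 < r ∧ ∀ y ∈ ball x r, ∀ h : ℂ → ℝ, NH U h → h y ≤ 3 * h x ∧ h x ≤ 3 * h y := by
  obtain ⟨ε, hε, hsub⟩ := Metric.isOpen_iff.1 hU x hx
  refine ⟨ε / 4, by linarith, fun y hy h hh => ?_⟩
  have hcb : closedBall x (ε / 2) ⊆ U := by
    refine Subset.trans ?_ hsub
    intro z hz
    rw [mem_closedBall] at hz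
    rw [mem_ball]
    linarith
  rw [mem_ball] at hy
  obtain ⟨h1, h2⟩ := hHAR h x (ε / 2) (by linarith) (fun z hz => hh.1 z (hcb hz))
    (fun z hz => hh.2 z (hcb (sphere_subset_closedBall hz))) (1 / 2) (by norm_num)
    (by norm_num) y (by linarith)
  constructor
  · linarith
  · linarith

theorem comparable (hHAR : T_HAR) {U : Set ℂ} (hU : IsOpen U) (hc : IsPreconnected U) {x y : ℂ}
    (hx : x ∈ U) (hy : y ∈ U) : Cp U x y ∧ Cp U y x := by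
  refine hc.induction₂ (fun x y => Cp U x y ∧ Cp U y x) ?_ ?_ ?_ hx hy
  · intro x hx
    obtain ⟨r, hr, hloc⟩ := loc hHAR hU hx
    refine mem_nhdsWithin_of_mem_nhds (Filter.mem_of_superset (ball_mem_nhds x hr) ?_)
    intro y hy
    exact ⟨⟨3, by norm_num, fun h hh => (hloc y hy h hh).2⟩,
      ⟨3, by norm_num, fun h hh => (hloc y hy h hh).1⟩⟩
  · rintro x y z hx hy hz ⟨⟨C, hC, h1⟩, ⟨C', hC', h1'⟩⟩ ⟨⟨D, hD, h2⟩, ⟨D', hD', h2'⟩⟩
    refine ⟨⟨C * D, by positivity, fun h hh => ?_⟩, ⟨D' * C', by positivity, fun h hh => ?_⟩⟩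
    · calc h x ≤ C * h y := h1 h hh
        _ ≤ C * (D * h z) := mul_le_mul_of_nonneg_left (h2 h hh) hC.le
        _ = C * D * h z := by ring
    · calc h z ≤ D' * h y := h2' h hh
        _ ≤ D' * (C' * h x) := mul_le_mul_of_nonneg_left (h1' h hh) hD'.le
        _ = D' * C' * h x := by ring
  · rintro x y _ _ ⟨h1, h2⟩
    exact ⟨h2, h1⟩

end CHN_

open CHN_ in
theorem p_CHN (hHAR : T_HAR) : T_CHN := by
  intro U K hU hc hK hKU
  have h1 : ∀ x ∈ U, ∃ r : ℝ, 0 < r ∧ ∀ y ∈ ball x r, ∀ h : ℂ → ℝ, NH U h →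
      h y ≤ 3 * h x ∧ h x ≤ 3 * h y := fun x hx => loc hHAR hU hx
  choose! r hr hloc using h1
  obtain ⟨t, htK, ht⟩ := hK.elim_nhds_subcover (fun x => ball x (r x))
    (fun x hx => ball_mem_nhds x (hr x (hKU hx)))
  have h2 : ∀ x ∈ U, ∀ y ∈ U, ∃ C : ℝ, 0 < C ∧ ∀ h : ℂ → ℝ, NH U h → h x ≤ C * h y :=
    fun x hx y hy => (comparable hHAR hU hc hx hy).1
  choose! C hC0 hC using h2
  have hnn : ∀ i ∈ t, ∀ j ∈ t, 0 ≤ 9 * C i j := fun i hi j hj => by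
    have := hC0 i (hKU (htK i hi)) j (hKU (htK j hj))
    linarith
  have hS : 0 ≤ ∑ i ∈ t, ∑ j ∈ t, 9 * C i j :=
    Finset.sum_nonneg fun i hi => Finset.sum_nonneg fun j hj => hnn i hi j hj
  refine ⟨1 + ∑ i ∈ t, ∑ j ∈ t, 9 * C i j, by linarith, ?_⟩
  intro h hh hpos x hx y hy
  have hNH : NH U h := ⟨hh, hpos⟩
  obtain ⟨i, hi, hxi⟩ := mem_iUnion₂.1 (ht hx)
  obtain ⟨j, hj, hyj⟩ := mem_iUnion₂.1 (ht hy)
  have hiU := hKU (htK i hi)
  have hjU := hKU (htK j hj)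
  have e1 := (hloc i hiU x hxi h hNH).1
  have e2 := (hloc j hjU y hyj h hNH).2
  have e3 := hC i hiU j hjU h hNH
  have e4 : h x ≤ 9 * C i j * h y := by
    have := mul_le_mul_of_nonneg_left e2 (hC0 i hiU j hjU).le
    linarith
  have e5 : 9 * C i j ≤ ∑ i ∈ t, ∑ j ∈ t, 9 * C i j := by
    refine le_trans (Finset.single_le_sum (f := fun j => 9 * C i j)
      (fun j hj => hnn i hi j hj) hj) ?_
    exact Finset.single_le_sum (f := fun i => ∑ j ∈ t, 9 * C i j)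
      (fun i hi => Finset.sum_nonneg fun j hj => hnn i hi j hj) hi
  have e6 : 0 ≤ h y := hpos y (hKU hy)
  calc h x ≤ 9 * C i j * h y := e4
    _ ≤ (1 + ∑ i ∈ t, ∑ j ∈ t, 9 * C i j) * h y :=
      mul_le_mul_of_nonneg_right (by linarith) e6

end Pool.Agent.CorE
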