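import Pool.Agent.CorE.Targets

set_option autoImplicit false

/-!
# CorE, target CHO (helper66): the oscillation is controlled by the energy
-/

namespace Pool.Agent.CorE

open Complex Metric Set Filter Topology MeasureTheory
open Pool.Corona91698f
open scoped Real ENNReal

namespace CHO_

/-- the integral over a circle -/
theorem circ {g : ℂ → ℂ} {t : ℂ} {r x : ℝ} (hg : DifferentiableOn ℂ g (closedBall t r))
    (hx : 0 < x) (hxr : x < r) :
    ENNReal.ofReal (2 * π) * ‖g t‖ₑ ≤ ∫⁻ y in Ioo (-π) π, ‖g (circleMap t x y)‖ₑ := by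
  have hd : DiffContOnCl ℂ g (ball t |x|) := by
    refine DifferentiableOn.diffContOnCl (hg.mono ?_)
    rw [abs_of_pos hx]
    exact closure_ball_subset_closedBall.trans (closedBall_subset_closedBall hxr.le)
  have h1 := hd.circleAverage
  rw [Real.circleAverage_def] at h1
  have hper : Function.Periodic (fun y => g (circleMap t x y)) (2 * π) := fun y => by
    simp only [periodic_circleMap t x y]
  have h2 : ∫ y in (-π)..π, g (circleMap t x y) = (2 * π : ℝ) • g t := by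
    have h3 := hper.intervalIntegral_add_eq (-π) 0
    rw [show -π + 2 * π = π from by ring, zero_add] at h3
    rw [h3, ← h1, smul_smul, mul_inv_cancel₀ (by positivity), one_smul]
  have h4 : ‖(2 * π : ℝ) • g t‖ₑ = ENNReal.ofReal (2 * π) * ‖g t‖ₑ := by
    rw [enorm_smul, Real.enorm_eq_ofReal (by positivity)]
  rw [← h4, ← h2, intervalIntegral.integral_of_le (by linarith [Real.pi_pos]),
    integral_Ioc_eq_integral_Ioo]
  exact enorm_integral_le_lintegral_enorm _

/-- mean value inequality over a disc -/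
theorem mvp {g : ℂ → ℂ} {t : ℂ} {r : ℝ} (hr : 0 < r) (hg : DifferentiableOn ℂ g (closedBall t r)) :
    ENNReal.ofReal (π * r ^ 2 / 2) * ‖g t‖ₑ ≤ ∫⁻ z in ball t r, ‖g z‖ₑ := by
  set Φ : ℂ → ℝ≥0∞ := (ball t r).indicator (fun z => ‖g z‖ₑ) with hΦ
  have hm : Measurable Φ := by
    classical
    rw [hΦ, ← Set.piecewise_eq_indicator]
    refine ContinuousOn.measurable_piecewise ?_ continuousOn_const measurableSet_ball
    exact (hg.continuousOn.mono ball_subset_closedBall).enorm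
  have h1 : ∫⁻ z in ball t r, ‖g z‖ₑ = ∫⁻ z, Φ (t + z) := by
    rw [lintegral_add_left_eq_self Φ t, hΦ, lintegral_indicator measurableSet_ball]
  have h2 : ∫⁻ z, Φ (t + z) = ∫⁻ p in Ioi (0 : ℝ) ×ˢ Ioo (-π) π,
      ENNReal.ofReal p.1 * Φ (circleMap t p.1 p.2) := by
    rw [← Complex.lintegral_comp_polarCoord_symm]
    refine lintegral_congr (fun p => ?_)
    have e : t + ((p.1 : ℂ) * ((Real.cos p.2 : ℂ) + (Real.sin p.2 : ℂ) * I)) =
        circleMap t p.1 p.2 := by
      rw [circleMap, Complex.exp_mul_I]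
      push_cast
      ring
    rw [Complex.polarCoord_symm_apply, smul_eq_mul, e]
  have hm2 : Measurable (fun p : ℝ × ℝ => ENNReal.ofReal p.1 * Φ (circleMap t p.1 p.2)) := by
    refine (measurable_fst.ennreal_ofReal).mul (hm.comp ?_)
    have : Continuous (fun p : ℝ × ℝ => circleMap t p.1 p.2) := by
      unfold circleMap
      fun_prop
    exact this.measurable
  rw [h1, h2, Measure.volume_eq_prod, setLIntegral_prod _ hm2.aemeasurable]
  have hsub : Ioo (r / 2) r ⊆ Ioi (0 : ℝ) := fun x hx => lt_trans (by linarith) hx.1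
  calc ENNReal.ofReal (π * r ^ 2 / 2) * ‖g t‖ₑ
      = ∫⁻ _x in Ioo (r / 2) r, ENNReal.ofReal (r / 2) * (ENNReal.ofReal (2 * π) * ‖g t‖ₑ) := by
        have e1 : ENNReal.ofReal (π * r ^ 2 / 2) =
            ENNReal.ofReal (r / 2) * ENNReal.ofReal (2 * π) * ENNReal.ofReal (r - r / 2) := by
          rw [← ENNReal.ofReal_mul (by positivity), ← ENNReal.ofReal_mul (by positivity)]
          congr 1
          ring
        rw [setLIntegral_const, Real.volume_Ioo, e1]
        ring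
    _ ≤ ∫⁻ x in Ioo (r / 2) r, ∫⁻ y in Ioo (-π) π,
          ENNReal.ofReal x * Φ (circleMap t x y) := by
        refine setLIntegral_mono' measurableSet_Ioo (fun x hx => ?_)
        have hx0 : 0 < x := hsub hx
        have h5 : ∀ y : ℝ, Φ (circleMap t x y) = ‖g (circleMap t x y)‖ₑ := by
          intro y
          rw [hΦ, indicator_of_mem]
          rw [mem_ball, dist_eq_norm]
          have h6 : ‖circleMap t x y - t‖ = x := by
            rw [circleMap_sub_center, norm_circleMap_zero, abs_of_pos hx0]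
          rw [h6]
          exact hx.2
        simp only [h5]
        rw [lintegral_const_mul' _ _ ENNReal.ofReal_ne_top]
        exact mul_le_mul' (ENNReal.ofReal_le_ofReal hx.1.le) (circ hg hx0 hx.2)
    _ ≤ _ := lintegral_mono_set hsub

/-- the derivative at a point -/
theorem pt {f : ℂ → ℂ} {U : Set ℂ} (hU : IsOpen U) (hf : DifferentiableOn ℂ f U)
    (hi : IntegrableOn (fun z => ‖deriv f z‖ ^ 2) U) {t : ℂ} {r : ℝ} (hr : 0 < r)
    (hs : closedBall t r ⊆ U) :
    π * r ^ 2 / 2 * ‖deriv f t‖ ^ 2 ≤ ∫ z in U, ‖deriv f z‖ ^ 2 := by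
  have hd : DifferentiableOn ℂ (fun z => deriv f z ^ 2) (closedBall t r) :=
    ((hf.deriv hU).pow 2).mono hs
  have h1 := mvp hr hd
  have h2 : ∫⁻ z in ball t r, ‖deriv f z ^ 2‖ₑ ≤
      ENNReal.ofReal (∫ z in U, ‖deriv f z‖ ^ 2) := by
    rw [ofReal_integral_eq_lintegral_ofReal hi
      (Eventually.of_forall (fun z => by positivity))]
    calc ∫⁻ z in ball t r, ‖deriv f z ^ 2‖ₑ ≤ ∫⁻ z in U, ‖deriv f z ^ 2‖ₑ :=
          lintegral_mono_set (ball_subset_closedBall.trans hs)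
      _ = ∫⁻ z in U, ENNReal.ofReal (‖deriv f z‖ ^ 2) := by
          refine lintegral_congr (fun z => ?_)
          rw [← ofReal_norm, norm_pow]
  have h3 : ENNReal.ofReal (π * r ^ 2 / 2 * ‖deriv f t‖ ^ 2) ≤
      ENNReal.ofReal (∫ z in U, ‖deriv f z‖ ^ 2) := by
    refine le_trans (le_of_eq ?_) (h1.trans h2)
    rw [ENNReal.ofReal_mul (by positivity), ← ofReal_norm, norm_pow]
  exact (ENNReal.ofReal_le_ofReal_iff (integral_nonneg (fun z => by positivity))).1 h3

/-- neighbouring points -/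
theorem near {f : ℂ → ℂ} {U : Set ℂ} (hU : IsOpen U) (hf : DifferentiableOn ℂ f U)
    (hi : IntegrableOn (fun z => ‖deriv f z‖ ^ 2) U) {x : ℂ} {r : ℝ} (hr : 0 < r)
    (hs : closedBall x (2 * r) ⊆ U) {y : ℂ} (hy : y ∈ closedBall x r) :
    ‖f x - f y‖ ^ 2 ≤ ∫ z in U, ‖deriv f z‖ ^ 2 := by
  set En : ℝ := ∫ z in U, ‖deriv f z‖ ^ 2 with hE
  have hE0 : 0 ≤ En := integral_nonneg (fun z => by positivity)
  set M : ℝ := √(En / (π * r ^ 2 / 2)) with hM
  have hsub : closedBall x r ⊆ U := (closedBall_subset_closedBall (by linarith)).trans hs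
  have hb : ∀ t ∈ closedBall x r, ‖deriv f t‖ ≤ M := by
    intro t ht
    have h1 : closedBall t r ⊆ U := by
      refine Subset.trans (closedBall_subset_closedBall' ?_) hs
      rw [mem_closedBall] at ht
      linarith
    have h2 := pt hU hf hi hr h1
    rw [hM]
    refine Real.le_sqrt_of_sq_le ?_
    rw [le_div_iff₀ (by positivity)]
    linarith
  have h3 := Convex.norm_image_sub_le_of_norm_deriv_le (𝕜 := ℂ) (f := f) (C := M)
    (fun t ht => (hf t (hsub ht)).differentiableAt (hU.mem_nhds (hsub ht))) hb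
    (convex_closedBall x r) hy (mem_closedBall_self hr.le)
  have h4 : ‖x - y‖ ≤ r := by
    rw [mem_closedBall, dist_comm, dist_eq_norm] at hy
    exact hy
  have hM0 : 0 ≤ M := Real.sqrt_nonneg _
  have h5 : ‖f x - f y‖ ≤ M * r := h3.trans (mul_le_mul_of_nonneg_left h4 hM0)
  have h6 : M ^ 2 = En / (π * r ^ 2 / 2) := Real.sq_sqrt (by positivity)
  calc ‖f x - f y‖ ^ 2 ≤ (M * r) ^ 2 := by gcongr
    _ = En * (2 / π) := by
        rw [mul_pow, h6]
        field_simp
    _ ≤ En * 1 := by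
        refine mul_le_mul_of_nonneg_left ?_ hE0
        rw [div_le_one Real.pi_pos]
        linarith [Real.pi_gt_three]
    _ = En := mul_one _

theorem sq_tri (a b c : ℂ) : ‖a - c‖ ^ 2 ≤ 2 * ‖a - b‖ ^ 2 + 2 * ‖b - c‖ ^ 2 := by
  have h1 : ‖a - c‖ ≤ ‖a - b‖ + ‖b - c‖ := norm_sub_le_norm_sub_add_norm_sub a b c
  have h2 : ‖a - c‖ ^ 2 ≤ (‖a - b‖ + ‖b - c‖) ^ 2 := by gcongr
  nlinarith [sq_nonneg (‖a - b‖ - ‖b - c‖)]

end CHO_

open CHO_ in
theorem p_CHO : T_CHO := by
  intro U K hU hUc hK hKU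
  set P : ℂ → ℂ → Prop := fun x y => ∃ C : ℝ, 0 < C ∧ ∀ f : ℂ → ℂ, DifferentiableOn ℂ f U →
    IntegrableOn (fun z => ‖deriv f z‖ ^ 2) U →
    ‖f x - f y‖ ^ 2 ≤ C * ∫ z in U, ‖deriv f z‖ ^ 2 with hP
  have hE0 : ∀ f : ℂ → ℂ, 0 ≤ ∫ z in U, ‖deriv f z‖ ^ 2 :=
    fun f => integral_nonneg (fun z => by positivity)
  have hball : ∀ x ∈ U, ∃ r : ℝ, 0 < r ∧ closedBall x (2 * r) ⊆ U := by
    intro x hx
    obtain ⟨ε, hε, hs⟩ := nhds_basis_closedBall.mem_iff.1 (hU.mem_nhds hx)
    exact ⟨ε / 2, by linarith, by rwa [show 2 * (ε / 2) = ε from by ring]⟩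
  have hsymm : ∀ x y, P x y → P y x := by
    rintro x y ⟨C, hC, h⟩
    refine ⟨C, hC, fun f hf hi => ?_⟩
    rw [norm_sub_rev]
    exact h f hf hi
  have htrans : ∀ x y z, P x y → P y z → P x z := by
    rintro x y z ⟨C, hC, h⟩ ⟨C', hC', h'⟩
    refine ⟨2 * C + 2 * C', by positivity, fun f hf hi => ?_⟩
    have h1 := h f hf hi
    have h2 := h' f hf hi
    have h3 := sq_tri (f x) (f y) (f z)
    linarith
  have hloc : ∀ x ∈ U, ∀ᶠ y in 𝓝[U] x, P x y := by
    intro x hx
    obtain ⟨r, hr, hs⟩ := hball x hx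
    refine nhdsWithin_le_nhds ?_
    filter_upwards [closedBall_mem_nhds x hr] with y hy
    exact ⟨1, one_pos, fun f hf hi => by
      rw [one_mul]
      exact near hU hf hi hr hs hy⟩
  have hall : ∀ x ∈ U, ∀ y ∈ U, P x y := by
    intro x hx y hy
    refine hUc.induction₂' P (fun z hz => ?_) (fun a b c _ _ _ => htrans a b c) hx hy
    filter_upwards [hloc z hz] with w hw
    exact ⟨hw, hsymm z w hw⟩
  rcases K.eq_empty_or_nonempty with rfl | ⟨x0, hx0⟩
  · exact ⟨1, one_pos, fun f _ _ x hx => absurd hx (notMem_empty x)⟩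
  have hcomp : ∃ C : ℝ, 0 < C ∧ ∀ f : ℂ → ℂ, DifferentiableOn ℂ f U →
      IntegrableOn (fun z => ‖deriv f z‖ ^ 2) U → ∀ x ∈ K,
      ‖f x0 - f x‖ ^ 2 ≤ C * ∫ z in U, ‖deriv f z‖ ^ 2 := by
    refine hK.induction_on (p := fun s => ∃ C : ℝ, 0 < C ∧ ∀ f : ℂ → ℂ, DifferentiableOn ℂ f U →
      IntegrableOn (fun z => ‖deriv f z‖ ^ 2) U → ∀ x ∈ s,
      ‖f x0 - f x‖ ^ 2 ≤ C * ∫ z in U, ‖deriv f z‖ ^ 2) ?_ ?_ ?_ ?_
    · exact ⟨1, one_pos, fun f _ _ x hx => absurd hx (notMem_empty x)⟩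
    · rintro s t hst ⟨C, hC, h⟩
      exact ⟨C, hC, fun f hf hi x hx => h f hf hi x (hst hx)⟩
    · rintro s t ⟨C, hC, h⟩ ⟨C', hC', h'⟩
      refine ⟨C + C', by positivity, fun f hf hi x hx => ?_⟩
      have h0 := hE0 f
      rcases hx with hx | hx
      · have h1 := h f hf hi x hx
        nlinarith
      · have h1 := h' f hf hi x hx
        nlinarith
    · intro x hx
      obtain ⟨r, hr, hs⟩ := hball x (hKU hx)
      obtain ⟨C, hC, h⟩ := hall x0 (hKU hx0) x (hKU hx)
      refine ⟨closedBall x r, nhdsWithin_le_nhds (closedBall_mem_nhds x hr),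
        2 * C + 2, by positivity, fun f hf hi y hy => ?_⟩
      have h1 := h f hf hi
      have h2 := near hU hf hi hr hs hy
      have h3 := sq_tri (f x0) (f x) (f y)
      linarith
  obtain ⟨C, hC, h⟩ := hcomp
  refine ⟨4 * C, by positivity, fun f hf hi x hx y hy => ?_⟩
  have h1 := h f hf hi x hx
  have h2 := h f hf hi y hy
  have h3 := sq_tri (f x) (f x0) (f y)
  rw [norm_sub_rev (f x) (f x0)] at h3
  linarith

end Pool.Agent.CorE
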