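import Pool.Agent.CorE.Targets

/-!
# CorE, target CMP: the contour mean of the derivative of the potential
-/

set_option autoImplicit false

namespace Pool.Agent.CorE

open Complex Metric Set Filter Topology MeasureTheory
open Pool.Corona91698f
open scoped Real

namespace CMP_

/-- the weights are sums over the last level -/
theorem wsum (N : ℕ) (w : List D → ℝ)
    (hw : ∀ p : List D, p.length < N → ∑ d : D, w (p ++ [d]) = w p) :
    ∀ (k : ℕ) (v : List D), v.length + k = N →
      w v = ∑ q ∈ (lv N).filter (fun q => v <+: q), w q := by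
  intro k
  induction k with
  | zero =>
    intro v hv
    have h1 : (lv N).filter (fun q => v <+: q) = {v} := by
      ext q
      rw [Finset.mem_filter, mem_lv, Finset.mem_singleton]
      constructor
      · rintro ⟨h2, h3⟩
        exact (h3.eq_of_length (by omega)).symm
      · rintro rfl
        exact ⟨by omega, List.prefix_rfl⟩
    rw [h1, Finset.sum_singleton]
  | succ k ih =>
    intro v hv
    rw [← hw v (by omega)]
    have h1 : ∀ d : D, w (v ++ [d]) =
        ∑ q ∈ lv N, if v ++ [d] <+: q then w q else 0 := by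
      intro d
      rw [ih (v ++ [d]) (by rw [List.length_append, List.length_singleton]; omega),
        Finset.sum_filter]
    rw [Finset.sum_congr rfl fun d _ => h1 d, Finset.sum_comm, Finset.sum_filter]
    refine Finset.sum_congr rfl fun q hq => ?_
    rw [mem_lv] at hq
    by_cases h2 : v <+: q
    · rw [if_pos h2]
      obtain ⟨t, rfl⟩ := h2
      rw [List.length_append] at hq
      cases t with
      | nil =>
        rw [List.length_nil] at hq
        omega
      | cons e t =>
        have h3 : ∀ d : D, (v ++ [d] <+: v ++ e :: t) ↔ d = e := by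
          intro d
          rw [List.prefix_append_right_inj]
          constructor
          · intro h
            exact (List.cons_prefix_cons.1 h).1
          · rintro rfl
            exact List.cons_prefix_cons.2 ⟨rfl, List.nil_prefix⟩
        simp only [h3]
        rw [Finset.sum_ite_eq' Finset.univ e, if_pos (Finset.mem_univ _)]
    · rw [if_neg h2]
      refine Finset.sum_eq_zero fun d _ => ?_
      rw [if_neg]
      intro h3
      exact h2 ((List.prefix_append v [d]).trans h3)

theorem dist_cc (v : List D) (q : List D) :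
    dist (cc q) (cc v) = (1 / 3) ^ v.length * dist (Psi v (cc q)) ctr := by
  have h1 := dist_Psi v (cc q) (cc v)
  have h2 : Psi v (cc v) = ctr := Psi_Phi v ctr
  rw [h2] at h1
  rw [h1, ← mul_assoc, ← mul_pow]
  norm_num

theorem rad_pos (v : List D) : (0 : ℝ) < 77 / 100 * (1 / 3) ^ v.length := by positivity

/-- charges inside -/
theorem int_in {N : ℕ} (hG : T_GEO) {v q : List D} (hv : v.length ≤ N) (hq : q.length = N)
    (h : v <+: q) : (∮ z in C(cc v, 77 / 100 * (1 / 3) ^ v.length), (z - cc q)⁻¹) = 2 * π * I := by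
  apply circleIntegral.integral_sub_inv_of_mem_ball
  rw [mem_ball, dist_cc, mul_comm]
  have h1 := ((hG N).2 v q hv hq).1 h
  have h2 : (0 : ℝ) < (1 / 3) ^ v.length := by positivity
  have h3 : (0 : ℝ) ≤ (1 / 3) ^ (N - v.length) := by positivity
  apply mul_lt_mul_of_pos_right _ h2
  nlinarith

/-- charges outside -/
theorem int_out {N : ℕ} (hG : T_GEO) {v q : List D} (hv : v.length ≤ N) (hq : q.length = N)
    (h : ¬ v <+: q) : (∮ z in C(cc v, 77 / 100 * (1 / 3) ^ v.length), (z - cc q)⁻¹) = 0 := by
  have h1 := ((hG N).2 v q hv hq).2 h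
  have h2 : (0 : ℝ) < (1 / 3) ^ v.length := by positivity
  have h3 : 77 / 100 * (1 / 3 : ℝ) ^ v.length < dist (cc q) (cc v) := by
    rw [dist_cc, mul_comm]
    apply mul_lt_mul_of_pos_left _ h2
    linarith
  have h4 : ∀ z ∈ closedBall (cc v) (77 / 100 * (1 / 3 : ℝ) ^ v.length), z - cc q ≠ 0 := by
    intro z hz h5
    rw [mem_closedBall, sub_eq_zero.1 h5] at hz
    linarith
  have h6 : DifferentiableOn ℂ (fun z => (z - cc q)⁻¹)
      (closedBall (cc v) (77 / 100 * (1 / 3 : ℝ) ^ v.length)) := by
    intro z hz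
    have h7 : DifferentiableAt ℂ (fun y : ℂ => y - cc q) z := differentiableAt_id.sub_const _
    exact (h7.fun_inv (h4 z hz)).differentiableWithinAt
  exact DiffContOnCl.circleIntegral_eq_zero (rad_pos v).le
    (DifferentiableOn.diffContOnCl_ball h6 (subset_refl _))

theorem ci {N : ℕ} (hG : T_GEO) {v q : List D} (hv : v.length ≤ N) (hq : q.length = N) :
    CircleIntegrable (fun z => (z - cc q)⁻¹) (cc v) (77 / 100 * (1 / 3) ^ v.length) := by
  refine ContinuousOn.circleIntegrable (rad_pos v).le ?_
  refine ContinuousOn.inv₀ (continuousOn_id.sub continuousOn_const) ?_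
  intro z hz h5
  have h5' : z = cc q := sub_eq_zero.1 h5
  rw [mem_sphere, h5', dist_cc] at hz
  have h2 : (0 : ℝ) < (1 / 3) ^ v.length := by positivity
  by_cases h : v <+: q
  · have h1 := ((hG N).2 v q hv hq).1 h
    have h3 : (0 : ℝ) ≤ (1 / 3) ^ (N - v.length) := by positivity
    have h6 : dist (Psi v (cc q)) ctr < 77 / 100 := by nlinarith
    nlinarith
  · have h1 := ((hG N).2 v q hv hq).2 h
    nlinarith

end CMP_

theorem p_CMP (hGEO : T_GEO) : T_CMP := by
  classical
  intro N w hw v hv
  have hs := CMP_.wsum N w hw (N - v.length) v (by omega)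
  refine ⟨?_, hs⟩
  have h0 : (2 * π * I : ℂ) ≠ 0 := Complex.two_pi_I_ne_zero
  unfold cm
  have e1 : (∮ z in C(cc v, 77 / 100 * (1 / 3) ^ v.length), ps N w z) =
      ∑ q ∈ lv N, (w q : ℂ) * ∮ z in C(cc v, 77 / 100 * (1 / 3) ^ v.length), (z - cc q)⁻¹ := by
    have e2 : ∀ z, ps N w z = ∑ q ∈ lv N, (w q : ℂ) * (z - cc q)⁻¹ := by
      intro z
      unfold ps
      exact Finset.sum_congr rfl fun q _ => div_eq_mul_inv _ _
    simp only [e2]
    rw [circleIntegral.integral_fun_sum]
    · refine Finset.sum_congr rfl fun q _ => ?_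
      exact circleIntegral.integral_const_mul _ _ _ _
    · intro q hq
      have h1 := CMP_.ci hGEO hv (mem_lv.1 hq)
      exact h1.const_smul (a := (w q : ℂ))
  have e3 : ∀ q ∈ lv N, (w q : ℂ) *
      (∮ z in C(cc v, 77 / 100 * (1 / 3) ^ v.length), (z - cc q)⁻¹) =
      if v <+: q then (w q : ℂ) * (2 * π * I) else 0 := by
    intro q hq
    by_cases h : v <+: q
    · rw [if_pos h, CMP_.int_in hGEO hv (mem_lv.1 hq) h]
    · rw [if_neg h, CMP_.int_out hGEO hv (mem_lv.1 hq) h, mul_zero]
  rw [e1, Finset.sum_congr rfl e3, ← Finset.sum_filter, ← Finset.sum_mul, ← mul_assoc,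
    mul_comm _ (∑ q ∈ _, (w q : ℂ)), mul_assoc, inv_mul_cancel₀ h0, mul_one, hs]
  push_cast
  rfl

end Pool.Agent.CorE
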