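import Pool.Agent.CorE.Targets

/-!
# Proof of CON (project COE, MP_91698f): the standard node is connected

Strips, caps and annuli.
-/

set_option autoImplicit false

namespace Pool.Agent.CorE

open Complex Metric Set Filter Topology MeasureTheory
open Pool.Corona91698f
open scoped Real

namespace CON_

theorem annulus (c : ℂ) (a b : ℝ) (hb : 0 ≤ b) :
    IsPreconnected {y : ℂ | b < dist y c ∧ dist y c < a} := by
  have h : {y : ℂ | b < dist y c ∧ dist y c < a} =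
      (fun p : ℝ × ℝ => c + (p.1 : ℂ) * Complex.exp ((p.2 : ℂ) * I)) ''
        (Ioo b a ×ˢ (univ : Set ℝ)) := by
    ext y
    constructor
    · rintro ⟨h1, h2⟩
      refine ⟨(dist y c, arg (y - c)), ⟨⟨h1, h2⟩, mem_univ _⟩, ?_⟩
      change c + ((dist y c : ℝ) : ℂ) * Complex.exp ((arg (y - c) : ℂ) * I) = y
      rw [dist_eq_norm, norm_mul_exp_arg_mul_I]
      ring
    · rintro ⟨⟨r, t⟩, ⟨⟨h1, h2⟩, -⟩, rfl⟩
      have hr : 0 < r := lt_of_le_of_lt hb h1
      have hd : dist (c + (r : ℂ) * Complex.exp ((t : ℂ) * I)) c = r := by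
        rw [dist_eq_norm, add_sub_cancel_left, norm_mul, Complex.norm_exp_ofReal_mul_I, mul_one,
          Complex.norm_real, Real.norm_of_nonneg hr.le]
      change b < dist (c + (r : ℂ) * Complex.exp ((t : ℂ) * I)) c ∧
        dist (c + (r : ℂ) * Complex.exp ((t : ℂ) * I)) c < a
      rw [hd]
      exact ⟨h1, h2⟩
  rw [h]
  apply IsPreconnected.image (isPreconnected_Ioo.prod isPreconnected_univ)
  apply Continuous.continuousOn
  fun_prop

theorem re_phi (d : D) : (phi d ctr).re = if d.1 then 5 / 6 else 1 / 6 := by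
  have h : (phi d ctr).re = (1 / 2 + 2 * (if d.1 then 1 else 0)) / 3 := by
    unfold phi dig ctr
    simp
  rw [h]
  split <;> norm_num

theorem im_phi (d : D) : (phi d ctr).im = if d.2 then 5 / 6 else 1 / 6 := by
  have h : (phi d ctr).im = (1 / 2 + 2 * (if d.2 then 1 else 0)) / 3 := by
    unfold phi dig ctr
    simp
  rw [h]
  split <;> norm_num

theorem abs_re_le (y z : ℂ) : |y.re - z.re| ≤ dist y z := by
  rw [dist_eq_norm, ← Complex.sub_re]
  exact Complex.abs_re_le_norm _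

theorem abs_im_le (y z : ℂ) : |y.im - z.im| ≤ dist y z := by
  rw [dist_eq_norm, ← Complex.sub_im]
  exact Complex.abs_im_le_norm _

/-- the standard node -/
def ND (a b : ℝ) : Set ℂ := {y : ℂ | dist y ctr < a ∧ ∀ d : D, b < dist (psi d y) ctr}

theorem mem_of_re (a b : ℝ) (y : ℂ) (h : dist y ctr < a)
    (h1 : b / 3 < |y.re - 5 / 6|) (h2 : b / 3 < |y.re - 1 / 6|) : y ∈ ND a b := by
  refine ⟨h, fun d => ?_⟩
  rw [dist_psi_ctr]
  have h3 := abs_re_le y (phi d ctr)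
  rw [re_phi] at h3
  split at h3 <;> linarith

theorem mem_of_im (a b : ℝ) (y : ℂ) (h : dist y ctr < a)
    (h1 : b / 3 < |y.im - 5 / 6|) (h2 : b / 3 < |y.im - 1 / 6|) : y ∈ ND a b := by
  refine ⟨h, fun d => ?_⟩
  rw [dist_psi_ctr]
  have h3 := abs_im_le y (phi d ctr)
  rw [im_phi] at h3
  split at h3 <;> linarith

/-- convex pieces -/
theorem pc_re (a u v : ℝ) :
    IsPreconnected (ball ctr a ∩ ({y : ℂ | u < y.re} ∩ {y : ℂ | y.re < v})) :=
  ((convex_ball ctr a).inter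
    ((convex_halfSpace_re_gt u).inter (convex_halfSpace_re_lt v))).isPreconnected

theorem pc_im (a u v : ℝ) :
    IsPreconnected (ball ctr a ∩ ({y : ℂ | u < y.im} ∩ {y : ℂ | y.im < v})) :=
  ((convex_ball ctr a).inter
    ((convex_halfSpace_im_gt u).inter (convex_halfSpace_im_lt v))).isPreconnected

theorem dist_lt (x y a : ℝ) (ha : 0 ≤ a) (h : (x - 1 / 2) ^ 2 + (y - 1 / 2) ^ 2 < a ^ 2) :
    dist (⟨x, y⟩ : ℂ) ctr < a := by
  refine lt_of_pow_lt_pow_left₀ 2 ha ?_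
  rw [dist_sq]
  simpa [ctr] using h

theorem node (a b : ℝ) (ha : 83 / 100 ≤ a) (hb : 72 / 100 ≤ b) (hb' : b ≤ 73 / 100) :
    IsPreconnected (ND a b) := by
  -- the two strips
  have hVs : ball ctr a ∩ ({y : ℂ | 5 / 6 - 1 / 3 - (1 / 3 - b / 3) < y.re} ∩
      {y : ℂ | y.re < 1 / 2 + (1 / 3 - b / 3)}) ⊆ ND a b := by
    rintro y ⟨h1, h2, h3⟩
    simp only [mem_ofPred_eq] at h2 h3
    apply mem_of_re a b y (mem_ball.mp h1)
    · rw [lt_abs]; right; linarith
    · rw [lt_abs]; left; linarith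
  have hHs : ball ctr a ∩ ({y : ℂ | 5 / 6 - 1 / 3 - (1 / 3 - b / 3) < y.im} ∩
      {y : ℂ | y.im < 1 / 2 + (1 / 3 - b / 3)}) ⊆ ND a b := by
    rintro y ⟨h1, h2, h3⟩
    simp only [mem_ofPred_eq] at h2 h3
    apply mem_of_im a b y (mem_ball.mp h1)
    · rw [lt_abs]; right; linarith
    · rw [lt_abs]; left; linarith
  have hc : ctr ∈ ball ctr a := mem_ball_self (by linarith)
  have hcV : ctr ∈ ball ctr a ∩ ({y : ℂ | 5 / 6 - 1 / 3 - (1 / 3 - b / 3) < y.re} ∩
      {y : ℂ | y.re < 1 / 2 + (1 / 3 - b / 3)}) := by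
    refine ⟨hc, ?_, ?_⟩
    · change 5 / 6 - 1 / 3 - (1 / 3 - b / 3) < (1 / 2 : ℝ); linarith
    · change (1 / 2 : ℝ) < 1 / 2 + (1 / 3 - b / 3); linarith
  have hcH : ctr ∈ ball ctr a ∩ ({y : ℂ | 5 / 6 - 1 / 3 - (1 / 3 - b / 3) < y.im} ∩
      {y : ℂ | y.im < 1 / 2 + (1 / 3 - b / 3)}) := by
    refine ⟨hc, ?_, ?_⟩
    · change 5 / 6 - 1 / 3 - (1 / 3 - b / 3) < (1 / 2 : ℝ); linarith
    · change (1 / 2 : ℝ) < 1 / 2 + (1 / 3 - b / 3); linarith
  have hV := pc_re a (5 / 6 - 1 / 3 - (1 / 3 - b / 3)) (1 / 2 + (1 / 3 - b / 3))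
  have hH := pc_im a (5 / 6 - 1 / 3 - (1 / 3 - b / 3)) (1 / 2 + (1 / 3 - b / 3))
  apply isPreconnected_of_forall ctr
  intro y hy
  have hyb : y ∈ ball ctr a := mem_ball.mpr hy.1
  -- bounds for coordinates
  have hre : |y.re - 1 / 2| < a := lt_of_le_of_lt (abs_re_le y ctr) hy.1
  have him : |y.im - 1 / 2| < a := lt_of_le_of_lt (abs_im_le y ctr) hy.1
  rw [abs_lt] at hre him
  by_cases c1 : 5 / 6 - 1 / 3 - (1 / 3 - b / 3) < y.re ∧ y.re < 1 / 2 + (1 / 3 - b / 3)
  · exact ⟨_, hVs, hcV, ⟨hyb, c1.1, c1.2⟩, hV⟩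
  by_cases c2 : 5 / 6 - 1 / 3 - (1 / 3 - b / 3) < y.im ∧ y.im < 1 / 2 + (1 / 3 - b / 3)
  · exact ⟨_, hHs, hcH, ⟨hyb, c2.1, c2.2⟩, hH⟩
  -- caps
  by_cases c3 : 5 / 6 + b / 3 < y.re
  · have hs : ball ctr a ∩ ({y : ℂ | 5 / 6 + b / 3 < y.re} ∩ {y : ℂ | y.re < 1 / 2 + a}) ⊆
        ND a b := by
      rintro y ⟨h1, h2, h3⟩
      simp only [mem_ofPred_eq] at h2 h3
      apply mem_of_re a b y (mem_ball.mp h1)
      · rw [lt_abs]; left; linarith
      · rw [lt_abs]; left; linarith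
    refine ⟨_, union_subset hHs hs, Or.inl hcH, Or.inr ⟨hyb, c3, by
      change y.re < 1 / 2 + a; linarith⟩, ?_⟩
    refine IsPreconnected.union (⟨12 / 10, 1 / 2⟩ : ℂ) ?_ ?_ hH (pc_re a _ _)
    · refine ⟨mem_ball.mpr (dist_lt _ _ a (by linarith) (by nlinarith)), ?_, ?_⟩
      · change 5 / 6 - 1 / 3 - (1 / 3 - b / 3) < (1 / 2 : ℝ); linarith
      · change (1 / 2 : ℝ) < 1 / 2 + (1 / 3 - b / 3); linarith
    · refine ⟨mem_ball.mpr (dist_lt _ _ a (by linarith) (by nlinarith)), ?_, ?_⟩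
      · change 5 / 6 + b / 3 < (12 / 10 : ℝ); linarith
      · change (12 / 10 : ℝ) < 1 / 2 + a; linarith
  by_cases c4 : y.re < 1 / 6 - b / 3
  · have hs : ball ctr a ∩ ({y : ℂ | 1 / 2 - a < y.re} ∩ {y : ℂ | y.re < 1 / 6 - b / 3}) ⊆
        ND a b := by
      rintro y ⟨h1, h2, h3⟩
      simp only [mem_ofPred_eq] at h2 h3
      apply mem_of_re a b y (mem_ball.mp h1)
      · rw [lt_abs]; right; linarith
      · rw [lt_abs]; right; linarith
    refine ⟨_, union_subset hHs hs, Or.inl hcH, Or.inr ⟨hyb, by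
      change 1 / 2 - a < y.re; linarith, c4⟩, ?_⟩
    refine IsPreconnected.union (⟨-2 / 10, 1 / 2⟩ : ℂ) ?_ ?_ hH (pc_re a _ _)
    · refine ⟨mem_ball.mpr (dist_lt _ _ a (by linarith) (by nlinarith)), ?_, ?_⟩
      · change 5 / 6 - 1 / 3 - (1 / 3 - b / 3) < (1 / 2 : ℝ); linarith
      · change (1 / 2 : ℝ) < 1 / 2 + (1 / 3 - b / 3); linarith
    · refine ⟨mem_ball.mpr (dist_lt _ _ a (by linarith) (by nlinarith)), ?_, ?_⟩
      · change 1 / 2 - a < (-2 / 10 : ℝ); linarith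
      · change (-2 / 10 : ℝ) < 1 / 6 - b / 3; linarith
  by_cases c5 : 5 / 6 + b / 3 < y.im
  · have hs : ball ctr a ∩ ({y : ℂ | 5 / 6 + b / 3 < y.im} ∩ {y : ℂ | y.im < 1 / 2 + a}) ⊆
        ND a b := by
      rintro y ⟨h1, h2, h3⟩
      simp only [mem_ofPred_eq] at h2 h3
      apply mem_of_im a b y (mem_ball.mp h1)
      · rw [lt_abs]; left; linarith
      · rw [lt_abs]; left; linarith
    refine ⟨_, union_subset hVs hs, Or.inl hcV, Or.inr ⟨hyb, c5, by
      change y.im < 1 / 2 + a; linarith⟩, ?_⟩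
    refine IsPreconnected.union (⟨1 / 2, 12 / 10⟩ : ℂ) ?_ ?_ hV (pc_im a _ _)
    · refine ⟨mem_ball.mpr (dist_lt _ _ a (by linarith) (by nlinarith)), ?_, ?_⟩
      · change 5 / 6 - 1 / 3 - (1 / 3 - b / 3) < (1 / 2 : ℝ); linarith
      · change (1 / 2 : ℝ) < 1 / 2 + (1 / 3 - b / 3); linarith
    · refine ⟨mem_ball.mpr (dist_lt _ _ a (by linarith) (by nlinarith)), ?_, ?_⟩
      · change 5 / 6 + b / 3 < (12 / 10 : ℝ); linarith
      · change (12 / 10 : ℝ) < 1 / 2 + a; linarith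
  by_cases c6 : y.im < 1 / 6 - b / 3
  · have hs : ball ctr a ∩ ({y : ℂ | 1 / 2 - a < y.im} ∩ {y : ℂ | y.im < 1 / 6 - b / 3}) ⊆
        ND a b := by
      rintro y ⟨h1, h2, h3⟩
      simp only [mem_ofPred_eq] at h2 h3
      apply mem_of_im a b y (mem_ball.mp h1)
      · rw [lt_abs]; right; linarith
      · rw [lt_abs]; right; linarith
    refine ⟨_, union_subset hVs hs, Or.inl hcV, Or.inr ⟨hyb, by
      change 1 / 2 - a < y.im; linarith, c6⟩, ?_⟩
    refine IsPreconnected.union (⟨1 / 2, -2 / 10⟩ : ℂ) ?_ ?_ hV (pc_im a _ _)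
    · refine ⟨mem_ball.mpr (dist_lt _ _ a (by linarith) (by nlinarith)), ?_, ?_⟩
      · change 5 / 6 - 1 / 3 - (1 / 3 - b / 3) < (1 / 2 : ℝ); linarith
      · change (1 / 2 : ℝ) < 1 / 2 + (1 / 3 - b / 3); linarith
    · refine ⟨mem_ball.mpr (dist_lt _ _ a (by linarith) (by nlinarith)), ?_, ?_⟩
      · change 1 / 2 - a < (-2 / 10 : ℝ); linarith
      · change (-2 / 10 : ℝ) < 1 / 6 - b / 3; linarith
  -- the annuli
  have key : ∀ d : D, dist y (phi d ctr) < 345 / 1000 → ∃ t ⊆ ND a b, ctr ∈ t ∧ y ∈ t ∧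
      IsPreconnected t := by
    intro d hd
    have hs : {y : ℂ | b / 3 < dist y (phi d ctr) ∧ dist y (phi d ctr) < 345 / 1000} ⊆
        ND a b := by
      rintro z ⟨h1, h2⟩
      refine ⟨?_, fun d' => ?_⟩
      · have h3 := dist_triangle z (phi d ctr) ctr
        have h4 := dist_phi_ctr d
        linarith
      · rw [dist_psi_ctr]
        by_cases hdd : d' = d
        · rw [hdd]; linarith
        · have h5 := dist_phi_phi hdd
          have h6 := dist_triangle (phi d' ctr) z (phi d ctr)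
          rw [dist_comm (phi d' ctr) z] at h6
          linarith
    have hyd : b / 3 < dist y (phi d ctr) := by
      have := hy.2 d
      rw [dist_psi_ctr] at this
      linarith
    refine ⟨_, union_subset hVs hs, Or.inl hcV, Or.inr ⟨hyd, hd⟩, ?_⟩
    refine IsPreconnected.union (⟨1 / 2 + (if d.1 then 1 / 30 else - (1 / 30)),
      (phi d ctr).im⟩ : ℂ) ?_ ?_ hV (annulus _ _ _ (by linarith))
    · refine ⟨mem_ball.mpr (dist_lt _ _ a (by linarith) ?_), ?_, ?_⟩
      · rw [im_phi]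
        split <;> split <;> nlinarith
      · change 5 / 6 - 1 / 3 - (1 / 3 - b / 3) < 1 / 2 + (if d.1 then 1 / 30 else - (1 / 30) : ℝ)
        split <;> linarith
      · change 1 / 2 + (if d.1 then 1 / 30 else - (1 / 30) : ℝ) < 1 / 2 + (1 / 3 - b / 3)
        split <;> linarith
    · have hdd : dist (⟨1 / 2 + (if d.1 then 1 / 30 else - (1 / 30)), (phi d ctr).im⟩ : ℂ)
          (phi d ctr) ^ 2 = (3 / 10) ^ 2 := by
        rw [dist_sq, re_phi]
        split <;> simp <;> norm_num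
      have hdd' : dist (⟨1 / 2 + (if d.1 then 1 / 30 else - (1 / 30)), (phi d ctr).im⟩ : ℂ)
          (phi d ctr) = 3 / 10 := by
        rcases sq_eq_sq_iff_eq_or_eq_neg.mp hdd with h | h
        · exact h
        · have := dist_nonneg (x := (⟨1 / 2 + (if d.1 then 1 / 30 else - (1 / 30)),
            (phi d ctr).im⟩ : ℂ)) (y := phi d ctr)
          linarith
      constructor
      · rw [hdd']; linarith
      · rw [hdd']; norm_num
  have hx : (1 / 2 < y.re ∧ |y.re - 5 / 6| ≤ b / 3) ∨ (y.re ≤ 1 / 2 ∧ |y.re - 1 / 6| ≤ b / 3) := by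
    by_cases h : 1 / 2 < y.re
    · left
      refine ⟨h, ?_⟩
      rw [abs_le]
      constructor
      · by_contra hlt
        exact c1 ⟨by linarith, by linarith⟩
      · linarith
    · right
      refine ⟨by linarith, ?_⟩
      rw [abs_le]
      constructor
      · linarith
      · by_contra hlt
        exact c1 ⟨by linarith, by linarith⟩
  have hz : (1 / 2 < y.im ∧ |y.im - 5 / 6| ≤ b / 3) ∨ (y.im ≤ 1 / 2 ∧ |y.im - 1 / 6| ≤ b / 3) := by
    by_cases h : 1 / 2 < y.im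
    · left
      refine ⟨h, ?_⟩
      rw [abs_le]
      constructor
      · by_contra hlt
        exact c2 ⟨by linarith, by linarith⟩
      · linarith
    · right
      refine ⟨by linarith, ?_⟩
      rw [abs_le]
      constructor
      · linarith
      · by_contra hlt
        exact c2 ⟨by linarith, by linarith⟩
  have fin : ∀ d : D, |y.re - (phi d ctr).re| ≤ b / 3 → |y.im - (phi d ctr).im| ≤ b / 3 →
      dist y (phi d ctr) < 345 / 1000 := by
    intro d h1 h2
    refine lt_of_pow_lt_pow_left₀ 2 (by norm_num) ?_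
    rw [dist_sq]
    have h3 : (y.re - (phi d ctr).re) ^ 2 ≤ (b / 3) ^ 2 :=
      sq_le_sq' (abs_le.mp h1).1 (abs_le.mp h1).2
    have h4 : (y.im - (phi d ctr).im) ^ 2 ≤ (b / 3) ^ 2 :=
      sq_le_sq' (abs_le.mp h2).1 (abs_le.mp h2).2
    nlinarith
  rcases hx with ⟨-, hx⟩ | ⟨-, hx⟩ <;> rcases hz with ⟨-, hz⟩ | ⟨-, hz⟩
  · exact key (true, true)
      (fin _ (by rw [re_phi]; simpa using hx) (by rw [im_phi]; simpa using hz))
  · exact key (true, false)
      (fin _ (by rw [re_phi]; simpa using hx) (by rw [im_phi]; simpa using hz))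
  · exact key (false, true)
      (fin _ (by rw [re_phi]; simpa using hx) (by rw [im_phi]; simpa using hz))
  · exact key (false, false)
      (fin _ (by rw [re_phi]; simpa using hx) (by rw [im_phi]; simpa using hz))

end CON_

theorem p_CON : T_CON :=
  ⟨fun a b ha _ hb hb' => CON_.node a b ha hb hb', fun c a b hb => CON_.annulus c a b hb⟩


end Pool.Agent.CorE
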