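import Pool.Agent.CorE.Targets

set_option autoImplicit false

/-! # DEC: the energy between a square and its children -/

namespace Pool.Agent.CorE

open Complex Metric Set Filter Topology MeasureTheory
open Pool.Corona91698f
open scoped Real

namespace DEC_

/-- closed rectangle -/
def Rc (a b c d : ℝ) : Set ℂ := {u | a ≤ u.re ∧ u.re ≤ b ∧ c ≤ u.im ∧ u.im ≤ d}

/-- half open rectangle -/
def Ro (a b c d : ℝ) : Set ℂ := {u | a < u.re ∧ u.re ≤ b ∧ c < u.im ∧ u.im ≤ d}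

theorem re_null (a : ℝ) : volume {u : ℂ | u.re = a} = 0 := by
  have h1 : {u : ℂ | u.re = a} = measurableEquivRealProd ⁻¹' ({a} ×ˢ univ) := by
    ext u
    simp [measurableEquivRealProd_apply]
  rw [h1, volume_preserving_equiv_real_prod.measure_preimage
    ((measurableSet_singleton a).prod MeasurableSet.univ).nullMeasurableSet,
    Measure.volume_eq_prod, Measure.prod_prod]
  simp

theorem im_null (a : ℝ) : volume {u : ℂ | u.im = a} = 0 := by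
  have h1 : {u : ℂ | u.im = a} = measurableEquivRealProd ⁻¹' (univ ×ˢ {a}) := by
    ext u
    simp [measurableEquivRealProd_apply]
  rw [h1, volume_preserving_equiv_real_prod.measure_preimage
    (MeasurableSet.univ.prod (measurableSet_singleton a)).nullMeasurableSet,
    Measure.volume_eq_prod, Measure.prod_prod]
  simp

theorem ae_re (a : ℝ) : ∀ᵐ u : ℂ, u.re ≠ a := by
  rw [ae_iff]
  simpa using re_null a

theorem ae_im (a : ℝ) : ∀ᵐ u : ℂ, u.im ≠ a := by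
  rw [ae_iff]
  simpa using im_null a

theorem ae_Rc (a b c d : ℝ) : (Rc a b c d : Set ℂ) =ᵐ[volume] Ro a b c d := by
  filter_upwards [ae_re a, ae_im c] with u h1 h2
  apply propext
  constructor
  · rintro ⟨k1, k2, k3, k4⟩
    exact ⟨lt_of_le_of_ne k1 (Ne.symm h1), k2, lt_of_le_of_ne k3 (Ne.symm h2), k4⟩
  · rintro ⟨k1, k2, k3, k4⟩
    exact ⟨k1.le, k2, k3.le, k4⟩

theorem meas_Ro (a b c d : ℝ) : MeasurableSet (Ro a b c d) := by
  have h1 : MeasurableSet {u : ℂ | a < u.re} := measurableSet_lt measurable_const measurable_re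
  have h2 : MeasurableSet {u : ℂ | u.re ≤ b} := measurableSet_le measurable_re measurable_const
  have h3 : MeasurableSet {u : ℂ | c < u.im} := measurableSet_lt measurable_const measurable_im
  have h4 : MeasurableSet {u : ℂ | u.im ≤ d} := measurableSet_le measurable_im measurable_const
  exact h1.inter (h2.inter (h3.inter h4))

theorem split_re {g : ℂ → ℝ} (hg : Integrable g) {a b c y y' : ℝ} (h1 : a ≤ b) (h2 : b ≤ c) :
    ∫ u in Ro a c y y', g u = (∫ u in Ro a b y y', g u) + ∫ u in Ro b c y y', g u := by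
  have h3 : Ro a c y y' = Ro a b y y' ∪ Ro b c y y' := by
    ext u
    constructor
    · rintro ⟨k1, k2, k3, k4⟩
      rcases le_or_gt u.re b with h | h
      · exact Or.inl ⟨k1, h, k3, k4⟩
      · exact Or.inr ⟨h, k2, k3, k4⟩
    · rintro (⟨k1, k2, k3, k4⟩ | ⟨k1, k2, k3, k4⟩)
      · exact ⟨k1, k2.trans h2, k3, k4⟩
      · exact ⟨lt_of_le_of_lt h1 k1, k2, k3, k4⟩
  have h4 : Disjoint (Ro a b y y') (Ro b c y y') := by
    rw [Set.disjoint_left]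
    rintro u ⟨k1, k2, k3, k4⟩ ⟨k5, -⟩
    linarith
  rw [h3, setIntegral_union h4 (meas_Ro _ _ _ _) hg.integrableOn hg.integrableOn]

theorem split_im {g : ℂ → ℝ} (hg : Integrable g) {x x' a b c : ℝ} (h1 : a ≤ b) (h2 : b ≤ c) :
    ∫ u in Ro x x' a c, g u = (∫ u in Ro x x' a b, g u) + ∫ u in Ro x x' b c, g u := by
  have h3 : Ro x x' a c = Ro x x' a b ∪ Ro x x' b c := by
    ext u
    constructor
    · rintro ⟨k1, k2, k3, k4⟩
      rcases le_or_gt u.im b with h | h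
      · exact Or.inl ⟨k1, k2, k3, h⟩
      · exact Or.inr ⟨k1, k2, h, k4⟩
    · rintro (⟨k1, k2, k3, k4⟩ | ⟨k1, k2, k3, k4⟩)
      · exact ⟨k1, k2, k3, k4.trans h2⟩
      · exact ⟨k1, k2, lt_of_le_of_lt h1 k3, k4⟩
  have h4 : Disjoint (Ro x x' a b) (Ro x x' b c) := by
    rw [Set.disjoint_left]
    rintro u ⟨k1, k2, k3, k4⟩ ⟨-, -, k7, -⟩
    linarith
  rw [h3, setIntegral_union h4 (meas_Ro _ _ _ _) hg.integrableOn hg.integrableOn]

/-- the boundary integral in coordinates -/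
noncomputable def B (F : ℂ → ℂ) (a b c d : ℝ) : ℂ :=
  (∫ x in a..b, F (x + c * I)) - (∫ x in a..b, F (x + d * I)) +
    I • (∫ y in c..d, F (b + y * I)) - I • ∫ y in c..d, F (a + y * I)

theorem bdI_eq (F : ℂ → ℂ) (z z' : ℂ) : bdI F z z' = B F z.re z'.re z.im z'.im := rfl

/-- integrability on horizontal segments -/
def Hz (F : ℂ → ℂ) (a b c : ℝ) : Prop := ContinuousOn (fun x : ℝ => F (x + c * I)) (Icc a b)

/-- integrability on vertical segments -/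
def Vt (F : ℂ → ℂ) (a c d : ℝ) : Prop := ContinuousOn (fun y : ℝ => F (a + y * I)) (Icc c d)

theorem Hz.ii {F : ℂ → ℂ} {a b c x x' : ℝ} (h : Hz F a b c) (h1 : a ≤ x) (h2 : x ≤ x')
    (h3 : x' ≤ b) : IntervalIntegrable (fun x : ℝ => F (x + c * I)) volume x x' := by
  apply ContinuousOn.intervalIntegrable
  rw [uIcc_of_le h2]
  exact h.mono (Icc_subset_Icc h1 h3)

theorem Vt.ii {F : ℂ → ℂ} {a c d x x' : ℝ} (h : Vt F a c d) (h1 : c ≤ x) (h2 : x ≤ x')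
    (h3 : x' ≤ d) : IntervalIntegrable (fun y : ℝ => F (a + y * I)) volume x x' := by
  apply ContinuousOn.intervalIntegrable
  rw [uIcc_of_le h2]
  exact h.mono (Icc_subset_Icc h1 h3)

theorem B_re {F : ℂ → ℂ} {a b e c d p q : ℝ} (h1 : Hz F p q c) (h2 : Hz F p q d) (k0 : p ≤ a)
    (k1 : a ≤ b) (k2 : b ≤ e) (k3 : e ≤ q) : B F a e c d = B F a b c d + B F b e c d := by
  unfold B
  rw [← intervalIntegral.integral_add_adjacent_intervals (h1.ii k0 k1 (k2.trans k3))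
    (h1.ii (k0.trans k1) k2 k3), ← intervalIntegral.integral_add_adjacent_intervals
    (h2.ii k0 k1 (k2.trans k3)) (h2.ii (k0.trans k1) k2 k3)]
  simp only [smul_eq_mul]
  ring

theorem B_im {F : ℂ → ℂ} {a b e c d p q : ℝ} (h1 : Vt F c p q) (h2 : Vt F d p q) (k0 : p ≤ a)
    (k1 : a ≤ b) (k2 : b ≤ e) (k3 : e ≤ q) : B F c d a e = B F c d a b + B F c d b e := by
  unfold B
  rw [← intervalIntegral.integral_add_adjacent_intervals (h1.ii k0 k1 (k2.trans k3))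
    (h1.ii (k0.trans k1) k2 k3), ← intervalIntegral.integral_add_adjacent_intervals
    (h2.ii k0 k1 (k2.trans k3)) (h2.ii (k0.trans k1) k2 k3)]
  simp only [smul_eq_mul]
  ring

/-- the thirteen pieces -/
theorem B13 {F : ℂ → ℂ} {x0 x1 x2 x3 x4 x5 y0 y1 y2 y3 y4 y5 : ℝ}
    (hx : x0 ≤ x1 ∧ x1 ≤ x2 ∧ x2 ≤ x3 ∧ x3 ≤ x4 ∧ x4 ≤ x5)
    (hy : y0 ≤ y1 ∧ y1 ≤ y2 ∧ y2 ≤ y3 ∧ y3 ≤ y4 ∧ y4 ≤ y5)
    (h0 : Hz F x0 x5 y0) (h5 : Hz F x0 x5 y5) (v1 : Vt F x1 y0 y5) (v2 : Vt F x2 y0 y5)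
    (v3 : Vt F x3 y0 y5) (v4 : Vt F x4 y0 y5) :
    B F x0 x5 y0 y5 - (B F x1 x2 y1 y2 + B F x1 x2 y3 y4 + B F x3 x4 y1 y2 + B F x3 x4 y3 y4) =
      B F x0 x1 y0 y5 + B F x2 x3 y0 y5 + B F x4 x5 y0 y5 +
      (B F x1 x2 y0 y1 + B F x1 x2 y2 y3 + B F x1 x2 y4 y5) +
      (B F x3 x4 y0 y1 + B F x3 x4 y2 y3 + B F x3 x4 y4 y5) := by
  obtain ⟨a1, a2, a3, a4, a5⟩ := hx
  obtain ⟨b1, b2, b3, b4, b5⟩ := hy
  rw [B_re h0 h5 le_rfl a1 (by linarith) le_rfl,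
    B_re h0 h5 a1 a2 (by linarith) le_rfl (a := x1),
    B_re h0 h5 (by linarith) a3 (by linarith) le_rfl (a := x2),
    B_re h0 h5 (by linarith) a4 a5 le_rfl (a := x3),
    B_im v1 v2 le_rfl b1 (by linarith) le_rfl,
    B_im v1 v2 b1 b2 (by linarith) le_rfl (a := y1),
    B_im v1 v2 (by linarith) b3 (by linarith) le_rfl (a := y2),
    B_im v1 v2 (by linarith) b4 b5 le_rfl (a := y3),
    B_im v3 v4 le_rfl b1 (by linarith) le_rfl,
    B_im v3 v4 b1 b2 (by linarith) le_rfl (a := y1),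
    B_im v3 v4 (by linarith) b3 (by linarith) le_rfl (a := y2),
    B_im v3 v4 (by linarith) b4 b5 le_rfl (a := y3)]
  ring

/-- the closed region, with the boundary -/
def Gc (x0 x1 x2 x3 x4 x5 y0 y1 y2 y3 y4 y5 : ℝ) : Set ℂ :=
  Rc x0 x5 y0 y5 ∩ {z | z.re ≤ x1 ∨ (x2 ≤ z.re ∧ z.re ≤ x3) ∨ x4 ≤ z.re ∨ z.im ≤ y1 ∨
    (y2 ≤ z.im ∧ z.im ≤ y3) ∨ y4 ≤ z.im}

/-- the region -/
def Ga (x0 x1 x2 x3 x4 x5 y0 y1 y2 y3 y4 y5 : ℝ) : Set ℂ :=
  Rc x0 x5 y0 y5 \ (Rc x1 x2 y1 y2 ∪ Rc x1 x2 y3 y4 ∪ (Rc x3 x4 y1 y2 ∪ Rc x3 x4 y3 y4))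

theorem isClosed_Rc (a b c d : ℝ) : IsClosed (Rc a b c d) := by
  have h1 : IsClosed {u : ℂ | a ≤ u.re} := isClosed_le continuous_const continuous_re
  have h2 : IsClosed {u : ℂ | u.re ≤ b} := isClosed_le continuous_re continuous_const
  have h3 : IsClosed {u : ℂ | c ≤ u.im} := isClosed_le continuous_const continuous_im
  have h4 : IsClosed {u : ℂ | u.im ≤ d} := isClosed_le continuous_im continuous_const
  exact h1.inter (h2.inter (h3.inter h4))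

theorem isCompact_Rc (a b c d : ℝ) : IsCompact (Rc a b c d) := by
  have h1 : Rc a b c d = Icc a b ×ℂ Icc c d := by
    ext u
    simp only [Rc, mem_ofPred_eq, mem_reProdIm, mem_Icc, and_assoc]
  rw [h1]
  exact isCompact_Icc.reProdIm isCompact_Icc

theorem isCompact_Gc (x0 x1 x2 x3 x4 x5 y0 y1 y2 y3 y4 y5 : ℝ) :
    IsCompact (Gc x0 x1 x2 x3 x4 x5 y0 y1 y2 y3 y4 y5) := by
  refine (isCompact_Rc _ _ _ _).inter_right ?_
  have r1 : ∀ a : ℝ, IsClosed {u : ℂ | a ≤ u.re} := fun a =>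
    isClosed_le continuous_const continuous_re
  have r2 : ∀ a : ℝ, IsClosed {u : ℂ | u.re ≤ a} := fun a =>
    isClosed_le continuous_re continuous_const
  have r3 : ∀ a : ℝ, IsClosed {u : ℂ | a ≤ u.im} := fun a =>
    isClosed_le continuous_const continuous_im
  have r4 : ∀ a : ℝ, IsClosed {u : ℂ | u.im ≤ a} := fun a =>
    isClosed_le continuous_im continuous_const
  exact (r2 x1).union (((r1 x2).inter (r2 x3)).union ((r1 x4).union ((r4 y1).union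
    (((r3 y2).inter (r4 y3)).union (r3 y4)))))

theorem Ga_sub (x0 x1 x2 x3 x4 x5 y0 y1 y2 y3 y4 y5 : ℝ) :
    Ga x0 x1 x2 x3 x4 x5 y0 y1 y2 y3 y4 y5 ⊆ Gc x0 x1 x2 x3 x4 x5 y0 y1 y2 y3 y4 y5 := by
  rintro z ⟨h1, h2⟩
  refine ⟨h1, ?_⟩
  by_contra h3
  simp only [mem_ofPred_eq, not_or, not_and, not_le] at h3
  obtain ⟨k1, k2, k3, k4, k5, k6⟩ := h3
  apply h2
  rcases le_or_gt x2 z.re with h | h
  · have h' := k2 h
    rcases le_or_gt y2 z.im with g | g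
    · have g' := k5 g
      exact Or.inr (Or.inr ⟨h'.le, k3.le, g'.le, k6.le⟩)
    · exact Or.inr (Or.inl ⟨h'.le, k3.le, k4.le, g.le⟩)
  · rcases le_or_gt y2 z.im with g | g
    · have g' := k5 g
      exact Or.inl (Or.inr ⟨k1.le, h.le, g'.le, k6.le⟩)
    · exact Or.inl (Or.inl ⟨k1.le, h.le, k4.le, g.le⟩)

theorem meas_Ga (x0 x1 x2 x3 x4 x5 y0 y1 y2 y3 y4 y5 : ℝ) :
    MeasurableSet (Ga x0 x1 x2 x3 x4 x5 y0 y1 y2 y3 y4 y5) :=
  (isClosed_Rc _ _ _ _).measurableSet.diff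
    ((((isClosed_Rc _ _ _ _).union (isClosed_Rc _ _ _ _)).union
      ((isClosed_Rc _ _ _ _).union (isClosed_Rc _ _ _ _)))).measurableSet

/-- membership in the region -/
theorem mem_Ga {x0 x1 x2 x3 x4 x5 y0 y1 y2 y3 y4 y5 : ℝ}
    (hx : x0 ≤ x1 ∧ x1 ≤ x2 ∧ x2 ≤ x3 ∧ x3 ≤ x4 ∧ x4 ≤ x5)
    (hy : y0 ≤ y1 ∧ y1 ≤ y2 ∧ y2 ≤ y3 ∧ y3 ≤ y4 ∧ y4 ≤ y5) {z : ℂ}
    (h0 : x0 ≤ z.re ∧ z.re ≤ x5 ∧ y0 ≤ z.im ∧ z.im ≤ y5)
    (h : z.re < x1 ∨ (x2 < z.re ∧ z.re < x3) ∨ x4 < z.re ∨ z.im < y1 ∨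
      (y2 < z.im ∧ z.im < y3) ∨ y4 < z.im) : z ∈ Ga x0 x1 x2 x3 x4 x5 y0 y1 y2 y3 y4 y5 := by
  obtain ⟨a1, a2, a3, a4, a5⟩ := hx
  obtain ⟨b1, b2, b3, b4, b5⟩ := hy
  refine ⟨h0, ?_⟩
  rintro ((⟨k1, k2, k3, k4⟩ | ⟨k1, k2, k3, k4⟩) | (⟨k1, k2, k3, k4⟩ | ⟨k1, k2, k3, k4⟩)) <;>
  · rcases h with h | ⟨h, h'⟩ | h | h | ⟨h, h'⟩ | h <;> linarith

theorem piece {g : ℂ → ℝ} {A : Set ℂ} {a b c d : ℝ} (h : ∀ᵐ z : ℂ, z ∈ Ro a b c d → z ∈ A) :
    ∫ z in Ro a b c d, A.indicator g z = ∫ z in Rc a b c d, g z := by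
  rw [setIntegral_congr_set (ae_Rc a b c d)]
  refine setIntegral_congr_ae (meas_Ro _ _ _ _) ?_
  filter_upwards [h] with z hz hz2
  rw [indicator_of_mem (hz hz2)]

theorem piece0 {g : ℂ → ℝ} {A : Set ℂ} {a b c d : ℝ} (h : ∀ z : ℂ, z ∈ Ro a b c d → z ∉ A) :
    ∫ z in Ro a b c d, A.indicator g z = 0 := by
  refine setIntegral_eq_zero_of_forall_eq_zero fun z hz => ?_
  rw [indicator_of_notMem (h z hz)]

/-- the thirteen pieces of the area integral -/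
theorem I13 {g : ℂ → ℝ} {x0 x1 x2 x3 x4 x5 y0 y1 y2 y3 y4 y5 : ℝ}
    (hx : x0 ≤ x1 ∧ x1 ≤ x2 ∧ x2 ≤ x3 ∧ x3 ≤ x4 ∧ x4 ≤ x5)
    (hy : y0 ≤ y1 ∧ y1 ≤ y2 ∧ y2 ≤ y3 ∧ y3 ≤ y4 ∧ y4 ≤ y5)
    (hg : ContinuousOn g (Gc x0 x1 x2 x3 x4 x5 y0 y1 y2 y3 y4 y5)) :
    ∫ z in Ga x0 x1 x2 x3 x4 x5 y0 y1 y2 y3 y4 y5, g z =
      (∫ z in Rc x0 x1 y0 y5, g z) + (∫ z in Rc x2 x3 y0 y5, g z) +
      (∫ z in Rc x4 x5 y0 y5, g z) +
      ((∫ z in Rc x1 x2 y0 y1, g z) + (∫ z in Rc x1 x2 y2 y3, g z) +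
        ∫ z in Rc x1 x2 y4 y5, g z) +
      ((∫ z in Rc x3 x4 y0 y1, g z) + (∫ z in Rc x3 x4 y2 y3, g z) +
        ∫ z in Rc x3 x4 y4 y5, g z) := by
  set A := Ga x0 x1 x2 x3 x4 x5 y0 y1 y2 y3 y4 y5 with hA
  have hmA : MeasurableSet A := meas_Ga _ _ _ _ _ _ _ _ _ _ _ _
  have hin : Integrable (A.indicator g) :=
    ((hg.integrableOn_compact (isCompact_Gc _ _ _ _ _ _ _ _ _ _ _ _)).mono_set
      (Ga_sub _ _ _ _ _ _ _ _ _ _ _ _)).integrable_indicator hmA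
  have h1 : ∫ z in A, g z = ∫ z in Ro x0 x5 y0 y5, A.indicator g z := by
    rw [← setIntegral_congr_set (ae_Rc x0 x5 y0 y5), setIntegral_indicator hmA]
    congr 2
    exact (inter_eq_self_of_subset_right fun z hz => hz.1).symm
  obtain ⟨a1, a2, a3, a4, a5⟩ := id hx
  obtain ⟨b1, b2, b3, b4, b5⟩ := id hy
  have z1 : ∫ z in Ro x1 x2 y1 y2, A.indicator g z = 0 := piece0 fun z hz hz2 =>
    hz2.2 (Or.inl (Or.inl ⟨hz.1.le, hz.2.1, hz.2.2.1.le, hz.2.2.2⟩))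
  have z2 : ∫ z in Ro x1 x2 y3 y4, A.indicator g z = 0 := piece0 fun z hz hz2 =>
    hz2.2 (Or.inl (Or.inr ⟨hz.1.le, hz.2.1, hz.2.2.1.le, hz.2.2.2⟩))
  have z3 : ∫ z in Ro x3 x4 y1 y2, A.indicator g z = 0 := piece0 fun z hz hz2 =>
    hz2.2 (Or.inr (Or.inl ⟨hz.1.le, hz.2.1, hz.2.2.1.le, hz.2.2.2⟩))
  have z4 : ∫ z in Ro x3 x4 y3 y4, A.indicator g z = 0 := piece0 fun z hz hz2 =>
    hz2.2 (Or.inr (Or.inr ⟨hz.1.le, hz.2.1, hz.2.2.1.le, hz.2.2.2⟩))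
  rw [h1, split_re hin a1 (by linarith), split_re hin a2 (by linarith) (a := x1),
    split_re hin a3 (by linarith) (a := x2), split_re hin a4 a5 (a := x3),
    split_im hin b1 (by linarith) (x := x1), split_im hin b2 (by linarith) (x := x1) (a := y1),
    split_im hin b3 (by linarith) (x := x1) (a := y2), split_im hin b4 b5 (x := x1) (a := y3),
    split_im hin b1 (by linarith) (x := x3), split_im hin b2 (by linarith) (x := x3) (a := y1),
    split_im hin b3 (by linarith) (x := x3) (a := y2), split_im hin b4 b5 (x := x3) (a := y3),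
    z1, z2, z3, z4]
  have lt' : ∀ {s t : ℝ}, s ≤ t → s ≠ t → s < t := fun h h' => lt_of_le_of_ne h h'
  rw [piece (A := A) (a := x0) (b := x1) (c := y0) (d := y5) (by
      filter_upwards [ae_re x1] with z k hz
      obtain ⟨c1, c2, c3, c4⟩ := hz
      exact mem_Ga hx hy ⟨c1.le, by linarith, c3.le, c4⟩ (Or.inl (lt' c2 k))),
    piece (A := A) (a := x2) (b := x3) (c := y0) (d := y5) (by
      filter_upwards [ae_re x3] with z k hz
      obtain ⟨c1, c2, c3, c4⟩ := hz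
      exact mem_Ga hx hy ⟨by linarith, by linarith, c3.le, c4⟩
        (Or.inr (Or.inl ⟨c1, lt' c2 k⟩))),
    piece (A := A) (a := x4) (b := x5) (c := y0) (d := y5) (by
      filter_upwards with z hz
      obtain ⟨c1, c2, c3, c4⟩ := hz
      exact mem_Ga hx hy ⟨by linarith, by linarith, c3.le, c4⟩
        (Or.inr (Or.inr (Or.inl c1)))),
    piece (A := A) (a := x1) (b := x2) (c := y0) (d := y1) (by
      filter_upwards [ae_im y1] with z k hz
      obtain ⟨c1, c2, c3, c4⟩ := hz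
      exact mem_Ga hx hy ⟨by linarith, by linarith, c3.le, by linarith⟩
        (Or.inr (Or.inr (Or.inr (Or.inl (lt' c4 k)))))),
    piece (A := A) (a := x1) (b := x2) (c := y2) (d := y3) (by
      filter_upwards [ae_im y3] with z k hz
      obtain ⟨c1, c2, c3, c4⟩ := hz
      exact mem_Ga hx hy ⟨by linarith, by linarith, by linarith, by linarith⟩
        (Or.inr (Or.inr (Or.inr (Or.inr (Or.inl ⟨c3, lt' c4 k⟩)))))),
    piece (A := A) (a := x1) (b := x2) (c := y4) (d := y5) (by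
      filter_upwards with z hz
      obtain ⟨c1, c2, c3, c4⟩ := hz
      exact mem_Ga hx hy ⟨by linarith, by linarith, by linarith, by linarith⟩
        (Or.inr (Or.inr (Or.inr (Or.inr (Or.inr c3)))))),
    piece (A := A) (a := x3) (b := x4) (c := y0) (d := y1) (by
      filter_upwards [ae_im y1] with z k hz
      obtain ⟨c1, c2, c3, c4⟩ := hz
      exact mem_Ga hx hy ⟨by linarith, by linarith, c3.le, by linarith⟩
        (Or.inr (Or.inr (Or.inr (Or.inl (lt' c4 k)))))),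
    piece (A := A) (a := x3) (b := x4) (c := y2) (d := y3) (by
      filter_upwards [ae_im y3] with z k hz
      obtain ⟨c1, c2, c3, c4⟩ := hz
      exact mem_Ga hx hy ⟨by linarith, by linarith, by linarith, by linarith⟩
        (Or.inr (Or.inr (Or.inr (Or.inr (Or.inl ⟨c3, lt' c4 k⟩)))))),
    piece (A := A) (a := x3) (b := x4) (c := y4) (d := y5) (by
      filter_upwards with z hz
      obtain ⟨c1, c2, c3, c4⟩ := hz
      exact mem_Ga hx hy ⟨by linarith, by linarith, by linarith, by linarith⟩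
        (Or.inr (Or.inr (Or.inr (Or.inr (Or.inr c3))))))]
  ring

/-! ### geometry -/

/-- the unit square -/
def UQ : Set ℂ := {z | (0 ≤ z.re ∧ z.re ≤ 1) ∧ 0 ≤ z.im ∧ z.im ≤ 1}

theorem psi_re (d : D) (z : ℂ) : (psi d z).re = 3 * z.re - 2 * (if d.1 then 1 else 0) := by
  unfold psi dig
  simp

theorem psi_im (d : D) (z : ℂ) : (psi d z).im = 3 * z.im - 2 * (if d.2 then 1 else 0) := by
  unfold psi dig
  simp

theorem phi_UQ (d : D) {z : ℂ} (hz : z ∈ UQ) : phi d z ∈ UQ := by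
  have h1 := psi_re d (phi d z)
  have h2 := psi_im d (phi d z)
  rw [psi_phi] at h1 h2
  obtain ⟨⟨k1, k2⟩, k3, k4⟩ := hz
  refine ⟨⟨?_, ?_⟩, ?_, ?_⟩
  · split_ifs at h1 <;> linarith
  · split_ifs at h1 <;> linarith
  · split_ifs at h2 <;> linarith
  · split_ifs at h2 <;> linarith

theorem ctr_UQ : ctr ∈ UQ := by
  unfold UQ ctr
  simp only [mem_ofPred_eq]
  norm_num

theorem Phi_UQ (x : List D) : Phi x ctr ∈ UQ := by
  induction x with
  | nil => exact ctr_UQ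
  | cons d x ih => exact phi_UQ d ih

theorem Cantor_UQ {z : ℂ} (hz : z ∈ squareCantor) : z ∈ UQ :=
  ⟨cantorSet_subset_unitInterval hz.1, cantorSet_subset_unitInterval hz.2⟩

theorem Psi_sub' (p : List D) (z z' : ℂ) : Psi p z - Psi p z' = 3 ^ p.length * (z - z') := by
  induction p generalizing z z' with
  | nil => simp
  | cons d p ih =>
    rw [Psi_cons, Psi_cons, ih, psi_sub, List.length_cons, pow_succ]
    ring

theorem Psi_coord (p : List D) (z : ℂ) : Psi p z - ctr = 3 ^ p.length * (z - cc p) := by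
  rw [← Psi_sub', cc, Psi_Phi]

theorem coord (p : List D) (z : ℂ) :
    z.re = (cc p).re + (1 / 3) ^ p.length * (Psi p z - ctr).re ∧
    z.im = (cc p).im + (1 / 3) ^ p.length * (Psi p z - ctr).im := by
  have h1 : z = cc p + (((1 / 3 : ℝ) ^ p.length : ℝ) : ℂ) * (Psi p z - ctr) := by
    rw [Psi_coord]
    push_cast
    rw [← mul_assoc, ← mul_pow]
    norm_num
  constructor
  · have h2 := congrArg Complex.re h1
    rwa [add_re, re_ofReal_mul] at h2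
  · have h2 := congrArg Complex.im h1
    rwa [add_im, im_ofReal_mul] at h2

theorem cc_snoc (p : List D) (d : D) :
    (cc (p ++ [d])).re = (cc p).re + (1 / 3) ^ p.length * (if d.1 then 1 / 3 else -(1 / 3)) ∧
    (cc (p ++ [d])).im = (cc p).im + (1 / 3) ^ p.length * (if d.2 then 1 / 3 else -(1 / 3)) := by
  have h1 := coord p (cc (p ++ [d]))
  have h2 : Psi p (cc (p ++ [d])) = phi d ctr := by
    rw [cc, Phi_append, Psi_Phi]
    rfl
  rw [h2] at h1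
  have h3 := psi_re d (phi d ctr)
  have h4 := psi_im d (phi d ctr)
  rw [psi_phi] at h3 h4
  have h5 : ctr.re = 1 / 2 := rfl
  have h6 : ctr.im = 1 / 2 := rfl
  rw [h1.1, h1.2, sub_re, sub_im]
  constructor
  · congr 2
    split_ifs at h3 ⊢ <;> linarith
  · congr 2
    split_ifs at h4 ⊢ <;> linarith

theorem Sq_eq (v : List D) : Sq v =
    Rc ((cc v).re - 61 / 100 * (1 / 3) ^ v.length) ((cc v).re + 61 / 100 * (1 / 3) ^ v.length)
      ((cc v).im - 61 / 100 * (1 / 3) ^ v.length) ((cc v).im + 61 / 100 * (1 / 3) ^ v.length) := by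
  ext z
  obtain ⟨h1, h2⟩ := coord v z
  have hs : (0 : ℝ) < (1 / 3) ^ v.length := by positivity
  simp only [Sq, Rc, mem_ofPred_eq, abs_le]
  rw [h1, h2]
  constructor
  · rintro ⟨⟨k1, k2⟩, k3, k4⟩
    refine ⟨?_, ?_, ?_, ?_⟩ <;> nlinarith
  · rintro ⟨k1, k2, k3, k4⟩
    refine ⟨⟨?_, ?_⟩, ?_, ?_⟩
    · by_contra hcon
      push Not at hcon
      nlinarith
    · by_contra hcon
      push Not at hcon
      nlinarith
    · by_contra hcon
      push Not at hcon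
      nlinarith
    · by_contra hcon
      push Not at hcon
      nlinarith

theorem JJ_eq (N : ℕ) (w : List D → ℝ) (V : ℝ) (f : ℂ → ℂ) (v : List D) : JJ N w V f v =
    (B (FF (lv N) cc w V f) ((cc v).re - 61 / 100 * (1 / 3) ^ v.length)
      ((cc v).re + 61 / 100 * (1 / 3) ^ v.length) ((cc v).im - 61 / 100 * (1 / 3) ^ v.length)
      ((cc v).im + 61 / 100 * (1 / 3) ^ v.length) / (2 * I)).re := by
  unfold JJ
  rw [bdI_eq]
  have e1 : (cc v - ((61 / 100 * (1 / 3) ^ v.length : ℝ) : ℂ) * (1 + I)).re =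
      (cc v).re - 61 / 100 * (1 / 3) ^ v.length := by
    rw [sub_re, re_ofReal_mul]
    simp
  have e2 : (cc v - ((61 / 100 * (1 / 3) ^ v.length : ℝ) : ℂ) * (1 + I)).im =
      (cc v).im - 61 / 100 * (1 / 3) ^ v.length := by
    rw [sub_im, im_ofReal_mul]
    simp
  have e3 : (cc v + ((61 / 100 * (1 / 3) ^ v.length : ℝ) : ℂ) * (1 + I)).re =
      (cc v).re + 61 / 100 * (1 / 3) ^ v.length := by
    rw [add_re, re_ofReal_mul]
    simp
  have e4 : (cc v + ((61 / 100 * (1 / 3) ^ v.length : ℝ) : ℂ) * (1 + I)).im =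
      (cc v).im + 61 / 100 * (1 / 3) ^ v.length := by
    rw [add_im, im_ofReal_mul]
    simp
  rw [e1, e2, e3, e4]

/-- the coordinates -/
theorem in_sub {z : ℂ} {p : List D} {s cx cy : ℝ} (hs : 0 < s)
    (hx : z.re = cx + s * (Psi p z - ctr).re) (hy : z.im = cy + s * (Psi p z - ctr).im)
    (h : z ∈ Gc (cx + s * (-(61 / 100))) (cx + s * (-(1 / 3) - 61 / 300))
      (cx + s * (-(1 / 3) + 61 / 300)) (cx + s * (1 / 3 - 61 / 300)) (cx + s * (1 / 3 + 61 / 300))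
      (cx + s * (61 / 100)) (cy + s * (-(61 / 100))) (cy + s * (-(1 / 3) - 61 / 300))
      (cy + s * (-(1 / 3) + 61 / 300)) (cy + s * (1 / 3 - 61 / 300)) (cy + s * (1 / 3 + 61 / 300))
      (cy + s * (61 / 100))) :
    (|(Psi p z - ctr).re| ≤ 61 / 100 ∧ |(Psi p z - ctr).im| ≤ 61 / 100) ∧
    ∀ d : D, psi d (Psi p z) ∉ UQ := by
  obtain ⟨⟨k1, k2, k3, k4⟩, h5⟩ := h
  simp only [mem_ofPred_eq] at h5
  rw [hx] at k1 k2 h5
  rw [hy] at k3 k4 h5
  simp only [add_le_add_iff_left, mul_le_mul_iff_right₀ hs] at k1 k2 k3 k4 h5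
  refine ⟨⟨abs_le.2 ⟨k1, k2⟩, abs_le.2 ⟨k3, k4⟩⟩, fun d hd => ?_⟩
  obtain ⟨⟨l1, l2⟩, l3, l4⟩ := hd
  rw [psi_re] at l1 l2
  rw [psi_im] at l3 l4
  have e1 : (Psi p z).re = 1 / 2 + (Psi p z - ctr).re := by
    rw [sub_re]
    have : ctr.re = 1 / 2 := rfl
    rw [this]
    ring
  have e2 : (Psi p z).im = 1 / 2 + (Psi p z - ctr).im := by
    rw [sub_im]
    have : ctr.im = 1 / 2 := rfl
    rw [this]
    ring
  rw [e1] at l1 l2
  rw [e2] at l3 l4
  generalize (Psi p z - ctr).re = a at *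
  generalize (Psi p z - ctr).im = b at *
  split_ifs at l1 l2 l3 l4 <;>
  · rcases h5 with h | ⟨h, h'⟩ | h | h | ⟨h, h'⟩ | h <;> linarith

/-- the set where everything is regular -/
def UU (N : ℕ) : Set ℂ := squareCantorᶜ ∩ {z | ∀ q ∈ lv N, z ≠ cc q}

theorem isOpen_UU (N : ℕ) : IsOpen (UU N) := by
  refine isClosed_squareCantor.isOpen_compl.inter ?_
  have h1 : {z : ℂ | ∀ q ∈ lv N, z ≠ cc q} = (((lv N).image cc : Finset ℂ) : Set ℂ)ᶜ := by
    ext z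
    simp only [mem_ofPred_eq, mem_compl_iff, Finset.coe_image, mem_image, Finset.mem_coe,
      not_exists, not_and]
    exact ⟨fun h q hq h2 => h q hq h2.symm, fun h q hq h2 => h q hq h2.symm⟩
  rw [h1]
  exact (Finset.finite_toSet _).isClosed.isOpen_compl

theorem geo_key (hGEO : T_GEO) {N : ℕ} {p : List D} (hpN : p.length < N) {z : ℂ}
    (h1 : |(Psi p z - ctr).re| ≤ 61 / 100 ∧ |(Psi p z - ctr).im| ≤ 61 / 100)
    (h2 : ∀ d : D, psi d (Psi p z) ∉ UQ) : z ∈ UU N := by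
  have hd : dist (Psi p z) ctr < 1 := by
    refine lt_of_pow_lt_pow_left₀ 2 (by norm_num) ?_
    rw [dist_sq]
    obtain ⟨k1, k2⟩ := h1
    rw [sub_re] at k1
    rw [sub_im] at k2
    have k3 := abs_le.1 k1
    have k4 := abs_le.1 k2
    nlinarith
  constructor
  · intro hz
    obtain ⟨d, h3⟩ := exists_psi_mem (Psi_mem_of_near (v := p) hz (by linarith))
    exact h2 d (Cantor_UQ h3)
  · intro q hq hzq
    rw [mem_lv] at hq
    by_cases hpq : p <+: q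
    · obtain ⟨x, hx⟩ := hpq
      cases x with
      | nil =>
        rw [List.append_nil] at hx
        rw [hx] at hpN
        omega
      | cons d x =>
        refine h2 d ?_
        rw [hzq, ← hx, cc, Phi_append, Psi_Phi, Phi_cons, psi_phi]
        exact Phi_UQ x
    · have h3 := ((hGEO N).2 p q hpN.le hq).2 hpq
      rw [← hzq] at h3
      linarith

end DEC_

open DEC_ in
theorem p_DEC (hREC : T_REC) (hGEO : T_GEO) : T_DEC := by
  intro N w V f hf p hpN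
  obtain ⟨s, hs⟩ : ∃ s : ℝ, s = (1 / 3) ^ p.length := ⟨_, rfl⟩
  have hs0 : 0 < s := by
    rw [hs]
    positivity
  obtain ⟨cx, hcx⟩ : ∃ x : ℝ, x = (cc p).re := ⟨_, rfl⟩
  obtain ⟨cy, hcy⟩ : ∃ x : ℝ, x = (cc p).im := ⟨_, rfl⟩
  obtain ⟨x0, hx0⟩ : ∃ x : ℝ, x = cx + s * (-(61 / 100)) := ⟨_, rfl⟩
  obtain ⟨x1, hx1⟩ : ∃ x : ℝ, x = cx + s * (-(1 / 3) - 61 / 300) := ⟨_, rfl⟩
  obtain ⟨x2, hx2⟩ : ∃ x : ℝ, x = cx + s * (-(1 / 3) + 61 / 300) := ⟨_, rfl⟩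
  obtain ⟨x3, hx3⟩ : ∃ x : ℝ, x = cx + s * (1 / 3 - 61 / 300) := ⟨_, rfl⟩
  obtain ⟨x4, hx4⟩ : ∃ x : ℝ, x = cx + s * (1 / 3 + 61 / 300) := ⟨_, rfl⟩
  obtain ⟨x5, hx5⟩ : ∃ x : ℝ, x = cx + s * (61 / 100) := ⟨_, rfl⟩
  obtain ⟨y0, hy0⟩ : ∃ x : ℝ, x = cy + s * (-(61 / 100)) := ⟨_, rfl⟩
  obtain ⟨y1, hy1⟩ : ∃ x : ℝ, x = cy + s * (-(1 / 3) - 61 / 300) := ⟨_, rfl⟩
  obtain ⟨y2, hy2⟩ : ∃ x : ℝ, x = cy + s * (-(1 / 3) + 61 / 300) := ⟨_, rfl⟩
  obtain ⟨y3, hy3⟩ : ∃ x : ℝ, x = cy + s * (1 / 3 - 61 / 300) := ⟨_, rfl⟩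
  obtain ⟨y4, hy4⟩ : ∃ x : ℝ, x = cy + s * (1 / 3 + 61 / 300) := ⟨_, rfl⟩
  obtain ⟨y5, hy5⟩ : ∃ x : ℝ, x = cy + s * (61 / 100) := ⟨_, rfl⟩
  have hx : x0 ≤ x1 ∧ x1 ≤ x2 ∧ x2 ≤ x3 ∧ x3 ≤ x4 ∧ x4 ≤ x5 := by
    rw [hx0, hx1, hx2, hx3, hx4, hx5]
    refine ⟨?_, ?_, ?_, ?_, ?_⟩ <;> nlinarith
  have hy : y0 ≤ y1 ∧ y1 ≤ y2 ∧ y2 ≤ y3 ∧ y3 ≤ y4 ∧ y4 ≤ y5 := by
    rw [hy0, hy1, hy2, hy3, hy4, hy5]
    refine ⟨?_, ?_, ?_, ?_, ?_⟩ <;> nlinarith
  have hG : Gc x0 x1 x2 x3 x4 x5 y0 y1 y2 y3 y4 y5 ⊆ UU N := by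
    intro z hz
    rw [hx0, hx1, hx2, hx3, hx4, hx5, hy0, hy1, hy2, hy3, hy4, hy5] at hz
    obtain ⟨c1, c2⟩ := coord p z
    rw [← hs, ← hcx] at c1
    rw [← hs, ← hcy] at c2
    obtain ⟨k1, k2⟩ := in_sub hs0 c1 c2 hz
    exact geo_key hGEO hpN k1 k2
  have hfU : DifferentiableOn ℂ f (UU N) := hf.mono fun z hz => hz.1
  have hdU : ContinuousOn (deriv f) (UU N) := (hfU.deriv (isOpen_UU N)).continuousOn
  have hhp : ContinuousOn (hp (lv N) cc w V) (UU N) := by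
    unfold hp
    refine continuousOn_const.add (continuousOn_finsetSum _ fun q hq => ?_)
    refine continuousOn_const.mul (ContinuousOn.log (by fun_prop) fun z hz => ?_)
    exact dist_ne_zero.2 (hz.2 q hq)
  obtain ⟨F, hFd⟩ : ∃ F : ℂ → ℂ, F = FF (lv N) cc w V f := ⟨_, rfl⟩
  have hFc : ContinuousOn F (UU N) := by
    rw [hFd]
    unfold FF
    have c1 : ContinuousOn (fun z => ∑ q ∈ lv N, (w q : ℂ) / (z - cc q)) (UU N) := by
      refine continuousOn_finsetSum _ fun q hq => ?_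
      refine continuousOn_const.div (by fun_prop) fun z hz => ?_
      exact sub_ne_zero.2 (hz.2 q hq)
    have c2 : ContinuousOn (fun z => ((‖f z‖ ^ 2 : ℝ) : ℂ)) (UU N) :=
      continuous_ofReal.comp_continuousOn (hfU.continuousOn.norm.pow 2)
    have c3 : ContinuousOn (fun z => (hp (lv N) cc w V z : ℂ)) (UU N) :=
      continuous_ofReal.comp_continuousOn hhp
    have c4 : ContinuousOn (fun z => (starRingEnd ℂ) (f z)) (UU N) :=
      continuous_conj.comp_continuousOn hfU.continuousOn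
    exact ((c2.mul c1).div_const 2).sub ((c3.mul hdU).mul c4)
  obtain ⟨g, hgd⟩ : ∃ g : ℂ → ℝ, g = fun z => gr N w V z * ‖deriv f z‖ ^ 2 := ⟨_, rfl⟩
  have hgc : ContinuousOn g (UU N) := by
    rw [hgd]
    exact hhp.mul (hdU.norm.pow 2)
  have hrec : ∀ a b c d : ℝ, a ≤ b → c ≤ d → Rc a b c d ⊆ UU N →
      (B F a b c d / (2 * I)).re = - ∫ u in Rc a b c d, g u := by
    intro a b c d hab hcd hsub
    rw [hFd, hgd]
    exact hREC (List D) (lv N) cc w V f ⟨a, c⟩ ⟨b, d⟩ (UU N) hab hcd (isOpen_UU N) hsub hfU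
      fun q hq hq2 => hq2.2 q hq rfl
  obtain ⟨a1, a2, a3, a4, a5⟩ := id hx
  obtain ⟨b1, b2, b3, b4, b5⟩ := id hy
  have hGm : ∀ z : ℂ, x0 ≤ z.re → z.re ≤ x5 → y0 ≤ z.im → z.im ≤ y5 →
      (z.re ≤ x1 ∨ (x2 ≤ z.re ∧ z.re ≤ x3) ∨ x4 ≤ z.re ∨ z.im ≤ y1 ∨
      (y2 ≤ z.im ∧ z.im ≤ y3) ∨ y4 ≤ z.im) → z ∈ UU N :=
    fun z h1 h2 h3 h4 h5 => hG ⟨⟨h1, h2, h3, h4⟩, h5⟩
  have hH : ∀ y : ℝ, (y = y0 ∨ y = y5) → Hz F x0 x5 y := by
    intro y hy'
    refine ContinuousOn.comp (g := F) (f := fun x : ℝ => (x : ℂ) + y * I) hFc (by fun_prop)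
      fun x hx' => ?_
    have e1 : ((x : ℂ) + y * I).re = x := by simp
    have e2 : ((x : ℂ) + y * I).im = y := by simp
    obtain ⟨k1, k2⟩ := hx'
    have g1 : y0 ≤ y ∧ y ≤ y5 := by
      rcases hy' with h | h <;> constructor <;> linarith
    refine hGm _ (by rw [e1]; exact k1) (by rw [e1]; exact k2) (by rw [e2]; exact g1.1)
      (by rw [e2]; exact g1.2) ?_
    rw [e2]
    rcases hy' with h | h
    · exact Or.inr (Or.inr (Or.inr (Or.inl (by linarith))))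
    · exact Or.inr (Or.inr (Or.inr (Or.inr (Or.inr (by linarith)))))
  have hV : ∀ x : ℝ, (x = x1 ∨ x = x2 ∨ x = x3 ∨ x = x4) → Vt F x y0 y5 := by
    intro x hx'
    refine ContinuousOn.comp (g := F) (f := fun y : ℝ => (x : ℂ) + y * I) hFc (by fun_prop)
      fun y hy' => ?_
    have e1 : ((x : ℂ) + y * I).re = x := by simp
    have e2 : ((x : ℂ) + y * I).im = y := by simp
    obtain ⟨k1, k2⟩ := hy'
    have g1 : x0 ≤ x ∧ x ≤ x5 := by
      rcases hx' with h | h | h | h <;> constructor <;> linarith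
    refine hGm _ (by rw [e1]; exact g1.1) (by rw [e1]; exact g1.2) (by rw [e2]; exact k1)
      (by rw [e2]; exact k2) ?_
    rw [e1]
    rcases hx' with h | h | h | h
    · exact Or.inl h.le
    · exact Or.inr (Or.inl ⟨h.ge, by linarith⟩)
    · exact Or.inr (Or.inl ⟨by linarith, h.le⟩)
    · exact Or.inr (Or.inr (Or.inl h.ge))
  have hB := congrArg (fun z : ℂ => (z / (2 * I)).re) (B13 hx hy (hH y0 (Or.inl rfl))
    (hH y5 (Or.inr rfl)) (hV x1 (Or.inl rfl)) (hV x2 (Or.inr (Or.inl rfl)))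
    (hV x3 (Or.inr (Or.inr (Or.inl rfl)))) (hV x4 (Or.inr (Or.inr (Or.inr rfl)))))
  simp only [sub_div, add_div, sub_re, add_re] at hB
  have hI := I13 hx hy (hgc.mono hG)
  -- the children
  have hc1 : ∀ d : D, (cc (p ++ [d])).re - 61 / 100 * (1 / 3) ^ (p ++ [d]).length =
      if d.1 then x3 else x1 := by
    intro d
    rw [(cc_snoc p d).1, List.length_append, List.length_singleton, pow_succ, ← hs, ← hcx, hx1,
      hx3]
    split_ifs <;> ring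
  have hc2 : ∀ d : D, (cc (p ++ [d])).re + 61 / 100 * (1 / 3) ^ (p ++ [d]).length =
      if d.1 then x4 else x2 := by
    intro d
    rw [(cc_snoc p d).1, List.length_append, List.length_singleton, pow_succ, ← hs, ← hcx, hx2,
      hx4]
    split_ifs <;> ring
  have hc3 : ∀ d : D, (cc (p ++ [d])).im - 61 / 100 * (1 / 3) ^ (p ++ [d]).length =
      if d.2 then y3 else y1 := by
    intro d
    rw [(cc_snoc p d).2, List.length_append, List.length_singleton, pow_succ, ← hs, ← hcy, hy1,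
      hy3]
    split_ifs <;> ring
  have hc4 : ∀ d : D, (cc (p ++ [d])).im + 61 / 100 * (1 / 3) ^ (p ++ [d]).length =
      if d.2 then y4 else y2 := by
    intro d
    rw [(cc_snoc p d).2, List.length_append, List.length_singleton, pow_succ, ← hs, ← hcy, hy2,
      hy4]
    split_ifs <;> ring
  have hJc : ∀ d : D, JJ N w V f (p ++ [d]) = (B F (if d.1 then x3 else x1)
      (if d.1 then x4 else x2) (if d.2 then y3 else y1) (if d.2 then y4 else y2) /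
        (2 * I)).re := by
    intro d
    rw [JJ_eq, hc1, hc2, hc3, hc4, hFd]
  have hSc : ∀ d : D, Sq (p ++ [d]) = Rc (if d.1 then x3 else x1)
      (if d.1 then x4 else x2) (if d.2 then y3 else y1) (if d.2 then y4 else y2) := by
    intro d
    rw [Sq_eq, hc1, hc2, hc3, hc4]
  have p1 : (cc p).re - 61 / 100 * (1 / 3) ^ p.length = x0 := by
    rw [← hs, ← hcx, hx0]
    ring
  have p2 : (cc p).re + 61 / 100 * (1 / 3) ^ p.length = x5 := by
    rw [← hs, ← hcx, hx5]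
    ring
  have p3 : (cc p).im - 61 / 100 * (1 / 3) ^ p.length = y0 := by
    rw [← hs, ← hcy, hy0]
    ring
  have p4 : (cc p).im + 61 / 100 * (1 / 3) ^ p.length = y5 := by
    rw [← hs, ← hcy, hy5]
    ring
  have hJp : JJ N w V f p = (B F x0 x5 y0 y5 / (2 * I)).re := by
    rw [JJ_eq, p1, p2, p3, p4, hFd]
  have hset : Sq p \ ⋃ d : D, Sq (p ++ [d]) = Ga x0 x1 x2 x3 x4 x5 y0 y1 y2 y3 y4 y5 := by
    have hu : (⋃ d : D, Sq (p ++ [d])) =
        Rc x1 x2 y1 y2 ∪ Rc x1 x2 y3 y4 ∪ (Rc x3 x4 y1 y2 ∪ Rc x3 x4 y3 y4) := by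
      ext z
      simp only [mem_iUnion, hSc, Prod.exists, Bool.exists_bool, Bool.false_eq_true, if_false,
        if_true, mem_union]
    rw [hu, Sq_eq, p1, p2, p3, p4]
    rfl
  have hEN : EN N w V f p = ∫ z in Ga x0 x1 x2 x3 x4 x5 y0 y1 y2 y3 y4 y5, g z := by
    unfold EN
    rw [hset, hgd]
  have hsum : ∑ d : D, JJ N w V f (p ++ [d]) =
      (B F x3 x4 y3 y4 / (2 * I)).re + (B F x3 x4 y1 y2 / (2 * I)).re +
      ((B F x1 x2 y3 y4 / (2 * I)).re + (B F x1 x2 y1 y2 / (2 * I)).re) := by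
    rw [Fintype.sum_prod_type, Fintype.sum_bool, Fintype.sum_bool, Fintype.sum_bool]
    simp only [hJc, Bool.false_eq_true, if_false, if_true]
  have hr : ∀ a b c d : ℝ, a ≤ b → c ≤ d → x0 ≤ a → b ≤ x5 → y0 ≤ c → d ≤ y5 →
      (b ≤ x1 ∨ (x2 ≤ a ∧ b ≤ x3) ∨ x4 ≤ a ∨ d ≤ y1 ∨ (y2 ≤ c ∧ d ≤ y3) ∨ y4 ≤ c) →
      (B F a b c d / (2 * I)).re = - ∫ u in Rc a b c d, g u := by
    intro a b c d hab hcd k1 k2 k3 k4 k5
    refine hrec a b c d hab hcd fun z hz => ?_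
    obtain ⟨l1, l2, l3, l4⟩ := hz
    refine hGm z (by linarith) (by linarith) (by linarith) (by linarith) ?_
    rcases k5 with h | ⟨h, h'⟩ | h | h | ⟨h, h'⟩ | h
    · exact Or.inl (by linarith)
    · exact Or.inr (Or.inl ⟨by linarith, by linarith⟩)
    · exact Or.inr (Or.inr (Or.inl (by linarith)))
    · exact Or.inr (Or.inr (Or.inr (Or.inl (by linarith))))
    · exact Or.inr (Or.inr (Or.inr (Or.inr (Or.inl ⟨by linarith, by linarith⟩))))
    · exact Or.inr (Or.inr (Or.inr (Or.inr (Or.inr (by linarith)))))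
  have r1 := hr x0 x1 y0 y5 a1 (by linarith) le_rfl (by linarith) le_rfl le_rfl (Or.inl le_rfl)
  have r2 := hr x2 x3 y0 y5 a3 (by linarith) (by linarith) (by linarith) le_rfl le_rfl
    (Or.inr (Or.inl ⟨le_rfl, le_rfl⟩))
  have r3 := hr x4 x5 y0 y5 a5 (by linarith) (by linarith) le_rfl le_rfl le_rfl
    (Or.inr (Or.inr (Or.inl le_rfl)))
  have r4 := hr x1 x2 y0 y1 a2 b1 a1 (by linarith) le_rfl (by linarith)
    (Or.inr (Or.inr (Or.inr (Or.inl le_rfl))))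
  have r5 := hr x1 x2 y2 y3 a2 b3 a1 (by linarith) (by linarith) (by linarith)
    (Or.inr (Or.inr (Or.inr (Or.inr (Or.inl ⟨le_rfl, le_rfl⟩)))))
  have r6 := hr x1 x2 y4 y5 a2 b5 a1 (by linarith) (by linarith) le_rfl
    (Or.inr (Or.inr (Or.inr (Or.inr (Or.inr le_rfl)))))
  have r7 := hr x3 x4 y0 y1 a4 b1 (by linarith) a5 le_rfl (by linarith)
    (Or.inr (Or.inr (Or.inr (Or.inl le_rfl))))
  have r8 := hr x3 x4 y2 y3 a4 b3 (by linarith) a5 (by linarith) (by linarith)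
    (Or.inr (Or.inr (Or.inr (Or.inr (Or.inl ⟨le_rfl, le_rfl⟩)))))
  have r9 := hr x3 x4 y4 y5 a4 b5 (by linarith) a5 (by linarith) le_rfl
    (Or.inr (Or.inr (Or.inr (Or.inr (Or.inr le_rfl)))))
  rw [r1, r2, r3, r4, r5, r6, r7, r8, r9] at hB
  rw [hJp, hsum, hEN, hI]
  linarith

end Pool.Agent.CorE
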