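import Pool.Agent.CorE.Targets

/-!
# COE, block FIN: the theorem of level N
-/

set_option autoImplicit false

namespace Pool.Agent.CorE

open Complex Metric Set Filter Topology MeasureTheory
open Pool.Corona91698f
open scoped Real

/-- **FIN**. The Green function (GRN), the solutions (FGL) and the maximum principle (MAJ) give the
theorem of level `N`. -/
theorem p_FIN (hGRN : T_GRN) (hFGL : T_FGL) (hMAJ : T_MAJ) : T_FIN := by
  intro n δ hδ
  obtain ⟨CG, hCG, hG⟩ := hGRN
  obtain ⟨lam, C, hlam, hC, hF⟩ := hFGL n δ CG hδ hCG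
  refine ⟨lam, max C (Real.exp (lam * C)), hlam, lt_max_of_lt_left hC, ?_⟩
  intro f hf N hN
  obtain ⟨w, V, hGB, hK⟩ := hG N (by omega)
  obtain ⟨G, Kq, hGd, hG1, hKq0, hsum, hnear, hfar⟩ := hF N w V f hN hGB hf
  obtain ⟨w', V', hV', hw', hnn, hlow⟩ :=
    hK (fun q => Real.exp (lam * Kq q)) (fun q _ => (Real.exp_pos _).le)
  refine ⟨w', V', G, ?_, hw', hnn, hGd, hG1, ?_⟩
  · rw [hV']
    exact hsum.trans (le_max_left _ _)
  · intro j z hz
    have hfar' : ∀ z, 76 / 100 < dist z ctr →
        Real.exp (lam * ‖G j z‖) ≤ Real.exp (lam * C) := fun z hz =>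
      Real.exp_le_exp.2 (mul_le_mul_of_nonneg_left (hfar j z hz) hlam.le)
    have hnear' : ∀ q ∈ lv N, ∀ z ∈ Om N, dist (Psi q z) ctr < 78 / 100 →
        Real.exp (lam * ‖G j z‖) ≤ 50 * gr N w' V' z := by
      intro q hq z hz hd
      have h0 : 765 / 1000 < dist (Psi q z) ctr := hz q hq
      have h1 := hlow q hq z (by linarith) (by linarith)
      have h2 : Real.exp (lam * ‖G j z‖) ≤ Real.exp (lam * Kq q) :=
        Real.exp_le_exp.2 (mul_le_mul_of_nonneg_left (hnear j q hq z hz hd) hlam.le)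
      linarith
    have h := hMAJ N w' V' (G j) lam (Real.exp (lam * C)) (by omega) hlam hnn (hGd j) hfar'
      hnear' z hz
    have h3 : Real.exp (lam * C) ≤ max C (Real.exp (lam * C)) := le_max_right _ _
    linarith

end Pool.Agent.CorE
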