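import Pool.Agent.CorE.Targets

/-!
# Project COE, block GLA: gluing the local solutions
-/

set_option autoImplicit false

namespace Pool.Agent.CorE

open Complex Metric Set Filter Topology MeasureTheory
open Pool.Corona91698f
open scoped Real

namespace GLA_

/-- nodes of level less than `N` -/
def ok (N : ℕ) (R : Option (List D)) : Prop := ∀ v, R = some v → v.length < N

/-- the nodes of level less than `N` cover the region of level `N` -/
theorem cover {N : ℕ} {z : ℂ} (hz : z ∈ Om N) : ∃ R, ok N R ∧ z ∈ Nd R := by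
  by_contra hcon
  push Not at hcon
  have h : ∀ n : ℕ, n ≤ N → ∃ v : List D, v.length = n ∧ dist (Psi v z) ctr ≤ 76 / 100 := by
    intro n
    induction n with
    | zero =>
      intro _
      have h0 : ok N none := by
        intro v hv
        exact absurd hv (by simp)
      have := hcon none h0
      exact ⟨[], rfl, not_lt.1 this⟩
    | succ n ih =>
      intro hn
      obtain ⟨v, hv, hd⟩ := ih (by omega)
      have h0 : ok N (some v) := by
        intro v' hv'
        rw [← Option.some.inj hv', hv]
        omega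
      have h1 := hcon (some v) h0
      have h2 : ∃ d : D, dist (psi d (Psi v z)) ctr ≤ 76 / 100 := by
        by_contra hno
        push Not at hno
        exact h1 ⟨by linarith, hno⟩
      obtain ⟨d, hd'⟩ := h2
      refine ⟨v ++ [d], by simp [hv], ?_⟩
      rw [Psi_snoc]
      exact hd'
  obtain ⟨q, hq, hd⟩ := h N le_rfl
  have h1 := hz q (mem_lv.2 hq)
  linarith

end GLA_

open GLA_ in
theorem p_GLA : T_GLA := by
  classical
  intro n N f g S t _ hfd hgd hgs hSd hSa hta hj
  let T : Fin n → Fin n → Option (List D) → ℂ → ℂ := fun i j R z => S R i j z + t R i j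
  have hTanti : ∀ R z i j, T j i R z = - T i j R z := by
    intro R z i j
    simp only [T]
    rw [hSa R i j z, hta R i j]
    ring
  have hTd : ∀ i j R, DifferentiableOn ℂ (T i j R) (Nd R) := fun i j R =>
    (hSd R i j).add_const (t R i j)
  have hTj : ∀ i j (v₀ : List D), v₀.length < N → ∀ z ∈ Nd (par v₀), z ∈ Nd (some v₀) →
      T i j (some v₀) z - T i j (par v₀) z =
        g (some v₀) i z * g (par v₀) j z - g (some v₀) j z * g (par v₀) i z := by
    intro i j v₀ hv₀ z hz hz'
    have e1 := hj v₀ hv₀ i j z hz hz'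
    simp only [T]
    linear_combination e1
  let G : Option (List D) → Fin n → ℂ → ℂ := fun R i z => g R i z - ∑ j, T i j R z * f j z
  have hGd : ∀ R i, DifferentiableOn ℂ (G R i) (Nd R) := by
    intro R i
    have h1 : DifferentiableOn ℂ (fun z => ∑ j, T i j R z * f j z) (Nd R) := by
      refine DifferentiableOn.fun_sum fun j _ => ?_
      exact (hTd i j R).mul ((hfd j).mono fun z hz => Nd_notMem hz)
    exact ((hgd R i).mono (Nd_subset_NR R)).sub h1
  have hGpar : ∀ (v₀ : List D), v₀.length < N → ∀ i, ∀ z ∈ Nd (par v₀), z ∈ Nd (some v₀) →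
      G (some v₀) i z = G (par v₀) i z := by
    intro v₀ hv₀ i z hz hz'
    have s1 := hgs (par v₀) z (Nd_subset_NR _ hz)
    have s2 := hgs (some v₀) z (Nd_subset_NR _ hz')
    have e1 : ∑ j, T i j (some v₀) z * f j z - ∑ j, T i j (par v₀) z * f j z
        = g (some v₀) i z * ∑ j, f j z * g (par v₀) j z
          - g (par v₀) i z * ∑ j, f j z * g (some v₀) j z := by
      rw [← Finset.sum_sub_distrib, Finset.mul_sum, Finset.mul_sum, ← Finset.sum_sub_distrib]
      refine Finset.sum_congr rfl fun j _ => ?_
      have := hTj i j v₀ hv₀ z hz hz'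
      linear_combination (f j z) * this
    rw [s1, s2] at e1
    simp only [G]
    linear_combination -e1
  have hGeq : ∀ R R', ok N R → ok N R' → ∀ i z, z ∈ Nd R → z ∈ Nd R' → G R i z = G R' i z := by
    intro R R' hR hR' i z hz hz'
    rcases Nd_overlap hz hz' with rfl | ⟨v, rfl, rfl⟩ | ⟨v, rfl, rfl⟩
    · rfl
    · exact (hGpar v (hR' v rfl) i z hz hz').symm
    · exact hGpar v (hR v rfl) i z hz' hz
  let F : Fin n → ℂ → ℂ := fun i z =>
    if hz : ∃ R, ok N R ∧ z ∈ Nd R then G hz.choose i z else 0
  have hFG : ∀ R, ok N R → ∀ i z, z ∈ Nd R → F i z = G R i z := by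
    intro R hR i z hz
    have hE : ∃ R, ok N R ∧ z ∈ Nd R := ⟨R, hR, hz⟩
    simp only [F]
    rw [dif_pos hE]
    exact hGeq _ _ hE.choose_spec.1 hR i z hE.choose_spec.2 hz
  refine ⟨F, ?_, ?_, ?_⟩
  · intro i z hz
    obtain ⟨R, hok, hR⟩ := cover hz
    have h1 := (hGd R i).differentiableAt ((isOpen_Nd R).mem_nhds hR)
    refine (h1.congr_of_eventuallyEq ?_).differentiableWithinAt
    filter_upwards [(isOpen_Nd R).mem_nhds hR] with y hy
    exact hFG R hok i y hy
  · intro z hz
    obtain ⟨R, hok, hR⟩ := cover hz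
    have e0 : ∑ i, f i z * F i z = ∑ i, f i z * g R i z
        - ∑ i, f i z * ∑ j, T i j R z * f j z := by
      rw [← Finset.sum_sub_distrib]
      refine Finset.sum_congr rfl fun i _ => ?_
      rw [hFG R hok i z hR]
      simp only [G]
      ring
    rw [e0, hgs R z (Nd_subset_NR R hR),
      antisymm_sum (fun i j => T i j R z) (fun i => f i z) (fun i j => hTanti R z i j), sub_zero]
  · intro R hok z hz i
    exact hFG R hok i z hz

end Pool.Agent.CorE
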