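import Pool.Agent.CorE.Targets

/-!
# GRD: gradient estimate for positive sums of logarithms
-/

set_option autoImplicit false

namespace Pool.Agent.CorE

open Complex Metric Set Filter Topology MeasureTheory
open Pool.Corona91698f
open scoped Real

namespace GRD_

theorem line (z v : ℂ) (t : ℝ) : HasDerivAt (fun s : ℝ => z + (s : ℂ) * v) v t := by
  have h := (((hasDerivAt_id t).ofReal_comp).mul_const v).const_add z
  simpa using h

/-- Derivative of the logarithm of the distance along a line. -/
theorem hasDerivAt_logd (c z v : ℂ) (t : ℝ) (h : z + (t : ℂ) * v ≠ c) :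
    HasDerivAt (fun s : ℝ => Real.log (dist (z + (s : ℂ) * v) c))
      (v / (z + (t : ℂ) * v - c)).re t := by
  have h0 : z + (t : ℂ) * v - c ≠ 0 := sub_ne_zero.2 h
  have h1 : HasDerivAt (fun s : ℝ => z + (s : ℂ) * v - c) v t := (line z v t).sub_const c
  have h2 := h1.norm_sq
  have hn : ‖z + (t : ℂ) * v - c‖ ^ 2 ≠ 0 := by
    have : 0 < ‖z + (t : ℂ) * v - c‖ := norm_pos_iff.2 h0
    positivity
  have h3 := (h2.log hn).const_mul (1 / 2 : ℝ)
  have h4 : (fun s : ℝ => Real.log (dist (z + (s : ℂ) * v) c)) =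
      fun s : ℝ => (1 / 2 : ℝ) * Real.log (‖z + (s : ℂ) * v - c‖ ^ 2) := by
    funext s
    rw [Real.log_pow, dist_eq_norm]
    push_cast
    ring
  rw [h4]
  refine h3.congr_deriv ?_
  set u := z + (t : ℂ) * v - c with hu
  rw [Complex.inner, Complex.sq_norm, Complex.div_re]
  simp only [Complex.mul_re, Complex.conj_re, Complex.conj_im]
  ring

theorem core (g G : ℂ → ℂ) (z : ℂ) (ρ a : ℝ) (hρ : 0 < ρ) (ha : 0 < a)
    (hG : ∀ y ∈ ball z ρ, HasDerivAt G (g y) y) (hz : G z = a)
    (hre : ∀ y ∈ ball z ρ, 0 < (G y).re) : ‖g z‖ ≤ 2 / ρ * a := by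
  have hzb : z ∈ ball z ρ := mem_ball_self hρ
  have hne : ∀ y ∈ ball z ρ, G y + a ≠ 0 := by
    intro y hy h
    have h1 := congrArg Complex.re h
    simp only [Complex.add_re, Complex.ofReal_re, Complex.zero_re] at h1
    have := hre y hy
    linarith
  have hd : DifferentiableOn ℂ (fun y => (G y - a) / (G y + a)) (ball z ρ) := by
    intro y hy
    have h1 : DifferentiableAt ℂ G y := (hG y hy).differentiableAt
    exact ((h1.sub_const _).div (h1.add_const _) (hne y hy)).differentiableWithinAt
  have hz0 : (fun y => (G y - a) / (G y + a)) z = 0 := by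
    simp [hz]
  have hmaps : MapsTo (fun y => (G y - a) / (G y + a)) (ball z ρ)
      (ball ((fun y => (G y - a) / (G y + a)) z) 1) := by
    intro y hy
    rw [hz0, mem_ball_zero_iff, norm_div, div_lt_one (norm_pos_iff.2 (hne y hy))]
    apply lt_of_pow_lt_pow_left₀ 2 (norm_nonneg _)
    rw [Complex.sq_norm, Complex.sq_norm, Complex.normSq_apply, Complex.normSq_apply]
    simp only [Complex.add_re, Complex.sub_re, Complex.add_im, Complex.sub_im, Complex.ofReal_re,
      Complex.ofReal_im]
    have := mul_pos ha (hre y hy)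
    nlinarith
  have hs := Complex.norm_deriv_le_div_of_mapsTo_ball hd
    (hmaps.mono_right ball_subset_closedBall) hρ
  have h1 := hG z hzb
  have hder : HasDerivAt (fun y => (G y - a) / (G y + a)) (g z / (2 * a)) z := by
    have h2 := (h1.sub_const (a : ℂ)).fun_div (h1.add_const (a : ℂ)) (hne z hzb)
    refine h2.congr_deriv ?_
    rw [hz]
    have ha' : (a : ℂ) ≠ 0 := by exact_mod_cast ha.ne'
    field_simp
    ring
  rw [hder.deriv, norm_div] at hs
  have hn : ‖(2 * a : ℂ)‖ = 2 * a := by
    rw [norm_mul, Complex.norm_real, Real.norm_of_nonneg ha.le]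
    norm_num
  rw [hn, div_le_iff₀ (by positivity)] at hs
  calc ‖g z‖ ≤ 1 / ρ * (2 * a) := hs
    _ = 2 / ρ * a := by ring

end GRD_

open GRD_ in
theorem p_GRD : T_GRD := by
  intro ι S c w V z ρ hρ hne hnn
  have hzb : z ∈ ball z ρ := mem_ball_self hρ
  let g : ℂ → ℂ := fun y => ∑ q ∈ S, (w q : ℂ) / (y - c q)
  have hgd : DifferentiableOn ℂ g (ball z ρ) := by
    intro y hy
    apply DifferentiableAt.differentiableWithinAt
    apply DifferentiableAt.fun_sum
    intro q hq
    exact (differentiableAt_const _).div (differentiableAt_id.sub_const _)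
      (sub_ne_zero.2 (hne y hy q hq))
  obtain ⟨F, hF⟩ := hgd.isExactOn_ball
  have key : ∀ y ∈ ball z ρ, (F y).re - hp S c w V y = (F z).re - hp S c w V z := by
    intro y hy
    have hseg : ∀ t ∈ Icc (0 : ℝ) 1, z + (t : ℂ) * (y - z) ∈ ball z ρ := by
      intro t ht
      rw [mem_ball, dist_eq_norm] at hy ⊢
      rw [add_sub_cancel_left, norm_mul, Complex.norm_real, Real.norm_of_nonneg ht.1]
      have h1 := mul_le_mul_of_nonneg_right ht.2 (norm_nonneg (y - z))
      linarith
    have hder : ∀ t ∈ Icc (0 : ℝ) 1, HasDerivAt (fun s : ℝ => (F (z + (s : ℂ) * (y - z))).re -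
        hp S c w V (z + (s : ℂ) * (y - z))) 0 t := by
      intro t ht
      have hb := hseg t ht
      have h2 : HasDerivAt (fun s : ℝ => F (z + (s : ℂ) * (y - z)))
          ((y - z) • g (z + (t : ℂ) * (y - z))) t :=
        HasDerivAt.scomp t (hF _ hb) (line z (y - z) t)
      have h3 : HasDerivAt (fun s : ℝ => (F (z + (s : ℂ) * (y - z))).re)
          ((y - z) • g (z + (t : ℂ) * (y - z))).re t :=
        Complex.reCLM.hasFDerivAt.comp_hasDerivAt t h2
      have h4 : HasDerivAt (fun s : ℝ => hp S c w V (z + (s : ℂ) * (y - z)))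
          (∑ q ∈ S, w q * ((y - z) / (z + (t : ℂ) * (y - z) - c q)).re) t := by
        unfold hp
        apply HasDerivAt.const_add
        apply HasDerivAt.fun_sum
        intro q hq
        exact (hasDerivAt_logd (c q) z (y - z) t (hne _ hb q hq)).const_mul (w q)
      refine (h3.fun_sub h4).congr_deriv ?_
      have h6 : (y - z) • g (z + (t : ℂ) * (y - z)) =
          ∑ q ∈ S, (w q : ℂ) * ((y - z) / (z + (t : ℂ) * (y - z) - c q)) := by
        rw [smul_eq_mul, Finset.mul_sum]
        refine Finset.sum_congr rfl fun q _ => ?_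
        ring
      rw [h6, Complex.re_sum]
      simp only [Complex.re_ofReal_mul]
      ring
    have h7 := constant_of_has_deriv_right_zero
      (f := fun s : ℝ => (F (z + (s : ℂ) * (y - z))).re - hp S c w V (z + (s : ℂ) * (y - z)))
      (a := 0) (b := 1)
      (fun t ht => (hder t ht).continuousAt.continuousWithinAt)
      (fun t ht => (hder t ⟨ht.1, ht.2.le⟩).hasDerivWithinAt) 1 ⟨zero_le_one, le_rfl⟩
    simpa using h7
  have h0 := hnn z hzb
  apply le_of_forall_pos_le_add
  intro e he
  have hε : 0 < e * ρ / 2 := by positivity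
  have ha : 0 < hp S c w V z + e * ρ / 2 := by linarith
  have h := core g (fun y => F y - F z + ((hp S c w V z + e * ρ / 2 : ℝ) : ℂ)) z ρ
    (hp S c w V z + e * ρ / 2) hρ ha
    (fun y hy => ((hF y hy).sub_const _).add_const _) (by simp) (by
      intro y hy
      have h1 := key y hy
      have h2 := hnn y hy
      simp only [Complex.add_re, Complex.sub_re, Complex.ofReal_re]
      linarith)
  calc ‖∑ q ∈ S, (w q : ℂ) / (z - c q)‖ ≤ 2 / ρ * (hp S c w V z + e * ρ / 2) := h
    _ = 2 / ρ * hp S c w V z + e := by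
      field_simp

end Pool.Agent.CorE
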