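import Pool.Agent.CorE.Targets

/-!
# Corona solutions with exponentially integrable growth: block GRW

Growth of nonnegative potentials in the tree of squares.
-/

set_option autoImplicit false

namespace Pool.Agent.CorE

open Complex Metric Set Filter Topology MeasureTheory
open Pool.Corona91698f
open scoped Real

namespace GRW_

/-- All charges are close to the centre. -/
theorem near (hGEO : T_GEO) {N : ℕ} {q : List D} (hq : q ∈ lv N) :
    dist (cc q) ctr ≤ 7073 / 10000 := by
  have h := ((hGEO N).2 [] q (Nat.zero_le _) (mem_lv.1 hq)).1 List.nil_prefix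
  have h3 : (0 : ℝ) ≤ (1 / 3) ^ (N - ([] : List D).length) := by positivity
  rw [Psi_nil] at h
  linarith

/-- The potentials are integrable on circles. -/
theorem integrable (N : ℕ) (w : List D → ℝ) (V : ℝ) (c : ℂ) (R : ℝ) :
    CircleIntegrable (gr N w V) c R := by
  have h1 : CircleIntegrable (fun _ : ℂ => V) c R := circleIntegrable_const V c R
  have h2 : CircleIntegrable (fun z : ℂ => ∑ q ∈ lv N, w q * Real.log (dist z (cc q))) c R := by
    refine CircleIntegrable.fun_sum _ fun q _ => ?_
    have h3 : CircleIntegrable (fun z : ℂ => Real.log (dist z (cc q))) c R := by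
      have := circleIntegrable_log_norm_sub_const (a := cc q) (c := c) R
      simpa only [dist_eq_norm] using this
    exact h3.const_mul _
  exact h1.add h2

/-- The circle average of a potential with total charge zero. -/
theorem average (hGEO : T_GEO) {N : ℕ} {w : List D → ℝ} {V : ℝ} (hs : ∑ q ∈ lv N, w q = 0)
    {R : ℝ} (hR : 72 / 100 ≤ R) : Real.circleAverage (gr N w V) ctr R = V := by
  have h0 : ∀ q ∈ lv N, CircleIntegrable (fun z : ℂ => w q * Real.log (dist z (cc q))) ctr R := by
    intro q _
    have h3 : CircleIntegrable (fun z : ℂ => Real.log (dist z (cc q))) ctr R := by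
      have := circleIntegrable_log_norm_sub_const (a := cc q) (c := ctr) R
      simpa only [dist_eq_norm] using this
    exact h3.const_mul _
  have h1 : CircleIntegrable (fun _ : ℂ => V) ctr R := circleIntegrable_const V ctr R
  have h2 : CircleIntegrable (fun z : ℂ => ∑ q ∈ lv N, w q * Real.log (dist z (cc q))) ctr R :=
    CircleIntegrable.fun_sum _ h0
  have e1 : Real.circleAverage (gr N w V) ctr R =
      Real.circleAverage (fun _ : ℂ => V) ctr R +
      Real.circleAverage (fun z : ℂ => ∑ q ∈ lv N, w q * Real.log (dist z (cc q))) ctr R :=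
    Real.circleAverage_fun_add h1 h2
  have e2 : Real.circleAverage (fun z : ℂ => ∑ q ∈ lv N, w q * Real.log (dist z (cc q))) ctr R =
      ∑ q ∈ lv N, w q * Real.log R := by
    rw [Real.circleAverage_fun_sum h0]
    refine Finset.sum_congr rfl fun q hq => ?_
    have e3 : Real.circleAverage (fun z : ℂ => Real.log (dist z (cc q))) ctr R = Real.log R := by
      have h4 : cc q ∈ closedBall ctr |R| := by
        rw [mem_closedBall, abs_of_nonneg (by linarith)]
        have := near hGEO hq
        linarith
      have h5 := circleAverage_log_norm_sub_const_of_mem_closedBall h4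
      simpa only [dist_eq_norm] using h5
    have e4 := Real.circleAverage_fun_smul (f := fun z : ℂ => Real.log (dist z (cc q)))
      (a := w q) (c := ctr) (R := R)
    simp only [smul_eq_mul] at e4
    rw [e4, e3]
  rw [e1, e2, Real.circleAverage_const, ← Finset.sum_mul, hs]
  ring

/-- There is a point on each large circle where the potential is at most `V`. -/
theorem point (hGEO : T_GEO) {N : ℕ} {w : List D → ℝ} {V : ℝ} (hs : ∑ q ∈ lv N, w q = 0)
    {R : ℝ} (hR : 72 / 100 ≤ R) : ∃ z : ℂ, dist z ctr = R ∧ gr N w V z ≤ V := by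
  by_contra hcon
  push Not at hcon
  have hR0 : 0 ≤ R := by linarith
  have h1 := average hGEO (V := V) hs hR
  have h2 : IntervalIntegrable (fun θ : ℝ => gr N w V (circleMap ctr R θ) - V) volume 0
      (2 * π) := by
    have h3 : IntervalIntegrable (fun θ : ℝ => gr N w V (circleMap ctr R θ)) volume 0
      (2 * π) := integrable N w V ctr R
    exact h3.sub intervalIntegrable_const
  have h4 : 0 < ∫ θ in (0 : ℝ)..(2 * π), (gr N w V (circleMap ctr R θ) - V) := by
    refine intervalIntegral.intervalIntegral_pos_of_pos h2 (fun θ => ?_) (by positivity)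
    have h5 : dist (circleMap ctr R θ) ctr = R := by
      have := circleMap_mem_sphere ctr hR0 θ
      exact mem_sphere.1 this
    have := hcon _ h5
    linarith
  rw [intervalIntegral.integral_sub (integrable N w V ctr R) intervalIntegrable_const,
    intervalIntegral.integral_const, smul_eq_mul] at h4
  rw [Real.circleAverage, smul_eq_mul, inv_mul_eq_iff_eq_mul₀ (by positivity)] at h1
  linarith

/-- The standard circle in the parent node. -/
theorem memXH_root {z : ℂ} (hz : dist z ctr = 4 / 5) : z ∈ XH := by
  refine ⟨by linarith, fun d => ?_⟩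
  have := dist_psi_ge d z
  linarith

theorem memXH_parent (d : D) {t : ℂ} (ht : dist t ctr = 4 / 5) : phi d t ∈ XH := by
  refine ⟨?_, fun d' => ?_⟩
  · have h := dist_le_of_psi d (phi d t)
    rw [psi_phi] at h
    linarith
  · by_cases h : d' = d
    · rw [h, psi_phi]
      linarith
    · by_contra hlt
      push Not at hlt
      refine h (psi_disj (z := phi d t) (by linarith) ?_)
      rw [psi_phi]
      linarith

end GRW_

open GRW_ in
/-- Block GRW. -/
theorem p_GRW (hNOD : T_NOD) (hLOG : T_LOG) (hCHN : T_CHN) (hCON : T_CON)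
    (hNIN : T_NIN) (hGEO : T_GEO) : T_GRW := by
  obtain ⟨C1, hC1, hN⟩ := hNOD
  obtain ⟨C2, hC2, hK⟩ := hCHN {y : ℂ | 9 / 10 < dist y 0 ∧ dist y 0 < 11 / 10}
    (sphere (0 : ℂ) 1)
    ((isOpen_lt continuous_const (continuous_id.dist continuous_const)).inter
      (isOpen_lt (continuous_id.dist continuous_const) continuous_const))
    (hCON.2 0 (11 / 10) (9 / 10) (by norm_num)) (isCompact_sphere 0 1)
    (fun y hy => by
      have h1 : dist y 0 = 1 := mem_sphere.1 hy
      constructor <;> rw [h1] <;> norm_num)
  refine ⟨max C1 C2, hC1.trans (le_max_left _ _), ?_⟩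
  intro N w V hN1 hnn hs
  have hc1 : (0 : ℝ) ≤ C1 := by linarith
  have hV : 0 ≤ V := by
    obtain ⟨z, hz, hz2⟩ := point hGEO (V := V) hs (R := 4 / 5) (by norm_num)
    have := hnn z ((hNIN N).2.2 z (by linarith))
    linarith
  constructor
  · have key : ∀ p : List D, p.length < N → ∀ z, Psi p z ∈ XH →
        gr N w V z ≤ C1 ^ (p.length + 1) * V := by
      intro p
      induction p using List.reverseRecOn with
      | nil =>
        intro h0 z hz
        obtain ⟨y, hy, hy2⟩ := point hGEO (V := V) hs (R := 4 / 5) (by norm_num)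
        have h1 := (hN N w V hnn).1 [] h0 z y hz (memXH_root hy)
        calc gr N w V z ≤ C1 * gr N w V y := h1
          _ ≤ C1 * V := mul_le_mul_of_nonneg_left hy2 hc1
          _ = C1 ^ (([] : List D).length + 1) * V := by simp
      | append_singleton p d ih =>
        intro h0 z hz
        rw [List.length_append, List.length_singleton] at h0
        have ht : dist (ctr + (4 / 5 : ℝ)) ctr = 4 / 5 := by
          rw [dist_eq_norm, add_sub_cancel_left, Complex.norm_real]
          norm_num
        have hy : Psi (p ++ [d]) (Phi (p ++ [d]) (ctr + (4 / 5 : ℝ))) ∈ XH := by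
          rw [Psi_Phi]
          exact memXH_root ht
        have hy2 : Psi p (Phi (p ++ [d]) (ctr + (4 / 5 : ℝ))) ∈ XH := by
          rw [Phi_snoc, Psi_Phi]
          exact memXH_parent d ht
        have h1 := (hN N w V hnn).1 (p ++ [d])
          (by rw [List.length_append, List.length_singleton]; exact h0) z _ hz hy
        have h2 := ih (by omega) _ hy2
        calc gr N w V z ≤ C1 * gr N w V (Phi (p ++ [d]) (ctr + (4 / 5 : ℝ))) := h1
          _ ≤ C1 * (C1 ^ (p.length + 1) * V) := mul_le_mul_of_nonneg_left h2 hc1
          _ = C1 ^ ((p ++ [d]).length + 1) * V := by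
            rw [List.length_append, List.length_singleton]
            ring
    intro p hp z hz
    refine (key p hp z hz).trans (mul_le_mul_of_nonneg_right ?_ hV)
    exact pow_le_pow_left₀ hc1 (le_max_left _ _) _
  · intro z hz
    obtain ⟨R, hR⟩ : ∃ R : ℝ, R = dist z ctr := ⟨_, rfl⟩
    rw [← hR] at hz
    have hR0 : 0 < R := by linarith
    have hRc : (R : ℂ) ≠ 0 := by
      exact_mod_cast hR0.ne'
    obtain ⟨x, hx, hx2⟩ := point hGEO (V := V) hs (R := R) (by linarith)
    let c' : List D → ℂ := fun q => (cc q - ctr) / R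
    have hdist : ∀ (y : ℂ) (q : List D), dist (ctr + R * y) (cc q) = R * dist y (c' q) := by
      intro y q
      have e1 : ctr + R * y - cc q = R * (y - c' q) := by
        change ctr + R * y - cc q = R * (y - (cc q - ctr) / R)
        field_simp
        ring
      rw [dist_eq_norm, e1, norm_mul, Complex.norm_real, Real.norm_of_nonneg hR0.le,
        dist_eq_norm]
    have hc' : ∀ q ∈ lv N, dist (c' q) 0 < 9 / 10 := by
      intro q hq
      have h1 := near hGEO hq
      have e1 : dist (c' q) 0 = dist (cc q) ctr / R := by
        rw [dist_zero_right, dist_eq_norm]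
        change ‖(cc q - ctr) / R‖ = _
        rw [norm_div, Complex.norm_real, Real.norm_of_nonneg hR0.le]
      rw [e1, div_lt_iff₀ hR0]
      linarith
    have hne : ∀ y : ℂ, 9 / 10 < dist y 0 → ∀ q ∈ lv N, y ≠ c' q := by
      intro y hy q hq he
      have := hc' q hq
      rw [← he] at this
      linarith
    have heq : ∀ y : ℂ, 9 / 10 < dist y 0 → hp (lv N) c' w V y = gr N w V (ctr + R * y) := by
      intro y hy
      unfold gr hp
      have e1 : ∀ q ∈ lv N, w q * Real.log (dist (ctr + R * y) (cc q)) =
          w q * Real.log R + w q * Real.log (dist y (c' q)) := by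
        intro q hq
        have h2 : 0 < dist y (c' q) := dist_pos.2 (hne y hy q hq)
        rw [hdist, Real.log_mul hR0.ne' h2.ne']
        ring
      rw [Finset.sum_congr rfl e1, Finset.sum_add_distrib, ← Finset.sum_mul, hs]
      ring
    have hharm : InnerProductSpace.HarmonicOnNhd (hp (lv N) c' w V)
        {y : ℂ | 9 / 10 < dist y 0 ∧ dist y 0 < 11 / 10} :=
      (hLOG (List D) (lv N) c' w V).mono fun y hy q hq => hne y hy.1 q hq
    have hpos : ∀ y ∈ {y : ℂ | 9 / 10 < dist y 0 ∧ dist y 0 < 11 / 10},
        0 ≤ hp (lv N) c' w V y := by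
      intro y hy
      rw [heq y hy.1]
      refine hnn _ ((hNIN N).2.2 _ ?_)
      have e1 : dist (ctr + R * y) ctr = R * dist y 0 := by
        rw [dist_eq_norm, add_sub_cancel_left, norm_mul, Complex.norm_real,
          Real.norm_of_nonneg hR0.le, dist_zero_right]
      rw [e1]
      have h3 := hy.1
      nlinarith
    have hback : ∀ u : ℂ, dist u ctr = R → (u - ctr) / R ∈ sphere (0 : ℂ) 1 ∧
        hp (lv N) c' w V ((u - ctr) / R) = gr N w V u := by
      intro u hu
      have e1 : dist ((u - ctr) / R) 0 = 1 := by
        rw [dist_zero_right, norm_div, Complex.norm_real, Real.norm_of_nonneg hR0.le,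
          ← dist_eq_norm, hu, div_self hR0.ne']
      refine ⟨mem_sphere.2 e1, ?_⟩
      rw [heq _ (by rw [e1]; norm_num)]
      congr 1
      field_simp
      ring
    obtain ⟨hz1, hz2⟩ := hback z hR.symm
    obtain ⟨hx3, hx4⟩ := hback x hx
    have h5 := hK (hp (lv N) c' w V) hharm hpos _ hz1 _ hx3
    rw [hz2, hx4] at h5
    have hc2 : (0 : ℝ) ≤ C2 := by linarith
    calc gr N w V z ≤ C2 * gr N w V x := h5
      _ ≤ C2 * V := mul_le_mul_of_nonneg_left hx2 hc2
      _ ≤ max C1 C2 * V := mul_le_mul_of_nonneg_right (le_max_right _ _) hV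

end Pool.Agent.CorE
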