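import Pool.Agent.CorE.Targets

/-!
# Target JBD: the boundary terms
-/

set_option autoImplicit false

namespace Pool.Agent.CorE

open Complex Metric Set Filter Topology MeasureTheory
open Pool.Corona91698f
open scoped Real

namespace JBD_

lemma Psi_sub (v : List D) (z z' : ℂ) : Psi v z - Psi v z' = 3 ^ v.length * (z - z') := by
  induction v generalizing z z' with
  | nil => simp
  | cons d v ih =>
    rw [Psi_cons, Psi_cons, ih, psi_sub, List.length_cons, pow_succ]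
    ring

lemma Psi_cc (v : List D) : Psi v (cc v) = ctr := Psi_Phi v ctr

/-- the points of the boundary of the square of `v` -/
def Sd (v : List D) (z : ℂ) : Prop :=
  |(Psi v z - ctr).re| ≤ 61 / 100 ∧ |(Psi v z - ctr).im| ≤ 61 / 100 ∧
    (|(Psi v z - ctr).re| = 61 / 100 ∨ |(Psi v z - ctr).im| = 61 / 100)

lemma dist_le {y : ℂ} (h1 : |(y - ctr).re| ≤ 61 / 100) (h2 : |(y - ctr).im| ≤ 61 / 100) :
    dist y ctr ≤ 87 / 100 := by
  have h := dist_sq y ctr
  rw [sub_re] at h1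
  rw [sub_im] at h2
  have h3 : (y.re - ctr.re) ^ 2 ≤ (61 / 100) ^ 2 := by
    rw [← sq_abs]
    gcongr
  have h4 : (y.im - ctr.im) ^ 2 ≤ (61 / 100) ^ 2 := by
    rw [← sq_abs (y.im - ctr.im)]
    gcongr
  by_contra hc
  push Not at hc
  nlinarith

lemma psi_ctr (d : D) (y : ℂ) : psi d y - ctr = 3 * (y - ctr) + (2 * ctr - 2 * dig d) := by
  unfold psi
  ring

lemma abs_re_e (d : D) : |(2 * ctr - 2 * dig d).re| = 1 ∧ |(2 * ctr - 2 * dig d).im| = 1 := by
  obtain ⟨a, b⟩ := d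
  cases a <;> cases b <;> constructor <;> norm_num [ctr, dig]

lemma mem_XH {v : List D} {z : ℂ} (h : Sd v z) : Psi v z ∈ XH := by
  obtain ⟨h1, h2, h3⟩ := h
  refine ⟨dist_le h1 h2, fun d => ?_⟩
  obtain ⟨e1, e2⟩ := abs_re_e d
  have h4 := psi_ctr d (Psi v z)
  rw [Complex.dist_eq, h4]
  rcases h3 with h3 | h3
  · have h5 := abs_re_le_norm (3 * (Psi v z - ctr) + (2 * ctr - 2 * dig d))
    refine le_trans ?_ h5
    rw [add_re]
    have h6 : (3 * (Psi v z - ctr)).re = 3 * (Psi v z - ctr).re := by simp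
    rw [h6]
    have h7 := abs_sub_abs_le_abs_sub (3 * (Psi v z - ctr).re) (-(2 * ctr - 2 * dig d).re)
    rw [sub_neg_eq_add, abs_neg, e1, abs_mul, h3, abs_of_pos (by norm_num : (0 : ℝ) < 3)] at h7
    linarith
  · have h5 := abs_im_le_norm (3 * (Psi v z - ctr) + (2 * ctr - 2 * dig d))
    refine le_trans ?_ h5
    rw [add_im]
    have h6 : (3 * (Psi v z - ctr)).im = 3 * (Psi v z - ctr).im := by simp
    rw [h6]
    have h7 := abs_sub_abs_le_abs_sub (3 * (Psi v z - ctr).im) (-(2 * ctr - 2 * dig d).im)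
    rw [sub_neg_eq_add, abs_neg, e2, abs_mul, h3, abs_of_pos (by norm_num : (0 : ℝ) < 3)] at h7
    linarith

lemma nm {v : List D} {z z' : ℂ} (hz : Sd v z) (h : 3 ^ v.length * dist z' z < 1 / 10) :
    z' ∈ squareCantorᶜ := by
  intro hmem
  obtain ⟨g1, g2, g3⟩ := hz
  have h1 : dist (Psi v z') (Psi v z) < 1 / 10 := by
    rw [dist_Psi]
    exact h
  have h2 := dist_le g1 g2
  have h3 : Psi v z' ∈ squareCantor := Psi_mem_of_near hmem
    (by linarith [dist_triangle (Psi v z') (Psi v z) ctr])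
  have h4 : (Psi v z').re ∈ Set.Icc (0 : ℝ) 1 := cantorSet_subset_unitInterval h3.1
  have h5 : (Psi v z').im ∈ Set.Icc (0 : ℝ) 1 := cantorSet_subset_unitInterval h3.2
  have h6 := (abs_re_le_norm (Psi v z' - Psi v z)).trans_lt
    (by rw [← Complex.dist_eq]; exact h1)
  have h7 := (abs_im_le_norm (Psi v z' - Psi v z)).trans_lt
    (by rw [← Complex.dist_eq]; exact h1)
  rw [sub_re, abs_lt] at h6
  rw [sub_im, abs_lt] at h7
  have c1 : ctr.re = 1 / 2 := rfl
  have c2 : ctr.im = 1 / 2 := rfl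
  rw [sub_re, sub_im, c1, c2] at g3
  rcases g3 with g3 | g3
  · rcases abs_choice ((Psi v z).re - 1 / 2) with h8 | h8
    · rw [h8] at g3
      linarith [h4.1, h4.2, h6.1, h6.2]
    · rw [h8] at g3
      linarith [h4.1, h4.2, h6.1, h6.2]
  · rcases abs_choice ((Psi v z).im - 1 / 2) with h8 | h8
    · rw [h8] at g3
      linarith [h5.1, h5.2, h7.1, h7.2]
    · rw [h8] at g3
      linarith [h5.1, h5.2, h7.1, h7.2]

lemma deriv_le {f : ℂ → ℂ} (hf : DifferentiableOn ℂ f squareCantorᶜ)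
    (hb : ∀ z ∈ squareCantorᶜ, ‖f z‖ ≤ 1) {v : List D} {z : ℂ} (hz : Sd v z) :
    ‖f z‖ ≤ 1 ∧ ‖deriv f z‖ ≤ 20 * 3 ^ v.length := by
  have hk : (0 : ℝ) < 3 ^ v.length := by positivity
  have hR : (0 : ℝ) < 1 / (20 * 3 ^ v.length) := by positivity
  have hsub : closedBall z (1 / (20 * 3 ^ v.length)) ⊆ squareCantorᶜ := by
    intro z' hz'
    refine nm hz ?_
    rw [mem_closedBall] at hz'
    calc (3 : ℝ) ^ v.length * dist z' z ≤ 3 ^ v.length * (1 / (20 * 3 ^ v.length)) := by gcongr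
      _ = 1 / 20 := by field_simp
      _ < 1 / 10 := by norm_num
  refine ⟨hb z (hsub (mem_closedBall_self hR.le)), ?_⟩
  have h := Complex.norm_deriv_le_of_forall_mem_sphere_norm_le hR
    (hf.diffContOnCl_ball hsub) (fun z' hz' => hb z' (hsub (sphere_subset_closedBall hz')))
  refine h.trans (le_of_eq ?_)
  field_simp

lemma FF_le' {N : ℕ} {w : List D → ℝ} {V CG : ℝ} {f : ℂ → ℂ} (hG : GB N w V CG)
    (hf : DifferentiableOn ℂ f squareCantorᶜ) (hb : ∀ z ∈ squareCantorᶜ, ‖f z‖ ≤ 1)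
    {v : List D} (hv : v.length < N) {z : ℂ} (hz : Sd v z) :
    ‖FF (lv N) cc w V f z‖ ≤ 21 * (|CG| * w v) * 3 ^ v.length := by
  obtain ⟨f1, f2⟩ := deriv_le hf hb hz
  obtain ⟨g1, g2⟩ := hG.upp v hv z (mem_XH hz)
  have g3 := hG.low v hv z (mem_XH hz)
  have hw : 0 < w v := hG.pos v hv.le
  have h3 : (0 : ℝ) < 3 ^ v.length := by positivity
  have hCG : CG ≤ |CG| := le_abs_self CG
  have hCw : CG * w v ≤ |CG| * w v := by gcongr
  have hC0 : 0 ≤ |CG| * w v := by positivity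
  have hCG0 : 0 ≤ CG := by
    have h2 : 0 ≤ CG * 3 ^ v.length * w v := (norm_nonneg _).trans g2
    have h4 : CG * 3 ^ v.length * w v = CG * (3 ^ v.length * w v) := by ring
    rw [h4] at h2
    exact nonneg_of_mul_nonneg_left h2 (by positivity)
  have hgr0 : 0 ≤ gr N w V z := by
    by_contra hc
    push Not at hc
    have := mul_nonpos_of_nonneg_of_nonpos hCG0 hc.le
    linarith
  have hgr : ‖(hp (lv N) cc w V z : ℂ)‖ ≤ |CG| * w v := by
    rw [norm_real, Real.norm_eq_abs]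
    change |gr N w V z| ≤ _
    rw [abs_of_nonneg hgr0]
    linarith
  have hps : ‖ps N w z‖ ≤ |CG| * w v * 3 ^ v.length := by
    refine g2.trans ?_
    calc CG * 3 ^ v.length * w v = CG * w v * 3 ^ v.length := by ring
      _ ≤ |CG| * w v * 3 ^ v.length := by gcongr
  have hF : FF (lv N) cc w V f z = (‖f z‖ ^ 2 : ℝ) * ps N w z / 2 -
      (hp (lv N) cc w V z : ℂ) * deriv f z * (starRingEnd ℂ) (f z) := rfl
  rw [hF]
  have t1 : ‖((‖f z‖ ^ 2 : ℝ) : ℂ) * ps N w z / 2‖ ≤ |CG| * w v * 3 ^ v.length := by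
    rw [norm_div, norm_mul, norm_real, Real.norm_of_nonneg (by positivity)]
    have e2 : ‖(2 : ℂ)‖ = 2 := by norm_num
    rw [e2, div_le_iff₀ (by norm_num)]
    have e3 : ‖f z‖ ^ 2 ≤ 1 := pow_le_one₀ (norm_nonneg _) f1
    calc ‖f z‖ ^ 2 * ‖ps N w z‖ ≤ 1 * (|CG| * w v * 3 ^ v.length) := by gcongr
      _ ≤ |CG| * w v * 3 ^ v.length * 2 := by
        have : 0 ≤ |CG| * w v * 3 ^ v.length := by positivity
        linarith
  have t2 : ‖(hp (lv N) cc w V z : ℂ) * deriv f z * (starRingEnd ℂ) (f z)‖ ≤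
      20 * (|CG| * w v) * 3 ^ v.length := by
    rw [norm_mul, norm_mul, RCLike.norm_conj]
    calc ‖(hp (lv N) cc w V z : ℂ)‖ * ‖deriv f z‖ * ‖f z‖
        ≤ (|CG| * w v) * (20 * 3 ^ v.length) * 1 := by gcongr
      _ = 20 * (|CG| * w v) * 3 ^ v.length := by ring
  refine (norm_sub_le _ _).trans ?_
  linarith

lemma bdI_le (F : ℂ → ℂ) (z z' : ℂ) {B L : ℝ} (hL1 : |z'.re - z.re| = L)
    (hL2 : |z'.im - z.im| = L)
    (h1 : ∀ x ∈ Set.uIoc z.re z'.re, ‖F (x + z.im * I)‖ ≤ B)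
    (h2 : ∀ x ∈ Set.uIoc z.re z'.re, ‖F (x + z'.im * I)‖ ≤ B)
    (h3 : ∀ y ∈ Set.uIoc z.im z'.im, ‖F (z'.re + y * I)‖ ≤ B)
    (h4 : ∀ y ∈ Set.uIoc z.im z'.im, ‖F (z.re + y * I)‖ ≤ B) :
    ‖bdI F z z'‖ ≤ 4 * (B * L) := by
  have i1 := intervalIntegral.norm_integral_le_of_norm_le_const h1
  have i2 := intervalIntegral.norm_integral_le_of_norm_le_const h2
  have i3 := intervalIntegral.norm_integral_le_of_norm_le_const h3
  have i4 := intervalIntegral.norm_integral_le_of_norm_le_const h4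
  rw [hL1] at i1 i2
  rw [hL2] at i3 i4
  unfold bdI
  have n3 : ‖I • ∫ y in z.im..z'.im, F (z'.re + y * I)‖ ≤ B * L := by
    rw [norm_smul, norm_I, one_mul]
    exact i3
  have n4 : ‖I • ∫ y in z.im..z'.im, F (z.re + y * I)‖ ≤ B * L := by
    rw [norm_smul, norm_I, one_mul]
    exact i4
  refine (norm_sub_le _ _).trans ?_
  refine (add_le_add (norm_add_le _ _) le_rfl).trans ?_
  have n12 := norm_sub_le (∫ x in z.re..z'.re, F (x + z.im * I))
    (∫ x in z.re..z'.re, F (x + z'.im * I))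
  linarith

lemma Sd_of {v : List D} {z : ℂ}
    (h1 : |(z - cc v).re| ≤ 61 / 100 * (1 / 3) ^ v.length)
    (h2 : |(z - cc v).im| ≤ 61 / 100 * (1 / 3) ^ v.length)
    (h3 : |(z - cc v).re| = 61 / 100 * (1 / 3) ^ v.length ∨
      |(z - cc v).im| = 61 / 100 * (1 / 3) ^ v.length) : Sd v z := by
  have h := Psi_sub v z (cc v)
  rw [Psi_cc] at h
  have h3c : (3 : ℂ) ^ v.length = (((3 : ℝ) ^ v.length : ℝ) : ℂ) := by push_cast; rfl
  have hp : (0 : ℝ) < 3 ^ v.length := by positivity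
  have hre : |(Psi v z - ctr).re| = 3 ^ v.length * |(z - cc v).re| := by
    rw [h, h3c, re_ofReal_mul, abs_mul, abs_of_pos hp]
  have him : |(Psi v z - ctr).im| = 3 ^ v.length * |(z - cc v).im| := by
    rw [h, h3c, im_ofReal_mul, abs_mul, abs_of_pos hp]
  have ha : (3 : ℝ) ^ v.length * (61 / 100 * (1 / 3) ^ v.length) = 61 / 100 := by
    rw [mul_left_comm, ← mul_pow]
    norm_num
  refine ⟨?_, ?_, ?_⟩
  · rw [hre, ← ha]
    gcongr
  · rw [him, ← ha]
    gcongr
  · rcases h3 with h3 | h3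
    · left
      rw [hre, h3, ha]
    · right
      rw [him, h3, ha]

end JBD_

open JBD_ in
theorem p_JBD : T_JBD := by
  intro CG
  refine ⟨52 * |CG| + 1, by positivity, ?_⟩
  intro N w V f hG hf hb v hv
  set a : ℝ := 61 / 100 * (1 / 3) ^ v.length with ha
  have ha0 : 0 < a := by positivity
  have hw : 0 < w v := hG.pos v hv.le
  set B : ℝ := 21 * (|CG| * w v) * 3 ^ v.length with hB
  have hFF := fun z (hz : Sd v z) => FF_le' hG hf hb hv hz
  have ez : cc v - (a : ℂ) * (1 + I) = ⟨(cc v).re - a, (cc v).im - a⟩ := by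
    apply Complex.ext <;> simp
  have ez' : cc v + (a : ℂ) * (1 + I) = ⟨(cc v).re + a, (cc v).im + a⟩ := by
    apply Complex.ext <;> simp
  have hle : ‖bdI (FF (lv N) cc w V f) (cc v - (a : ℂ) * (1 + I))
      (cc v + (a : ℂ) * (1 + I))‖ ≤ 4 * (B * (2 * a)) := by
    rw [ez, ez']
    have hx : ∀ {c x : ℝ}, x ∈ Set.uIoc (c - a) (c + a) → |x - c| ≤ a := by
      intro c x hx
      rw [Set.uIoc_of_le (by linarith)] at hx
      rw [abs_le]
      constructor <;> linarith [hx.1, hx.2]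
    refine bdI_le _ _ _ ?_ ?_ (fun x hxm => ?_) (fun x hxm => ?_) (fun x hxm => ?_)
      (fun x hxm => ?_)
    · have : (cc v).re + a - ((cc v).re - a) = 2 * a := by ring
      simp only
      rw [this, abs_of_pos (by positivity)]
    · have : (cc v).im + a - ((cc v).im - a) = 2 * a := by ring
      simp only
      rw [this, abs_of_pos (by positivity)]
    · have h5 := hx hxm
      have e1 : ((x : ℂ) + ((cc v).im - a : ℝ) * I - cc v).re = x - (cc v).re := by simp
      have e2 : ((x : ℂ) + ((cc v).im - a : ℝ) * I - cc v).im = -a := by simp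
      refine hFF _ (Sd_of ?_ ?_ (Or.inr ?_))
      · rw [e1]
        exact h5
      · rw [e2, abs_neg, abs_of_pos ha0]
      · rw [e2, abs_neg, abs_of_pos ha0]
    · have h5 := hx hxm
      have e1 : ((x : ℂ) + ((cc v).im + a : ℝ) * I - cc v).re = x - (cc v).re := by simp
      have e2 : ((x : ℂ) + ((cc v).im + a : ℝ) * I - cc v).im = a := by simp
      refine hFF _ (Sd_of ?_ ?_ (Or.inr ?_))
      · rw [e1]
        exact h5
      · rw [e2, abs_of_pos ha0]
      · rw [e2, abs_of_pos ha0]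
    · have h5 := hx hxm
      have e1 : ((((cc v).re + a : ℝ) : ℂ) + (x : ℂ) * I - cc v).re = a := by simp
      have e2 : ((((cc v).re + a : ℝ) : ℂ) + (x : ℂ) * I - cc v).im = x - (cc v).im := by simp
      refine hFF _ (Sd_of ?_ ?_ (Or.inl ?_))
      · rw [e1, abs_of_pos ha0]
      · rw [e2]
        exact h5
      · rw [e1, abs_of_pos ha0]
    · have h5 := hx hxm
      have e1 : ((((cc v).re - a : ℝ) : ℂ) + (x : ℂ) * I - cc v).re = -a := by simp
      have e2 : ((((cc v).re - a : ℝ) : ℂ) + (x : ℂ) * I - cc v).im = x - (cc v).im := by simp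
      refine hFF _ (Sd_of ?_ ?_ (Or.inl ?_))
      · rw [e1, abs_neg, abs_of_pos ha0]
      · rw [e2]
        exact h5
      · rw [e1, abs_neg, abs_of_pos ha0]
  have hJ : |JJ N w V f v| ≤ ‖bdI (FF (lv N) cc w V f) (cc v - (a : ℂ) * (1 + I))
      (cc v + (a : ℂ) * (1 + I))‖ / 2 := by
    unfold JJ
    refine (abs_re_le_norm _).trans (le_of_eq ?_)
    rw [norm_div, norm_mul, norm_I, mul_one]
    norm_num [ha]
  refine hJ.trans ?_
  have hBa : B * a = 1281 / 100 * (|CG| * w v) := by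
    have h1 : (3 : ℝ) ^ v.length * (1 / 3) ^ v.length = 1 := by
      rw [← mul_pow]
      norm_num
    rw [hB, ha]
    linear_combination (1281 / 100 * (|CG| * w v)) * h1
  have hC0 : 0 ≤ |CG| * w v := by positivity
  have h6 : 4 * (B * (2 * a)) = 8 * (B * a) := by ring
  rw [h6, hBa] at hle
  have h7 : (52 * |CG| + 1) * w v = 52 * (|CG| * w v) + w v := by ring
  rw [h7]
  linarith

end Pool.Agent.CorE
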