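import Pool.Agent.CorE.Targets

/-!
# The inequality of John and Nirenberg on a tree

Project COE, block JNT. The proof is by exponential supermartingales: the sum of an additive
functional with bounded potential is exponentially integrable (affine supersolution), and
`exp (X - S)` is a supermartingale for a martingale `X` with square function `S`.
-/

set_option autoImplicit false

namespace Pool.Agent.CorE

open Complex Metric Set Filter Topology MeasureTheory
open Pool.Corona91698f
open scoped Real

namespace JNT_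

/-- Sum over the words above `v` with less than `m` additional digits. -/
noncomputable def SS (F : List D → ℝ) : ℕ → List D → ℝ
  | 0, _ => 0
  | (m + 1), v => F v + ∑ d : D, SS F m (v ++ [d])

/-- Sum along a path. -/
noncomputable def PP (a : List D → ℝ) : List D → List D → ℝ
  | _, [] => 0
  | v, (d :: x) => a v + PP a (v ++ [d]) x

theorem PP_eq (a : List D → ℝ) (v x : List D) :
    PP a v x = ∑ k ∈ Finset.range x.length, a (v ++ x.take k) := by
  induction x generalizing v with
  | nil => simp [PP]
  | cons d x ih =>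
    rw [List.length_cons, Finset.sum_range_succ']
    simp only [PP, List.take_succ_cons, List.take_zero, List.append_nil]
    rw [ih, add_comm]
    simp

theorem PP_nil (a : List D → ℝ) (q : List D) :
    PP a [] q = ∑ k ∈ Finset.range q.length, a (q.take k) := by
  rw [PP_eq]
  simp

theorem PP_smul (c : ℝ) (a : List D → ℝ) (v x : List D) :
    PP (fun p => c * a p) v x = c * PP a v x := by
  rw [PP_eq, PP_eq, Finset.mul_sum]

theorem SS_nonneg {F : List D → ℝ} {M : ℕ} (hF : ∀ p : List D, p.length < M → 0 ≤ F p) (m : ℕ)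
    (v : List D) (hv : v.length + m = M) : 0 ≤ SS F m v := by
  induction m generalizing v with
  | zero => simp [SS]
  | succ m ih =>
    simp only [SS]
    exact add_nonneg (hF v (by omega)) (Finset.sum_nonneg fun d _ => ih _ (by simp; omega))

theorem bl_zero {M : ℕ} (hM : 1 ≤ M) {v : List D} (hv : v.length = M) : bl (M - 1) v = ∅ := by
  unfold bl
  rw [Finset.filter_eq_empty_iff]
  intro p hp h
  rw [mem_wd] at hp
  have := h.length_le
  omega

theorem bl_succ {M : ℕ} {v : List D} (hv : v.length < M) :
    bl (M - 1) v = insert v ((Finset.univ : Finset D).biUnion fun d => bl (M - 1) (v ++ [d])) := by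
  ext p
  simp only [bl, Finset.mem_filter, Finset.mem_insert, Finset.mem_biUnion, Finset.mem_univ,
    true_and, mem_wd]
  constructor
  · rintro ⟨h1, t, rfl⟩
    cases t with
    | nil => left; simp
    | cons d t =>
      right
      refine ⟨d, h1, ⟨t, ?_⟩⟩
      simp
  · rintro (rfl | ⟨d, h1, t, rfl⟩)
    · exact ⟨by omega, List.prefix_rfl⟩
    · refine ⟨h1, ⟨[d] ++ t, ?_⟩⟩
      simp

theorem SS_eq (F : List D → ℝ) {M : ℕ} (hM : 1 ≤ M) (m : ℕ) (v : List D)
    (hv : v.length + m = M) : SS F m v = ∑ p ∈ bl (M - 1) v, F p := by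
  induction m generalizing v with
  | zero =>
    rw [bl_zero hM (by omega)]
    simp [SS]
  | succ m ih =>
    rw [bl_succ (by omega), Finset.sum_insert, Finset.sum_biUnion]
    · simp only [SS]
      refine congrArg _ (Finset.sum_congr rfl fun d _ => ?_)
      exact ih _ (by simp; omega)
    · intro d _ d' _ hdd
      change Disjoint _ _
      rw [Finset.disjoint_left]
      intro p hp hp'
      simp only [bl, Finset.mem_filter] at hp hp'
      apply hdd
      have h1 := List.prefix_of_prefix_length_le hp.2 hp'.2 (by simp)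
      have h2 := h1.eq_of_length (by simp)
      simpa using h2
    · simp only [bl, Finset.mem_biUnion, Finset.mem_univ, true_and, Finset.mem_filter, not_exists]
      rintro d ⟨_, h⟩
      have := h.length_le
      simp at this

/-- Additive functionals with bounded potential. -/
theorem kha {M : ℕ} {w a : List D → ℝ} {B e : ℝ} (hw : GD M w) (hB : 0 < B) (he : 0 ≤ e)
    (heB : 2 * e * B ≤ 1) (ha : ∀ p, 0 ≤ a p)
    (hS : ∀ (m : ℕ) (v : List D), v.length + m = M → SS (fun p => w p * a p) m v ≤ B * w v)
    (m : ℕ) (v : List D) (hv : v.length + m = M) :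
    ∑ x ∈ lv m, w (v ++ x) * Real.exp (e * PP a v x) ≤
      w v + 1 / B * SS (fun p => w p * a p) m v := by
  induction m generalizing v with
  | zero => simp [lv, PP, SS]
  | succ m ih =>
    have hvM : v.length < M := by omega
    have hwv : 0 < w v := hw.pos v hvM.le
    rw [sum_lv_succ]
    have h1 : ∀ d : D, ∑ x ∈ lv m, w (v ++ (d :: x)) * Real.exp (e * PP a v (d :: x)) ≤
        Real.exp (e * a v) * (w (v ++ [d]) + 1 / B * SS (fun p => w p * a p) m (v ++ [d])) := by
      intro d
      refine le_trans (le_of_eq ?_)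
        (mul_le_mul_of_nonneg_left (ih (v ++ [d]) (by simp; omega)) (Real.exp_nonneg _))
      rw [Finset.mul_sum]
      refine Finset.sum_congr rfl fun x _ => ?_
      have e1 : v ++ (d :: x) = v ++ [d] ++ x := by simp
      have e2 : e * PP a v (d :: x) = e * a v + e * PP a (v ++ [d]) x := by
        simp only [PP]
        ring
      rw [e1, e2, Real.exp_add]
      ring
    refine (Finset.sum_le_sum fun d _ => h1 d).trans ?_
    rw [← Finset.mul_sum, Finset.sum_add_distrib, hw.add v hvM, ← Finset.mul_sum]
    have h2 := hS (m + 1) v hv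
    simp only [SS] at h2 ⊢
    set s : ℝ := ∑ d : D, SS (fun p => w p * a p) m (v ++ [d]) with hs
    have h3 := ha v
    set K : ℝ := w v + 1 / B * (w v * a v + s) with hK
    have hs0 : 0 ≤ s := Finset.sum_nonneg fun d _ =>
      SS_nonneg (M := M) (fun p hp => mul_nonneg (hw.pos p hp.le).le (ha p)) m _
        (by simp; omega)
    have hKle : K ≤ 2 * w v := by
      rw [hK]
      have : 1 / B * (w v * a v + s) ≤ w v := by
        rw [one_div, inv_mul_le_iff₀ hB]
        exact h2
      linarith
    have hK0 : 0 ≤ K := by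
      rw [hK]
      have : 0 ≤ 1 / B * (w v * a v + s) := by positivity
      linarith
    have e3 : w v + 1 / B * s = K - w v * a v / B := by
      rw [hK]
      ring
    rw [e3]
    have h4 : 1 - e * a v ≤ Real.exp (-(e * a v)) := by
      have := Real.add_one_le_exp (-(e * a v))
      linarith
    have h5 : K * (e * a v) ≤ w v * a v / B := by
      rw [le_div_iff₀ hB]
      have h6 : K * (e * a v) * B ≤ 2 * w v * (e * a v) * B := by
        have : 0 ≤ e * a v * B := by positivity
        nlinarith
      have h7 : 2 * w v * (e * a v) * B = (w v * a v) * (2 * e * B) := by ring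
      have h8 : 0 ≤ w v * a v := by positivity
      nlinarith
    have h6 : K - w v * a v / B ≤ K * Real.exp (-(e * a v)) := by nlinarith
    calc Real.exp (e * a v) * (K - w v * a v / B)
        ≤ Real.exp (e * a v) * (K * Real.exp (-(e * a v))) :=
          mul_le_mul_of_nonneg_left h6 (Real.exp_nonneg _)
      _ = K := by
          rw [mul_comm K, ← mul_assoc, ← Real.exp_add]
          simp

/-- Exponential supermartingales. -/
theorem spm {M : ℕ} {w b X : List D → ℝ}
    (hb : ∀ p : List D, p.length < M →
      ∑ d : D, w (p ++ [d]) * Real.exp (b p + (X (p ++ [d]) - X p)) ≤ w p)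
    (m : ℕ) (v : List D) (hv : v.length + m = M) :
    ∑ x ∈ lv m, w (v ++ x) * Real.exp (PP b v x + (X (v ++ x) - X v)) ≤ w v := by
  induction m generalizing v with
  | zero => simp [lv, PP]
  | succ m ih =>
    rw [sum_lv_succ]
    refine le_trans (Finset.sum_le_sum fun d _ => ?_) (hb v (by omega))
    have h1 := mul_le_mul_of_nonneg_left (ih (v ++ [d]) (by simp; omega))
      (Real.exp_nonneg (b v + (X (v ++ [d]) - X v)))
    refine le_trans (le_of_eq ?_) (h1.trans (le_of_eq (mul_comm _ _)))
    rw [Finset.mul_sum]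
    refine Finset.sum_congr rfl fun x _ => ?_
    have e1 : v ++ (d :: x) = v ++ [d] ++ x := by simp
    have e2 : PP b v (d :: x) + (X (v ++ [d] ++ x) - X v) =
        (b v + (X (v ++ [d]) - X v)) + (PP b (v ++ [d]) x +
          (X (v ++ [d] ++ x) - X (v ++ [d]))) := by
      simp only [PP]
      ring
    rw [e1, e2, Real.exp_add]
    ring

theorem exp_le_sq {x : ℝ} (hx : |x| ≤ 1) : Real.exp x ≤ 1 + x + x ^ 2 := by
  have h := Real.abs_exp_sub_one_sub_id_le hx
  have := (abs_le.1 h).2
  linarith

/-- The step for a martingale. -/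
theorem step {M : ℕ} {w X : List D → ℝ} {a : List D → ℝ} (hw : GD M w)
    (hX : ∀ p : List D, p.length < M → ∑ d : D, w (p ++ [d]) * X (p ++ [d]) = w p * X p)
    (hXB : ∀ p : List D, p.length < M → ∀ d : D, |X (p ++ [d]) - X p| ≤ 1)
    (ha : ∀ p : List D, p.length < M →
      ∑ d : D, w (p ++ [d]) * (X (p ++ [d]) - X p) ^ 2 ≤ w p * a p)
    (p : List D) (hp : p.length < M) :
    ∑ d : D, w (p ++ [d]) * Real.exp (-a p + (X (p ++ [d]) - X p)) ≤ w p := by
  have h1 : ∑ d : D, w (p ++ [d]) * Real.exp (X (p ++ [d]) - X p) ≤ w p * (1 + a p) := by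
    have h2 : ∀ d : D, w (p ++ [d]) * Real.exp (X (p ++ [d]) - X p) ≤
        w (p ++ [d]) + (w (p ++ [d]) * X (p ++ [d]) - w (p ++ [d]) * X p) +
          w (p ++ [d]) * (X (p ++ [d]) - X p) ^ 2 := by
      intro d
      have h3 : 0 < w (p ++ [d]) := hw.pos _ (by simp; omega)
      have h4 := exp_le_sq (hXB p hp d)
      nlinarith
    refine (Finset.sum_le_sum fun d _ => h2 d).trans ?_
    rw [Finset.sum_add_distrib, Finset.sum_add_distrib, Finset.sum_sub_distrib, hX p hp,
      ← Finset.sum_mul, hw.add p hp]
    have := ha p hp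
    linarith
  have h2 : ∑ d : D, w (p ++ [d]) * Real.exp (-a p + (X (p ++ [d]) - X p)) =
      Real.exp (-a p) * ∑ d : D, w (p ++ [d]) * Real.exp (X (p ++ [d]) - X p) := by
    rw [Finset.mul_sum]
    refine Finset.sum_congr rfl fun d _ => ?_
    rw [Real.exp_add]
    ring
  rw [h2]
  have h3 : 0 < w p := hw.pos p hp.le
  calc Real.exp (-a p) * ∑ d : D, w (p ++ [d]) * Real.exp (X (p ++ [d]) - X p)
      ≤ Real.exp (-a p) * (w p * (1 + a p)) := mul_le_mul_of_nonneg_left h1 (Real.exp_nonneg _)
    _ ≤ Real.exp (-a p) * (w p * Real.exp (a p)) := by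
        refine mul_le_mul_of_nonneg_left ?_ (Real.exp_nonneg _)
        refine mul_le_mul_of_nonneg_left ?_ h3.le
        have := Real.add_one_le_exp (a p)
        linarith
    _ = w p := by
        rw [mul_comm (w p), ← mul_assoc, ← Real.exp_add]
        simp

/-- One real martingale. -/
theorem one {M : ℕ} {w X : List D → ℝ} {a : List D → ℝ} {B t : ℝ} (hw : GD M w) (hB : 0 < B)
    (ht : 2 * |t| * B ≤ 1) (ht2 : 8 * t ^ 2 * B ≤ 1)
    (hX : ∀ p : List D, p.length < M → ∑ d : D, w (p ++ [d]) * X (p ++ [d]) = w p * X p)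
    (hXB : ∀ p : List D, p.length < M → ∀ d : D, |X (p ++ [d]) - X p| ≤ B)
    (ha0 : ∀ p, 0 ≤ a p)
    (ha : ∀ p : List D, p.length < M →
      ∑ d : D, w (p ++ [d]) * (X (p ++ [d]) - X p) ^ 2 ≤ w p * a p)
    (hS : ∀ (m : ℕ) (v : List D), v.length + m = M → SS (fun p => w p * a p) m v ≤ B * w v) :
    ∑ q ∈ lv M, w q * Real.exp (t * (X q - X [])) ≤ 3 * w [] := by
  have h1 := kha (e := 4 * t ^ 2) hw hB (by positivity) (by linarith) ha0 hS M []
    (by simp)
  have h2 := hS M [] (by simp)
  have h3 : ∑ q ∈ lv M, w q * Real.exp (4 * t ^ 2 * PP a [] q) ≤ 2 * w [] := by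
    simp only [List.nil_append] at h1
    have h4 : 1 / B * SS (fun p => w p * a p) M [] ≤ w [] := by
      rw [one_div, inv_mul_le_iff₀ hB]
      exact h2
    linarith
  have h5 := spm (w := w) (b := fun p => -(4 * t ^ 2 * a p)) (X := fun p => 2 * t * X p) (M := M)
    (fun p hp => step (X := fun p => 2 * t * X p) (a := fun p => 4 * t ^ 2 * a p) hw
      (fun p hp => by
        have e : w p * (2 * t * X p) = 2 * t * (w p * X p) := by ring
        rw [e, ← hX p hp, Finset.mul_sum]
        refine Finset.sum_congr rfl fun d _ => ?_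
        ring)
      (fun p hp d => by
        rw [← mul_sub, abs_mul, abs_mul, abs_two]
        have := hXB p hp d
        have h6 : 0 ≤ 2 * |t| := by positivity
        nlinarith)
      (fun p hp => by
        have h6 := ha p hp
        have h7 : ∑ d : D, w (p ++ [d]) * (2 * t * X (p ++ [d]) - 2 * t * X p) ^ 2 =
            4 * t ^ 2 * ∑ d : D, w (p ++ [d]) * (X (p ++ [d]) - X p) ^ 2 := by
          rw [Finset.mul_sum]
          refine Finset.sum_congr rfl fun d _ => ?_
          ring
        rw [h7]
        have h8 : 0 ≤ 4 * t ^ 2 := by positivity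
        nlinarith)
      p hp) M [] (by simp)
  simp only [List.nil_append] at h5
  have h6 : ∀ q, PP (fun p => -(4 * t ^ 2 * a p)) [] q = -(4 * t ^ 2 * PP a [] q) := by
    intro q
    have h7 := PP_smul (-(4 * t ^ 2)) a [] q
    have h8 : (fun p => -(4 * t ^ 2 * a p)) = fun p => -(4 * t ^ 2) * a p := by
      ext p
      ring
    rw [h8, h7]
    ring
  have h7 : ∀ q ∈ lv M, w q * Real.exp (t * (X q - X [])) ≤
      w q * Real.exp (PP (fun p => -(4 * t ^ 2 * a p)) [] q + (2 * t * X q - 2 * t * X [])) +
        w q * Real.exp (4 * t ^ 2 * PP a [] q) := by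
    intro q hq
    rw [mem_lv] at hq
    have h8 : 0 < w q := hw.pos q hq.le
    rw [← mul_add]
    refine mul_le_mul_of_nonneg_left ?_ h8.le
    rw [h6]
    set P : ℝ := 4 * t ^ 2 * PP a [] q with hP
    set R : ℝ := t * (X q - X []) with hR
    have e1 : -P + (2 * t * X q - 2 * t * X []) = 2 * (R - P / 2) := by
      rw [hR]
      ring
    have e2 : P = 2 * (P / 2) := by ring
    have e3 : Real.exp R = Real.exp (R - P / 2) * Real.exp (P / 2) := by
      rw [← Real.exp_add]
      congr 1
      ring
    have e4 : ∀ x : ℝ, Real.exp (2 * x) = Real.exp x ^ 2 := by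
      intro x
      rw [← Real.exp_nat_mul]
      norm_num
    have e5 : Real.exp P = Real.exp (P / 2) ^ 2 := by
      rw [← e4]
      congr 1
    rw [e1, e3, e4, e5]
    nlinarith [sq_nonneg (Real.exp (R - P / 2) - Real.exp (P / 2)),
      sq_nonneg (Real.exp (R - P / 2)), sq_nonneg (Real.exp (P / 2))]
  refine (Finset.sum_le_sum h7).trans ?_
  rw [Finset.sum_add_distrib]
  linarith

theorem exp_sum_le {n : ℕ} (y : Fin n → ℝ) (t : ℝ) :
    Real.exp (∑ i, y i + t) ≤ ∑ i, Real.exp ((n + 1) * y i) + Real.exp ((n + 1) * t) := by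
  set z : Option (Fin n) → ℝ := fun o => o.elim t y with hz
  obtain ⟨j, hj⟩ := Finite.exists_max z
  have h1 : ∑ i, y i + t = ∑ o, z o := by
    rw [Fintype.sum_option, add_comm]
    rfl
  have h2 : ∑ o, z o ≤ (n + 1) * z j := by
    refine (Finset.sum_le_card_nsmul Finset.univ z (z j) fun o _ => hj o).trans (le_of_eq ?_)
    simp
  have h3 : Real.exp ((n + 1) * z j) ≤ ∑ o, Real.exp ((n + 1) * z o) :=
    Finset.single_le_sum (f := fun o => Real.exp ((n + 1) * z o))
      (fun o _ => Real.exp_nonneg _) (Finset.mem_univ j)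
  have h4 : ∑ o, Real.exp ((n + 1) * z o) =
      ∑ i, Real.exp ((n + 1) * y i) + Real.exp ((n + 1) * t) := by
    rw [Fintype.sum_option, add_comm]
    rfl
  rw [h1, ← h4]
  exact (Real.exp_le_exp.2 h2).trans h3

theorem exp_norm_le {s : ℝ} (hs : 0 ≤ s) (y : ℂ) :
    Real.exp (s * ‖y‖) ≤ Real.exp (2 * s * y.re) + Real.exp (-(2 * s) * y.re) +
      (Real.exp (2 * s * y.im) + Real.exp (-(2 * s) * y.im)) := by
  have h1 := Complex.norm_le_abs_re_add_abs_im y
  have h2 : ∀ x : ℝ, Real.exp (2 * s * |x|) ≤ Real.exp (2 * s * x) + Real.exp (-(2 * s) * x) := by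
    intro x
    rcases abs_cases x with ⟨h, _⟩ | ⟨h, _⟩
    · rw [h]
      have := Real.exp_nonneg (-(2 * s) * x)
      linarith
    · rw [h]
      have := Real.exp_nonneg (2 * s * x)
      have e : 2 * s * -x = -(2 * s) * x := by ring
      rw [e]
      linarith
  rcases le_total |y.re| |y.im| with h | h
  · have h3 : Real.exp (s * ‖y‖) ≤ Real.exp (2 * s * |y.im|) := Real.exp_le_exp.2 (by nlinarith)
    have h4 := h2 y.im
    have h5 := Real.exp_nonneg (2 * s * y.re)
    have h6 := Real.exp_nonneg (-(2 * s) * y.re)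
    linarith
  · have h3 : Real.exp (s * ‖y‖) ≤ Real.exp (2 * s * |y.re|) := Real.exp_le_exp.2 (by nlinarith)
    have h4 := h2 y.re
    have h5 := Real.exp_nonneg (2 * s * y.im)
    have h6 := Real.exp_nonneg (-(2 * s) * y.im)
    linarith

end JNT_

open JNT_ in
theorem p_JNT : T_JNT := by
  intro n B hB
  refine ⟨1 / (8 * (n + 1) * (B + 1)), 12 * n + 2, by positivity, by positivity, ?_⟩
  intro M w Y τ hw hτ hY hYB hYS hτS
  set lam : ℝ := 1 / (8 * (n + 1) * (B + 1)) with hlam
  set s : ℝ := (n + 1) * lam with hs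
  have hs1 : s = 1 / (8 * (B + 1)) := by
    rw [hs, hlam]
    have : (n : ℝ) + 1 ≠ 0 := by positivity
    field_simp
  have hs0 : 0 < s := by
    rw [hs1]
    positivity
  have hs2 : s * (8 * (B + 1)) = 1 := by
    rw [hs1]
    field_simp
  have hw0 : 0 < w [] := hw.pos [] (by simp)
  -- the sum of `τ`
  have hτp : ∀ (m : ℕ) (v : List D), v.length + m = M →
      SS (fun p => w p * τ p) m v ≤ B * w v := by
    intro m v hv
    rcases Nat.eq_zero_or_pos m with rfl | hm
    · have := hw.pos v (by omega)
      simp only [SS]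
      positivity
    · rw [SS_eq _ (by omega) m v hv]
      exact hτS v (by omega)
  have h1 : ∑ q ∈ lv M, w q * Real.exp (s * PP τ [] q) ≤ 2 * w [] := by
    have h2 := kha (e := s) hw hB hs0.le (by nlinarith) (fun p => (hτ p).1) hτp M [] (by simp)
    have h3 := hτp M [] (by simp)
    simp only [List.nil_append] at h2
    have h4 : 1 / B * SS (fun p => w p * τ p) M [] ≤ w [] := by
      rw [one_div, inv_mul_le_iff₀ hB]
      exact h3
    linarith
  -- the martingales
  have hmart : ∀ i, ∑ q ∈ lv M, w q * Real.exp (s * ‖Y i q - Y i []‖) ≤ 12 * w [] := by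
    intro i
    set a : List D → ℝ := fun p => if p.length < M then
      (∑ d : D, w (p ++ [d]) * ‖Y i (p ++ [d]) - Y i p‖ ^ 2) / w p else 0 with ha
    have hwa : ∀ p : List D, p.length < M →
        w p * a p = ∑ d : D, w (p ++ [d]) * ‖Y i (p ++ [d]) - Y i p‖ ^ 2 := by
      intro p hp
      have h2 : w p ≠ 0 := (hw.pos p hp.le).ne'
      simp only [ha, if_pos hp]
      field_simp
    have ha0 : ∀ p, 0 ≤ a p := by
      intro p
      simp only [ha]
      split_ifs with h
      · have h2 : 0 < w p := hw.pos p h.le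
        refine div_nonneg (Finset.sum_nonneg fun d _ => ?_) h2.le
        have h3 : 0 < w (p ++ [d]) := hw.pos _ (by simp; omega)
        positivity
      · exact le_refl _
    have hS : ∀ (m : ℕ) (v : List D), v.length + m = M →
        SS (fun p => w p * a p) m v ≤ B * w v := by
      intro m v hv
      rcases Nat.eq_zero_or_pos m with rfl | hm
      · have := hw.pos v (by omega)
        simp only [SS]
        positivity
      · rw [SS_eq _ (by omega) m v hv]
        refine le_trans (le_of_eq ?_) (hYS i v (by omega))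
        refine Finset.sum_congr rfl fun p hp => ?_
        simp only [bl, Finset.mem_filter, mem_wd] at hp
        exact hwa p (by omega)
    have key : ∀ (X : List D → ℝ) (t : ℝ), |t| = 2 * s →
        (∀ p : List D, p.length < M → ∑ d : D, w (p ++ [d]) * X (p ++ [d]) = w p * X p) →
        (∀ p q : List D, |X q - X p| ≤ ‖Y i q - Y i p‖) →
        ∑ q ∈ lv M, w q * Real.exp (t * (X q - X [])) ≤ 3 * w [] := by
      intro X t ht hX hXY
      refine one hw hB ?_ ?_ hX (fun p hp d => (hXY _ _).trans (hYB i p hp d)) ha0 ?_ hS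
      · rw [ht]
        nlinarith
      · rw [← sq_abs, ht]
        have h2 : 0 < s * B := by positivity
        have h3 : s * B ≤ 1 / 8 := by nlinarith
        have h4 : s ≤ 1 / 8 := by nlinarith
        nlinarith
      · intro p hp
        rw [hwa p hp]
        refine Finset.sum_le_sum fun d _ => ?_
        have h3 : 0 < w (p ++ [d]) := hw.pos _ (by simp; omega)
        refine mul_le_mul_of_nonneg_left ?_ h3.le
        rw [← sq_abs]
        exact pow_le_pow_left₀ (abs_nonneg _) (hXY _ _) 2
    have hre : ∀ p : List D, p.length < M →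
        ∑ d : D, w (p ++ [d]) * (Y i (p ++ [d])).re = w p * (Y i p).re := by
      intro p hp
      have h2 := congrArg Complex.re (hY i p hp)
      simpa using h2
    have him : ∀ p : List D, p.length < M →
        ∑ d : D, w (p ++ [d]) * (Y i (p ++ [d])).im = w p * (Y i p).im := by
      intro p hp
      have h2 := congrArg Complex.im (hY i p hp)
      simpa using h2
    have hre2 : ∀ p q : List D, |(Y i q).re - (Y i p).re| ≤ ‖Y i q - Y i p‖ := by
      intro p q
      rw [← Complex.sub_re]
      exact Complex.abs_re_le_norm _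
    have him2 : ∀ p q : List D, |(Y i q).im - (Y i p).im| ≤ ‖Y i q - Y i p‖ := by
      intro p q
      rw [← Complex.sub_im]
      exact Complex.abs_im_le_norm _
    have k1 := key (fun p => (Y i p).re) (2 * s) (abs_of_pos (by positivity)) hre hre2
    have k2 := key (fun p => (Y i p).re) (-(2 * s))
      (by rw [abs_neg]; exact abs_of_pos (by positivity)) hre hre2
    have k3 := key (fun p => (Y i p).im) (2 * s) (abs_of_pos (by positivity)) him him2
    have k4 := key (fun p => (Y i p).im) (-(2 * s))
      (by rw [abs_neg]; exact abs_of_pos (by positivity)) him him2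
    have h2 : ∀ q ∈ lv M, w q * Real.exp (s * ‖Y i q - Y i []‖) ≤
        (w q * Real.exp (2 * s * ((Y i q).re - (Y i []).re)) +
          w q * Real.exp (-(2 * s) * ((Y i q).re - (Y i []).re))) +
        (w q * Real.exp (2 * s * ((Y i q).im - (Y i []).im)) +
          w q * Real.exp (-(2 * s) * ((Y i q).im - (Y i []).im))) := by
      intro q hq
      rw [mem_lv] at hq
      have h3 : 0 < w q := hw.pos q hq.le
      rw [← mul_add, ← mul_add, ← mul_add]
      refine mul_le_mul_of_nonneg_left ?_ h3.le
      have h4 := exp_norm_le hs0.le (Y i q - Y i [])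
      rw [Complex.sub_re, Complex.sub_im] at h4
      exact h4
    refine (Finset.sum_le_sum h2).trans ?_
    rw [Finset.sum_add_distrib, Finset.sum_add_distrib, Finset.sum_add_distrib]
    linarith
  -- conclusion
  have h2 : ∀ q ∈ lv M, w q * Real.exp (lam * (∑ i, ‖Y i q - Y i []‖ +
      ∑ k ∈ Finset.range M, τ (q.take k))) ≤
      ∑ i, w q * Real.exp (s * ‖Y i q - Y i []‖) + w q * Real.exp (s * PP τ [] q) := by
    intro q hq
    rw [mem_lv] at hq
    have h3 : 0 < w q := hw.pos q hq.le
    rw [← Finset.mul_sum, ← mul_add]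
    refine mul_le_mul_of_nonneg_left ?_ h3.le
    have h4 := exp_sum_le (fun i => lam * ‖Y i q - Y i []‖) (lam * PP τ [] q)
    rw [← Finset.mul_sum, ← mul_add] at h4
    rw [PP_nil, hq] at h4 ⊢
    refine h4.trans (le_of_eq ?_)
    simp only [← mul_assoc, ← hs]
  refine (Finset.sum_le_sum h2).trans ?_
  rw [Finset.sum_add_distrib, Finset.sum_comm]
  have h3 : ∑ i : Fin n, ∑ q ∈ lv M, w q * Real.exp (s * ‖Y i q - Y i []‖) ≤
      ∑ i : Fin n, 12 * w [] := Finset.sum_le_sum fun i _ => hmart i
  rw [Finset.sum_const, Finset.card_univ, Fintype.card_fin, nsmul_eq_mul] at h3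
  linarith

end Pool.Agent.CorE
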