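import Pool.Agent.CorE.Targets

/-!
Project COE, block LGR (helper24): positive harmonic functions on the complement of the square
Cantor set grow at most like a power of the distance.
-/

set_option autoImplicit false

namespace Pool.Agent.CorE

open Complex Metric Set Filter Topology MeasureTheory
open Pool.Corona91698f
open scoped Real

namespace LGR_

theorem harm_comp {u : ℂ → ℝ} {g : ℂ → ℂ} {x : ℂ} (hu : InnerProductSpace.HarmonicAt u (g x))
    (hg : AnalyticAt ℂ g x) : InnerProductSpace.HarmonicAt (fun y => u (g y)) x := by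
  obtain ⟨ε, h₁ε, h₂ε⟩ := Metric.isOpen_iff.1
    (InnerProductSpace.isOpen_setOfPred_harmonicAt (f := u)) (g x) hu
  obtain ⟨F, h₁F, h₂F⟩ := InnerProductSpace.HarmonicOnNhd.exists_analyticOnNhd_ball_re_eq
    (f := u) (z := g x) (R := ε) (fun _ hy ↦ h₂ε hy)
  have h1 : AnalyticAt ℂ (fun y => F (g y)) x := (h₁F _ (mem_ball_self h₁ε)).comp hg
  have h2 : InnerProductSpace.HarmonicAt (fun y => (F (g y)).re) x := h1.harmonicAt_re
  refine (InnerProductSpace.harmonicAt_congr_nhds ?_).1 h2
  have h3 : ∀ᶠ y in 𝓝 x, g y ∈ ball (g x) ε :=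
    hg.continuousAt.eventually_mem (ball_mem_nhds _ h₁ε)
  filter_upwards [h3] with y hy
  exact h₂F hy

theorem analyticAt_Phi (p : List D) (x : ℂ) : AnalyticAt ℂ (Phi p) x :=
  (differentiable_Phi p).analyticAt x

/-- The open node. -/
def UH : Set ℂ := {y | dist y ctr < 9 / 10 ∧ ∀ d : D, 72 / 100 < dist (psi d y) ctr}

theorem isOpen_UH : IsOpen UH := by
  have : UH = {y | dist y ctr < 9 / 10} ∩ ⋂ d : D, {y | 72 / 100 < dist (psi d y) ctr} := by
    ext y
    simp [UH]
  rw [this]
  refine (isOpen_lt (continuous_id.dist continuous_const) continuous_const).inter ?_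
  exact isOpen_iInter_of_finite fun d => isOpen_lt continuous_const (cont_dist_psi d)

theorem isCompact_XH : IsCompact XH := by
  have : XH = closedBall ctr (87 / 100) ∩ ⋂ d : D, {y | 73 / 100 ≤ dist (psi d y) ctr} := by
    ext y
    simp [XH]
  rw [this]
  refine (isCompact_closedBall ctr _).inter_right ?_
  exact isClosed_iInter fun d => isClosed_le continuous_const (cont_dist_psi d)

theorem XH_sub : XH ⊆ UH := by
  rintro y ⟨h1, h2⟩
  exact ⟨by linarith, fun d => by linarith [h2 d]⟩

theorem UH_notMem {y : ℂ} (hy : y ∈ UH) : y ∉ squareCantor := by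
  apply nodeU_notMem
  exact ⟨by have := hy.1; linarith, hy.2⟩

theorem Phi_UH {p : List D} {y : ℂ} (hy : y ∈ UH) : Phi p y ∉ squareCantor := by
  intro h
  exact UH_notMem hy (mem_of_Phi_mem (by have := hy.1; linarith) h)

/-- A point of the circle of radius `4 / 5`. -/
theorem circ_XH {y : ℂ} (hy : dist y ctr = 4 / 5) : y ∈ XH := by
  refine ⟨by rw [hy]; norm_num, fun d => ?_⟩
  have := dist_psi_ge d y
  rw [hy] at this
  linarith

theorem circ_XH' {y : ℂ} (d : D) (hy : dist (psi d y) ctr = 4 / 5) : y ∈ XH := by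
  have h1 := dist_le_of_psi d y
  refine ⟨by rw [hy] at h1; linarith, fun e => ?_⟩
  by_cases hed : e = d
  · rw [hed, hy]; norm_num
  · by_contra hlt
    push Not at hlt
    exact hed (psi_disj (by linarith) (by rw [hy]; norm_num))

end LGR_

open LGR_ in
/-- Block LGR. -/
theorem p_LGR (hCHN : T_CHN) (hCON : T_CON) : ∃ C : ℝ, 1 ≤ C ∧ ∀ (u : ℂ → ℝ) (A : ℝ),
    InnerProductSpace.HarmonicOnNhd u squareCantorᶜ → (∀ z ∈ squareCantorᶜ, 0 ≤ u z) →
    (∀ z, 1 ≤ dist z ctr → u z ≤ A) → ∀ z ∈ squareCantorᶜ, ∀ k : ℕ,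
      151 / 100 < 3 ^ k * infDist z squareCantor → u z ≤ C ^ (k + 1) * A := by
  obtain ⟨C₁, hC₁, h₁⟩ := hCHN UH XH isOpen_UH
    (hCON.1 (9 / 10) (72 / 100) (by norm_num) (by norm_num) (by norm_num) (by norm_num))
    isCompact_XH XH_sub
  obtain ⟨C₂, hC₂, h₂⟩ := hCHN {y : ℂ | 72 / 100 < dist y ctr ∧ dist y ctr < 2}
    (closedBall ctr (11 / 10) ∩ {y | 76 / 100 ≤ dist y ctr})
    ((isOpen_lt continuous_const (continuous_id.dist continuous_const)).inter
      (isOpen_lt (continuous_id.dist continuous_const) continuous_const))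
    (hCON.2 ctr 2 (72 / 100) (by norm_num))
    ((isCompact_closedBall ctr _).inter_right
      (isClosed_le continuous_const (continuous_id.dist continuous_const)))
    (by
      rintro y ⟨h1, h2⟩
      rw [mem_closedBall] at h1
      have h2' : 76 / 100 ≤ dist y ctr := h2
      exact ⟨by linarith, by linarith⟩)
  refine ⟨C₁ * C₂, by nlinarith, fun u A hu h0 hA z hz k hk => ?_⟩
  have hE : ∀ y, 72 / 100 < dist y ctr → y ∈ squareCantorᶜ := by
    intro y hy hE
    have := squareCantor_dist' hE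
    linarith
  -- a point on the unit circle
  have hone : dist (ctr + 1) ctr = 1 := by rw [dist_eq_norm]; simp
  have hA0 : 0 ≤ A := (h0 _ (hE _ (by rw [hone]; norm_num))).trans (hA (ctr + 1) (by rw [hone]))
  -- exterior
  have hext : ∀ y, 76 / 100 ≤ dist y ctr → u y ≤ C₂ * A := by
    intro y hy
    rcases le_or_gt (dist y ctr) (11 / 10) with h | h
    · have := h₂ u (fun x hx => hu x (hE x hx.1)) (fun x hx => h0 x (hE x hx.1)) y
        ⟨mem_closedBall.2 h, hy⟩ (ctr + 1)
        ⟨mem_closedBall.2 (by rw [hone]; norm_num), by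
          show 76 / 100 ≤ dist (ctr + 1) ctr
          rw [hone]; norm_num⟩
      refine this.trans ?_
      exact mul_le_mul_of_nonneg_left (hA _ (by rw [hone])) (by linarith)
    · refine (hA y (by linarith)).trans ?_
      nlinarith
  -- the nodes
  have hnode : ∀ (p : List D) (x y : ℂ), Psi p x ∈ XH → Psi p y ∈ XH → u x ≤ C₁ * u y := by
    intro p x y hx hy
    have := h₁ (fun t => u (Phi p t))
      (fun t ht => harm_comp (hu _ (Phi_UH ht)) (analyticAt_Phi p t))
      (fun t ht => h0 _ (Phi_UH ht)) (Psi p x) hx (Psi p y) hy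
    simpa only [Phi_Psi] using this
  have hcirc : dist (ctr + (4 / 5 : ℝ)) ctr = 4 / 5 := by
    rw [dist_eq_norm, add_sub_cancel_left, Complex.norm_real]
    norm_num
  have hind : ∀ (p : List D) (x : ℂ), Psi p x ∈ XH → u x ≤ C₁ ^ (p.length + 1) * (C₂ * A) := by
    intro p
    induction p using List.reverseRecOn with
    | nil =>
      intro x hx
      have h3 := hnode [] x (ctr + (4 / 5 : ℝ)) hx (circ_XH hcirc)
      have h4 := hext (ctr + (4 / 5 : ℝ)) (by rw [hcirc]; norm_num)
      simp only [List.length_nil, zero_add, pow_one]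
      exact h3.trans (mul_le_mul_of_nonneg_left h4 (by linarith))
    | append_singleton p d ih =>
      intro x hx
      set y : ℂ := Phi (p ++ [d]) (ctr + (4 / 5 : ℝ)) with hy
      have hy1 : Psi (p ++ [d]) y ∈ XH := by rw [hy, Psi_Phi]; exact circ_XH hcirc
      have hy2 : Psi p y ∈ XH := by
        apply circ_XH' d
        rw [← Psi_snoc, hy, Psi_Phi]
        exact hcirc
      have h3 := hnode (p ++ [d]) x y hx hy1
      have h4 := ih y hy2
      rw [List.length_append, List.length_singleton, pow_succ]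
      have hC0 : 0 ≤ C₁ := by linarith
      nlinarith [mul_le_mul_of_nonneg_left h4 hC0]
  have hC1 : (1 : ℝ) ≤ C₁ := hC₁
  obtain ⟨R, hR⟩ := Nd_cover hz
  have hpow2 : C₂ ≤ C₂ ^ (k + 1) := by
    calc C₂ = C₂ ^ 1 := (pow_one _).symm
      _ ≤ C₂ ^ (k + 1) := pow_le_pow_right₀ hC₂ (by omega)
  have hgoal : ∀ j : ℕ, j ≤ k + 1 → C₁ ^ j * (C₂ * A) ≤ (C₁ * C₂) ^ (k + 1) * A := by
    intro j hj
    have h5 : C₁ ^ j ≤ C₁ ^ (k + 1) := pow_le_pow_right₀ hC1 hj
    have h6 : 0 ≤ C₁ ^ j := by positivity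
    have h7 : 0 ≤ C₂ := by linarith
    rw [mul_pow, mul_assoc]
    have h8 : C₂ * A ≤ C₂ ^ (k + 1) * A := mul_le_mul_of_nonneg_right hpow2 hA0
    exact mul_le_mul h5 h8 (mul_nonneg h7 hA0) (by positivity)
  cases R with
  | none =>
    have h3 := hext z (le_of_lt hR)
    have h4 := hgoal 0 (by omega)
    rw [pow_zero, one_mul] at h4
    exact h3.trans h4
  | some p =>
    have hXH : Psi p z ∈ XH := by
      obtain ⟨h1, h2⟩ := hR
      exact ⟨by linarith, fun d => by linarith [h2 d]⟩
    have hlen : p.length < k := by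
      by_contra hlt
      push Not at hlt
      have h3 := infDist_Psi p z
      have h4 : (3 : ℝ) ^ k ≤ 3 ^ p.length := pow_le_pow_right₀ (by norm_num) hlt
      have h5 : 0 ≤ infDist z squareCantor := infDist_nonneg
      have h6 := hR.1
      nlinarith [mul_le_mul_of_nonneg_right h4 h5]
    exact (hind p z hXH).trans (hgoal _ (by omega))

end Pool.Agent.CorE
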