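import Pool.Agent.CorE.Targets

set_option autoImplicit false

/-!
# COE: LOG, sums of logarithms are harmonic (MP_91698f)
-/

namespace Pool.Agent.CorE

open Complex Metric Set Filter Topology MeasureTheory
open Pool.Corona91698f
open scoped Real

namespace LOG_

open InnerProductSpace

theorem log_dist {z a : ℂ} (h : z ≠ a) : HarmonicAt (fun x : ℂ => Real.log (dist x a)) z := by
  have h1 : AnalyticAt ℂ (fun x : ℂ => x - a) z := by fun_prop
  have h2 := h1.harmonicAt_log_norm (sub_ne_zero.2 h)
  have e : (fun x : ℂ => Real.log (dist x a)) = fun x : ℂ => Real.log ‖x - a‖ := by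
    funext x
    rw [dist_eq_norm]
  rw [e]
  exact h2

theorem sum_log {ι : Type} (S : Finset ι) (c : ι → ℂ) (w : ι → ℝ) {z : ℂ}
    (h : ∀ q ∈ S, z ≠ c q) :
    HarmonicAt (fun x : ℂ => ∑ q ∈ S, w q * Real.log (dist x (c q))) z := by
  classical
  induction S using Finset.induction_on with
  | empty =>
    simp only [Finset.sum_empty]
    exact harmonicAt_const 0
  | insert a S ha ih =>
    simp only [Finset.sum_insert ha]
    have h1 := (log_dist (h a (Finset.mem_insert_self a S))).const_smul (c := w a)
    exact h1.add (ih fun q hq => h q (Finset.mem_insert_of_mem hq))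

end LOG_

theorem p_LOG : T_LOG := by
  intro ι S c w V z hz
  have h1 := LOG_.sum_log S c w hz
  exact (InnerProductSpace.harmonicAt_const V).add h1

end Pool.Agent.CorE
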