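import Pool.Agent.CorE.Targets

/-!
# MAJ: the maximum principle
-/

set_option autoImplicit false

namespace Pool.Agent.CorE

open Complex Metric Set Filter Topology MeasureTheory
open Pool.Corona91698f
open scoped Real

namespace MAJ_

/-- near a point which is not a charge the potential is the real part of a holomorphic function -/
theorem local_re {ι : Type} (S : Finset ι) (c : ι → ℂ) (w : ι → ℝ) (V : ℝ) (x : ℂ)
    (hx : ∀ q ∈ S, x ≠ c q) : ∃ H : ℂ → ℂ, (∀ᶠ y in 𝓝 x, DifferentiableAt ℂ H y) ∧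
      ∀ᶠ y in 𝓝 x, (H y).re = hp S c w V y := by
  have hev : ∀ᶠ y in 𝓝 x, ∀ q ∈ S, (y - c q) / (x - c q) ∈ slitPlane := by
    rw [Filter.eventually_all_finset]
    intro q hq
    have h1 : ContinuousAt (fun y : ℂ => (y - c q) / (x - c q)) x :=
      (continuousAt_id.sub continuousAt_const).div_const _
    refine h1.eventually (isOpen_slitPlane.mem_nhds ?_)
    show (x - c q) / (x - c q) ∈ slitPlane
    rw [div_self (sub_ne_zero.2 (hx q hq))]
    exact one_mem_slitPlane
  refine ⟨fun y => (V : ℂ) + ∑ q ∈ S, (w q : ℂ) * ((Real.log (dist x (c q)) : ℝ) +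
    Complex.log ((y - c q) / (x - c q))), ?_, ?_⟩
  · filter_upwards [hev] with y hy
    refine (differentiableAt_const _).add ?_
    refine DifferentiableAt.fun_sum fun q hq => ?_
    refine (differentiableAt_const _).mul ((differentiableAt_const _).add ?_)
    exact ((differentiableAt_id.sub_const _).div_const _).clog (hy q hq)
  · filter_upwards [hev] with y hy
    unfold hp
    rw [add_re, ofReal_re, re_sum]
    congr 1
    refine Finset.sum_congr rfl fun q hq => ?_
    have h1 : x - c q ≠ 0 := sub_ne_zero.2 (hx q hq)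
    have h2 : y - c q ≠ 0 := by
      intro h
      have h3 := hy q hq
      rw [h, zero_div] at h3
      exact zero_notMem_slitPlane h3
    rw [re_ofReal_mul, add_re, ofReal_re, log_re, norm_div,
      Real.log_div (norm_ne_zero_iff.2 h2) (norm_ne_zero_iff.2 h1), dist_eq_norm, dist_eq_norm]
    ring

/-- local maxima are locally constant -/
theorem step {ι : Type} (S : Finset ι) (c : ι → ℂ) (w : ι → ℝ) (V : ℝ) (x : ℂ)
    (hx : ∀ q ∈ S, x ≠ c q) (ψ : ℂ → ℂ) (hψ : ∀ᶠ y in 𝓝 x, DifferentiableAt ℂ ψ y)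
    (hmax : ∀ᶠ y in 𝓝 x, ‖ψ y‖ - 50 * hp S c w V y ≤ ‖ψ x‖ - 50 * hp S c w V x) :
    ∀ᶠ y in 𝓝 x, ‖ψ x‖ - 50 * hp S c w V x ≤ ‖ψ y‖ - 50 * hp S c w V y := by
  obtain ⟨H, hH1, hH2⟩ := local_re S c w V x hx
  obtain ⟨α, hα, hα2⟩ := Complex.exists_norm_eq_mul_self (ψ x)
  have hre : ∀ y, (α * ψ y).re ≤ ‖ψ y‖ := by
    intro y
    refine (re_le_norm _).trans ?_
    rw [norm_mul, hα, one_mul]
  have hrex : (α * ψ x).re = ‖ψ x‖ := by
    rw [← hα2, ofReal_re]
  have hHx : (H x).re = hp S c w V x := hH2.self_of_nhds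
  set f : ℂ → ℂ := fun y => Complex.exp (α * ψ y - 50 * H y) with hf
  have hn : ∀ y, ‖f y‖ = Real.exp ((α * ψ y).re - 50 * (H y).re) := by
    intro y
    rw [hf]
    simp only
    rw [norm_exp, sub_re]
    congr 2
    simp
  have hd : ∀ᶠ y in 𝓝 x, DifferentiableAt ℂ f y := by
    filter_upwards [hH1, hψ] with y h1 h2
    exact ((h2.const_mul α).sub (h1.const_mul 50)).cexp
  have hloc : IsLocalMax (norm ∘ f) x := by
    filter_upwards [hmax, hH2] with y h1 h2
    show ‖f y‖ ≤ ‖f x‖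
    rw [hn, hn, Real.exp_le_exp, h2, hHx, hrex]
    linarith [hre y]
  filter_upwards [Complex.norm_eventually_eq_of_isLocalMax hd hloc, hH2] with y h1 h2
  rw [hn, hn] at h1
  have h3 := Real.exp_injective h1
  rw [h2, hHx, hrex] at h3
  linarith [hre y]

/-- distances to the charges -/
theorem dist_charge {N : ℕ} {q : List D} (hq : q ∈ lv N) (z : ℂ) :
    dist (Psi q z) ctr = 3 ^ N * dist z (cc q) := by
  have h := dist_Psi q z (cc q)
  unfold cc at h ⊢
  rw [Psi_Phi, mem_lv.1 hq] at h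
  exact h

theorem mem_RN {N : ℕ} {z : ℂ} (hz : ∀ q ∈ lv N, 765 / 1000 < dist (Psi q z) ctr) :
    z ∈ RN N := by
  intro q hq
  have h1 := hz q hq
  rw [dist_charge hq] at h1
  have h2 : (0 : ℝ) < (1 / 3) ^ N := by positivity
  have h3 : ((1 : ℝ) / 3) ^ N * 3 ^ N = 1 := by
    rw [← mul_pow]
    norm_num
  have h4 : ((1 : ℝ) / 3) ^ N * (765 / 1000) < (1 / 3) ^ N * (3 ^ N * dist z (cc q)) :=
    mul_lt_mul_of_pos_left h1 h2
  rw [← mul_assoc, h3, one_mul] at h4
  linarith

theorem ne_charge {N : ℕ} {z : ℂ} (hz : z ∈ RN N) : ∀ q ∈ lv N, z ≠ cc q := by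
  intro q hq h
  have h1 : (1 / 3 : ℝ) ^ N / 10 ≤ dist z (cc q) := hz q hq
  rw [h, dist_self] at h1
  have h2 : (0 : ℝ) < (1 / 3) ^ N := by positivity
  linarith

theorem isOpen_Om (N : ℕ) : IsOpen (Om N) := by
  have : Om N = ⋂ q ∈ lv N, {z | 765 / 1000 < dist (Psi q z) ctr} := by
    ext z
    simp [Om]
  rw [this]
  refine isOpen_biInter_finset fun q _ => ?_
  exact isOpen_lt continuous_const ((differentiable_Psi q).continuous.dist continuous_const)

theorem cont_gr (N : ℕ) (w : List D → ℝ) (V : ℝ) : ContinuousOn (gr N w V) (RN N) := by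
  unfold gr hp
  refine continuousOn_const.add (continuousOn_finsetSum _ fun q hq => ?_)
  refine continuousOn_const.mul (ContinuousOn.log (by fun_prop) fun z hz => ?_)
  exact dist_ne_zero.2 (ne_charge hz q hq)

end MAJ_

open MAJ_ in
theorem p_MAJ : T_MAJ := by
  intro N w' V' G c A hN hc h0 hG h1 h2
  have hR : ∀ z ∈ Om N, z ∈ RN N := fun z hz => mem_RN hz
  have hA : 0 ≤ A := by
    have h := h1 (ctr + 1) (by rw [dist_eq_norm, add_sub_cancel_left, norm_one]; norm_num)
    exact (Real.exp_pos _).le.trans h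
  intro z hz
  by_cases hfar : 76 / 100 < dist z ctr
  · linarith [h1 z hfar, h0 z (hR z hz)]
  by_cases hnear : ∃ q ∈ lv N, dist (Psi q z) ctr < 78 / 100
  · obtain ⟨q, hq, hq2⟩ := hnear
    linarith [h2 q hq z hz hq2]
  push Not at hfar hnear
  obtain ⟨α, hα, hα2⟩ := Complex.exists_norm_eq_mul_self (G z)
  set ψ : ℂ → ℂ := fun y => Complex.exp (c * (α * G y)) with hψ
  set K : Set ℂ := closedBall ctr (4 / 5) ∩ {y | ∀ q ∈ lv N, 77 / 100 ≤ dist (Psi q y) ctr} with hK
  have hKc : IsClosed {y : ℂ | ∀ q ∈ lv N, 77 / 100 ≤ dist (Psi q y) ctr} := by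
    have : {y : ℂ | ∀ q ∈ lv N, 77 / 100 ≤ dist (Psi q y) ctr} =
        ⋂ q ∈ lv N, {z | 77 / 100 ≤ dist (Psi q z) ctr} := by
      ext z
      simp
    rw [this]
    refine isClosed_biInter fun q _ => ?_
    exact isClosed_le continuous_const ((differentiable_Psi q).continuous.dist continuous_const)
  have hKcomp : IsCompact K := (isCompact_closedBall _ _).inter_right hKc
  have hKO : K ⊆ Om N := by
    intro y hy q hq
    have := hy.2 q hq
    linarith
  have hψn : ∀ y, ‖ψ y‖ ≤ Real.exp (c * ‖G y‖) := by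
    intro y
    rw [hψ]
    simp only
    rw [norm_exp, Real.exp_le_exp]
    refine (re_le_norm _).trans ?_
    rw [norm_mul, norm_mul, hα, one_mul, norm_real, Real.norm_of_nonneg hc.le]
  have hψd : ∀ y ∈ Om N, ∀ᶠ x in 𝓝 y, DifferentiableAt ℂ ψ x := by
    intro y hy
    filter_upwards [(isOpen_Om N).mem_nhds hy] with x hx
    have h3 := hG.differentiableAt ((isOpen_Om N).mem_nhds hx)
    exact ((h3.const_mul α).const_mul (c : ℂ)).cexp
  have hψc : ContinuousOn ψ (Om N) := fun y hy =>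
    (hψd y hy).self_of_nhds.continuousAt.continuousWithinAt
  set φ : ℂ → ℝ := fun y => ‖ψ y‖ - 50 * gr N w' V' y with hφ
  have hφc : ContinuousOn φ K :=
    (hψc.mono hKO).norm.sub (continuousOn_const.mul ((cont_gr N w' V').mono fun y hy =>
      hR y (hKO hy)))
  have hzK : z ∈ K := by
    refine ⟨?_, ?_⟩
    · rw [mem_closedBall]
      linarith
    · intro q hq
      linarith [hnear q hq]
  obtain ⟨y0, hy0, hmax⟩ := hKcomp.exists_isMaxOn ⟨z, hzK⟩ hφc
  set T : Set ℂ := K ∩ φ ⁻¹' {φ y0} with hT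
  have hTc : IsCompact T := hKcomp.of_isClosed_subset
    (hφc.preimage_isClosed_of_isClosed hKcomp.isClosed isClosed_singleton) inter_subset_left
  obtain ⟨y1, hy1, hre⟩ := hTc.exists_isMaxOn ⟨y0, hy0, rfl⟩ continuous_re.continuousOn
  have hy1e : φ y1 = φ y0 := hy1.2
  have key : φ y1 ≤ A := by
    by_cases hb : 4 / 5 ≤ dist y1 ctr
    · have h3 := h1 y1 (by linarith)
      have h4 := h0 y1 (hR y1 (hKO hy1.1))
      have h5 := hψn y1
      show ‖ψ y1‖ - 50 * gr N w' V' y1 ≤ A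
      linarith
    by_cases hs : ∃ q ∈ lv N, dist (Psi q y1) ctr ≤ 77 / 100
    · obtain ⟨q, hq, hq2⟩ := hs
      have h3 := h2 q hq y1 (hKO hy1.1) (by linarith)
      have h5 := hψn y1
      show ‖ψ y1‖ - 50 * gr N w' V' y1 ≤ A
      linarith
    push Not at hb hs
    exfalso
    have hKn : K ∈ 𝓝 y1 := by
      refine Filter.inter_mem (closedBall_mem_nhds_of_mem (by rwa [mem_ball])) ?_
      have h3 : {y : ℂ | ∀ q ∈ lv N, 77 / 100 < dist (Psi q y) ctr} ∈ 𝓝 y1 := by
        have : {y : ℂ | ∀ q ∈ lv N, 77 / 100 < dist (Psi q y) ctr} =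
            ⋂ q ∈ lv N, {z | 77 / 100 < dist (Psi q z) ctr} := by
          ext z
          simp
        rw [this]
        refine IsOpen.mem_nhds (isOpen_biInter_finset fun q _ => ?_) ?_
        · exact isOpen_lt continuous_const
            ((differentiable_Psi q).continuous.dist continuous_const)
        · simpa using hs
      filter_upwards [h3] with y hy q hq
      exact (hy q hq).le
    have h4 := step (lv N) cc w' V' y1 (ne_charge (hR y1 (hKO hy1.1))) ψ
      (hψd y1 (hKO hy1.1)) (by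
        filter_upwards [hKn] with y hy
        have h5 : φ y ≤ φ y0 := hmax hy
        rw [← hy1e] at h5
        exact h5)
    obtain ⟨ε, hε, h5⟩ := Metric.eventually_nhds_iff.1 (h4.and hKn)
    have h6 := @h5 (y1 + (ε / 2 : ℝ)) (by
      rw [dist_eq_norm, add_sub_cancel_left, norm_real, Real.norm_of_nonneg (by linarith)]
      linarith)
    have h7 : φ (y1 + (ε / 2 : ℝ)) ≤ φ y0 := hmax h6.2
    have h8 : φ y1 ≤ φ (y1 + (ε / 2 : ℝ)) := h6.1
    have h9 : (y1 + (ε / 2 : ℝ)).re ≤ y1.re :=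
      hre (⟨h6.2, le_antisymm h7 (hy1e ▸ h8)⟩ : (y1 + (ε / 2 : ℝ)) ∈ T)
    rw [add_re, ofReal_re] at h9
    linarith
  have h10 : φ z ≤ φ y0 := hmax hzK
  have h11 : ‖ψ z‖ = Real.exp (c * ‖G z‖) := by
    rw [hψ]
    simp only
    rw [norm_exp, ← hα2, ← ofReal_mul, ofReal_re]
  have h12 : ‖ψ z‖ - 50 * gr N w' V' z ≤ A := h10.trans (hy1e ▸ key)
  rw [h11] at h12
  linarith

end Pool.Agent.CorE
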