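import Pool.Agent.CorE.Targets

set_option autoImplicit false

/-!
# COE-MRT: the martingale of contour means
-/

namespace Pool.Agent.CorE

open Complex Metric Set Filter Topology MeasureTheory
open Pool.Corona91698f
open scoped Real

namespace MRT_

/-- The circle around the square of `v`. -/
theorem circ {v : List D} {z : ℂ}
    (hz : z ∈ sphere (cc v) (77 / 100 * (1 / 3) ^ v.length)) : dist (Psi v z) ctr = 77 / 100 := by
  have h1 : Psi v (cc v) = ctr := Psi_Phi v ctr
  have h2 := dist_Psi v z (cc v)
  rw [h1, mem_sphere.1 hz] at h2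
  rw [h2]
  have h3 : (3 : ℝ) ^ v.length * (1 / 3) ^ v.length = 1 := by
    rw [← mul_pow]
    norm_num
  calc (3 : ℝ) ^ v.length * (77 / 100 * (1 / 3) ^ v.length) =
      77 / 100 * (3 ^ v.length * (1 / 3) ^ v.length) := by ring
    _ = 77 / 100 := by rw [h3, mul_one]

theorem inN {v : List D} {z : ℂ} (hz : dist (Psi v z) ctr = 77 / 100) : z ∈ Nd (some v) := by
  refine ⟨by rw [hz]; norm_num, fun d => ?_⟩
  have := dist_psi_ge d (Psi v z)
  rw [hz] at this
  linarith

theorem inP {p : List D} {d : D} {z : ℂ} (hz : dist (Psi (p ++ [d]) z) ctr = 77 / 100) :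
    z ∈ Nd (some p) := by
  rw [Psi_snoc] at hz
  refine ⟨?_, fun d' => ?_⟩
  · have := dist_le_of_psi d (Psi p z)
    rw [hz] at this
    linarith
  · by_contra hlt
    rw [not_lt] at hlt
    have h1 : d = d' := psi_disj (z := Psi p z) (by rw [hz]; norm_num) (by linarith)
    rw [← h1, hz] at hlt
    norm_num at hlt

theorem ne_cc {N : ℕ} {p q : List D} (hp : p.length < N) (hq : q.length = N) {z : ℂ}
    (hz : z ∈ Nd (some p)) : z ≠ cc q := by
  rintro rfl
  have h1 : ¬ anc (some p) q := by
    intro h
    have h2 : q <+: p := h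
    have := h2.length_le
    omega
  have h2 := Nd_not_anc hz h1
  have h3 : Psi q (cc q) = ctr := Psi_Phi q ctr
  rw [h3, dist_self] at h2
  norm_num at h2

theorem ps_diff {N : ℕ} (w : List D → ℝ) {p : List D} (hp : p.length < N) :
    DifferentiableOn ℂ (ps N w) (Nd (some p)) := by
  unfold ps
  refine DifferentiableOn.fun_sum fun q hq => ?_
  intro z hz
  refine DifferentiableWithinAt.div (differentiableWithinAt_const _)
    (differentiableWithinAt_id.sub (differentiableWithinAt_const _)) ?_
  exact sub_ne_zero.2 (ne_cc hp (mem_lv.1 hq) hz)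

theorem rad_nonneg (v : List D) : (0 : ℝ) ≤ 77 / 100 * (1 / 3) ^ v.length := by positivity

/-- Linearity of the contour mean. -/
theorem cm_sub {v : List D} {f g : ℂ → ℂ} {U : Set ℂ}
    (hU : sphere (cc v) (77 / 100 * (1 / 3) ^ v.length) ⊆ U) (hf : DifferentiableOn ℂ f U)
    (hg : DifferentiableOn ℂ g U) : cm v (fun z => f z - g z) = cm v f - cm v g := by
  unfold cm
  rw [circleIntegral.integral_sub
    ((hf.continuousOn.mono hU).circleIntegrable (rad_nonneg v))
    ((hg.continuousOn.mono hU).circleIntegrable (rad_nonneg v)), mul_sub]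

theorem cm_congr {v : List D} {f g : ℂ → ℂ}
    (h : ∀ z ∈ sphere (cc v) (77 / 100 * (1 / 3) ^ v.length), f z = g z) : cm v f = cm v g := by
  unfold cm
  rw [circleIntegral.integral_congr (rad_nonneg v) h]

theorem cm_const_mul (v : List D) (a : ℂ) (f : ℂ → ℂ) : cm v (fun z => a * f z) = a * cm v f := by
  unfold cm
  rw [circleIntegral.integral_const_mul]
  ring

theorem cm_le {N : ℕ} {w : List D → ℝ} {V CG : ℝ} (hG : GB N w V CG) (hC : 0 ≤ CG) {v : List D}
    (hv : v.length ≤ N) {h : ℂ → ℂ} {M : ℝ} (hM : 0 ≤ M)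
    (hh : ∀ z ∈ sphere (cc v) (77 / 100 * (1 / 3) ^ v.length), ‖h z‖ ≤ M) :
    ‖cm v (fun z => h z * ps N w z)‖ ≤ CG * M * w v := by
  have hw : 0 < w v := hG.pos v hv
  have h1 : ∀ z ∈ sphere (cc v) (77 / 100 * (1 / 3) ^ v.length),
      ‖h z * ps N w z‖ ≤ M * (CG * 3 ^ v.length * w v) := by
    intro z hz
    rw [norm_mul]
    have h2 := circ hz
    exact mul_le_mul (hh z hz) (hG.ann v hv z (by rw [h2]; norm_num) (by rw [h2]; norm_num))
      (norm_nonneg _) hM
  have h2 := circleIntegral.norm_two_pi_i_inv_smul_integral_le_of_norm_le_const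
    (rad_nonneg v) h1
  have h3 : (3 : ℝ) ^ v.length * (1 / 3) ^ v.length = 1 := by
    rw [← mul_pow]
    norm_num
  unfold cm
  rw [smul_eq_mul] at h2
  refine h2.trans ?_
  calc 77 / 100 * (1 / 3 : ℝ) ^ v.length * (M * (CG * 3 ^ v.length * w v)) =
      77 / 100 * (CG * M * w v) * (3 ^ v.length * (1 / 3) ^ v.length) := by ring
    _ = 77 / 100 * (CG * M * w v) := by rw [h3, mul_one]
    _ ≤ CG * M * w v := by
        have : 0 ≤ CG * M * w v := by positivity
        linarith

end MRT_

open MRT_ in
theorem p_MRT (hCMP : T_CMP) (hADD : T_ADD) : T_MRT := by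
  intro CG
  refine ⟨|CG| + 1, by positivity, ?_⟩
  intro N w V S wt μ ob hN hG hS hjump hosc hmean
  have hC : 0 ≤ CG := by
    have e0 : ([] ++ [(true, true)] : List D).length = 1 := rfl
    have h1 := hG.chi [] (by rw [List.length_nil]; omega) (true, true)
    have h2 := hG.pos ([] ++ [(true, true)]) (by rw [e0]; exact hN)
    rw [hG.one] at h1
    by_contra hneg
    rw [not_le] at hneg
    nlinarith
  have hCe : |CG| = CG := abs_of_nonneg hC
  -- the circles are in the nodes
  have hsN : ∀ v : List D, sphere (cc v) (77 / 100 * (1 / 3) ^ v.length) ⊆ Nd (some v) :=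
    fun v z hz => inN (circ hz)
  have hsP : ∀ (p : List D) (d : D),
      sphere (cc (p ++ [d])) (77 / 100 * (1 / 3) ^ (p ++ [d]).length) ⊆ Nd (some p) :=
    fun p d z hz => inP (circ hz)
  have hSp : ∀ p : List D, p.length < N →
      DifferentiableOn ℂ (fun x => S (some p) x * ps N w x) (Nd (some p)) :=
    fun p hp => (hS (some p)).mul (ps_diff w hp)
  -- the approximation
  have happ : ∀ p : List D, p.length < N → ∀ z ∈ Nd (some p),
      ‖S (some p) z - cm p (fun x => S (some p) x * ps N w x) / w p‖ ≤ CG * ob p := by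
    intro p hp z hz
    have hw : 0 < w p := hG.pos p hp.le
    have hw' : (w p : ℂ) ≠ 0 := by exact_mod_cast hw.ne'
    have hob : 0 ≤ ob p := (norm_nonneg _).trans (hosc p hp z hz z hz)
    have h1 : cm p (ps N w) = (w p : ℂ) := (hCMP N w hG.add p hp.le).1
    have h2 : cm p (fun x => (S (some p) z - S (some p) x) * ps N w x) =
        S (some p) z * w p - cm p (fun x => S (some p) x * ps N w x) := by
      have h0 : DifferentiableOn ℂ (fun x => S (some p) z * ps N w x) (Nd (some p)) :=
        (ps_diff w hp).const_mul (S (some p) z)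
      rw [← h1, ← cm_const_mul, ← cm_sub (hsN p) h0 (hSp p hp)]
      refine cm_congr fun x _ => ?_
      ring
    have h3 : S (some p) z - cm p (fun x => S (some p) x * ps N w x) / w p =
        cm p (fun x => (S (some p) z - S (some p) x) * ps N w x) / w p := by
      rw [h2]
      field_simp
    have h4 := cm_le hG hC hp.le (h := fun x => S (some p) z - S (some p) x) hob
      (fun x hx => hosc p hp z hz x (hsN p hx))
    rw [h3, norm_div, Complex.norm_real, Real.norm_of_nonneg hw.le, div_le_iff₀ hw]
    exact h4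
  refine ⟨fun p => cm p (fun z => S (some p) z * ps N w z) / w p, ?_, ?_, ?_⟩
  · intro p hp
    have hp' : p.length < N := by omega
    have hw' : (w p : ℂ) ≠ 0 := by exact_mod_cast (hG.pos p hp'.le).ne'
    have hu : ∀ d : D, (p ++ [d]).length < N := fun d => by
      rw [List.length_append, List.length_singleton]
      exact hp
    have h1 : ∀ d : D, (w (p ++ [d]) : ℂ) *
        (cm (p ++ [d]) (fun z => S (some (p ++ [d])) z * ps N w z) / w (p ++ [d])) =
        cm (p ++ [d]) (fun z => wt (p ++ [d]) z * ps N w z) +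
          cm (p ++ [d]) (fun z => S (some p) z * ps N w z) := by
      intro d
      have hw : (w (p ++ [d]) : ℂ) ≠ 0 := by exact_mod_cast (hG.pos _ (hu d).le).ne'
      rw [mul_div_cancel₀ _ hw]
      have hint : sphere (cc (p ++ [d])) (77 / 100 * (1 / 3) ^ (p ++ [d]).length) ⊆
          Nd (some p) ∩ Nd (some (p ++ [d])) :=
        fun z hz => ⟨hsP p d hz, hsN _ hz⟩
      have h2 : cm (p ++ [d]) (fun z => wt (p ++ [d]) z * ps N w z) =
          cm (p ++ [d]) (fun z => S (some (p ++ [d])) z * ps N w z -
            S (some p) z * ps N w z) := by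
        refine cm_congr fun z hz => ?_
        have h3 := (hjump (p ++ [d]) (hu d) z (by rw [par_snoc]; exact hsP p d hz)
          (hsN _ hz)).1
        rw [par_snoc] at h3
        rw [← h3, sub_mul]
      rw [h2, cm_sub hint ((hSp _ (hu d)).mono inter_subset_right)
        ((hSp p hp').mono inter_subset_left)]
      ring
    rw [Finset.sum_congr rfl fun d _ => h1 d, Finset.sum_add_distrib, hmean p hp, zero_add,
      ← hADD p _ (hSp p hp'), mul_div_cancel₀ _ hw']
  · intro p hp z hz
    refine (happ p hp z hz).trans ?_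
    have hob : 0 ≤ ob p := (norm_nonneg _).trans (hosc p hp z hz z hz)
    rw [hCe]
    nlinarith
  · intro p hp d
    have hp' : p.length < N := by omega
    have hu : (p ++ [d]).length < N := by
      rw [List.length_append, List.length_singleton]
      exact hp
    obtain ⟨z, hz⟩ : ∃ z : ℂ, dist (Psi (p ++ [d]) z) ctr = 77 / 100 := by
      refine ⟨Phi (p ++ [d]) (ctr + (77 / 100 : ℝ)), ?_⟩
      rw [Psi_Phi, dist_eq_norm, add_sub_cancel_left, Complex.norm_real,
        Real.norm_of_nonneg (by norm_num)]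
    have hzp : z ∈ Nd (some p) := inP hz
    have hzu : z ∈ Nd (some (p ++ [d])) := inN hz
    have h1 := happ p hp' z hzp
    have h2 := happ (p ++ [d]) hu z hzu
    have h3 := hjump (p ++ [d]) hu z (by rw [par_snoc]; exact hzp) hzu
    rw [par_snoc] at h3
    have hob : 0 ≤ ob p := (norm_nonneg _).trans (hosc p hp' z hzp z hzp)
    have hob' : 0 ≤ ob (p ++ [d]) := (norm_nonneg _).trans (hosc _ hu z hzu z hzu)
    have hμ : 0 ≤ μ (p ++ [d]) := (norm_nonneg _).trans h3.2
    have h4 : ‖S (some (p ++ [d])) z - S (some p) z‖ ≤ μ (p ++ [d]) := by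
      rw [h3.1]
      exact h3.2
    have h5 : cm (p ++ [d]) (fun z => S (some (p ++ [d])) z * ps N w z) / w (p ++ [d]) -
        cm p (fun z => S (some p) z * ps N w z) / w p =
        -(S (some (p ++ [d])) z - cm (p ++ [d]) (fun z => S (some (p ++ [d])) z *
          ps N w z) / w (p ++ [d])) + (S (some (p ++ [d])) z - S (some p) z) +
        (S (some p) z - cm p (fun z => S (some p) z * ps N w z) / w p) := by ring
    change ‖cm (p ++ [d]) (fun z => S (some (p ++ [d])) z * ps N w z) / w (p ++ [d]) -
        cm p (fun z => S (some p) z * ps N w z) / w p‖ ≤ _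
    rw [h5]
    refine (norm_add₃_le).trans ?_
    rw [norm_neg, hCe]
    nlinarith

end Pool.Agent.CorE
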