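import Pool.Agent.CorE.Targets

/-!
# MP_91698f_an, project COE: the nodes are in the region (NIN)
-/

set_option autoImplicit false

namespace Pool.Agent.CorE

open Complex Metric Set Filter Topology MeasureTheory
open Pool.Corona91698f
open scoped Real

namespace NIN_

theorem key {N : ℕ} {p : List D} (hp : p.length ≤ N) {z w : ℂ}
    (h : (1 / 3 : ℝ) ^ (N - p.length) / 10 ≤ dist (Psi p z) (Psi p w)) :
    (1 / 3 : ℝ) ^ N / 10 ≤ dist z w := by
  rw [dist_Psi] at h
  have e : (1 / 3 : ℝ) ^ N = (1 / 3) ^ p.length * (1 / 3) ^ (N - p.length) := by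
    rw [← pow_add, Nat.add_sub_of_le hp]
  have e2 : (1 / 3 : ℝ) ^ p.length * 3 ^ p.length = 1 := by
    rw [← mul_pow]
    norm_num
  have h2 := mul_le_mul_of_nonneg_left h (by positivity : (0 : ℝ) ≤ (1 / 3) ^ p.length)
  rw [e]
  calc (1 / 3 : ℝ) ^ p.length * (1 / 3) ^ (N - p.length) / 10
      = (1 / 3) ^ p.length * ((1 / 3) ^ (N - p.length) / 10) := by ring
    _ ≤ (1 / 3) ^ p.length * (3 ^ p.length * dist z w) := h2
    _ = dist z w := by rw [← mul_assoc, e2, one_mul]

theorem pow_le (k : ℕ) : (1 / 3 : ℝ) ^ k ≤ 1 := pow_le_one₀ (by norm_num) (by norm_num)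

end NIN_

/-- NIN: the nodes are in the region. -/
theorem p_NIN (hGEO : T_GEO) : T_NIN := by
  intro N
  obtain ⟨hS, hG⟩ := hGEO N
  refine ⟨?_, ?_, ?_⟩
  · intro p hp z hz hd q hq
    have hq' : q.length = N := mem_lv.mp hq
    by_cases hpq : p <+: q
    · obtain ⟨t, rfl⟩ := hpq
      cases t with
      | nil =>
        rw [List.append_nil] at hq'
        omega
      | cons d x =>
        have hl : (p ++ [d]).length ≤ N := by
          rw [List.length_append, List.length_singleton]
          omega
        have hpre : p ++ [d] <+: p ++ d :: x := ⟨x, by simp⟩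
        have h1 := (hG (p ++ [d]) (p ++ d :: x) hl hq').1 hpre
        have h2 := hd d
        rw [← Psi_snoc] at h2
        refine NIN_.key hl ?_
        have h3 := dist_triangle (Psi (p ++ [d]) z) (Psi (p ++ [d]) (cc (p ++ d :: x))) ctr
        have h4 : (0 : ℝ) ≤ (1 / 3) ^ (N - (p ++ [d]).length) := by positivity
        linarith
    · have h1 := (hG p q hp.le hq').2 hpq
      refine NIN_.key hp.le ?_
      have h3 := dist_triangle (Psi p (cc q)) (Psi p z) ctr
      rw [dist_comm (Psi p (cc q)) (Psi p z)] at h3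
      have h4 := NIN_.pow_le (N - p.length)
      linarith
  · intro q hq z hz1 hz2 q' hq'
    have hq'' : q'.length = N := mem_lv.mp hq'
    have hc : Psi q (cc q) = ctr := Psi_Phi q ctr
    have h0 : dist (Psi q z) ctr = 3 ^ N * dist z (cc q) := by
      rw [← hq, ← dist_Psi, hc]
    have h3 : (0 : ℝ) < (1 / 3) ^ N := by positivity
    by_cases hqq : q' = q
    · subst hqq
      refine NIN_.key hq.le ?_
      rw [hc, hq, Nat.sub_self, pow_zero]
      exact hz1
    · have h1 := hS.2 q (mem_lv.mpr hq) q' hq' (fun h => hqq h.symm)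
      have h2 := dist_triangle (cc q) z (cc q')
      rw [dist_comm (cc q) z] at h2
      have h4 : dist z (cc q) ≤ (1 / 3) ^ N := by
        have e2 : (1 / 3 : ℝ) ^ N * 3 ^ N = 1 := by
          rw [← mul_pow]
          norm_num
        calc dist z (cc q) = (1 / 3) ^ N * (3 ^ N * dist z (cc q)) := by
              rw [← mul_assoc, e2, one_mul]
          _ ≤ (1 / 3) ^ N * 1 := by
              rw [← h0]
              exact mul_le_mul_of_nonneg_left hz2 h3.le
          _ = (1 / 3) ^ N := mul_one _
      change (1 / 3 : ℝ) ^ N / 10 ≤ dist z (cc q')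
      linarith
  · intro z hz q hq
    have hq' : q.length = N := mem_lv.mp hq
    have h1 := (hG [] q (Nat.zero_le _) hq').1 ⟨q, rfl⟩
    rw [Psi_nil, List.length_nil, Nat.sub_zero] at h1
    have h2 := dist_triangle z (cc q) ctr
    have h3 : (0 : ℝ) < (1 / 3) ^ N := by positivity
    change (1 / 3 : ℝ) ^ N / 10 ≤ dist z (cc q)
    linarith

end Pool.Agent.CorE
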