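import Pool.Agent.CorE.Targets

/-!
# COE, target NOD: comparison inside a node
-/

set_option autoImplicit false

namespace Pool.Agent.CorE

open Complex Metric Set Filter Topology MeasureTheory
open Pool.Corona91698f
open scoped Real

namespace NOD_

/-- the constant of the shifted potential -/
noncomputable def Vs (N : ℕ) (w : List D → ℝ) (V : ℝ) (p : List D) : ℝ :=
  V + ∑ q ∈ lv N, w q * Real.log ((1 / 3) ^ p.length)

theorem dist_Phi_left (p : List D) (y c : ℂ) :
    dist (Phi p y) c = (1 / 3) ^ p.length * dist y (Psi p c) := by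
  have h := dist_Psi p (Phi p y) c
  rw [Psi_Phi] at h
  rw [h, ← mul_assoc, ← mul_pow]
  norm_num

theorem gr_Phi (N : ℕ) (w : List D → ℝ) (V : ℝ) (p : List D) (y : ℂ)
    (hy : ∀ q ∈ lv N, y ≠ Psi p (cc q)) :
    gr N w V (Phi p y) = hp (lv N) (fun q => Psi p (cc q)) w (Vs N w V p) y := by
  unfold gr hp Vs
  rw [add_assoc, ← Finset.sum_add_distrib]
  congr 1
  refine Finset.sum_congr rfl fun q hq => ?_
  rw [dist_Phi_left, Real.log_mul (by positivity) (dist_ne_zero.2 (hy q hq))]
  ring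

theorem ne_of_RN {N : ℕ} {z : ℂ} (hz : z ∈ RN N) (q : List D) (hq : q ∈ lv N) : z ≠ cc q := by
  intro h
  have h1 := hz q hq
  rw [h, dist_self] at h1
  have h2 : (0 : ℝ) < (1 / 3) ^ N / 10 := by positivity
  linarith

theorem main (hLOG : T_LOG) (hCHN : T_CHN) (hGRD : T_GRD) (U K : Set ℂ) (hU : IsOpen U)
    (hpc : IsPreconnected U) (hK : IsCompact K) (hKU : ∀ x ∈ K, ball x (1 / 300) ⊆ U) :
    ∃ C : ℝ, 1 ≤ C ∧ ∀ (N : ℕ) (w : List D → ℝ) (V : ℝ) (p : List D),
      (∀ z ∈ RN N, 0 ≤ gr N w V z) → (∀ z, Psi p z ∈ U → z ∈ RN N) →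
      (∀ x y, Psi p x ∈ K → Psi p y ∈ K → 0 ≤ gr N w V x ∧ 0 ≤ gr N w V y ∧
        gr N w V x ≤ C * gr N w V y) ∧
      ∀ x, Psi p x ∈ K → ‖ps N w x‖ ≤ C * 3 ^ p.length * gr N w V x := by
  have hKU' : K ⊆ U := fun x hx => hKU x hx (mem_ball_self (by norm_num))
  obtain ⟨C, hC1, hC⟩ := hCHN U K hU hpc hK hKU'
  refine ⟨max C 600, le_max_of_le_left hC1, ?_⟩
  intro N w V p hnn hin
  have hnn' : ∀ x, Psi p x ∈ U → 0 ≤ gr N w V x := fun x hx => hnn x (hin x hx)
  have hne : ∀ y ∈ U, ∀ q ∈ lv N, y ≠ Psi p (cc q) := by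
    intro y hy q hq h
    have h1 : Phi p y ∈ RN N := hin _ (by rw [Psi_Phi]; exact hy)
    refine ne_of_RN h1 q hq ?_
    rw [h, Phi_Psi]
  have hharm : InnerProductSpace.HarmonicOnNhd (fun y => gr N w V (Phi p y)) U := by
    intro y hy
    have h1 := hLOG (List D) (lv N) (fun q => Psi p (cc q)) w (Vs N w V p) y (hne y hy)
    refine (InnerProductSpace.harmonicAt_congr_nhds ?_).1 h1
    filter_upwards [hU.mem_nhds hy] with y' hy'
    exact (gr_Phi N w V p y' (hne y' hy')).symm
  refine ⟨?_, ?_⟩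
  · intro x y hx hy
    have h0 := hnn' x (hKU' hx)
    have h0' := hnn' y (hKU' hy)
    have h1 := hC (fun y => gr N w V (Phi p y)) hharm
      (fun z hz => hnn' _ (by rw [Psi_Phi]; exact hz)) (Psi p x) hx (Psi p y) hy
    simp only [Phi_Psi] at h1
    exact ⟨h0, h0', h1.trans (mul_le_mul_of_nonneg_right (le_max_left _ _) h0')⟩
  · intro x hx
    have hρ : (0 : ℝ) < 1 / 300 * (1 / 3) ^ p.length := by positivity
    have hball : ∀ y ∈ ball x (1 / 300 * (1 / 3) ^ p.length), Psi p y ∈ U := by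
      intro y hy
      refine hKU _ hx ?_
      rw [mem_ball, dist_Psi]
      rw [mem_ball] at hy
      calc (3 : ℝ) ^ p.length * dist y x
          < 3 ^ p.length * (1 / 300 * (1 / 3) ^ p.length) :=
            mul_lt_mul_of_pos_left hy (by positivity)
        _ = 1 / 300 * (3 * (1 / 3)) ^ p.length := by rw [mul_pow]; ring
        _ = 1 / 300 := by norm_num
    have h1 := hGRD (List D) (lv N) cc w V x _ hρ
      (fun y hy q hq => ne_of_RN (hin y (hball y hy)) q hq)
      (fun y hy => hnn' y (hball y hy))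
    have h0 := hnn' x (hKU' hx)
    have h3 : (2 : ℝ) / (1 / 300 * (1 / 3) ^ p.length) = 600 * 3 ^ p.length := by
      rw [one_div_pow]
      field_simp
      norm_num
    rw [h3] at h1
    refine h1.trans ?_
    refine mul_le_mul_of_nonneg_right ?_ h0
    exact mul_le_mul_of_nonneg_right (le_max_right _ _) (by positivity)

theorem cont_psi (d : D) : Continuous (psi d) := by
  unfold psi
  fun_prop

theorem isClosed_XH : IsClosed XH := by
  have h : XH = {y | dist y ctr ≤ 87 / 100} ∩ ⋂ d : D, {y | 73 / 100 ≤ dist (psi d y) ctr} := by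
    ext y
    simp [XH]
  rw [h]
  refine (isClosed_le (by fun_prop) continuous_const).inter (isClosed_iInter fun d => ?_)
  exact isClosed_le continuous_const ((cont_psi d).dist continuous_const)

theorem isCompact_XH : IsCompact XH :=
  (isCompact_closedBall ctr (87 / 100 : ℝ)).of_isClosed_subset isClosed_XH fun _ hy => hy.1

theorem isCompact_AH : IsCompact AH := by
  refine (isCompact_closedBall ctr (87 / 100 : ℝ)).of_isClosed_subset ?_ fun _ hy => hy.2
  have h1 : IsClosed {y : ℂ | 73 / 100 ≤ dist y ctr} :=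
    isClosed_le continuous_const (by fun_prop)
  have h2 : IsClosed {y : ℂ | dist y ctr ≤ 87 / 100} :=
    isClosed_le (by fun_prop) continuous_const
  exact h1.inter h2

theorem isOpen_U1 :
    IsOpen {y : ℂ | dist y ctr < 9 / 10 ∧ ∀ d : D, 72 / 100 < dist (psi d y) ctr} := by
  have h : {y : ℂ | dist y ctr < 9 / 10 ∧ ∀ d : D, 72 / 100 < dist (psi d y) ctr} =
      {y | dist y ctr < 9 / 10} ∩ ⋂ d : D, {y | 72 / 100 < dist (psi d y) ctr} := by
    ext y
    simp
  rw [h]
  refine (isOpen_lt (by fun_prop) continuous_const).inter (isOpen_iInter_of_finite fun d => ?_)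
  exact isOpen_lt continuous_const ((cont_psi d).dist continuous_const)

theorem isOpen_U2 : IsOpen {y : ℂ | 72 / 100 < dist y ctr ∧ dist y ctr < 9 / 10} := by
  have h1 : IsOpen {y : ℂ | 72 / 100 < dist y ctr} :=
    isOpen_lt continuous_const (by fun_prop)
  have h2 : IsOpen {y : ℂ | dist y ctr < 9 / 10} :=
    isOpen_lt (by fun_prop) continuous_const
  exact h1.inter h2

end NOD_

/-- **NOD**: comparison inside a node. -/
theorem p_NOD (hLOG : T_LOG) (hCHN : T_CHN) (hGRD : T_GRD) (hNIN : T_NIN) (hCON : T_CON) :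
    T_NOD := by
  obtain ⟨C1, h11, hC1⟩ := NOD_.main hLOG hCHN hGRD
    {y : ℂ | dist y ctr < 9 / 10 ∧ ∀ d : D, 72 / 100 < dist (psi d y) ctr} XH NOD_.isOpen_U1
    (hCON.1 (9 / 10) (72 / 100) (by norm_num) le_rfl le_rfl (by norm_num)) NOD_.isCompact_XH (by
      intro x hx y hy
      rw [mem_ball] at hy
      refine ⟨?_, fun d => ?_⟩
      · have h1 := dist_triangle y x ctr
        have h2 := hx.1
        linarith
      · have h1 := dist_triangle (psi d x) (psi d y) ctr
        have h2 := hx.2 d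
        rw [dist_psi, dist_comm x y] at h1
        linarith)
  obtain ⟨C2, h21, hC2⟩ := NOD_.main hLOG hCHN hGRD
    {y : ℂ | 72 / 100 < dist y ctr ∧ dist y ctr < 9 / 10} AH NOD_.isOpen_U2
    (hCON.2 ctr (9 / 10) (72 / 100) (by norm_num)) NOD_.isCompact_AH (by
      intro x hx y hy
      rw [mem_ball] at hy
      refine ⟨?_, ?_⟩
      · have h1 := dist_triangle x y ctr
        have h2 := hx.1
        rw [dist_comm x y] at h1
        linarith
      · have h1 := dist_triangle y x ctr
        have h2 := hx.2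
        linarith)
  have hin1 : ∀ (N : ℕ) (p : List D), p.length < N → ∀ z,
      Psi p z ∈ {y : ℂ | dist y ctr < 9 / 10 ∧ ∀ d : D, 72 / 100 < dist (psi d y) ctr} →
      z ∈ RN N := fun N p hp z hz => (hNIN N).1 p hp z hz.1 hz.2
  have hin2 : ∀ (N : ℕ) (q : List D), q.length = N → ∀ z,
      Psi q z ∈ {y : ℂ | 72 / 100 < dist y ctr ∧ dist y ctr < 9 / 10} → z ∈ RN N := by
    intro N q hq z hz
    refine (hNIN N).2.1 q hq z ?_ ?_
    · have := hz.1
      linarith
    · have := hz.2
      linarith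
  refine ⟨max C1 C2, le_max_of_le_left h11, ?_⟩
  intro N w V hnn
  refine ⟨?_, ?_, ?_, ?_⟩
  · intro p hp x y hx hy
    obtain ⟨a, b, c⟩ := (hC1 N w V p hnn (hin1 N p hp)).1 x y hx hy
    exact c.trans (mul_le_mul_of_nonneg_right (le_max_left _ _) b)
  · intro q hq x y hx hy
    obtain ⟨a, b, c⟩ := (hC2 N w V q hnn (hin2 N q hq)).1 x y hx hy
    exact c.trans (mul_le_mul_of_nonneg_right (le_max_right _ _) b)
  · intro p hp x hx
    have h := hC1 N w V p hnn (hin1 N p hp)
    refine (h.2 x hx).trans (mul_le_mul_of_nonneg_right ?_ (h.1 x x hx hx).1)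
    exact mul_le_mul_of_nonneg_right (le_max_left _ _) (by positivity)
  · intro q hq x hx
    have h := hC2 N w V q hnn (hin2 N q hq)
    refine (h.2 x hx).trans (mul_le_mul_of_nonneg_right ?_ (h.1 x x hx hx).1)
    exact mul_le_mul_of_nonneg_right (le_max_right _ _) (by positivity)

end Pool.Agent.CorE
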