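import Pool.Agent.CorE.Targets

/-!
# COE, OSE: oscillation on a node and energy
-/

set_option autoImplicit false

namespace Pool.Agent.CorE

open Complex Metric Set Filter Topology MeasureTheory
open Pool.Corona91698f
open scoped Real

namespace OSE_

/-! ### coordinates -/

theorem phi_re (d : D) (z : ℂ) :
    (phi d z - ctr).re = (z - ctr).re / 3 + (if d.1 then 1 / 3 else -(1 / 3)) := by
  unfold phi dig ctr
  rcases d with ⟨a, b⟩
  cases a <;> simp <;> ring

theorem phi_im (d : D) (z : ℂ) :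
    (phi d z - ctr).im = (z - ctr).im / 3 + (if d.2 then 1 / 3 else -(1 / 3)) := by
  unfold phi dig ctr
  rcases d with ⟨a, b⟩
  cases b <;> simp <;> ring

theorem abs_phi_re (d : D) {z : ℂ} {t : ℝ} (h : |(z - ctr).re| ≤ t) :
    |(phi d z - ctr).re| ≤ t / 3 + 1 / 3 := by
  rw [phi_re]
  rw [abs_le] at h ⊢
  split_ifs <;> constructor <;> linarith [h.1, h.2]

theorem abs_phi_im (d : D) {z : ℂ} {t : ℝ} (h : |(z - ctr).im| ≤ t) :
    |(phi d z - ctr).im| ≤ t / 3 + 1 / 3 := by
  rw [phi_im]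
  rw [abs_le] at h ⊢
  split_ifs <;> constructor <;> linarith [h.1, h.2]

theorem Phi_re (x : List D) : |(Phi x ctr - ctr).re| ≤ 1 / 2 * (1 - (1 / 3) ^ x.length) := by
  induction x with
  | nil => simp
  | cons d x ih =>
    rw [Phi_cons, List.length_cons, pow_succ]
    refine (abs_phi_re d ih).trans (le_of_eq ?_)
    ring

theorem Phi_im (x : List D) : |(Phi x ctr - ctr).im| ≤ 1 / 2 * (1 - (1 / 3) ^ x.length) := by
  induction x with
  | nil => simp
  | cons d x ih =>
    rw [Phi_cons, List.length_cons, pow_succ]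
    refine (abs_phi_im d ih).trans (le_of_eq ?_)
    ring

theorem dist_le {y : ℂ} {t : ℝ} (h1 : |(y - ctr).re| ≤ t) (h2 : |(y - ctr).im| ≤ t) :
    dist y ctr ^ 2 ≤ 2 * t ^ 2 := by
  rw [dist_sq]
  rw [sub_re] at h1
  rw [sub_im] at h2
  have h3 := sq_le_sq' (abs_le.1 h1).1 (abs_le.1 h1).2
  have h4 := sq_le_sq' (abs_le.1 h2).1 (abs_le.1 h2).2
  linarith

theorem dist_sq61 {y : ℂ} (h1 : |(y - ctr).re| ≤ 61 / 100) (h2 : |(y - ctr).im| ≤ 61 / 100) :
    dist y ctr < 87 / 100 := by
  refine lt_of_pow_lt_pow_left₀ 2 (by norm_num) ((dist_le h1 h2).trans_lt ?_)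
  norm_num

/-! ### the closed sets between a square and its children -/

/-- The closed set between the square of `v` and the squares of its children. -/
def Kc (v : List D) : Set ℂ := {z | z ∈ Sq v ∧ ∀ d : D,
  61 / 100 ≤ |(Psi (v ++ [d]) z - ctr).re| ∨ 61 / 100 ≤ |(Psi (v ++ [d]) z - ctr).im|}

theorem sub_Kc (v : List D) : Sq v \ ⋃ d : D, Sq (v ++ [d]) ⊆ Kc v := by
  rintro z ⟨h1, h2⟩
  refine ⟨h1, fun d => ?_⟩
  by_contra h3
  rw [not_or, not_le, not_le] at h3
  exact h2 (mem_iUnion.2 ⟨d, h3.1.le, h3.2.le⟩)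

theorem cont_re (v : List D) : Continuous fun z => |(Psi v z - ctr).re| :=
  (continuous_re.comp ((differentiable_Psi v).continuous.sub continuous_const)).abs

theorem cont_im (v : List D) : Continuous fun z => |(Psi v z - ctr).im| :=
  (continuous_im.comp ((differentiable_Psi v).continuous.sub continuous_const)).abs

theorem isClosed_Sq (v : List D) : IsClosed (Sq v) :=
  (isClosed_le (cont_re v) continuous_const).inter (isClosed_le (cont_im v) continuous_const)

theorem isClosed_Kc (v : List D) : IsClosed (Kc v) := by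
  refine (isClosed_Sq v).inter ?_
  have : {z : ℂ | ∀ d : D, 61 / 100 ≤ |(Psi (v ++ [d]) z - ctr).re| ∨
      61 / 100 ≤ |(Psi (v ++ [d]) z - ctr).im|} =
      ⋂ d : D, ({z | 61 / 100 ≤ |(Psi (v ++ [d]) z - ctr).re|} ∪
        {z | 61 / 100 ≤ |(Psi (v ++ [d]) z - ctr).im|}) := by
    ext z
    simp
  change IsClosed {z : ℂ | ∀ d : D, 61 / 100 ≤ |(Psi (v ++ [d]) z - ctr).re| ∨
      61 / 100 ≤ |(Psi (v ++ [d]) z - ctr).im|}
  rw [this]
  exact isClosed_iInter fun d => (isClosed_le continuous_const (cont_re _)).union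
    (isClosed_le continuous_const (cont_im _))

theorem isCompact_Kc (v : List D) : IsCompact (Kc v) := by
  refine IsCompact.of_isClosed_subset ((isCompact_closedBall ctr 1).image
    (differentiable_Phi v).continuous) (isClosed_Kc v) ?_
  intro z hz
  refine ⟨Psi v z, ?_, Phi_Psi v z⟩
  have := dist_sq61 hz.1.1 hz.1.2
  rw [mem_closedBall]
  linarith

theorem Kc_notMem {v : List D} {z : ℂ} (hz : z ∈ Kc v) : z ∉ squareCantor := by
  intro h
  have h1 := dist_sq61 hz.1.1 hz.1.2
  obtain ⟨d, hd⟩ := exists_psi_mem (Psi_mem_of_near (v := v) h (by linarith))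
  rw [← Psi_snoc] at hd
  have h2 := cantorSet_subset_unitInterval hd.1
  have h3 := cantorSet_subset_unitInterval hd.2
  rw [mem_Icc] at h2 h3
  have h4 : |(Psi (v ++ [d]) z - ctr).re| ≤ 1 / 2 := by
    rw [sub_re, abs_le]
    simp only [ctr]
    constructor <;> linarith [h2.1, h2.2]
  have h5 : |(Psi (v ++ [d]) z - ctr).im| ≤ 1 / 2 := by
    rw [sub_im, abs_le]
    simp only [ctr]
    constructor <;> linarith [h3.1, h3.2]
  rcases hz.2 d with h | h <;> linarith

theorem child_dist {y z : ℂ} {t : ℝ} (hz1 : |(z - ctr).re| ≤ 1 / 2 * (1 - t))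
    (hz2 : |(z - ctr).im| ≤ 1 / 2 * (1 - t))
    (ht : 0 ≤ t) (hy : 61 / 100 ≤ |(y - ctr).re| ∨ 61 / 100 ≤ |(y - ctr).im|) :
    t / 10 ≤ dist y z := by
  rcases hy with hy | hy
  · have h1 : |(y - z).re| ≤ dist y z := by
      rw [dist_eq_norm]
      exact abs_re_le_norm _
    have h2 : |(y - ctr).re| ≤ |(y - z).re| + |(z - ctr).re| := by
      have e : (y - ctr).re = (y - z).re + (z - ctr).re := by
        simp only [sub_re]
        ring
      rw [e]
      exact abs_add_le _ _
    linarith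
  · have h1 : |(y - z).im| ≤ dist y z := by
      rw [dist_eq_norm]
      exact abs_im_le_norm _
    have h2 : |(y - ctr).im| ≤ |(y - z).im| + |(z - ctr).im| := by
      have e : (y - ctr).im = (y - z).im + (z - ctr).im := by
        simp only [sub_im]
        ring
      rw [e]
      exact abs_add_le _ _
    linarith

theorem scale {k : ℕ} {x r : ℝ} (h : r ≤ 3 ^ k * x) : (1 / 3) ^ k * r ≤ x := by
  have h1 : (1 / 3 : ℝ) ^ k * (3 ^ k * x) = x := by
    rw [← mul_assoc, ← mul_pow]
    norm_num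
  rw [← h1]
  exact mul_le_mul_of_nonneg_left h (by positivity)

theorem Kc_RN (hGEO : T_GEO) {N : ℕ} {v : List D} (hv : v.length < N) {z : ℂ}
    (hz : z ∈ Kc v) : z ∈ RN N := by
  intro q hq
  rw [mem_lv] at hq
  by_cases hp : v <+: q
  · obtain ⟨x, rfl⟩ := hp
    cases x with
    | nil =>
      rw [List.append_nil] at hq
      omega
    | cons d x =>
      have e1 : Psi (v ++ [d]) (cc (v ++ d :: x)) = Phi x ctr := by
        unfold cc
        have e : v ++ d :: x = (v ++ [d]) ++ x := by simp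
        rw [e, Phi_append, Psi_Phi]
      have e2 := dist_Psi (v ++ [d]) z (cc (v ++ d :: x))
      rw [e1] at e2
      have h3 : ((1 / 3 : ℝ) ^ x.length) / 10 ≤ dist (Psi (v ++ [d]) z) (Phi x ctr) :=
        child_dist (Phi_re x) (Phi_im x) (by positivity) (hz.2 d)
      rw [e2] at h3
      have h4 := scale h3
      refine le_trans (le_of_eq ?_) h4
      have e5 : N = (v ++ [d]).length + x.length := by
        rw [← hq]
        simp
        ring
      rw [e5, pow_add]
      ring
  · have h1 := ((hGEO N).2 v q hv.le hq).2 hp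
    have h2 := dist_sq61 hz.1.1 hz.1.2
    have h3 := dist_triangle (Psi v (cc q)) (Psi v z) ctr
    rw [dist_comm (Psi v (cc q)) (Psi v z), dist_Psi] at h3
    have h4 : (1 / 3 : ℝ) ^ v.length * (1 / 10) ≤ dist z (cc q) := scale (by linarith)
    refine le_trans ?_ h4
    have h5 : (1 / 3 : ℝ) ^ N ≤ (1 / 3) ^ v.length :=
      pow_le_pow_of_le_one (by norm_num) (by norm_num) hv.le
    linarith

theorem cont_gr (N : ℕ) (w : List D → ℝ) (V : ℝ) : ContinuousOn (gr N w V) (RN N) := by
  unfold gr hp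
  refine continuousOn_const.add (continuousOn_finsetSum _ fun q hq => continuousOn_const.mul
    (ContinuousOn.log (continuous_id.dist continuous_const).continuousOn fun z hz => ?_))
  have h1 := hz q hq
  have h2 : (0 : ℝ) < (1 / 3) ^ N / 10 := by positivity
  exact (h2.trans_le h1).ne'

theorem cont_der {f : ℂ → ℂ} (hf : DifferentiableOn ℂ f squareCantorᶜ) :
    ContinuousOn (deriv f) squareCantorᶜ :=
  (hf.deriv isClosed_squareCantor.isOpen_compl).continuousOn

/-- The set between a square and its children. -/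
def As (v : List D) : Set ℂ := Sq v \ ⋃ d : D, Sq (v ++ [d])

theorem meas_As (v : List D) : MeasurableSet (As v) :=
  (isClosed_Sq v).measurableSet.diff
    (MeasurableSet.iUnion fun d => (isClosed_Sq (v ++ [d])).measurableSet)

theorem integrable_As (hGEO : T_GEO) {N : ℕ} {v : List D} (hv : v.length < N) (w : List D → ℝ)
    (V : ℝ) {f : ℂ → ℂ} (hf : DifferentiableOn ℂ f squareCantorᶜ) :
    IntegrableOn (fun z => gr N w V z * ‖deriv f z‖ ^ 2) (As v) := by
  have h1 : ContinuousOn (fun z => gr N w V z * ‖deriv f z‖ ^ 2) (Kc v) :=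
    ((cont_gr N w V).mono fun z hz => Kc_RN hGEO hv hz).mul
      (((cont_der hf).mono fun z hz => Kc_notMem hz).norm.pow 2)
  exact (h1.integrableOn_compact (isCompact_Kc v)).mono_set (sub_Kc v)

theorem nn_As (hGEO : T_GEO) {N : ℕ} {v : List D} (hv : v.length < N) {w : List D → ℝ}
    {V : ℝ} (hG : ∀ z ∈ RN N, 0 ≤ gr N w V z) (f : ℂ → ℂ) {z : ℂ} (hz : z ∈ As v) :
    0 ≤ gr N w V z * ‖deriv f z‖ ^ 2 :=
  mul_nonneg (hG z (Kc_RN hGEO hv (sub_Kc v hz))) (by positivity)

/-! ### the node -/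

/-- The open node. -/
def U1 : Set ℂ := {y : ℂ | dist y ctr < 83 / 100 ∧ ∀ d : D, 73 / 100 < dist (psi d y) ctr}

/-- The closed node. -/
def K1 : Set ℂ := {y : ℂ | dist y ctr ≤ 83 / 100 ∧ ∀ d : D, 73 / 100 ≤ dist (psi d y) ctr}

theorem isOpen_U1 : IsOpen U1 := by
  refine (isOpen_lt (continuous_id.dist continuous_const) continuous_const).inter ?_
  have : {z : ℂ | ∀ d : D, 73 / 100 < dist (psi d z) ctr}
      = ⋂ d : D, {z : ℂ | 73 / 100 < dist (psi d z) ctr} := by ext; simp
  change IsOpen {z : ℂ | ∀ d : D, 73 / 100 < dist (psi d z) ctr}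
  rw [this]
  exact isOpen_iInter_of_finite fun d => isOpen_lt continuous_const (cont_dist_psi d)

theorem isCompact_K1 : IsCompact K1 := by
  have hcl : IsClosed {z : ℂ | ∀ d : D, 73 / 100 ≤ dist (psi d z) ctr} := by
    have : {z : ℂ | ∀ d : D, 73 / 100 ≤ dist (psi d z) ctr}
        = ⋂ d : D, {z : ℂ | 73 / 100 ≤ dist (psi d z) ctr} := by ext; simp
    rw [this]
    exact isClosed_iInter fun d => isClosed_le continuous_const (cont_dist_psi d)
  exact (isCompact_closedBall ctr (83 / 100)).inter_right hcl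

theorem U1_K1 : U1 ⊆ K1 := fun _ h => ⟨h.1.le, fun d => (h.2 d).le⟩

theorem K1_nodeU : K1 ⊆ nodeU := fun _ h =>
  ⟨by linarith [h.1], fun d => by linarith [h.2 d]⟩

theorem nodeX_U1 : nodeX ⊆ U1 := fun _ h =>
  ⟨by linarith [h.1], fun d => by linarith [h.2 d]⟩

theorem U1_XH {y : ℂ} (h : y ∈ U1) : y ∈ XH := ⟨by linarith [h.1], fun d => (h.2 d).le⟩

/-! ### scaling -/

theorem int_phi (d : D) (H : ℂ → ℝ) : ∫ y, H (phi d y) = 9 * ∫ z, H z := by
  have h1 : ∀ y : ℂ, H (phi d y) = H ((1 / 3 : ℝ) • (y + 2 * dig d)) := by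
    intro y
    congr 1
    unfold phi
    rw [Complex.real_smul]
    push_cast
    ring
  rw [integral_congr_ae (Eventually.of_forall h1),
    integral_add_right_eq_self (fun y : ℂ => H ((1 / 3 : ℝ) • y)),
    Measure.integral_comp_smul, Complex.finrank_real_complex]
  norm_num

theorem int_Phi (v : List D) (H : ℂ → ℝ) : ∫ y, H (Phi v y) = 9 ^ v.length * ∫ z, H z := by
  induction v generalizing H with
  | nil => simp
  | cons d v ih =>
    have h1 : ∫ y, H (Phi (d :: v) y) = ∫ y, (fun z => H (phi d z)) (Phi v y) := rfl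
    rw [h1, ih (fun z => H (phi d z)), int_phi, List.length_cons, pow_succ]
    ring

theorem der_phi (d : D) (z : ℂ) : HasDerivAt (phi d) (1 / 3) z := by
  unfold phi
  exact ((hasDerivAt_id z).add_const _).div_const 3

theorem der_Phi (v : List D) (z : ℂ) : HasDerivAt (Phi v) ((1 / 3) ^ v.length) z := by
  induction v with
  | nil =>
    have : Phi [] = id := rfl
    rw [this]
    simpa using hasDerivAt_id z
  | cons d v ih =>
    have h1 : Phi (d :: v) = phi d ∘ Phi v := rfl
    rw [h1, List.length_cons, pow_succ, mul_comm]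
    exact (der_phi d _).comp z ih

theorem energy (p : List D) {f : ℂ → ℂ} (hf : DifferentiableOn ℂ f squareCantorᶜ) :
    ∫ y in U1, ‖deriv (fun y => f (Phi p y)) y‖ ^ 2 =
      ∫ z, indicator {z | Psi p z ∈ U1} (fun z => ‖deriv f z‖ ^ 2) z := by
  rw [← integral_indicator isOpen_U1.measurableSet]
  have h1 : ∀ y : ℂ, indicator U1 (fun y => ‖deriv (fun y => f (Phi p y)) y‖ ^ 2) y =
      (1 / 9) ^ p.length * indicator {z | Psi p z ∈ U1} (fun z => ‖deriv f z‖ ^ 2) (Phi p y) := by
    intro y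
    by_cases hy : y ∈ U1
    · have hy' : Phi p y ∈ {z | Psi p z ∈ U1} := by
        rw [mem_ofPred_eq, Psi_Phi]
        exact hy
      rw [indicator_of_mem hy, indicator_of_mem hy']
      have hn : Phi p y ∈ squareCantorᶜ := Phi_notMem (K1_nodeU (U1_K1 hy))
      have h2 : HasDerivAt (fun y => f (Phi p y)) (deriv f (Phi p y) * (1 / 3) ^ p.length) y :=
        ((hf.differentiableAt (isClosed_squareCantor.isOpen_compl.mem_nhds hn)).hasDerivAt).comp y
          (der_Phi p y)
      rw [h2.deriv, norm_mul, mul_pow, norm_pow, mul_comm, ← pow_mul, mul_comm p.length 2,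
        pow_mul]
      norm_num
    · have hy' : Phi p y ∉ {z | Psi p z ∈ U1} := by
        rw [mem_ofPred_eq, Psi_Phi]
        exact hy
      rw [indicator_of_notMem hy, indicator_of_notMem hy', mul_zero]
  rw [integral_congr_ae (Eventually.of_forall h1), integral_const_mul,
    int_Phi p (indicator {z | Psi p z ∈ U1} (fun z => ‖deriv f z‖ ^ 2)), ← mul_assoc, ← mul_pow]
  norm_num

/-! ### covering of the node -/

theorem cover {r : List D} {e : D} {z : ℂ} (hz : Psi (r ++ [e]) z ∈ U1) :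
    ∃ s ∈ wd 3, z ∈ As (r ++ s) := by
  by_contra hcon
  push Not at hcon
  have step : ∀ s : List D, s.length ≤ 3 → z ∈ Sq (r ++ s) → ∃ d : D, z ∈ Sq (r ++ s ++ [d]) := by
    intro s hs h
    by_contra hno
    push Not at hno
    refine hcon s (mem_wd.2 hs) ⟨h, fun h' => ?_⟩
    obtain ⟨d, hd⟩ := mem_iUnion.1 h'
    exact hno d hd
  have hy := hz
  rw [Psi_snoc] at hy
  have h0 : z ∈ Sq (r ++ []) := by
    rw [List.append_nil]
    have h1 : |(psi e (Psi r z) - ctr).re| ≤ 83 / 100 := by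
      refine (abs_re_le_norm _).trans ?_
      rw [← dist_eq_norm]
      exact hy.1.le
    have h2 : |(psi e (Psi r z) - ctr).im| ≤ 83 / 100 := by
      refine (abs_im_le_norm _).trans ?_
      rw [← dist_eq_norm]
      exact hy.1.le
    have h3 := abs_phi_re e h1
    have h4 := abs_phi_im e h2
    rw [phi_psi] at h3 h4
    exact ⟨by linarith, by linarith⟩
  obtain ⟨d1, h1⟩ := step [] (by simp) h0
  rw [List.append_nil] at h1
  have hd1 : d1 = e := by
    refine psi_disj (z := Psi r z) ?_ (by linarith [hy.1])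
    have := dist_sq61 h1.1 h1.2
    rw [Psi_snoc] at this
    linarith
  subst hd1
  obtain ⟨d2, h2⟩ := step [d1] (by simp) h1
  rw [List.append_assoc] at h2
  obtain ⟨d3, h3⟩ := step ([d1] ++ [d2]) (by simp) h2
  rw [List.append_assoc] at h3
  obtain ⟨d4, h4⟩ := step ([d1] ++ [d2] ++ [d3]) (by simp) h3
  have e4 : Psi (r ++ ([d1] ++ [d2] ++ [d3]) ++ [d4]) z =
      psi d4 (psi d3 (psi d2 (Psi (r ++ [d1]) z))) := by
    simp [Psi_append]
  obtain ⟨h5, h6⟩ := h4
  rw [e4] at h5 h6
  have h7 := abs_phi_re d3 (abs_phi_re d4 h5)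
  have h8 := abs_phi_im d3 (abs_phi_im d4 h6)
  rw [phi_psi, phi_psi] at h7 h8
  have h9 : dist (psi d2 (Psi (r ++ [d1]) z)) ctr < 73 / 100 := by
    refine lt_of_pow_lt_pow_left₀ 2 (by norm_num) ((dist_le h7 h8).trans_lt ?_)
    norm_num
  have h10 := hz.2 d2
  linarith

end OSE_

open OSE_

/-- Oscillation on a node and energy. -/
theorem p_OSE (hCHO : T_CHO) (hCON : T_CON) (hGEO : T_GEO) : T_OSE := by
  intro CG
  have hU : IsPreconnected U1 :=
    hCON.1 (83 / 100) (73 / 100) (by norm_num) (by norm_num) (by norm_num) (by norm_num)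
  obtain ⟨C0, hC0, hC⟩ := hCHO U1 nodeX isOpen_U1 hU isCompact_nodeX nodeX_U1
  refine ⟨C0 * (|CG| + 1), by positivity, ?_⟩
  intro N w V f hG hf
  have hEN : ∀ s : List D, s.length < N → 0 ≤ EN N w V f s := fun s hs =>
    setIntegral_nonneg (meas_As s) fun z hz => nn_As hGEO hs hG.nn f hz
  refine ⟨hEN, ?_⟩
  intro p hp hpN x y hx hy
  obtain ⟨r, e, rfl⟩ : ∃ (r : List D) (e : D), p = r ++ [e] :=
    ⟨p.dropLast, p.getLast hp, (List.dropLast_append_getLast hp).symm⟩
  rw [List.dropLast_concat]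
  have hl : (r ++ [e]).length = r.length + 1 := by simp
  have hlen : ∀ s ∈ wd 3, (r ++ s).length < N := by
    intro s hs
    rw [mem_wd] at hs
    rw [List.length_append]
    omega
  have hw : 0 < w (r ++ [e]) := hG.pos _ (by omega)
  -- the oscillation
  have hF : DifferentiableOn ℂ (fun y => f (Phi (r ++ [e]) y)) nodeU := fun u hu =>
    ((hf.differentiableAt (isClosed_squareCantor.isOpen_compl.mem_nhds (Phi_notMem hu))).comp u
      (differentiable_Phi _ u)).differentiableWithinAt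
  have hint : IntegrableOn (fun z => ‖deriv (fun y => f (Phi (r ++ [e]) y)) z‖ ^ 2) U1 :=
    (((((hF.deriv isOpen_nodeU).continuousOn).mono K1_nodeU).norm.pow 2).integrableOn_compact
      isCompact_K1).mono_set U1_K1
  have h1 := hC _ (hF.mono (U1_K1.trans K1_nodeU)) hint _ hx _ hy
  rw [energy _ hf, Phi_Psi, Phi_Psi] at h1
  -- comparison of the energies
  have h2 : w (r ++ [e]) * ∫ z, indicator {z | Psi (r ++ [e]) z ∈ U1}
      (fun z => ‖deriv f z‖ ^ 2) z ≤ (|CG| + 1) * ∑ s ∈ wd 3, EN N w V f (r ++ s) := by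
    have e1 : ∑ s ∈ wd 3, EN N w V f (r ++ s) = ∫ z, ∑ s ∈ wd 3,
        indicator (As (r ++ s)) (fun z => gr N w V z * ‖deriv f z‖ ^ 2) z := by
      rw [integral_finsetSum]
      · refine Finset.sum_congr rfl fun s _ => ?_
        rw [integral_indicator (meas_As _)]
        rfl
      · intro s hs
        exact (integrable_indicator_iff (meas_As _)).2 (integrable_As hGEO (hlen s hs) w V hf)
    have hsumint : Integrable (fun z => ∑ s ∈ wd 3,
        indicator (As (r ++ s)) (fun z => gr N w V z * ‖deriv f z‖ ^ 2) z) :=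
      integrable_finsetSum _ fun s hs =>
        (integrable_indicator_iff (meas_As _)).2 (integrable_As hGEO (hlen s hs) w V hf)
    have hnn : ∀ (z : ℂ), ∀ s ∈ wd 3,
        0 ≤ indicator (As (r ++ s)) (fun z => gr N w V z * ‖deriv f z‖ ^ 2) z := by
      intro z s hs
      by_cases hz : z ∈ As (r ++ s)
      · rw [indicator_of_mem hz]
        exact nn_As hGEO (hlen s hs) hG.nn f hz
      · rw [indicator_of_notMem hz]
    rw [e1, ← integral_const_mul, ← integral_const_mul]
    refine integral_mono_of_nonneg (Eventually.of_forall fun z => ?_) (hsumint.const_mul _)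
      (Eventually.of_forall fun z => ?_)
    · exact mul_nonneg hw.le (indicator_nonneg (fun _ _ => by positivity) z)
    · by_cases hz : Psi (r ++ [e]) z ∈ U1
      · have hz' : z ∈ {z | Psi (r ++ [e]) z ∈ U1} := hz
        obtain ⟨s, hs, hzs⟩ := cover hz
        have h3 := nn_As hGEO (hlen s hs) hG.nn f hzs
        have h4 : gr N w V z * ‖deriv f z‖ ^ 2 ≤ ∑ s ∈ wd 3,
            indicator (As (r ++ s)) (fun z => gr N w V z * ‖deriv f z‖ ^ 2) z := by
          refine le_trans (le_of_eq ?_) (Finset.single_le_sum (hnn z) hs)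
          rw [indicator_of_mem hzs]
        have h5 := hG.low (r ++ [e]) (by omega) z (U1_XH hz)
        have h6 : 0 ≤ ‖deriv f z‖ ^ 2 := by positivity
        have h7 : w (r ++ [e]) * ‖deriv f z‖ ^ 2 ≤ CG * (gr N w V z * ‖deriv f z‖ ^ 2) := by
          rw [← mul_assoc]
          exact mul_le_mul_of_nonneg_right h5 h6
        have h8 : CG * (gr N w V z * ‖deriv f z‖ ^ 2) ≤
            (|CG| + 1) * (gr N w V z * ‖deriv f z‖ ^ 2) :=
          mul_le_mul_of_nonneg_right (by linarith [le_abs_self CG]) h3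
        have h9 : (|CG| + 1) * (gr N w V z * ‖deriv f z‖ ^ 2) ≤ (|CG| + 1) * ∑ s ∈ wd 3,
            indicator (As (r ++ s)) (fun z => gr N w V z * ‖deriv f z‖ ^ 2) z :=
          mul_le_mul_of_nonneg_left h4 (by positivity)
        change w (r ++ [e]) * indicator {z | Psi (r ++ [e]) z ∈ U1}
          (fun z => ‖deriv f z‖ ^ 2) z ≤ _
        rw [indicator_of_mem hz']
        exact h7.trans (h8.trans h9)
      · have hz' : z ∉ {z | Psi (r ++ [e]) z ∈ U1} := hz
        change w (r ++ [e]) * indicator {z | Psi (r ++ [e]) z ∈ U1}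
          (fun z => ‖deriv f z‖ ^ 2) z ≤ _
        rw [indicator_of_notMem hz', mul_zero]
        exact mul_nonneg (by positivity) (Finset.sum_nonneg (hnn z))
  calc w (r ++ [e]) * ‖f x - f y‖ ^ 2
      ≤ w (r ++ [e]) * (C0 * ∫ z, indicator {z | Psi (r ++ [e]) z ∈ U1}
        (fun z => ‖deriv f z‖ ^ 2) z) := mul_le_mul_of_nonneg_left h1 hw.le
    _ = C0 * (w (r ++ [e]) * ∫ z, indicator {z | Psi (r ++ [e]) z ∈ U1}
        (fun z => ‖deriv f z‖ ^ 2) z) := by ring
    _ ≤ C0 * ((|CG| + 1) * ∑ s ∈ wd 3, EN N w V f (r ++ s)) :=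
        mul_le_mul_of_nonneg_left h2 hC0.le
    _ = C0 * (|CG| + 1) * ∑ s ∈ wd 3, EN N w V f (r ++ s) := by ring

end Pool.Agent.CorE
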