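import Pool.Agent.CorE.Targets

/-!
# COE, target POS: positivity of sums of logarithms
-/

set_option autoImplicit false

namespace Pool.Agent.CorE

open Complex Metric Set Filter Topology MeasureTheory
open Pool.Corona91698f
open scoped Real

namespace POS_

/-- the quotient of the distances tends to one -/
theorem ratio (c : ℂ) :
    Tendsto (fun z : ℂ => dist z c / ‖z‖) (Bornology.cobounded ℂ) (𝓝 1) := by
  have h0 : Tendsto (fun z : ℂ => ‖c‖ / ‖z‖) (Bornology.cobounded ℂ) (𝓝 0) :=
    tendsto_const_nhds.div_atTop tendsto_norm_cobounded_atTop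
  have h1 : Tendsto (fun z : ℂ => 1 - ‖c‖ / ‖z‖) (Bornology.cobounded ℂ) (𝓝 1) := by
    simpa using tendsto_const_nhds.sub h0
  have h2 : Tendsto (fun z : ℂ => 1 + ‖c‖ / ‖z‖) (Bornology.cobounded ℂ) (𝓝 1) := by
    simpa using tendsto_const_nhds.add h0
  have h3 : ∀ᶠ z : ℂ in Bornology.cobounded ℂ, 1 ≤ ‖z‖ :=
    tendsto_norm_cobounded_atTop.eventually_ge_atTop 1
  refine tendsto_of_tendsto_of_tendsto_of_le_of_le' h1 h2 ?_ ?_
  · filter_upwards [h3] with z hz
    have hz0 : 0 < ‖z‖ := by linarith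
    rw [← sub_nonneg]
    have : ‖z‖ - ‖c‖ ≤ dist z c := by
      rw [dist_eq_norm]
      exact norm_sub_norm_le z c
    have e : dist z c / ‖z‖ - (1 - ‖c‖ / ‖z‖) = (dist z c - (‖z‖ - ‖c‖)) / ‖z‖ := by
      field_simp
    rw [e]
    exact div_nonneg (by linarith) hz0.le
  · filter_upwards [h3] with z hz
    have hz0 : 0 < ‖z‖ := by linarith
    rw [← sub_nonneg]
    have : dist z c ≤ ‖z‖ + ‖c‖ := by
      rw [dist_eq_norm]
      exact norm_sub_le z c
    have e : 1 + ‖c‖ / ‖z‖ - dist z c / ‖z‖ = (‖z‖ + ‖c‖ - dist z c) / ‖z‖ := by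
      field_simp
    rw [e]
    exact div_nonneg (by linarith) hz0.le

/-- the difference of the logarithms tends to zero -/
theorem logdiff (c : ℂ) :
    Tendsto (fun z : ℂ => Real.log (dist z c) - Real.log ‖z‖) (Bornology.cobounded ℂ) (𝓝 0) := by
  have h1 : Tendsto (fun z : ℂ => Real.log (dist z c / ‖z‖)) (Bornology.cobounded ℂ) (𝓝 0) := by
    have := (ratio c).log one_ne_zero
    rwa [Real.log_one] at this
  refine h1.congr' ?_
  have h3 : ∀ᶠ z : ℂ in Bornology.cobounded ℂ, ‖c‖ + 1 ≤ ‖z‖ :=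
    tendsto_norm_cobounded_atTop.eventually_ge_atTop _
  filter_upwards [h3] with z hz
  have hc := norm_nonneg c
  have hz0 : ‖z‖ ≠ 0 := by linarith
  have h4 : ‖z‖ - ‖c‖ ≤ dist z c := by
    rw [dist_eq_norm]
    exact norm_sub_norm_le z c
  exact Real.log_div (by linarith) hz0

/-- growth at infinity -/
theorem far {ι : Type} (S : Finset ι) (c : ι → ℂ) (w : ι → ℝ) (V a : ℝ) (ha : a < 0)
    (hw : 0 < ∑ q ∈ S, w q ∨ (∑ q ∈ S, w q = 0 ∧ 0 ≤ V)) :
    ∃ ρ : ℝ, ∀ z : ℂ, ρ ≤ ‖z‖ → a < hp S c w V z := by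
  have h1 : Tendsto (fun z : ℂ => ∑ q ∈ S, w q * (Real.log (dist z (c q)) - Real.log ‖z‖))
      (Bornology.cobounded ℂ) (𝓝 0) := by
    have := tendsto_finsetSum S fun q _ => (logdiff (c q)).const_mul (w q)
    simpa using this
  have e : ∀ z : ℂ, hp S c w V z = (V + (∑ q ∈ S, w q) * Real.log ‖z‖) +
      ∑ q ∈ S, w q * (Real.log (dist z (c q)) - Real.log ‖z‖) := by
    intro z
    unfold hp
    simp only [mul_sub, Finset.sum_sub_distrib, Finset.sum_mul]
    ring
  have h2 : ∀ᶠ z : ℂ in Bornology.cobounded ℂ, a < hp S c w V z := by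
    simp only [e]
    rcases hw with hw | ⟨hw, hV⟩
    · have h3 : Tendsto (fun z : ℂ => (∑ q ∈ S, w q) * Real.log ‖z‖)
          (Bornology.cobounded ℂ) atTop :=
        (Real.tendsto_log_atTop.comp tendsto_norm_cobounded_atTop).const_mul_atTop hw
      exact ((tendsto_const_nhds.add_atTop h3).atTop_add h1).eventually_gt_atTop a
    · rw [hw]
      have h3 : Tendsto (fun z : ℂ => (V + 0 * Real.log ‖z‖) +
          ∑ q ∈ S, w q * (Real.log (dist z (c q)) - Real.log ‖z‖))
          (Bornology.cobounded ℂ) (𝓝 V) := by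
        simpa using (tendsto_const_nhds (x := V)).add h1
      exact h3.eventually_const_lt (by linarith)
  obtain ⟨ρ, -, hρ⟩ := hasBasis_cobounded_norm.eventually_iff.1 h2
  exact ⟨ρ, fun z hz => hρ hz⟩

theorem log_ten : Real.log 10 < 90 / 11 := by
  have h1 : Real.log 10 < Real.log (2 ^ 4) := Real.log_lt_log (by norm_num) (by norm_num)
  rw [Real.log_pow] at h1
  have := Real.log_two_lt_d9
  push_cast at h1
  linarith

theorem closed_Rg {ι : Type} (S : Finset ι) (c : ι → ℂ) (l : ℝ) : IsClosed (Rg S c l) := by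
  have : Rg S c l = ⋂ q ∈ S, {z | l / 10 ≤ dist z (c q)} := by
    ext z
    simp [Rg]
  rw [this]
  exact isClosed_biInter fun q _ => isClosed_le continuous_const (by fun_prop)

theorem cont_hp {ι : Type} (S : Finset ι) (c : ι → ℂ) (w : ι → ℝ) (V : ℝ) {l : ℝ} (hl : 0 < l) :
    ContinuousOn (hp S c w V) (Rg S c l) := by
  unfold hp
  refine continuousOn_const.add (continuousOn_finsetSum _ fun q hq => ?_)
  refine continuousOn_const.mul (ContinuousOn.log (by fun_prop) fun z hz => ?_)
  have := hz q hq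
  linarith

end POS_

open POS_

/-- POS: positivity. -/
theorem p_POS (hHAR : T_HAR) (hLOG : T_LOG) : T_POS := by
  intro ι _ S c l w V hS hk hw z₀ hz₀
  by_contra hneg
  rw [not_le] at hneg
  obtain ⟨hl, hsep⟩ := hS
  obtain ⟨ρ, hρ⟩ := far S c w V (hp S c w V z₀) hneg hw
  -- the minimum
  set K : Set ℂ := Rg S c l ∩ closedBall 0 (max ρ ‖z₀‖) with hK
  have hKc : IsCompact K := (isCompact_closedBall _ _).inter_left (closed_Rg S c l)
  have hcont : ContinuousOn (hp S c w V) K := (cont_hp S c w V hl).mono inter_subset_left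
  have hz₀K : z₀ ∈ K := ⟨hz₀, by simp⟩
  obtain ⟨z₁, hz₁, hmin⟩ := hKc.exists_isMinOn ⟨z₀, hz₀K⟩ hcont
  set m := hp S c w V z₁ with hm
  have hm0 : m ≤ hp S c w V z₀ := hmin hz₀K
  have hout : ∀ z, z ∈ Rg S c l → z ∉ K → hp S c w V z₀ < hp S c w V z := by
    intro z hz hzK
    refine hρ z ?_
    by_contra hlt
    refine hzK ⟨hz, ?_⟩
    rw [mem_closedBall, dist_zero_right]
    exact (not_le.1 hlt).le.trans (le_max_left _ _)
  have hmin' : ∀ z ∈ Rg S c l, m ≤ hp S c w V z := by
    intro z hz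
    by_cases hzK : z ∈ K
    · exact hmin hzK
    · exact hm0.trans (hout z hz hzK).le
  -- the point of the minimum with the largest real part
  set M : Set ℂ := K ∩ hp S c w V ⁻¹' Iic m with hM
  have hMc : IsCompact M := hKc.of_isClosed_subset
    (hcont.preimage_isClosed_of_isClosed hKc.isClosed isClosed_Iic) inter_subset_left
  obtain ⟨z₂, hz₂, hmax⟩ := hMc.exists_isMaxOn
    ⟨z₁, hz₁, mem_preimage.2 (mem_Iic.2 hm.symm.le)⟩ (Complex.continuous_re.continuousOn)
  have hz₂R : z₂ ∈ Rg S c l := hz₂.1.1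
  have hz₂m : hp S c w V z₂ = m := le_antisymm hz₂.2 (hmin' z₂ hz₂R)
  have hinM : ∀ z ∈ Rg S c l, hp S c w V z ≤ m → z ∈ M := by
    intro z hz hzm
    refine ⟨?_, hzm⟩
    by_contra hzK
    have := hout z hz hzK
    linarith
  -- it is on one of the small circles
  have hcirc : ∃ q ∈ S, dist z₂ (c q) ≤ l / 10 := by
    by_contra hno
    push Not at hno
    have hev : ∀ᶠ z in 𝓝 z₂, ∀ q ∈ S, l / 10 < dist z (c q) := by
      rw [Filter.eventually_all_finset]
      intro q hq
      exact (continuous_id.dist continuous_const).continuousAt.eventually_const_lt (hno q hq)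
    obtain ⟨r, hr, hball⟩ := Metric.eventually_nhds_iff_ball.1 hev
    have hsub : ∀ z, dist z z₂ ≤ r / 2 → ∀ q ∈ S, l / 10 < dist z (c q) := fun z hz =>
      hball z (by rw [mem_ball]; linarith)
    have hharm : InnerProductSpace.HarmonicOnNhd (hp S c w (V - m)) (closedBall z₂ (r / 2)) :=
      (hLOG ι S c w (V - m)).mono fun z hz q hq e => by
        have := hsub z hz q hq
        rw [e, dist_self] at this
        linarith
    have heq : ∀ z, hp S c w (V - m) z = hp S c w V z - m := by
      intro z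
      unfold hp
      ring
    have hnn : ∀ z, dist z z₂ ≤ r / 2 → 0 ≤ hp S c w (V - m) z := by
      intro z hz
      rw [heq]
      have := hmin' z fun q hq => (hsub z hz q hq).le
      linarith
    have hd : dist (z₂ + ((r / 4 : ℝ) : ℂ)) z₂ = r / 4 := by
      rw [dist_eq_norm, add_sub_cancel_left, Complex.norm_real, Real.norm_eq_abs,
        abs_of_pos (by linarith)]
    have h1 := (hHAR (hp S c w (V - m)) z₂ (r / 2) (by linarith) hharm
      (fun z hz => hnn z (mem_sphere.1 hz).le) (1 / 2) (by norm_num) (by norm_num)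
      (z₂ + ((r / 4 : ℝ) : ℂ)) (by rw [hd]; linarith)).2
    rw [heq, heq, hz₂m, sub_self, mul_zero] at h1
    have h2 : z₂ + ((r / 4 : ℝ) : ℂ) ∈ M := by
      refine hinM _ (fun q hq => (hsub _ (by rw [hd]; linarith) q hq).le) (by linarith)
    have h3 := hmax h2
    simp only [mem_setOf_eq, Complex.add_re, Complex.ofReal_re] at h3
    linarith
  obtain ⟨q, hq, hdq⟩ := hcirc
  have hdq' : dist z₂ (c q) = l / 10 := le_antisymm hdq (hz₂R q hq)
  -- the function without the charge
  have hsplit : ∀ z, hp S c w V z = hp (S.erase q) c w (V - m + w q * Real.log l) z + m -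
      w q * Real.log l + w q * Real.log (dist z (c q)) := by
    intro z
    unfold hp
    rw [← Finset.add_sum_erase S _ hq]
    ring
  have hfar : ∀ z, dist z (c q) ≤ l → ∀ q' ∈ S.erase q, l ≤ dist z (c q') := by
    intro z hz q' hq'
    have h1 := hsep q hq q' (Finset.mem_of_mem_erase hq') (Finset.ne_of_mem_erase hq').symm
    have h2 := dist_triangle_left (c q) (c q') z
    linarith
  have hharm : InnerProductSpace.HarmonicOnNhd
      (hp (S.erase q) c w (V - m + w q * Real.log l)) (closedBall (c q) l) :=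
    (hLOG ι (S.erase q) c w _).mono fun z hz q' hq' e => by
      have := hfar z hz q' hq'
      rw [e, dist_self] at this
      linarith
  have hsph : ∀ z ∈ sphere (c q) l,
      0 ≤ hp (S.erase q) c w (V - m + w q * Real.log l) z := by
    intro z hz
    have hzd : dist z (c q) = l := hz
    have hzR : z ∈ Rg S c l := by
      intro q' hq'
      by_cases h : q' = q
      · rw [h, hzd]
        linarith
      · have := hfar z hzd.le q' (Finset.mem_erase.2 ⟨h, hq'⟩)
        linarith
    have h1 := hsplit z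
    rw [hzd] at h1
    have h2 := hmin' z hzR
    linarith
  have hH := hHAR _ (c q) l hl hharm hsph (1 / 10) (by norm_num) (by norm_num) z₂
    (by rw [hdq']; linarith)
  have hcen : hp (S.erase q) c w (V - m + w q * Real.log l) (c q) =
      kp S c l w V q + 10 * w q - m := by
    unfold hp kp
    ring
  have hval : hp (S.erase q) c w (V - m + w q * Real.log l) z₂ = w q * Real.log 10 := by
    have h1 := hsplit z₂
    rw [hz₂m, hdq', Real.log_div hl.ne' (by norm_num)] at h1
    linarith
  rw [hcen, hval] at hH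
  obtain ⟨h1, h2⟩ := hH
  have hkq := hk q hq
  have hlog := log_ten
  have hlog0 : 0 < Real.log 10 := Real.log_pos (by norm_num)
  have hpos : 0 ≤ kp S c l w V q + 10 * w q - m := by
    by_contra hc
    rw [not_le] at hc
    norm_num at h1 h2
    linarith
  have hwq : 0 ≤ w q := by
    by_contra hc
    rw [not_le] at hc
    have h3 : w q * Real.log 10 < 0 := mul_neg_of_neg_of_pos hc hlog0
    norm_num at h1
    linarith
  have h4 : w q * Real.log 10 ≤ w q * (90 / 11) := mul_le_mul_of_nonneg_left hlog.le hwq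
  norm_num at h1
  linarith

end Pool.Agent.CorE
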