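import Pool.Agent.CorE.Targets

/-!
# The energy identity on a rectangle
-/

set_option autoImplicit false

namespace Pool.Agent.CorE

open Complex Metric Set Filter Topology MeasureTheory
open Pool.Corona91698f
open scoped Real

namespace REC_

/-- The double integral over a rectangle as an integral in the plane. -/
theorem rect_int (G : ℂ → ℂ) {a b c d : ℝ} (hab : a ≤ b) (hcd : c ≤ d)
    (hG : IntegrableOn G (Icc a b ×ℂ Icc c d)) :
    ∫ x in a..b, ∫ y in c..d, G (x + y * I) = ∫ u in Icc a b ×ℂ Icc c d, G u := by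
  have he := Complex.volume_preserving_equiv_real_prod.symm
  have hme := Complex.measurableEquivRealProd.symm.measurableEmbedding
  have hpre : Complex.measurableEquivRealProd.symm ⁻¹' (Icc a b ×ℂ Icc c d) =
      Icc a b ×ˢ Icc c d := by
    ext ⟨x, y⟩
    rw [mem_preimage, Complex.measurableEquivRealProd_symm_apply, Complex.mem_reProdIm,
      Set.mem_prod]
  have h1 := he.setIntegral_preimage_emb hme G (Icc a b ×ℂ Icc c d)
  rw [hpre] at h1
  have hint : IntegrableOn (fun p : ℝ × ℝ => G (Complex.measurableEquivRealProd.symm p))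
      (Icc a b ×ˢ Icc c d) := by
    have h2 := (he.integrableOn_comp_preimage hme (f := G) (s := Icc a b ×ℂ Icc c d)).2 hG
    rw [hpre] at h2
    exact h2
  rw [← h1]
  have h3 := MeasureTheory.setIntegral_prod (μ := (volume : Measure ℝ))
    (ν := (volume : Measure ℝ)) (fun p : ℝ × ℝ => G (Complex.measurableEquivRealProd.symm p))
    (s := Icc a b) (t := Icc c d) hint
  rw [Measure.volume_eq_prod, h3, intervalIntegral.integral_of_le hab,
    integral_Icc_eq_integral_Ioc]
  refine integral_congr_ae (Eventually.of_forall fun x => ?_)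
  change ∫ y in c..d, G (x + y * I) =
    ∫ y in Icc c d, G (Complex.measurableEquivRealProd.symm (x, y))
  rw [intervalIntegral.integral_of_le hcd, integral_Icc_eq_integral_Ioc]
  refine integral_congr_ae (Eventually.of_forall fun y => ?_)
  change G (x + y * I) = G (Complex.measurableEquivRealProd.symm (x, y))
  rw [Complex.measurableEquivRealProd_symm_apply, Complex.mk_eq_add_mul_I]

/-- the derivative of `log |z - c|` -/
theorem log_deriv {u c : ℂ} (hu : u ≠ c) : ∃ L : ℂ →L[ℝ] ℝ,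
    HasFDerivAt (fun z => Real.log (dist z c)) L u ∧ ∀ v, L v = ((u - c)⁻¹ * v).re := by
  have hn : u - c ≠ 0 := sub_ne_zero.2 hu
  have hn2 : ‖u - c‖ ^ 2 ≠ 0 := pow_ne_zero _ (norm_ne_zero_iff.2 hn)
  have h1 : HasFDerivAt (fun z : ℂ => ‖z - c‖ ^ 2)
      (2 • (innerSL ℝ (u - c)).comp (ContinuousLinearMap.id ℝ ℂ)) u :=
    ((hasFDerivAt_id u).sub_const c).norm_sq
  have h2 := h1.log hn2
  have h3 := h2.const_mul (1 / 2 : ℝ)
  refine ⟨_, h3.congr_of_eventuallyEq (Eventually.of_forall fun z => ?_), fun v => ?_⟩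
  · change Real.log (dist z c) = 1 / 2 * Real.log (‖z - c‖ ^ 2)
    rw [Complex.dist_eq, Real.log_pow]
    push_cast
    ring
  · simp only [smul_apply, ContinuousLinearMap.comp_apply,
      ContinuousLinearMap.id_apply, innerSL_apply_apply, smul_eq_mul, nsmul_eq_mul]
    rw [Complex.inv_def, Complex.normSq_eq_norm_sq, Complex.inner]
    have e : (starRingEnd ℂ) (u - c) * ((‖u - c‖ ^ 2)⁻¹ : ℝ) * v =
        (((‖u - c‖ ^ 2)⁻¹ : ℝ) : ℂ) * ((starRingEnd ℂ) (u - c) * v) := by ring
    rw [e, Complex.re_ofReal_mul]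
    push_cast
    ring_nf

section

variable {ι : Type} (S : Finset ι) (c : ι → ℂ) (w : ι → ℝ) (V : ℝ)

/-- the sum of the poles -/
noncomputable def pf (z : ℂ) : ℂ := ∑ q ∈ S, (w q : ℂ) / (z - c q)

theorem pf_diff {u : ℂ} (hu : ∀ q ∈ S, u ≠ c q) : DifferentiableAt ℂ (pf S c w) u := by
  unfold pf
  refine DifferentiableAt.fun_sum fun q hq => ?_
  exact (differentiableAt_const _).div (differentiableAt_id.sub_const _)
    (sub_ne_zero.2 (hu q hq))

theorem sum_deriv {u : ℂ} (hu : ∀ q ∈ S, u ≠ c q) : ∃ L : ℂ →L[ℝ] ℝ,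
    HasFDerivAt (fun z => ∑ q ∈ S, w q * Real.log (dist z (c q))) L u ∧
      ∀ v, L v = (pf S c w u * v).re := by
  classical
  induction S using Finset.induction_on with
  | empty => exact ⟨0, by simpa using hasFDerivAt_const (0 : ℝ) u, fun v => by simp [pf]⟩
  | insert a s ha ih =>
    obtain ⟨L, h1, h2⟩ := ih fun q hq => hu q (Finset.mem_insert_of_mem hq)
    obtain ⟨M, h3, h4⟩ := log_deriv (hu a (Finset.mem_insert_self a s))
    refine ⟨_, ((h3.const_mul (w a)).add h1).congr_of_eventuallyEq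
      (Eventually.of_forall fun z => ?_), fun v => ?_⟩
    · exact Finset.sum_insert ha
    · rw [add_apply, h2, smul_apply, h4, smul_eq_mul]
      unfold pf
      rw [Finset.sum_insert ha, add_mul, Complex.add_re, div_eq_mul_inv, mul_assoc,
        Complex.re_ofReal_mul]

/-- the real derivative of the logarithmic potential -/
theorem hp_deriv {u : ℂ} (hu : ∀ q ∈ S, u ≠ c q) : ∃ L : ℂ →L[ℝ] ℝ,
    HasFDerivAt (hp S c w V) L u ∧ ∀ v, L v = (pf S c w u * v).re := by
  obtain ⟨L, h1, h2⟩ := sum_deriv S c w hu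
  exact ⟨L, h1.const_add V, h2⟩

/-- the boundary density -/
noncomputable def Gx (f : ℂ → ℂ) (u : ℂ) : ℂ :=
  I * (f u * (starRingEnd ℂ) (deriv f u) * pf S c w u -
    (starRingEnd ℂ) (f u) * deriv f u * (starRingEnd ℂ) (pf S c w u)) -
    2 * I * (hp S c w V u : ℂ) * (deriv f u * (starRingEnd ℂ) (deriv f u))

theorem FF_deriv (f : ℂ → ℂ) {u : ℂ} (hu : ∀ q ∈ S, u ≠ c q) (hf : DifferentiableAt ℂ f u)
    (hf' : DifferentiableAt ℂ (deriv f) u) : ∃ L : ℂ →L[ℝ] ℂ,
    HasFDerivAt (FF S c w V f) L u ∧ I * L 1 - L I = Gx S c w V f u := by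
  obtain ⟨L, h1, h2⟩ := hp_deriv S c w V hu
  have g1 : HasFDerivAt f ((ContinuousLinearMap.toSpanSingleton ℂ (deriv f u)).restrictScalars ℝ)
      u := hf.hasDerivAt.hasFDerivAt.restrictScalars ℝ
  have g2 : HasFDerivAt (deriv f)
      ((ContinuousLinearMap.toSpanSingleton ℂ (deriv (deriv f) u)).restrictScalars ℝ) u :=
    hf'.hasDerivAt.hasFDerivAt.restrictScalars ℝ
  have g3 : HasFDerivAt (pf S c w)
      ((ContinuousLinearMap.toSpanSingleton ℂ (deriv (pf S c w) u)).restrictScalars ℝ) u :=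
    (pf_diff S c w hu).hasDerivAt.hasFDerivAt.restrictScalars ℝ
  have g4 : HasFDerivAt (fun z => (starRingEnd ℂ) (f z))
      ((Complex.conjCLE : ℂ →L[ℝ] ℂ).comp
        ((ContinuousLinearMap.toSpanSingleton ℂ (deriv f u)).restrictScalars ℝ)) u :=
    (Complex.conjCLE : ℂ →L[ℝ] ℂ).hasFDerivAt.comp u g1
  have g5 : HasFDerivAt (fun z => ((hp S c w V z : ℝ) : ℂ)) (Complex.ofRealCLM.comp L) u :=
    Complex.ofRealCLM.hasFDerivAt.comp u h1
  have g6 := (((g1.mul g4).mul g3).mul_const (1 / 2 : ℂ)).sub ((g5.mul g2).mul g4)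
  refine ⟨_, g6.congr_of_eventuallyEq (Eventually.of_forall fun z => ?_), ?_⟩
  · change FF S c w V f z = f z * (starRingEnd ℂ) (f z) * pf S c w z * (1 / 2) -
      (hp S c w V z : ℂ) * deriv f z * (starRingEnd ℂ) (f z)
    unfold FF pf
    rw [Complex.mul_conj, Complex.normSq_eq_norm_sq]
    ring
  · unfold Gx
    have k1 := h2 1
    have k2 := h2 I
    simp only [sub_apply, add_apply,
      smul_apply, ContinuousLinearMap.comp_apply,
      ContinuousLinearMap.coe_restrictScalars', ContinuousLinearMap.toSpanSingleton_apply,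
      smul_eq_mul, Complex.ofRealCLM_apply, k1, k2, Pi.mul_apply,
      ContinuousLinearEquiv.coe_coe, Complex.conjCLE_apply, mul_one, one_mul, map_mul,
      Complex.conj_I]
    rw [Complex.re_eq_add_conj (pf S c w u), Complex.re_eq_add_conj (pf S c w u * I), map_mul,
      Complex.conj_I]
    ring

theorem Gx_im (f : ℂ → ℂ) (u : ℂ) :
    (Gx S c w V f u).im = -2 * (hp S c w V u * ‖deriv f u‖ ^ 2) := by
  have hX : f u * (starRingEnd ℂ) (deriv f u) * pf S c w u -
      (starRingEnd ℂ) (f u) * deriv f u * (starRingEnd ℂ) (pf S c w u) =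
      ((2 * (f u * (starRingEnd ℂ) (deriv f u) * pf S c w u).im : ℝ) : ℂ) * I := by
    rw [← Complex.sub_conj, map_mul, map_mul, Complex.conj_conj]
  unfold Gx
  rw [hX, Complex.mul_conj, Complex.normSq_eq_norm_sq]
  have e : I * (((2 * (f u * (starRingEnd ℂ) (deriv f u) * pf S c w u).im : ℝ) : ℂ) * I) -
      2 * I * (hp S c w V u : ℂ) * ((‖deriv f u‖ ^ 2 : ℝ) : ℂ) =
      ((-(2 * (f u * (starRingEnd ℂ) (deriv f u) * pf S c w u).im) : ℝ) : ℂ) +
        ((-2 * (hp S c w V u * ‖deriv f u‖ ^ 2) : ℝ) : ℂ) * I := by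
    push_cast
    linear_combination (2 * ((f u * (starRingEnd ℂ) (deriv f u) * pf S c w u).im : ℂ)) * I_sq
  rw [e, Complex.add_im, Complex.ofReal_im, Complex.im_ofReal_mul, Complex.I_im]
  ring

theorem Gx_cont (f : ℂ → ℂ) {U : Set ℂ} (hU : IsOpen U) (hf : DifferentiableOn ℂ f U)
    (hc : ∀ u ∈ U, ∀ q ∈ S, u ≠ c q) : ContinuousOn (Gx S c w V f) U := by
  have h1 : ContinuousOn f U := hf.continuousOn
  have h2 : ContinuousOn (deriv f) U := (hf.deriv hU).continuousOn
  have h3 : ContinuousOn (pf S c w) U := fun u hu =>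
    (pf_diff S c w (hc u hu)).continuousAt.continuousWithinAt
  have h4 : ContinuousOn (fun z => ((hp S c w V z : ℝ) : ℂ)) U := fun u hu => by
    obtain ⟨L, h, -⟩ := hp_deriv S c w V (hc u hu)
    exact (Complex.continuous_ofReal.continuousAt.comp h.continuousAt).continuousWithinAt
  have h5 : ∀ g : ℂ → ℂ, ContinuousOn g U → ContinuousOn (fun z => (starRingEnd ℂ) (g z)) U :=
    fun g hg => Complex.continuous_conj.comp_continuousOn hg
  unfold Gx
  exact (continuousOn_const.mul (((h1.mul (h5 _ h2)).mul h3).sub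
    (((h5 _ h1).mul h2).mul (h5 _ h3)))).sub
    ((continuousOn_const.mul h4).mul (h2.mul (h5 _ h2)))

end

end REC_

open REC_ in
theorem p_REC : T_REC := by
  intro ι S c w V f z z' U hre him hU hRU hf hc
  have hcu : ∀ u ∈ U, ∀ q ∈ S, u ≠ c q := fun u hu q hq h => hc q hq (h ▸ hu)
  have hK : {u : ℂ | z.re ≤ u.re ∧ u.re ≤ z'.re ∧ z.im ≤ u.im ∧ u.im ≤ z'.im} =
      Icc z.re z'.re ×ℂ Icc z.im z'.im := by
    ext u
    change (z.re ≤ u.re ∧ u.re ≤ z'.re ∧ z.im ≤ u.im ∧ u.im ≤ z'.im) ↔ _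
    rw [Complex.mem_reProdIm, mem_Icc, mem_Icc, and_assoc]
  rw [hK] at hRU ⊢
  have hrect : uIcc z.re z'.re ×ℂ uIcc z.im z'.im = Icc z.re z'.re ×ℂ Icc z.im z'.im := by
    rw [uIcc_of_le hre, uIcc_of_le him]
  have hKc : IsCompact (Icc z.re z'.re ×ℂ Icc z.im z'.im) := isCompact_Icc.reProdIm isCompact_Icc
  have hD : ∀ u ∈ Icc z.re z'.re ×ℂ Icc z.im z'.im, ∃ L : ℂ →L[ℝ] ℂ,
      HasFDerivAt (FF S c w V f) L u ∧ I * L 1 - L I = Gx S c w V f u := fun u hu =>
    FF_deriv S c w V f (hcu u (hRU hu)) (hf.differentiableAt (hU.mem_nhds (hRU hu)))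
      ((hf.deriv hU).differentiableAt (hU.mem_nhds (hRU hu)))
  have hGx : ∀ u ∈ Icc z.re z'.re ×ℂ Icc z.im z'.im, I • fderiv ℝ (FF S c w V f) u 1 -
      fderiv ℝ (FF S c w V f) u I = Gx S c w V f u := by
    intro u hu
    obtain ⟨L, h1, h2⟩ := hD u hu
    rw [h1.fderiv, smul_eq_mul, h2]
  have hGi : IntegrableOn (Gx S c w V f) (Icc z.re z'.re ×ℂ Icc z.im z'.im) :=
    ((Gx_cont S c w V f hU hf hcu).mono hRU).integrableOn_compact hKc
  have hms : MeasurableSet (Icc z.re z'.re ×ℂ Icc z.im z'.im) := hKc.measurableSet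
  have hb := integral_boundary_rect_of_differentiableOn_real (FF S c w V f) z z'
    (by
      rw [hrect]
      intro u hu
      obtain ⟨L, h1, -⟩ := hD u hu
      exact h1.differentiableAt.differentiableWithinAt)
    (by
      rw [hrect]
      exact hGi.congr_fun (fun u hu => (hGx u hu).symm) hms)
  have hb2 : bdI (FF S c w V f) z z' =
      ∫ u in Icc z.re z'.re ×ℂ Icc z.im z'.im, Gx S c w V f u := by
    rw [← rect_int _ hre him hGi]
    unfold bdI
    rw [hb]
    refine intervalIntegral.integral_congr fun x hx => ?_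
    refine intervalIntegral.integral_congr fun y hy => ?_
    refine hGx _ ?_
    rw [uIcc_of_le hre] at hx
    rw [uIcc_of_le him] at hy
    rw [Complex.mem_reProdIm]
    simpa using ⟨hx, hy⟩
  have hdiv : ∀ W : ℂ, (W / (2 * I)).re = W.im / 2 := by
    intro W
    have : W / (2 * I) = -(W * I) / 2 := by
      field_simp
      linear_combination W * I_sq
    rw [this]
    simp
  have him2 := integral_im (𝕜 := ℂ) hGi
  rw [hb2, hdiv]
  have e : ∫ u in Icc z.re z'.re ×ℂ Icc z.im z'.im, RCLike.im (Gx S c w V f u) =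
      ∫ u in Icc z.re z'.re ×ℂ Icc z.im z'.im, -2 * (hp S c w V u * ‖deriv f u‖ ^ 2) :=
    integral_congr_ae (Eventually.of_forall fun u => Gx_im S c w V f u)
  rw [e, integral_const_mul] at him2
  have him3 : (∫ u in Icc z.re z'.re ×ℂ Icc z.im z'.im, Gx S c w V f u).im =
      -2 * ∫ u in Icc z.re z'.re ×ℂ Icc z.im z'.im, hp S c w V u * ‖deriv f u‖ ^ 2 :=
    him2.symm
  rw [him3]
  ring

end Pool.Agent.CorE
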