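import Pool.Agent.CorE.Targets

/-!
# SCH: Schur test on the tree (MP_91698f, helper2)
-/

set_option autoImplicit false

namespace Pool.Agent.CorE

open Complex Metric Set Filter Topology MeasureTheory
open Pool.Corona91698f
open scoped Real

namespace SCH_

/-! ### sums over words -/

theorem sum_wd_succ (n : ℕ) (F : List D → ℝ) :
    ∑ v ∈ wd (n + 1), F v = F [] + ∑ d : D, ∑ v ∈ wd n, F (d :: v) := by
  simp only [wd]
  rw [Finset.sum_insert (by simp), Finset.sum_image (by
    rintro ⟨d, v⟩ _ ⟨d', v'⟩ _ h
    have h3 := (List.cons.inj h)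
    rw [Prod.mk.injEq]
    exact h3), Finset.sum_product]

theorem sum_wd_zero (F : List D → ℝ) : ∑ v ∈ wd 0, F v = F [] := by
  simp [wd]

theorem bl_nil (M : ℕ) : bl M [] = wd M := by
  unfold bl
  exact Finset.filter_true_of_mem fun p _ => List.nil_prefix

theorem sum_bl_cons (M : ℕ) (a : D) (v : List D) (F : List D → ℝ) :
    ∑ p ∈ bl (M + 1) (a :: v), F p = ∑ q ∈ bl M v, F (a :: q) := by
  unfold bl
  rw [Finset.sum_filter, sum_wd_succ, Finset.sum_filter]
  rw [if_neg (by simp), zero_add, Finset.sum_eq_single a]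
  · refine Finset.sum_congr rfl fun q _ => ?_
    by_cases h : v <+: q
    · rw [if_pos h, if_pos (by rw [List.cons_prefix_cons]; exact ⟨rfl, h⟩)]
    · rw [if_neg h, if_neg (by rw [List.cons_prefix_cons]; exact fun h2 => h h2.2)]
  · intro b _ hb
    refine Finset.sum_eq_zero fun q _ => ?_
    rw [if_neg (by rw [List.cons_prefix_cons]; exact fun h2 => hb h2.1.symm)]
  · intro h
    exact absurd (Finset.mem_univ a) h

theorem card_D : (Finset.univ : Finset D).card = 4 := rfl

theorem sum_const_D (c : ℝ) : ∑ _d : D, c = 4 * c := by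
  rw [Finset.sum_const, card_D, nsmul_eq_mul]
  norm_num

/-! ### the kernel -/

theorem kr_nil_left (k : ℝ) (u : List D) : kr k [] u = k ^ u.length := by
  cases u <;> simp [kr, cpl]

theorem kr_nil_right (k : ℝ) (p : List D) : kr k p [] = (3 / 4) ^ p.length := by
  cases p <;> simp [kr, cpl]

theorem kr_cons (k : ℝ) (a b : D) (x y : List D) : kr k (a :: x) (b :: y) =
    if a = b then kr k x y else k ^ (y.length + 1) * (3 / 4) ^ (x.length + 1) := by
  by_cases h : a = b
  · simp [kr, cpl, h]
  · simp [kr, cpl, h]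

theorem kr_nonneg {k : ℝ} (hk : 0 ≤ k) (p u : List D) : 0 ≤ kr k p u := by
  unfold kr
  positivity

/-! ### geometric sums -/

theorem geo {k : ℝ} (hk : 0 ≤ k) (hk8 : k ≤ 1 / 8) (M : ℕ) : ∑ u ∈ wd M, k ^ u.length ≤ 2 := by
  induction M with
  | zero =>
    rw [sum_wd_zero]
    simp
  | succ M ih =>
    rw [sum_wd_succ]
    have h : ∀ d : D, ∑ v ∈ wd M, k ^ (d :: v).length = k * ∑ v ∈ wd M, k ^ v.length := by
      intro d
      rw [Finset.mul_sum]
      refine Finset.sum_congr rfl fun v _ => ?_
      rw [List.length_cons, pow_succ]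
      ring
    rw [Finset.sum_congr rfl fun d _ => h d, sum_const_D, List.length_nil, pow_zero]
    have h2 : 0 ≤ ∑ u ∈ wd M, k ^ u.length := Finset.sum_nonneg fun u _ => by positivity
    nlinarith [mul_le_mul hk8 ih h2 (by norm_num : (0 : ℝ) ≤ 1 / 8)]

/-- the sum of the kernel over the second word -/
theorem sum_kr {k : ℝ} (hk : 0 ≤ k) (hk8 : k ≤ 1 / 8) (M : ℕ) (p : List D) :
    ∑ u ∈ wd M, kr k p u ≤ 8 - 6 * (3 / 4) ^ p.length := by
  induction p generalizing M with
  | nil =>
    simp only [kr_nil_left, List.length_nil, pow_zero]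
    have := geo hk hk8 M
    linarith
  | cons a x ih =>
    have hx1 : ((3 : ℝ) / 4) ^ x.length ≤ 1 := pow_le_one₀ (by norm_num) (by norm_num)
    have hx0 : (0 : ℝ) < (3 / 4) ^ x.length := by positivity
    have e1 : ((3 : ℝ) / 4) ^ (a :: x).length = 3 / 4 * (3 / 4) ^ x.length := by
      rw [List.length_cons, pow_succ]
      ring
    cases M with
    | zero =>
      rw [sum_wd_zero, kr_nil_right, e1]
      linarith
    | succ M =>
      rw [sum_wd_succ, kr_nil_right, e1]
      have h : ∀ b : D, ∑ y ∈ wd M, kr k (a :: x) (b :: y) ≤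
          (if a = b then ∑ y ∈ wd M, kr k x y else 0) +
            2 * k * (3 / 4 * (3 / 4) ^ x.length) := by
        intro b
        simp only [kr_cons]
        by_cases hab : a = b
        · simp only [hab, if_true]
          have : 0 ≤ 2 * k * (3 / 4 * (3 / 4) ^ x.length) := by positivity
          linarith
        · simp only [hab, if_false, zero_add]
          rw [← Finset.sum_mul]
          have h2 : ∑ y ∈ wd M, k ^ (y.length + 1) = k * ∑ y ∈ wd M, k ^ y.length := by
            rw [Finset.mul_sum]
            exact Finset.sum_congr rfl fun y _ => by rw [pow_succ]; ring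
          rw [h2, pow_succ, mul_comm ((3 / 4 : ℝ) ^ x.length) (3 / 4)]
          refine mul_le_mul_of_nonneg_right ?_ (by positivity)
          rw [mul_comm 2 k]
          exact mul_le_mul_of_nonneg_left (geo hk hk8 M) hk
      have h3 := Finset.sum_le_sum fun (b : D) (_ : b ∈ Finset.univ) => h b
      rw [Finset.sum_add_distrib, sum_const_D, Finset.sum_ite_eq, if_pos (Finset.mem_univ a)]
        at h3
      have h4 := ih M
      have h5 : k * (3 / 4) ^ x.length ≤ 1 / 8 * (3 / 4) ^ x.length :=
        mul_le_mul_of_nonneg_right hk8 hx0.le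
      linarith

/-! ### weights -/

/-- the weights of the words with the first letter `a` -/
def shw {β : Type} (w : List D → β) (a : D) : List D → β := fun q => w (a :: q)

theorem gd_shift {M : ℕ} {w : List D → ℝ} (h : GD (M + 1) w) (a : D) : GD M (shw w a) where
  pos v hv := h.pos _ (by rw [List.length_cons]; omega)
  add p hp := h.add (a :: p) (by rw [List.length_cons]; omega)

theorem gd_top {M : ℕ} {w : List D → ℝ} (h : GD (M + 1) w) : ∑ d : D, shw w d [] = w [] :=
  h.add [] (by simp)

/-- the weighted geometric sum over all words -/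
theorem wgeo {M : ℕ} {w : List D → ℝ} (h : GD M w) :
    ∑ p ∈ wd M, w p * (3 / 4) ^ p.length ≤ 4 * w [] := by
  induction M generalizing w with
  | zero =>
    rw [sum_wd_zero]
    have := h.pos [] (by simp)
    rw [List.length_nil, pow_zero, mul_one]
    linarith
  | succ M ih =>
    rw [sum_wd_succ, List.length_nil, pow_zero, mul_one]
    have h1 : ∀ d : D, ∑ q ∈ wd M, w (d :: q) * (3 / 4) ^ (d :: q).length ≤
        3 * shw w d [] := by
      intro d
      have e : ∑ q ∈ wd M, w (d :: q) * (3 / 4) ^ (d :: q).length =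
          3 / 4 * ∑ q ∈ wd M, shw w d q * (3 / 4) ^ q.length := by
        rw [Finset.mul_sum]
        refine Finset.sum_congr rfl fun q _ => ?_
        rw [List.length_cons, pow_succ]
        unfold shw
        ring
      rw [e]
      have := ih (gd_shift h d)
      linarith
    have h2 := Finset.sum_le_sum fun (d : D) (_ : d ∈ Finset.univ) => h1 d
    rw [← Finset.mul_sum, gd_top h] at h2
    linarith

/-- the weighted geometric sum over the words above `v` -/
theorem wgeo_bl {M : ℕ} {w : List D → ℝ} (h : GD M w) (v : List D) (hv : v.length ≤ M) :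
    ∑ p ∈ bl M v, w p * (3 / 4) ^ p.length ≤ 4 * (3 / 4) ^ v.length * w v := by
  induction v generalizing M w with
  | nil =>
    rw [bl_nil, List.length_nil, pow_zero, mul_one]
    exact wgeo h
  | cons a v ih =>
    cases M with
    | zero => simp at hv
    | succ M =>
      rw [sum_bl_cons]
      have e : ∑ q ∈ bl M v, w (a :: q) * (3 / 4) ^ (a :: q).length =
          3 / 4 * ∑ q ∈ bl M v, shw w a q * (3 / 4) ^ q.length := by
        rw [Finset.mul_sum]
        refine Finset.sum_congr rfl fun q _ => ?_
        rw [List.length_cons, pow_succ]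
        unfold shw
        ring
      rw [e]
      have h1 := ih (gd_shift h a) (by rw [List.length_cons] at hv; omega)
      have e2 : 4 * (3 / 4 : ℝ) ^ (a :: v).length * w (a :: v) =
          3 / 4 * (4 * (3 / 4) ^ v.length * shw w a v) := by
        rw [List.length_cons, pow_succ]
        unfold shw
        ring
      rw [e2]
      linarith

/-- the ratios of the weights -/
def Rat (CG : ℝ) (M : ℕ) (w : List D → ℝ) : Prop :=
  ∀ p : List D, p.length < M → ∀ d : D, w p ≤ CG * w (p ++ [d])

theorem rat_shift {CG : ℝ} {M : ℕ} {w : List D → ℝ} (h : Rat CG (M + 1) w) (a : D) :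
    Rat CG M (shw w a) := fun p hp d => h (a :: p) (by rw [List.length_cons]; omega) d

theorem rat_pow {CG k : ℝ} (hk : 0 ≤ k) (hkC : k * CG ≤ 1 / 2) {M : ℕ} {w : List D → ℝ}
    (h : GD M w) (hr : Rat CG M w) (u : List D) (hu : u.length ≤ M) :
    k ^ u.length * w [] ≤ (1 / 2) ^ u.length * w u := by
  induction u generalizing M w with
  | nil => simp
  | cons a y ih =>
    cases M with
    | zero => simp at hu
    | succ M =>
      have h1 := ih (gd_shift h a) (rat_shift hr a) (by rw [List.length_cons] at hu; omega)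
      have h2 : w [] ≤ CG * shw w a [] := hr [] (by simp) a
      have h3 : 0 < shw w a [] := (gd_shift h a).pos [] (by simp)
      have h4 : k * w [] ≤ 1 / 2 * shw w a [] := by
        have h5 := mul_le_mul_of_nonneg_left h2 hk
        have h6 := mul_le_mul_of_nonneg_right hkC h3.le
        nlinarith
      rw [List.length_cons, pow_succ, pow_succ]
      have h7 := mul_le_mul_of_nonneg_left h4 (pow_nonneg hk y.length)
      have e : w (a :: y) = shw w a y := rfl
      rw [e]
      nlinarith

/-- the weighted sum of the kernel over the first word -/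
theorem sum_wkr {CG k : ℝ} (hk : 0 ≤ k) (hkC : k * CG ≤ 1 / 2) {M : ℕ} {w : List D → ℝ}
    (h : GD M w) (hr : Rat CG M w) (u : List D) (hu : u.length ≤ M) :
    ∑ p ∈ wd M, w p * kr k p u ≤ (8 - 4 * (1 / 2) ^ u.length) * w u := by
  induction u generalizing M w with
  | nil =>
    simp only [kr_nil_right, List.length_nil, pow_zero]
    have := wgeo h
    linarith
  | cons a y ih =>
    cases M with
    | zero => simp at hu
    | succ M =>
      rw [sum_wd_succ, kr_nil_left]
      have hG := gd_shift h a
      have h1 := ih hG (rat_shift hr a) (by rw [List.length_cons] at hu; omega)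
      have h2 := rat_pow hk hkC h hr (a :: y) hu
      have hk1 : 0 ≤ k ^ (y.length + 1) := pow_nonneg hk _
      have h3 : ∀ b : D, ∑ q ∈ wd M, w (b :: q) * kr k (b :: q) (a :: y) ≤
          (if a = b then ∑ q ∈ wd M, shw w a q * kr k q y else 0) +
            k ^ (y.length + 1) * (3 * shw w b []) := by
        intro b
        have hb := gd_shift h b
        have hb0 : 0 < shw w b [] := hb.pos [] (by simp)
        simp only [kr_cons]
        by_cases hab : a = b
        · subst hab
          simp only [if_true]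
          have : 0 ≤ k ^ (y.length + 1) * (3 * shw w a []) := by positivity
          have e : ∑ q ∈ wd M, w (a :: q) * kr k q y = ∑ q ∈ wd M, shw w a q * kr k q y := rfl
          rw [e]
          linarith
        · have hba : ¬ b = a := fun h => hab h.symm
          simp only [hab, hba, if_false, zero_add]
          have e : ∑ q ∈ wd M, w (b :: q) * (k ^ (y.length + 1) * (3 / 4) ^ (q.length + 1)) =
              k ^ (y.length + 1) * (3 / 4 * ∑ q ∈ wd M, shw w b q * (3 / 4) ^ q.length) := by
            rw [Finset.mul_sum, Finset.mul_sum]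
            refine Finset.sum_congr rfl fun q _ => ?_
            unfold shw
            ring
          rw [e]
          refine mul_le_mul_of_nonneg_left ?_ hk1
          have := wgeo hb
          linarith
      have h4 := Finset.sum_le_sum fun (b : D) (_ : b ∈ Finset.univ) => h3 b
      rw [Finset.sum_add_distrib, Finset.sum_ite_eq, if_pos (Finset.mem_univ a),
        ← Finset.mul_sum, ← Finset.mul_sum, gd_top h] at h4
      have e1 : (a :: y).length = y.length + 1 := List.length_cons
      rw [e1] at h2 ⊢
      have e2 : w (a :: y) = shw w a y := rfl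
      rw [e2] at h2 ⊢
      have e3 : (1 / 2 : ℝ) ^ (y.length + 1) = 1 / 2 * (1 / 2) ^ y.length := by
        rw [pow_succ]
        ring
      rw [e3] at h2 ⊢
      nlinarith

/-- the main sum -/
theorem main_sum {CG k : ℝ} (hk : 0 ≤ k) (hk8 : k ≤ 1 / 8) (hkC : k * CG ≤ 1 / 2) {M : ℕ}
    {w μ : List D → ℝ} {A B : ℝ} (h : GD M w) (hr : Rat CG M w) (hμ : ∀ u, 0 ≤ μ u ∧ μ u ≤ B)
    (v : List D) (hv : v.length ≤ M) (hA : ∑ u ∈ bl M v, w u * μ u ^ 2 ≤ A * w v) :
    ∑ u ∈ wd M, μ u ^ 2 * ∑ p ∈ bl M v, w p * kr k p u ≤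
      (8 * A + 24 * B ^ 2 * (1 - (3 / 4) ^ v.length)) * w v := by
  induction v generalizing M w μ with
  | nil =>
    rw [List.length_nil, pow_zero, sub_self, mul_zero, add_zero]
    rw [bl_nil] at hA ⊢
    have h1 : ∀ u ∈ wd M, μ u ^ 2 * ∑ p ∈ wd M, w p * kr k p u ≤ 8 * (w u * μ u ^ 2) := by
      intro u hu
      rw [mem_wd] at hu
      have h2 := sum_wkr hk hkC h hr u hu
      have h3 : 0 ≤ (1 / 2 : ℝ) ^ u.length * w u := mul_nonneg (by positivity) (h.pos u hu).le
      have h4 := mul_le_mul_of_nonneg_left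
        (show ∑ p ∈ wd M, w p * kr k p u ≤ 8 * w u by linarith) (sq_nonneg (μ u))
      linarith
    refine (Finset.sum_le_sum h1).trans ?_
    rw [← Finset.mul_sum]
    linarith
  | cons a v ih =>
    cases M with
    | zero => simp at hv
    | succ M =>
      have hB0 : 0 ≤ B := (hμ []).1.trans (hμ []).2
      have hv' : v.length ≤ M := by
        rw [List.length_cons] at hv
        omega
      have hG := gd_shift h a
      rw [sum_bl_cons] at hA
      have h1 := ih (μ := shw μ a) hG (rat_shift hr a) (fun u => hμ (a :: u)) hv' hA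
      simp only [sum_bl_cons]
      rw [sum_wd_succ]
      have hW := wgeo_bl hG v hv'
      have hW0 : 0 < shw w a v := hG.pos v hv'
      have hW1 : 0 ≤ (3 / 4 : ℝ) ^ v.length * shw w a v := by positivity
      have hμ2 : ∀ u, μ u ^ 2 ≤ B ^ 2 := fun u => pow_le_pow_left₀ (hμ u).1 (hμ u).2 2
      have h2 : μ [] ^ 2 * ∑ q ∈ bl M v, w (a :: q) * kr k (a :: q) [] ≤
          B ^ 2 * (3 * (3 / 4) ^ v.length * shw w a v) := by
        have e : ∑ q ∈ bl M v, w (a :: q) * kr k (a :: q) [] =
            3 / 4 * ∑ q ∈ bl M v, shw w a q * (3 / 4) ^ q.length := by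
          rw [Finset.mul_sum]
          refine Finset.sum_congr rfl fun q _ => ?_
          rw [kr_nil_right, List.length_cons, pow_succ]
          unfold shw
          ring
        rw [e]
        refine mul_le_mul (hμ2 []) (by linarith) ?_ (sq_nonneg B)
        refine mul_nonneg (by norm_num) (Finset.sum_nonneg fun q hq => ?_)
        unfold bl at hq
        rw [Finset.mem_filter, mem_wd] at hq
        exact mul_nonneg (hG.pos q hq.1).le (by positivity)
      have h3 : ∀ b : D, ∑ y ∈ wd M, μ (b :: y) ^ 2 *
          ∑ q ∈ bl M v, w (a :: q) * kr k (a :: q) (b :: y) ≤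
          (if a = b then ∑ u ∈ wd M, shw μ a u ^ 2 * ∑ p ∈ bl M v, shw w a p * kr k p u else 0) +
            B ^ 2 * (2 * k) * (3 * (3 / 4) ^ v.length * shw w a v) := by
        intro b
        by_cases hab : a = b
        · subst hab
          simp only [kr_cons, if_true]
          have e : ∑ y ∈ wd M, μ (a :: y) ^ 2 * ∑ q ∈ bl M v, w (a :: q) * kr k q y =
            ∑ u ∈ wd M, shw μ a u ^ 2 * ∑ p ∈ bl M v, shw w a p * kr k p u := rfl
          rw [e]
          have : 0 ≤ B ^ 2 * (2 * k) * (3 * (3 / 4) ^ v.length * shw w a v) := by positivity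
          linarith
        · simp only [kr_cons, hab, if_false, zero_add]
          have e : ∀ y : List D, ∑ q ∈ bl M v, w (a :: q) *
              (k ^ (y.length + 1) * (3 / 4) ^ (q.length + 1)) =
              k ^ y.length * (k * (3 / 4 * ∑ q ∈ bl M v, shw w a q * (3 / 4) ^ q.length)) := by
            intro y
            rw [Finset.mul_sum, Finset.mul_sum, Finset.mul_sum]
            refine Finset.sum_congr rfl fun q _ => ?_
            unfold shw
            ring
          simp only [e]
          have h4 : ∀ y ∈ wd M, μ (b :: y) ^ 2 * (k ^ y.length *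
              (k * (3 / 4 * ∑ q ∈ bl M v, shw w a q * (3 / 4) ^ q.length))) ≤
              B ^ 2 * k * (3 * (3 / 4) ^ v.length * shw w a v) * k ^ y.length := by
            intro y _
            have h5 : k * (3 / 4 * ∑ q ∈ bl M v, shw w a q * (3 / 4) ^ q.length) ≤
                k * (3 * (3 / 4) ^ v.length * shw w a v) :=
              mul_le_mul_of_nonneg_left (by linarith) hk
            have h6 : 0 ≤ k * (3 * (3 / 4) ^ v.length * shw w a v) := by positivity
            have h7 := mul_le_mul_of_nonneg_left h5 (pow_nonneg hk y.length)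
            have h8 := mul_le_mul_of_nonneg_left h7 (sq_nonneg (μ (b :: y)))
            have h9 := mul_le_mul_of_nonneg_right (hμ2 (b :: y))
              (mul_nonneg (pow_nonneg hk y.length) h6)
            linarith
          refine (Finset.sum_le_sum h4).trans ?_
          rw [← Finset.mul_sum]
          have h5 : 0 ≤ B ^ 2 * k * (3 * (3 / 4) ^ v.length * shw w a v) := by positivity
          have h6 := mul_le_mul_of_nonneg_left (geo hk hk8 M) h5
          linarith
      have h4 := Finset.sum_le_sum fun (b : D) (_ : b ∈ Finset.univ) => h3 b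
      rw [Finset.sum_add_distrib, sum_const_D, Finset.sum_ite_eq, if_pos (Finset.mem_univ a)]
        at h4
      have h5 : B ^ 2 * (2 * k) * (3 * (3 / 4) ^ v.length * shw w a v) ≤
          B ^ 2 * (1 / 4) * (3 * (3 / 4) ^ v.length * shw w a v) := by
        refine mul_le_mul_of_nonneg_right ?_ (by positivity)
        exact mul_le_mul_of_nonneg_left (by linarith) (sq_nonneg B)
      have e1 : (3 / 4 : ℝ) ^ (a :: v).length = 3 / 4 * (3 / 4) ^ v.length := by
        rw [List.length_cons, pow_succ]
        ring
      have e2 : w (a :: v) = shw w a v := rfl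
      rw [e1, e2]
      linarith

end SCH_

open SCH_ in
theorem p_SCH : T_SCH := by
  intro CG hCG
  obtain ⟨m₀, hm₀⟩ := exists_pow_lt_of_lt_one (show (0 : ℝ) < 1 / (8 * CG) by positivity)
    (show (1 / 3 : ℝ) < 1 by norm_num)
  refine ⟨m₀, fun m hm => ⟨192, by norm_num, ?_⟩⟩
  intro N w μ A B hN hG hr hμ hA0 hA
  set k : ℝ := (1 / 3) ^ m with hkd
  have hk : 0 ≤ k := by positivity
  have hk1 : k ≤ 1 / (8 * CG) :=
    (pow_le_pow_of_le_one (by norm_num) (by norm_num) hm).trans hm₀.le
  have hk2 : k * (8 * CG) ≤ 1 := by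
    rw [le_div_iff₀ (by positivity)] at hk1
    exact hk1
  have hk8 : k ≤ 1 / 8 := by nlinarith
  have hkC : k * CG ≤ 1 / 2 := by linarith
  have hB0 : 0 ≤ B := (hμ []).1.trans (hμ []).2
  obtain ⟨M, rfl⟩ : ∃ M, N = M + 1 := ⟨N - 1, by omega⟩
  rw [Nat.add_sub_cancel] at hA ⊢
  have hG' : GD M w := ⟨fun v hv => hG.pos v (by omega), fun p hp => hG.add p (by omega)⟩
  have hr' : Rat CG M w := fun p hp d => hr p (by omega) d
  have hs : ∀ p : List D, ∑ u ∈ wd M, kr k p u ≤ 8 := by
    intro p
    have h1 := sum_kr hk hk8 M p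
    have h2 : (0 : ℝ) ≤ (3 / 4) ^ p.length := by positivity
    linarith
  refine ⟨fun p => ?_, ?_, fun v hv => ?_⟩
  · have h1 : ∑ u ∈ wd M, kr k p u * μ u ≤ ∑ u ∈ wd M, kr k p u * B :=
      Finset.sum_le_sum fun u _ => mul_le_mul_of_nonneg_left (hμ u).2 (kr_nonneg hk p u)
    refine h1.trans ?_
    rw [← Finset.sum_mul]
    have h2 := mul_le_mul_of_nonneg_right (hs p) hB0
    nlinarith
  · have h1 : ∑ u ∈ wd M, k ^ u.length * μ u ≤ ∑ u ∈ wd M, k ^ u.length * B :=
      Finset.sum_le_sum fun u _ => mul_le_mul_of_nonneg_left (hμ u).2 (pow_nonneg hk _)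
    refine h1.trans ?_
    rw [← Finset.sum_mul]
    have h2 := mul_le_mul_of_nonneg_right (geo hk hk8 M) hB0
    nlinarith
  · have hv' : v.length ≤ M := by omega
    have h1 := main_sum hk hk8 hkC hG' hr' hμ v hv' (hA v (by omega))
    have hwv : 0 < w v := hG'.pos v hv'
    -- Cauchy-Schwarz
    have h2 : ∀ p : List D, (∑ u ∈ wd M, kr k p u * μ u) ^ 2 ≤
        8 * ∑ u ∈ wd M, kr k p u * μ u ^ 2 := by
      intro p
      have h3 := Finset.sum_mul_sq_le_sq_mul_sq (wd M) (fun u => Real.sqrt (kr k p u))
        (fun u => Real.sqrt (kr k p u) * μ u)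
      have e1 : ∀ u, Real.sqrt (kr k p u) * (Real.sqrt (kr k p u) * μ u) = kr k p u * μ u := by
        intro u
        rw [← mul_assoc, Real.mul_self_sqrt (kr_nonneg hk p u)]
      have e2 : ∀ u, Real.sqrt (kr k p u) ^ 2 = kr k p u := fun u =>
        Real.sq_sqrt (kr_nonneg hk p u)
      have e3 : ∀ u, (Real.sqrt (kr k p u) * μ u) ^ 2 = kr k p u * μ u ^ 2 := fun u => by
        rw [mul_pow, e2]
      simp only [e1, e2, e3] at h3
      refine h3.trans (mul_le_mul_of_nonneg_right (hs p) ?_)
      exact Finset.sum_nonneg fun u _ => mul_nonneg (kr_nonneg hk p u) (sq_nonneg _)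
    have h3 : ∑ p ∈ bl M v, w p * (∑ u ∈ wd M, kr k p u * μ u) ^ 2 ≤
        ∑ p ∈ bl M v, w p * (8 * ∑ u ∈ wd M, kr k p u * μ u ^ 2) := by
      refine Finset.sum_le_sum fun p hp => mul_le_mul_of_nonneg_left (h2 p) ?_
      unfold bl at hp
      rw [Finset.mem_filter, mem_wd] at hp
      exact (hG'.pos p hp.1).le
    have e : ∑ p ∈ bl M v, w p * (8 * ∑ u ∈ wd M, kr k p u * μ u ^ 2) =
        8 * ∑ u ∈ wd M, μ u ^ 2 * ∑ p ∈ bl M v, w p * kr k p u := by
      simp only [Finset.mul_sum]
      rw [Finset.sum_comm]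
      refine Finset.sum_congr rfl fun u _ => Finset.sum_congr rfl fun p _ => ?_
      ring
    rw [e] at h3
    refine h3.trans ?_
    have h4 : 0 ≤ (3 / 4 : ℝ) ^ v.length := by positivity
    have h5 : (8 * A + 24 * B ^ 2 * (1 - (3 / 4) ^ v.length)) * w v ≤
        24 * (A + B ^ 2) * w v := by
      refine mul_le_mul_of_nonneg_right ?_ hwv.le
      nlinarith [mul_nonneg (sq_nonneg B) h4]
    linarith

end Pool.Agent.CorE
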