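import Pool.Agent.CorE.Targets

/-!
# Splitting of order m

Project COE (helper24), block SPL.
-/

set_option autoImplicit false

namespace Pool.Agent.CorE

open Complex Metric Set Filter Topology MeasureTheory
open Pool.Corona91698f
open scoped Real

namespace SPL_

theorem pow_sub_le {R : ℝ} (hR : 1 ≤ R) {a b : ℂ} (ha : ‖a‖ ≤ R) (hb : ‖b‖ ≤ R) (n : ℕ) :
    ‖a ^ n - b ^ n‖ ≤ n * R ^ n * ‖a - b‖ := by
  have hR0 : 0 ≤ R := by linarith
  induction n with
  | zero => simp
  | succ n ih =>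
    have e : a ^ (n + 1) - b ^ (n + 1) = a * (a ^ n - b ^ n) + (a - b) * b ^ n := by ring
    have h1 : ‖a * (a ^ n - b ^ n)‖ ≤ R * (n * R ^ n * ‖a - b‖) := by
      rw [norm_mul]
      exact mul_le_mul ha ih (norm_nonneg _) hR0
    have h2 : ‖(a - b) * b ^ n‖ ≤ ‖a - b‖ * R ^ n := by
      rw [norm_mul, norm_pow]
      gcongr
    have h3 : ‖a - b‖ * R ^ n ≤ ‖a - b‖ * R ^ (n + 1) :=
      mul_le_mul_of_nonneg_left (pow_le_pow_right₀ hR (Nat.le_succ n)) (norm_nonneg _)
    rw [e]
    refine (norm_add_le _ _).trans ?_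
    push_cast
    calc _ ≤ R * (n * R ^ n * ‖a - b‖) + ‖a - b‖ * R ^ (n + 1) := add_le_add h1 (h2.trans h3)
      _ = ((n : ℝ) + 1) * R ^ (n + 1) * ‖a - b‖ := by ring

theorem rk_mono (m : ℕ) (z : ℂ) : rk (m + 1) z ≤ rk m z := by
  unfold rk
  have h1 : 1 ≤ 1 + dist z ctr := by linarith [dist_nonneg (x := z) (y := ctr)]
  exact inv_anti₀ (by positivity) (pow_le_pow_right₀ h1 (Nat.le_succ m))

theorem rk_nonneg (m : ℕ) (z : ℂ) : 0 ≤ rk m z := by
  unfold rk
  positivity

/-- A bounded holomorphic function on a ball is Lipschitz on a smaller ball. -/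
theorem lip {f : ℂ → ℂ} {B : ℝ} (hf : DifferentiableOn ℂ f (ball ctr (79 / 100)))
    (hB : ∀ z, dist z ctr < 79 / 100 → ‖f z‖ ≤ B) {z z' : ℂ} (hz : dist z ctr < 78 / 100)
    (hz' : dist z' ctr < 78 / 100) : ‖f z - f z'‖ ≤ 200 * B * dist z z' := by
  have hB0 : 0 ≤ B := (norm_nonneg _).trans (hB z (by linarith))
  have hsub : ball z' (1 / 100) ⊆ ball ctr (79 / 100) := by
    intro y hy
    rw [mem_ball] at hy ⊢
    have := dist_triangle y z' ctr
    linarith
  rcases lt_or_ge (dist z z') (1 / 100) with h | h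
  · have hm : MapsTo f (ball z' (1 / 100)) (closedBall (f z') (2 * B)) := by
      intro y hy
      rw [mem_closedBall, dist_eq_norm]
      have h1 := hB y (mem_ball.1 (hsub hy))
      have h2 := hB z' (by linarith)
      have h3 := norm_sub_le (f y) (f z')
      linarith
    have h1 := Complex.dist_le_div_mul_dist_of_mapsTo_ball (hf.mono hsub) hm (mem_ball.2 h)
    rw [dist_eq_norm] at h1
    calc ‖f z - f z'‖ ≤ 2 * B / (1 / 100) * dist z z' := h1
      _ = 200 * B * dist z z' := by ring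
  · have h1 := hB z (by linarith)
    have h2 := hB z' (by linarith)
    have h3 := norm_sub_le (f z) (f z')
    have h4 : B * (1 / 100) ≤ B * dist z z' := mul_le_mul_of_nonneg_left h hB0
    linarith

/-- The polynomial in `W`. -/
noncomputable def PW (m : ℕ) (b : Fin m → ℂ) (z : ℂ) : ℂ := ∑ k : Fin m, b k * W z ^ (k.val + 1)

theorem PW_norm {m : ℕ} {b : Fin m → ℂ} {B : ℝ} (hb : ∀ k, ‖b k‖ ≤ B) (hB : 0 ≤ B) (z : ℂ) :
    ‖PW m b z‖ ≤ m * (B * 7922 ^ m) := by
  unfold PW
  refine (norm_sum_le _ _).trans ?_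
  have h : ∀ k ∈ (Finset.univ : Finset (Fin m)), ‖b k * W z ^ (k.val + 1)‖ ≤ B * 7922 ^ m := by
    intro k _
    rw [norm_mul, norm_pow]
    have h1 : ‖W z‖ ^ (k.val + 1) ≤ 7922 ^ (k.val + 1) :=
      pow_le_pow_left₀ (norm_nonneg _) (W_norm z) _
    have h2 : (7922 : ℝ) ^ (k.val + 1) ≤ 7922 ^ m :=
      pow_le_pow_right₀ (by norm_num) (by have := k.isLt; omega)
    exact mul_le_mul (hb k) (h1.trans h2) (by positivity) hB
  refine (Finset.sum_le_sum h).trans ?_
  simp

theorem PW_sub {m : ℕ} {b : Fin m → ℂ} {B : ℝ} (hb : ∀ k, ‖b k‖ ≤ B) (hB : 0 ≤ B) (z z' : ℂ) :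
    ‖PW m b z - PW m b z'‖ ≤ m * (B * (m * 7922 ^ m)) * ‖W z - W z'‖ := by
  unfold PW
  rw [← Finset.sum_sub_distrib]
  refine (norm_sum_le _ _).trans ?_
  have h : ∀ k ∈ (Finset.univ : Finset (Fin m)),
      ‖b k * W z ^ (k.val + 1) - b k * W z' ^ (k.val + 1)‖ ≤
        B * (m * 7922 ^ m) * ‖W z - W z'‖ := by
    intro k _
    rw [← mul_sub, norm_mul]
    have h1 := pow_sub_le (R := 7922) (by norm_num) (W_norm z) (W_norm z') (k.val + 1)
    have h2 : (7922 : ℝ) ^ (k.val + 1) ≤ 7922 ^ m :=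
      pow_le_pow_right₀ (by norm_num) (by have := k.isLt; omega)
    have h3 : ((k.val + 1 : ℕ) : ℝ) ≤ m := by
      exact_mod_cast k.isLt
    have h4 : ((k.val + 1 : ℕ) : ℝ) * 7922 ^ (k.val + 1) * ‖W z - W z'‖ ≤
        m * 7922 ^ m * ‖W z - W z'‖ := by
      gcongr
    calc _ ≤ B * (m * 7922 ^ m * ‖W z - W z'‖) :=
          mul_le_mul (hb k) (h1.trans h4) (norm_nonneg _) hB
      _ = _ := by ring
  refine (Finset.sum_le_sum h).trans ?_
  rw [Finset.sum_const, Finset.card_univ, Fintype.card_fin, nsmul_eq_mul]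
  exact le_of_eq (by ring)

end SPL_

open SPL_ in
theorem p_SPL (hWHO : T_WHO) (hTAI : T_TAI) : T_SPL := by
  intro m
  obtain ⟨C2, hC2, hW⟩ := hWHO
  obtain ⟨C1, hC1, hT⟩ := hTAI m
  have hm0 : (0 : ℝ) ≤ m := Nat.cast_nonneg m
  have hA0 : (0 : ℝ) ≤ m * (C1 * 749 * 7922 ^ m) := by positivity
  have hA1 : (0 : ℝ) ≤ m * (C1 * 749 * (m * 7922 ^ m)) * C2 := by positivity
  refine ⟨1000000 + m * (C1 * 749 * 7922 ^ m) + m * (C1 * 749 * (m * 7922 ^ m)) * C2 + C1 * 749,
    by positivity, ?_⟩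
  intro w M hM0 hw hM
  obtain ⟨wp, wm, hwp, hwm, he, -, hbd⟩ := laurent_full (c := ctr) (r₁ := 74 / 100)
    (ra := 749 / 1000) (rb := 791 / 1000) (r₂ := 80 / 100) (by norm_num) (by norm_num)
    (by norm_num) (by norm_num) hw
  obtain ⟨hbp, hbm⟩ := hbd M hM
  have hbm2 : ∀ z, (75 / 100 : ℝ) < dist z ctr → ‖wm z‖ ≤ 749 * M := by
    intro z hz
    refine (hbm z (by linarith)).trans ?_
    have h1 : (749 / 1000 : ℝ) / (dist z ctr - 749 / 1000) ≤ 749 := by
      rw [div_le_iff₀ (by linarith)]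
      linarith
    gcongr
  have hbp2 : ∀ z, dist z ctr < 79 / 100 → ‖wp z‖ ≤ 791 * M := by
    intro z hz
    refine (hbp z (by linarith)).trans ?_
    have h1 : (791 / 1000 : ℝ) / (791 / 1000 - dist z ctr) ≤ 791 := by
      rw [div_le_iff₀ (by linarith)]
      linarith
    gcongr
  have hlim : Tendsto wm (cocompact ℂ) (𝓝 0) := by
    rw [tendsto_zero_iff_norm_tendsto_zero]
    have hd : Tendsto (fun z : ℂ => dist z ctr) (cocompact ℂ) atTop :=
      tendsto_dist_left_cocompact_atTop ctr |>.congr (fun z => dist_comm _ _)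
    have h1 : Tendsto (fun z : ℂ => (749 / 1000 : ℝ) / (dist z ctr - 749 / 1000) * M)
        (cocompact ℂ) (𝓝 (0 * M)) := by
      refine Tendsto.mul_const _ ?_
      refine Tendsto.const_div_atTop ?_ _
      exact tendsto_atTop_add_const_right _ _ hd
    rw [zero_mul] at h1
    refine squeeze_zero' (Eventually.of_forall fun z => norm_nonneg _) ?_ h1
    filter_upwards [hd.eventually (eventually_gt_atTop (749 / 1000 : ℝ))] with z hz
    exact hbm z hz
  have hsub : {z : ℂ | (75 / 100 : ℝ) < dist z ctr} ⊆ {z : ℂ | (749 / 1000 : ℝ) < dist z ctr} :=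
    fun z hz => lt_trans (by norm_num) (show (75 / 100 : ℝ) < dist z ctr from hz)
  have hsubb : ball ctr (79 / 100) ⊆ ball ctr (791 / 1000) := ball_subset_ball (by norm_num)
  obtain ⟨b, hb, hbt⟩ := hT wm (749 * M) (by positivity) (hwm.mono hsub) hbm2 hlim
  have hB0 : 0 ≤ C1 * (749 * M) := by positivity
  have hsub2 : {z : ℂ | (75 / 100 : ℝ) < dist z ctr} ⊆ squareCantorᶜ := by
    intro z hz hzE
    have h1 := squareCantor_dist' hzE
    have h2 : (75 / 100 : ℝ) < dist z ctr := hz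
    linarith
  have hPd : DifferentiableOn ℂ (PW m b) squareCantorᶜ := by
    intro z hz
    have h1 : DifferentiableAt ℂ W z := W_differentiableAt hz
    refine DifferentiableAt.differentiableWithinAt ?_
    unfold PW
    exact DifferentiableAt.fun_sum fun k _ => (h1.pow (k.val + 1)).const_mul (b k)
  have hCM : ∀ X : ℝ, 0 ≤ X → ∀ Y : ℝ, X ≤ Y → X * M ≤ Y * M := fun X _ Y hXY =>
    mul_le_mul_of_nonneg_right hXY hM0
  refine ⟨fun z => wp z + PW m b z, fun z => PW m b z - wm z, ?_, ?_, ?_, ?_, ?_, ?_⟩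
  · exact ((hwp.mono hsubb).mono inter_subset_left).add (hPd.mono inter_subset_right)
  · exact (hPd.mono hsub2).sub (hwm.mono hsub)
  · intro z h1 h2
    rw [he z (by linarith) (by linarith)]
    ring
  · intro z hz
    have h1 := hbp2 z (by linarith)
    have h2 := PW_norm hb hB0 z
    have h3 : ‖wp z + PW m b z‖ ≤ 791 * M + m * (C1 * (749 * M) * 7922 ^ m) :=
      (norm_add_le _ _).trans (add_le_add h1 h2)
    refine h3.trans ?_
    have h4 : 791 * M + m * (C1 * (749 * M) * 7922 ^ m) =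
        (791 + m * (C1 * 749 * 7922 ^ m)) * M := by ring
    rw [h4]
    refine mul_le_mul_of_nonneg_right ?_ hM0
    have : 0 ≤ C1 * 749 := by positivity
    linarith
  · intro z hz
    have h1 := hbt z hz.le
    have h2 : ‖PW m b z - wm z‖ ≤ C1 * (749 * M) * rk (m + 1) z := by
      rw [norm_sub_rev]
      exact h1
    refine h2.trans ?_
    have h3 : C1 * (749 * M) * rk (m + 1) z ≤ C1 * (749 * M) * rk m z :=
      mul_le_mul_of_nonneg_left (rk_mono m z) hB0
    refine h3.trans ?_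
    refine mul_le_mul_of_nonneg_right ?_ (rk_nonneg m z)
    have h4 : C1 * (749 * M) = (C1 * 749) * M := by ring
    rw [h4]
    refine mul_le_mul_of_nonneg_right ?_ hM0
    linarith
  · intro v z z' hz hz'
    have hnear : ∀ y : ℂ, dist (Psi v y) ctr < 78 / 100 → dist y ctr < 78 / 100 := by
      intro y hy
      by_cases hv : v = []
      · subst hv
        exact hy
      · have := near_prefix hv hy.le
        linarith
    have h1 := lip (hwp.mono hsubb) hbp2 (hnear z hz) (hnear z' hz')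
    have h2 := PW_sub hb hB0 z z'
    have h3 := hW v z z' hz hz'
    have h4 : dist z z' ≤ 156 / 100 * (3 / 4) ^ v.length := by
      have e := dist_Psi v z z'
      have h5 := dist_triangle_right (Psi v z) (Psi v z') ctr
      have h6 : (3 : ℝ) ^ v.length * dist z z' ≤ 156 / 100 := by
        rw [← e]
        linarith
      have h7 : (1 : ℝ) ≤ 3 ^ v.length * (3 / 4) ^ v.length := by
        rw [← mul_pow]
        exact one_le_pow₀ (by norm_num)
      have h8 : (0 : ℝ) ≤ (3 / 4) ^ v.length := by positivity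
      calc dist z z' = 1 * dist z z' := (one_mul _).symm
        _ ≤ (3 ^ v.length * (3 / 4) ^ v.length) * dist z z' :=
          mul_le_mul_of_nonneg_right h7 dist_nonneg
        _ = (3 ^ v.length * dist z z') * (3 / 4) ^ v.length := by ring
        _ ≤ 156 / 100 * (3 / 4) ^ v.length := mul_le_mul_of_nonneg_right h6 h8
    have hq : (0 : ℝ) ≤ (3 / 4) ^ v.length := by positivity
    have e : wp z + PW m b z - (wp z' + PW m b z') =
        (wp z - wp z') + (PW m b z - PW m b z') := by ring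
    have h5 : ‖wp z - wp z'‖ ≤ 200 * (791 * M) * (156 / 100 * (3 / 4) ^ v.length) :=
      h1.trans (mul_le_mul_of_nonneg_left h4 (by positivity))
    have h6 : ‖PW m b z - PW m b z'‖ ≤
        m * (C1 * (749 * M) * (m * 7922 ^ m)) * (C2 * (3 / 4) ^ v.length) :=
      h2.trans (mul_le_mul_of_nonneg_left h3 (by positivity))
    show ‖wp z + PW m b z - (wp z' + PW m b z')‖ ≤ _
    rw [e]
    refine (norm_add_le _ _).trans ((add_le_add h5 h6).trans ?_)
    have h7 : 200 * (791 * M) * (156 / 100 * (3 / 4) ^ v.length) +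
        m * (C1 * (749 * M) * (m * 7922 ^ m)) * (C2 * (3 / 4) ^ v.length) =
        (200 * 791 * (156 / 100) + m * (C1 * 749 * (m * 7922 ^ m)) * C2) * M *
          (3 / 4) ^ v.length := by ring
    rw [h7]
    refine mul_le_mul_of_nonneg_right ?_ hq
    refine mul_le_mul_of_nonneg_right ?_ hM0
    have : 0 ≤ C1 * 749 := by positivity
    linarith

end Pool.Agent.CorE
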