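import Pool.Agent.CorE.Targets

/-!
# SYS: the system of functions `s` (helper23)
-/

set_option autoImplicit false

namespace Pool.Agent.CorE

open Complex Metric Set Filter Topology MeasureTheory
open Pool.Corona91698f
open scoped Real

namespace SYS_

theorem cpl_append (a x y : List D) : cpl (a ++ x) (a ++ y) = a.length + cpl x y := by
  induction a with
  | nil => simp
  | cons d a ih =>
    simp only [List.cons_append, cpl, if_true, ih, List.length_cons]
    omega

theorem cpl_nil_right (x : List D) : cpl x [] = 0 := by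
  cases x <;> rfl

theorem cpl_nil_left (x : List D) : cpl [] x = 0 := by
  cases x <;> rfl

theorem cpl_cons_ne {d d' : D} (h : d' ≠ d) (x y : List D) : cpl (d' :: x) (d :: y) = 0 := by
  simp only [cpl, if_neg h]

/-- Three positions of two words. -/
theorem tri (p u : List D) : u <+: p ∨ (∃ (d : D) (y : List D), u = p ++ d :: y) ∨
    ∃ (a : List D) (d d' : D) (y y' : List D), p = a ++ d' :: y' ∧ u = a ++ d :: y ∧ d' ≠ d := by
  induction p generalizing u with
  | nil =>
    cases u with
    | nil => exact Or.inl List.nil_prefix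
    | cons d y => exact Or.inr (Or.inl ⟨d, y, rfl⟩)
  | cons e p ih =>
    cases u with
    | nil => exact Or.inl List.nil_prefix
    | cons d y =>
      by_cases h : e = d
      · subst h
        rcases ih y with h1 | ⟨d1, y1, h1⟩ | ⟨a, d1, d2, y1, y2, h1, h2, h3⟩
        · exact Or.inl (List.cons_prefix_cons.2 ⟨rfl, h1⟩)
        · exact Or.inr (Or.inl ⟨d1, y1, by rw [h1]; rfl⟩)
        · exact Or.inr (Or.inr ⟨e :: a, d1, d2, y1, y2, by rw [h1]; rfl, by rw [h2]; rfl, h3⟩)
      · exact Or.inr (Or.inr ⟨[], d, e, y, p, rfl, rfl, h⟩)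

theorem Psi_lower (x : List D) (z : ℂ) :
    3 ^ x.length * (dist z ctr - 71 / 100) ≤ dist (Psi x z) ctr - 71 / 100 := by
  induction x generalizing z with
  | nil => simp
  | cons d x ih =>
    have h1 := ih (psi d z)
    have h2 := dist_psi_ge_q d z
    rw [Psi_cons, List.length_cons, pow_succ, mul_assoc]
    exact (mul_le_mul_of_nonneg_left h2 (by positivity)).trans h1

theorem rk_le (m : ℕ) (x : List D) {y : ℂ} (h : 76 / 100 < dist y ctr) :
    rk m (Psi x y) ≤ 20 ^ m * ((1 / 3) ^ m) ^ x.length := by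
  have h1 := Psi_lower x y
  have h2 : (3 : ℝ) ^ x.length / 20 ≤ 1 + dist (Psi x y) ctr := by
    have h3 : (3 : ℝ) ^ x.length * (5 / 100) ≤ 3 ^ x.length * (dist y ctr - 71 / 100) :=
      mul_le_mul_of_nonneg_left (by linarith) (by positivity)
    linarith
  have h4 : ((3 : ℝ) ^ x.length / 20) ^ m ≤ (1 + dist (Psi x y) ctr) ^ m :=
    pow_le_pow_left₀ (by positivity) h2 m
  unfold rk
  refine (inv_anti₀ (by positivity) h4).trans (le_of_eq ?_)
  rw [← pow_mul, mul_comm m, pow_mul, ← mul_pow, ← inv_pow]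
  congr 1
  rw [one_div, inv_pow]
  field_simp

theorem rk_le' (m : ℕ) (d : D) (x : List D) {y : ℂ} (h : 76 / 100 < dist (psi d y) ctr) :
    rk m (Psi (d :: x) y) ≤ 60 ^ m * ((1 / 3) ^ m) ^ (x.length + 1) := by
  refine (rk_le m x h).trans (le_of_eq ?_)
  rw [pow_succ, ← mul_assoc, mul_right_comm, ← mul_pow]
  norm_num

theorem rk_le'' (m : ℕ) (x : List D) {y : ℂ} (h : 76 / 100 < dist y ctr) :
    rk m (Psi x y) ≤ 60 ^ m * ((1 / 3) ^ m) ^ x.length := by
  refine (rk_le m x h).trans ?_
  gcongr
  norm_num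

theorem osc_ball {G : ℂ → ℂ} {B : ℝ} (hG : DifferentiableOn ℂ G (ball ctr 1))
    (hB : ∀ y ∈ ball ctr 1, ‖G y‖ ≤ B) {y y' : ℂ} (hy : dist y ctr < 78 / 100)
    (hy' : dist y' ctr < 78 / 100) : ‖G y - G y'‖ ≤ 5 * B * dist y y' := by
  have h1 : ∀ x ∈ ball ctr (78 / 100 : ℝ), DifferentiableAt ℂ G x := by
    intro x hx
    refine hG.differentiableAt (isOpen_ball.mem_nhds ?_)
    rw [mem_ball] at hx ⊢
    linarith
  have h2 : ∀ x ∈ ball ctr (78 / 100 : ℝ), ‖deriv G x‖ ≤ 5 * B := by
    intro x hx
    rw [mem_ball] at hx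
    have hsub : closedBall x (1 / 5 : ℝ) ⊆ ball ctr 1 := by
      intro t ht
      rw [mem_closedBall] at ht
      rw [mem_ball]
      have := dist_triangle t x ctr
      linarith
    have h3 : DiffContOnCl ℂ G (ball x (1 / 5 : ℝ)) := by
      refine DifferentiableOn.diffContOnCl_ball (hG.mono ?_) (le_refl _)
      exact hsub
    have h4 := Complex.norm_deriv_le_of_forall_mem_sphere_norm_le (by norm_num : (0 : ℝ) < 1 / 5)
      h3 (C := B) fun t ht => hB t (hsub (sphere_subset_closedBall ht))
    refine h4.trans (le_of_eq ?_)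
    ring
  have h5 := (convex_ball ctr (78 / 100 : ℝ)).norm_image_sub_le_of_norm_deriv_le h1 h2
    (mem_ball.2 hy') (mem_ball.2 hy)
  rw [dist_eq_norm]
  exact h5

/-- What the splitting gives for one word. -/
structure Piece (m : ℕ) (C₀ M : ℝ) (w win wout : ℂ → ℂ) : Prop where
  din : DifferentiableOn ℂ win (ball ctr (79 / 100) ∩ squareCantorᶜ)
  dout : DifferentiableOn ℂ wout {z | (75 / 100 : ℝ) < dist z ctr}
  eq : ∀ z, (75 / 100 : ℝ) < dist z ctr → dist z ctr < 79 / 100 → w z = win z - wout z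
  bin : ∀ z, dist z ctr < 78 / 100 → ‖win z‖ ≤ C₀ * M
  bout : ∀ z, (76 / 100 : ℝ) < dist z ctr → ‖wout z‖ ≤ C₀ * M * rk m z
  hol : ∀ (v : List D) (z z' : ℂ), dist (Psi v z) ctr < 78 / 100 →
    dist (Psi v z') ctr < 78 / 100 → ‖win z - win z'‖ ≤ C₀ * M * (3 / 4) ^ v.length

/-- The term of the word `u`. -/
noncomputable def tm (win wout : List D → ℂ → ℂ) (R : Option (List D)) (u : List D) (z : ℂ) : ℂ :=
  haveI := Classical.dec (anc R u)
  if anc R u then win u (Psi u z) else wout u (Psi u z)

theorem tm_pos {win wout : List D → ℂ → ℂ} {R : Option (List D)} {u : List D} (h : anc R u)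
    (z : ℂ) : tm win wout R u z = win u (Psi u z) := by
  unfold tm
  rw [if_pos h]

theorem tm_neg {win wout : List D → ℂ → ℂ} {R : Option (List D)} {u : List D} (h : ¬ anc R u)
    (z : ℂ) : tm win wout R u z = wout u (Psi u z) := by
  unfold tm
  rw [if_neg h]

theorem tm_diff {m : ℕ} {C₀ : ℝ} {M : List D → ℝ} {w win wout : List D → ℂ → ℂ}
    (h : ∀ u, Piece m C₀ (M u) (w u) (win u) (wout u)) (R : Option (List D)) (u : List D)
    {z : ℂ} (hz : z ∈ Nd R) : DifferentiableAt ℂ (tm win wout R u) z := by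
  have hPd := differentiable_Psi u z
  by_cases ha : anc R u
  · have e : tm win wout R u = fun z => win u (Psi u z) := by
      funext y
      exact tm_pos ha y
    rw [e]
    have hop2 : IsOpen (ball ctr (79 / 100) ∩ squareCantorᶜ) :=
      isOpen_ball.inter isClosed_squareCantor.isOpen_compl
    have hm : Psi u z ∈ ball ctr (79 / 100) ∩ squareCantorᶜ := by
      refine ⟨?_, Psi_notMem (Nd_notMem hz)⟩
      have := Nd_anc hz ha
      rw [mem_ball]
      linarith
    exact DifferentiableAt.comp (g := win u) (f := Psi u) z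
      ((h u).din.differentiableAt (hop2.mem_nhds hm)) hPd
  · have e : tm win wout R u = fun z => wout u (Psi u z) := by
      funext y
      exact tm_neg ha y
    rw [e]
    have hop2 : IsOpen {z : ℂ | (75 / 100 : ℝ) < dist z ctr} :=
      isOpen_lt continuous_const (continuous_id.dist continuous_const)
    have hm : Psi u z ∈ {z : ℂ | (75 / 100 : ℝ) < dist z ctr} := by
      have := Nd_not_anc hz ha
      show (75 / 100 : ℝ) < dist (Psi u z) ctr
      linarith
    exact DifferentiableAt.comp (g := wout u) (f := Psi u) z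
      ((h u).dout.differentiableAt (hop2.mem_nhds hm)) hPd

theorem one_le_sixty (m : ℕ) : (1 : ℝ) ≤ 60 ^ m := one_le_pow₀ (by norm_num)

/-- The oscillation of one term. -/
theorem tm_osc {m : ℕ} {C₀ : ℝ} (hC₀ : 0 < C₀) {M : List D → ℝ} (hM : ∀ u, 0 ≤ M u)
    {w win wout : List D → ℂ → ℂ}
    (h : ∀ u, Piece m C₀ (M u) (w u) (win u) (wout u)) (p u : List D)
    {z z' : ℂ} (hz : z ∈ Nd (some p)) (hz' : z' ∈ Nd (some p)) :
    ‖tm win wout (some p) u z - tm win wout (some p) u z'‖ ≤
      50 * 60 ^ m * C₀ * (kr ((1 / 3) ^ m) p u * M u) := by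
  have h60 := one_le_sixty m
  have hCM : 0 ≤ C₀ * M u := mul_nonneg hC₀.le (hM u)
  rcases tri p u with ha | ⟨d, y, hy⟩ | ⟨a, d, d', y, y', hp, hu, hdd⟩
  · rw [tm_pos (R := some p) (u := u) ha, tm_pos (R := some p) (u := u) ha]
    obtain ⟨x, hx⟩ := ha
    have e1 : ∀ t : ℂ, Psi x (Psi u t) = Psi p t := by
      intro t
      rw [← hx, Psi_append]
    have h1 := (h u).hol x (Psi u z) (Psi u z') (by rw [e1]; exact hz.1) (by rw [e1]; exact hz'.1)
    have hk : kr ((1 / 3) ^ m) p u = (3 / 4) ^ x.length := by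
      have hc : cpl p u = u.length := by
        rw [← hx]
        have := cpl_append u x []
        rw [List.append_nil, cpl_nil_right, add_zero] at this
        exact this
      unfold kr
      rw [hc, Nat.sub_self, pow_zero, one_mul, ← hx, List.length_append, Nat.add_sub_cancel_left]
    rw [hk]
    refine h1.trans ?_
    have h2 : C₀ * M u * (3 / 4) ^ x.length ≤ (50 * 60 ^ m) * (C₀ * M u * (3 / 4) ^ x.length) := by
      refine le_mul_of_one_le_left (mul_nonneg hCM (by positivity)) ?_
      linarith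
    refine h2.trans (le_of_eq ?_)
    ring
  · have ha : ¬ anc (some p) u := by
      intro hc
      have := List.IsPrefix.length_le hc
      rw [hy, List.length_append, List.length_cons] at this
      omega
    rw [tm_neg ha, tm_neg ha]
    have hk : kr ((1 / 3) ^ m) p u = ((1 / 3) ^ m) ^ (y.length + 1) := by
      have hc : cpl p u = p.length := by
        rw [hy]
        have := cpl_append p [] (d :: y)
        rw [List.append_nil, cpl_nil_left, add_zero] at this
        exact this
      unfold kr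
      rw [hc, Nat.sub_self, pow_zero, mul_one, hy, List.length_append, Nat.add_sub_cancel_left,
        List.length_cons]
    have hb : ∀ t ∈ Nd (some p), ‖wout u (Psi u t)‖ ≤
        C₀ * M u * (60 ^ m * ((1 / 3) ^ m) ^ (y.length + 1)) := by
      intro t ht
      refine ((h u).bout _ (Nd_not_anc ht ha)).trans ?_
      refine mul_le_mul_of_nonneg_left ?_ hCM
      rw [hy, Psi_append]
      exact rk_le' m d y (ht.2 d)
    rw [hk]
    refine (norm_sub_le _ _).trans ((add_le_add (hb z hz) (hb z' hz')).trans ?_)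
    have h2 : 0 ≤ C₀ * M u * (60 ^ m * ((1 / 3 : ℝ) ^ m) ^ (y.length + 1)) :=
      mul_nonneg hCM (by positivity)
    have h3 : 50 * 60 ^ m * C₀ * (((1 / 3 : ℝ) ^ m) ^ (y.length + 1) * M u) =
        50 * (C₀ * M u * (60 ^ m * ((1 / 3 : ℝ) ^ m) ^ (y.length + 1))) := by ring
    rw [h3]
    linarith
  · have ha : ¬ anc (some p) u := by
      rintro ⟨x, hx⟩
      rw [hp, hu, List.append_assoc, List.append_cancel_left_eq, List.cons_append] at hx
      exact hdd (List.cons.inj hx).1.symm
    rw [tm_neg ha, tm_neg ha]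
    have hc : cpl p u = a.length := by
      rw [hp, hu, cpl_append, cpl_cons_ne hdd, add_zero]
    have hk : kr ((1 / 3) ^ m) p u =
        ((1 / 3) ^ m) ^ (y.length + 1) * (3 / 4) ^ (y'.length + 1) := by
      unfold kr
      rw [hc, hp, hu, List.length_append, List.length_append, Nat.add_sub_cancel_left,
        Nat.add_sub_cancel_left, List.length_cons, List.length_cons]
    have ep : a ++ d' :: y' = (a ++ [d']) ++ y' := by simp
    -- the function in the coordinates of `a ++ [d']`
    set G : ℂ → ℂ := fun t => wout u (Psi u (Phi (a ++ [d']) t)) with hG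
    have e2 : ∀ t : ℂ, Psi u (Phi (a ++ [d']) t) = Psi y (psi d (phi d' t)) := by
      intro t
      rw [hu, Psi_append, Phi_append, Psi_Phi]
      rfl
    have hfar : ∀ t ∈ ball ctr (1 : ℝ), 1 < dist (psi d (phi d' t)) ctr := by
      intro t ht
      exact other_far (Ne.symm hdd) ht
    have hbd : ∀ t ∈ ball ctr (1 : ℝ), 76 / 100 < dist (Psi u (Phi (a ++ [d']) t)) ctr := by
      intro t ht
      rw [e2]
      have h1 := Psi_lower y (psi d (phi d' t))
      have h2 := hfar t ht
      have h3 : (1 : ℝ) ≤ 3 ^ y.length := one_le_pow₀ (by norm_num)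
      nlinarith
    have hGd : DifferentiableOn ℂ G (ball ctr 1) := by
      intro t ht
      refine DifferentiableAt.differentiableWithinAt ?_
      have hop2 : IsOpen {z : ℂ | (75 / 100 : ℝ) < dist z ctr} :=
        isOpen_lt continuous_const (continuous_id.dist continuous_const)
      have hm : Psi u (Phi (a ++ [d']) t) ∈ {z : ℂ | (75 / 100 : ℝ) < dist z ctr} := by
        have := hbd t ht
        show (75 / 100 : ℝ) < dist (Psi u (Phi (a ++ [d']) t)) ctr
        linarith
      have h5 : DifferentiableAt ℂ (fun t => Psi u (Phi (a ++ [d']) t)) t :=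
        ((differentiable_Psi u).comp (differentiable_Phi (a ++ [d']))) t
      exact DifferentiableAt.comp (g := wout u) (f := fun t => Psi u (Phi (a ++ [d']) t)) t
        ((h u).dout.differentiableAt (hop2.mem_nhds hm)) h5
    have hGB : ∀ t ∈ ball ctr (1 : ℝ), ‖G t‖ ≤
        C₀ * M u * (60 ^ m * ((1 / 3) ^ m) ^ (y.length + 1)) := by
      intro t ht
      refine ((h u).bout _ (hbd t ht)).trans ?_
      refine mul_le_mul_of_nonneg_left ?_ hCM
      rw [e2, ← Psi_cons]
      exact rk_le' m d y (by have := hfar t ht; linarith)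
    have hnear : ∀ t ∈ Nd (some p), dist (Psi (a ++ [d']) t) ctr < 78 / 100 := by
      intro t ht
      have h1 := ht.1
      rw [hp, ep] at h1
      by_cases hy' : y' = []
      · rw [hy', List.append_nil] at h1
        exact h1
      · have := near_append hy' h1.le
        linarith
    have h6 := osc_ball hGd hGB (hnear z hz) (hnear z' hz')
    have e3 : ∀ t : ℂ, G (Psi (a ++ [d']) t) = wout u (Psi u t) := by
      intro t
      simp only [hG]
      rw [Phi_Psi]
    rw [e3, e3] at h6
    refine h6.trans ?_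
    rw [hk]
    have h7 : dist (Psi (a ++ [d']) z) (Psi (a ++ [d']) z') ≤ 5 * (3 / 4) ^ (y'.length + 1) := by
      have h8 : dist (Psi p z) (Psi p z') ≤ 156 / 100 := by
        have h9 := dist_triangle_right (Psi p z) (Psi p z') ctr
        have h10 := hz.1
        have h11 := hz'.1
        linarith
      rw [dist_Psi] at h8 ⊢
      rw [hp, List.length_append, List.length_cons] at h8
      rw [List.length_append, List.length_singleton]
      have h12 : (3 : ℝ) ^ (a.length + (y'.length + 1)) =
          3 ^ (a.length + 1) * 3 ^ y'.length := by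
        rw [← pow_add]
        congr 1
        omega
      rw [h12] at h8
      have h13 : (3 : ℝ) ^ (a.length + 1) * dist z z' * 3 ^ y'.length ≤ 156 / 100 := by
        linarith
      have h14 : (3 : ℝ) ^ (a.length + 1) * dist z z' ≤ 156 / 100 * (1 / 3) ^ y'.length := by
        rw [one_div, inv_pow, ← div_eq_mul_inv, le_div_iff₀ (by positivity)]
        exact h13
      refine h14.trans ?_
      have h15 : (1 / 3 : ℝ) ^ y'.length ≤ (3 / 4) ^ y'.length :=
        pow_le_pow_left₀ (by norm_num) (by norm_num) _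
      rw [pow_succ]
      have h16 : (0 : ℝ) ≤ (3 / 4) ^ y'.length := by positivity
      linarith
    have h2 : 0 ≤ C₀ * M u * (60 ^ m * ((1 / 3 : ℝ) ^ m) ^ (y.length + 1)) :=
      mul_nonneg hCM (by positivity)
    refine (mul_le_mul_of_nonneg_left h7 (mul_nonneg (by norm_num) h2)).trans ?_
    have h3 : 50 * 60 ^ m * C₀ * (((1 / 3 : ℝ) ^ m) ^ (y.length + 1) *
        (3 / 4) ^ (y'.length + 1) * M u) =
        50 * (C₀ * M u * (60 ^ m * ((1 / 3 : ℝ) ^ m) ^ (y.length + 1))) *
          (3 / 4) ^ (y'.length + 1) := by ring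
    rw [h3]
    have h17 : (0 : ℝ) ≤ (3 / 4) ^ (y'.length + 1) := by positivity
    have h18 := mul_nonneg h2 h17
    nlinarith

theorem bd_none {m : ℕ} {C₀ : ℝ} (hC₀ : 0 < C₀) {M : List D → ℝ} (hM : ∀ u, 0 ≤ M u)
    {w win wout : List D → ℂ → ℂ}
    (h : ∀ u, Piece m C₀ (M u) (w u) (win u) (wout u)) (u : List D)
    {z : ℂ} (hz : z ∈ Nd none) :
    ‖tm win wout none u z‖ ≤ 50 * 60 ^ m * C₀ * (((1 / 3) ^ m) ^ u.length * M u) := by
  have hCM : 0 ≤ C₀ * M u := mul_nonneg hC₀.le (hM u)
  have ha : ¬ anc none u := by simp [anc]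
  rw [tm_neg ha]
  refine ((h u).bout _ (Nd_not_anc hz ha)).trans ?_
  have h1 := rk_le'' m u (y := z) hz
  refine (mul_le_mul_of_nonneg_left h1 hCM).trans ?_
  have h2 : 0 ≤ C₀ * M u * (60 ^ m * ((1 / 3 : ℝ) ^ m) ^ u.length) :=
    mul_nonneg hCM (by positivity)
  have h3 : 50 * 60 ^ m * C₀ * (((1 / 3 : ℝ) ^ m) ^ u.length * M u) =
      50 * (C₀ * M u * (60 ^ m * ((1 / 3 : ℝ) ^ m) ^ u.length)) := by ring
  rw [h3]
  linarith

theorem bd_nil {m : ℕ} {C₀ : ℝ} (hC₀ : 0 < C₀) {M : List D → ℝ} (hM : ∀ u, 0 ≤ M u)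
    {w win wout : List D → ℂ → ℂ}
    (h : ∀ u, Piece m C₀ (M u) (w u) (win u) (wout u)) (u : List D)
    {z : ℂ} (hz : z ∈ Nd (some [])) :
    ‖tm win wout (some []) u z‖ ≤ 50 * 60 ^ m * C₀ * (((1 / 3) ^ m) ^ u.length * M u) := by
  have hCM : 0 ≤ C₀ * M u := mul_nonneg hC₀.le (hM u)
  have h60 := one_le_sixty m
  cases u with
  | nil =>
    have ha : anc (some []) [] := List.nil_prefix
    rw [tm_pos ha, List.length_nil, pow_zero, one_mul]
    refine ((h []).bin _ (Nd_anc hz ha)).trans ?_
    nlinarith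
  | cons d y =>
    have ha : ¬ anc (some []) (d :: y) := by
      intro hc
      have := List.IsPrefix.length_le hc
      simp at this
    rw [tm_neg ha]
    refine ((h (d :: y)).bout _ (Nd_not_anc hz ha)).trans ?_
    have h1 := rk_le' m d y (y := z) (hz.2 d)
    refine (mul_le_mul_of_nonneg_left h1 hCM).trans ?_
    rw [List.length_cons]
    have h2 : 0 ≤ C₀ * M (d :: y) * (60 ^ m * ((1 / 3 : ℝ) ^ m) ^ (y.length + 1)) :=
      mul_nonneg hCM (by positivity)
    have h3 : 50 * 60 ^ m * C₀ * (((1 / 3 : ℝ) ^ m) ^ (y.length + 1) * M (d :: y)) =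
        50 * (C₀ * M (d :: y) * (60 ^ m * ((1 / 3 : ℝ) ^ m) ^ (y.length + 1))) := by ring
    rw [h3]
    linarith

end SYS_

open SYS_ in
/-- The system of functions. -/
theorem p_SYS (hSPL : T_SPL) : T_SYS := by
  intro m
  obtain ⟨C₀, hC₀, hs⟩ := hSPL m
  refine ⟨50 * 60 ^ m * C₀, by positivity, fun N wj μ hN hμ hw => ?_⟩
  classical
  set w' : List D → ℂ → ℂ := fun u => if u.length < N then wj u else fun _ => 0 with hw'
  have hd : ∀ u, DifferentiableOn ℂ (w' u)
      {z | (74 / 100 : ℝ) < dist z ctr ∧ dist z ctr < 80 / 100} := by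
    intro u
    by_cases hu : u.length < N
    · simp only [hw', if_pos hu]
      exact (hw u hu).1
    · simp only [hw', if_neg hu]
      exact differentiableOn_const _
  have hb : ∀ u z, (74 / 100 : ℝ) < dist z ctr → dist z ctr < 80 / 100 → ‖w' u z‖ ≤ μ u := by
    intro u z h1 h2
    by_cases hu : u.length < N
    · simp only [hw', if_pos hu]
      exact (hw u hu).2 z h1 h2
    · simp only [hw', if_neg hu, norm_zero]
      exact hμ u
  choose win wout h1 h2 h3 h4 h5 h6 using fun u => hs (w' u) (μ u) (hμ u) (hd u) (hb u)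
  have hP : ∀ u, Piece m C₀ (μ u) (w' u) (win u) (wout u) := fun u =>
    ⟨h1 u, h2 u, h3 u, h4 u, h5 u, h6 u⟩
  refine ⟨fun R z => ∑ u ∈ wd (N - 1), tm win wout R u z, ?_, ?_, ?_, ?_, ?_⟩
  · intro R z hz
    refine DifferentiableAt.differentiableWithinAt ?_
    exact DifferentiableAt.fun_sum fun u _ => tm_diff hP R u hz
  · intro u hu z hz hz'
    rw [← Finset.sum_sub_distrib, Finset.sum_eq_single u]
    · have ha : anc (some u) u := (anc_par u u).2 (Or.inr rfl)
      rw [tm_pos ha, tm_neg (not_anc_par u)]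
      have h7 := Nd_anc hz' ha
      have h8 := Nd_not_anc hz (not_anc_par u)
      have h9 := (hP u).eq (Psi u z) (by linarith) (by linarith)
      rw [← h9]
      simp only [hw', if_pos hu]
    · intro v _ hv
      have : anc (some u) v ↔ anc (par u) v := by
        rw [anc_par]
        exact ⟨fun h => h.resolve_right hv, Or.inl⟩
      by_cases h : anc (par u) v
      · rw [tm_pos h, tm_pos (this.2 h), sub_self]
      · rw [tm_neg h, tm_neg (fun h' => h (this.1 h')), sub_self]
    · intro hn
      exact absurd (mem_wd.2 (by omega)) hn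
  · intro p z hz z' hz'
    rw [← Finset.sum_sub_distrib, Finset.mul_sum]
    exact (norm_sum_le _ _).trans (Finset.sum_le_sum fun u _ => tm_osc hC₀ hμ hP p u hz hz')
  · intro z hz
    rw [Finset.mul_sum]
    exact (norm_sum_le _ _).trans (Finset.sum_le_sum fun u _ => bd_none hC₀ hμ hP u hz)
  · intro z hz
    rw [Finset.mul_sum]
    exact (norm_sum_le _ _).trans (Finset.sum_le_sum fun u _ => bd_nil hC₀ hμ hP u hz)

end Pool.Agent.CorE
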