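import Pool.Agent.CorE.Targets

/-!
# WHO: the function W is Hoelder continuous
-/

set_option autoImplicit false

namespace Pool.Agent.CorE

open Complex Metric Set Filter Topology MeasureTheory
open Pool.Corona91698f
open scoped Real

namespace WHO_

theorem W_eq (z : ℂ) : W z = 3 / 4 * ∑ d : D, W (psi d z) := by
  have h1 : Tendsto (fun n => Wn (n + 1) z) atTop (𝓝 (W z)) :=
    (Wn_tendsto.tendsto_at z).comp (tendsto_add_atTop_nat 1)
  have h2 : Tendsto (fun n => 3 / 4 * ∑ d : D, Wn n (psi d z)) atTop
      (𝓝 (3 / 4 * ∑ d : D, W (psi d z))) :=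
    (tendsto_finsetSum _ fun d _ => Wn_tendsto.tendsto_at (psi d z)).const_mul _
  exact tendsto_nhds_unique h1 h2

theorem notMem_of_far {z : ℂ} (hz : 3 / 4 ≤ dist z ctr) : z ∉ squareCantor := by
  intro h
  have := squareCantor_dist' h
  linarith

theorem deriv_le {z : ℂ} (hz : 1 ≤ dist z ctr) : ‖deriv W z‖ ≤ 31688 := by
  have hfar : ∀ y ∈ closedBall z (1 / 4 : ℝ), 3 / 4 ≤ dist y ctr := by
    intro y hy
    rw [mem_closedBall, dist_comm] at hy
    have := dist_triangle z y ctr
    linarith
  have hd : DiffContOnCl ℂ W (ball z (1 / 4 : ℝ)) := by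
    refine DifferentiableOn.diffContOnCl fun y hy => ?_
    rw [closure_ball z (by norm_num : (1 / 4 : ℝ) ≠ 0)] at hy
    exact (W_differentiableAt (notMem_of_far (hfar y hy))).differentiableWithinAt
  have h := Complex.norm_deriv_le_of_forall_mem_sphere_norm_le
    (by norm_num : (0 : ℝ) < 1 / 4) hd (fun y _ => W_norm y)
  refine h.trans (le_of_eq ?_)
  norm_num

theorem lip {x y : ℂ} (h : ∀ w ∈ segment ℝ x y, 1 ≤ dist w ctr) :
    ‖W x - W y‖ ≤ 31688 * dist x y := by
  have h1 := Convex.norm_image_sub_le_of_norm_deriv_le (f := W) (C := 31688)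
    (s := segment ℝ x y) (x := y) (y := x)
    (fun w hw => W_differentiableAt (notMem_of_far (by linarith [h w hw])))
    (fun w hw => deriv_le (h w hw)) (convex_segment x y) (right_mem_segment ℝ x y)
    (left_mem_segment ℝ x y)
  rw [dist_eq_norm]
  exact h1

theorem psi_line (d : D) (x y : ℂ) (a b : ℝ) (hab : a + b = 1) :
    psi d (a • x + b • y) = a • psi d x + b • psi d y := by
  unfold psi
  have h : (a : ℂ) + b = 1 := by exact_mod_cast hab
  simp only [Complex.real_smul]
  linear_combination (2 * dig d) * h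

theorem far_other {d d' : D} (hne : d' ≠ d) {z z' : ℂ} (hz : dist (psi d z) ctr < 78 / 100)
    (hz' : dist (psi d z') ctr < 78 / 100) :
    ∀ w ∈ segment ℝ (psi d' z) (psi d' z'), 1 ≤ dist w ctr := by
  rintro w ⟨a, b, ha, hb, hab, rfl⟩
  rw [← psi_line d' z z' a b hab]
  by_contra hlt
  push Not at hlt
  refine hne (psi_disj hlt ?_)
  rw [psi_line d z z' a b hab]
  have hc := convex_ball ctr (78 / 100 : ℝ)
  have := hc (mem_ball.2 hz) (mem_ball.2 hz') ha hb hab
  rw [mem_ball] at this
  linarith

theorem near_head {v : List D} {z : ℂ} (h : dist (Psi v z) ctr < 78 / 100) :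
    dist z ctr < 78 / 100 := by
  by_cases hv : v = []
  · subst hv
    exact h
  · have := near_prefix hv h.le
    linarith

theorem main (v : List D) : ∀ z z' : ℂ, dist (Psi v z) ctr < 78 / 100 →
    dist (Psi v z') ctr < 78 / 100 →
    ‖W z - W z'‖ ≤ 500000 * (3 / 4) ^ v.length - 400000 * (1 / 3) ^ v.length := by
  induction v with
  | nil =>
    intro z z' _ _
    have h1 := norm_sub_le (W z) (W z')
    have h2 := W_norm z
    have h3 := W_norm z'
    simp only [List.length_nil, pow_zero]
    linarith
  | cons d v ih =>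
    intro z z' hz hz'
    rw [Psi_cons] at hz hz'
    have hb := ih _ _ hz hz'
    have h0 := near_head hz
    have h0' := near_head hz'
    set k := v.length with hk
    have hdist : dist z z' ≤ 156 / 100 * (1 / 3) ^ (k + 1) := by
      have h1 := dist_Psi (d :: v) z z'
      rw [Psi_cons, Psi_cons, List.length_cons, ← hk] at h1
      have h2 := dist_triangle_right (Psi v (psi d z)) (Psi v (psi d z')) ctr
      have h3 : (3 : ℝ) ^ (k + 1) * (1 / 3) ^ (k + 1) = 1 := by
        rw [← mul_pow]
        norm_num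
      have h4 : (0 : ℝ) < (1 / 3) ^ (k + 1) := by positivity
      calc dist z z' = (3 ^ (k + 1) * (1 / 3) ^ (k + 1)) * dist z z' := by rw [h3, one_mul]
        _ = (3 ^ (k + 1) * dist z z') * (1 / 3) ^ (k + 1) := by ring
        _ ≤ 156 / 100 * (1 / 3) ^ (k + 1) := by
          refine mul_le_mul_of_nonneg_right ?_ h4.le
          rw [← h1]
          linarith
    set e : ℝ := 148300 * (1 / 3) ^ (k + 1) with he
    have he0 : 0 ≤ e := by positivity
    set b : ℝ := 500000 * (3 / 4) ^ k - 400000 * (1 / 3) ^ k with hbdef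
    have hterm : ∀ d' : D, ‖W (psi d' z) - W (psi d' z')‖ ≤ e + if d' = d then b else 0 := by
      intro d'
      by_cases hd : d' = d
      · subst hd
        rw [if_pos rfl]
        linarith
      · rw [if_neg hd, add_zero]
        have h1 := lip (far_other hd h0 h0')
        rw [dist_psi] at h1
        refine h1.trans ?_
        rw [he]
        nlinarith [hdist]
    rw [W_eq z, W_eq z', ← mul_sub, ← Finset.sum_sub_distrib, norm_mul]
    have e1 : ‖(3 / 4 : ℂ)‖ = 3 / 4 := by norm_num
    rw [e1]
    have h5 : ‖∑ d' : D, (W (psi d' z) - W (psi d' z'))‖ ≤ 4 * e + b := by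
      refine (norm_sum_le _ _).trans ((Finset.sum_le_sum fun d' _ => hterm d').trans
        (le_of_eq ?_))
      rw [Finset.sum_add_distrib, Finset.sum_ite_eq' Finset.univ d, if_pos (Finset.mem_univ d),
        Finset.sum_const, card_D, nsmul_eq_mul]
      push_cast
      ring
    have h6 : (0 : ℝ) < (1 / 3) ^ k := by positivity
    calc 3 / 4 * ‖∑ d' : D, (W (psi d' z) - W (psi d' z'))‖
        ≤ 3 / 4 * (4 * e + b) := by gcongr
      _ ≤ 500000 * (3 / 4) ^ (List.length (d :: v)) -
          400000 * (1 / 3) ^ (List.length (d :: v)) := by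
        rw [List.length_cons, ← hk, he, hbdef, pow_succ, pow_succ]
        linarith

end WHO_

/-- W is Hoelder continuous. -/
theorem p_WHO : T_WHO := by
  refine ⟨500000, by norm_num, fun v z z' hz hz' => ?_⟩
  have h := WHO_.main v z z' hz hz'
  have h1 : (0 : ℝ) ≤ (1 / 3) ^ v.length := by positivity
  linarith

end Pool.Agent.CorE
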