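import Pool.Agent.CorE.P_HAR
import Pool.Agent.CorE.P_LOG
import Pool.Agent.CorE.P_AVG
import Pool.Agent.CorE.P_POS
import Pool.Agent.CorE.P_CHG
import Pool.Agent.CorE.P_GRD
import Pool.Agent.CorE.P_CHN
import Pool.Agent.CorE.P_CHO
import Pool.Agent.CorE.P_GEO
import Pool.Agent.CorE.P_NIN
import Pool.Agent.CorE.P_CON
import Pool.Agent.CorE.P_NOD
import Pool.Agent.CorE.P_GRW
import Pool.Agent.CorE.P_LWB
import Pool.Agent.CorE.P_CMP
import Pool.Agent.CorE.P_GRN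
import Pool.Agent.CorE.P_ADD
import Pool.Agent.CorE.P_REC
import Pool.Agent.CorE.P_DEC
import Pool.Agent.CorE.P_JBD
import Pool.Agent.CorE.P_OSE
import Pool.Agent.CorE.P_LPO
import Pool.Agent.CorE.P_WHO
import Pool.Agent.CorE.P_TAI
import Pool.Agent.CorE.P_SPL
import Pool.Agent.CorE.P_SYS
import Pool.Agent.CorE.P_SCH
import Pool.Agent.CorE.P_JNT
import Pool.Agent.CorE.P_SLF
import Pool.Agent.CorE.P_GLA
import Pool.Agent.CorE.P_MRT
import Pool.Agent.CorE.P_FGL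
import Pool.Agent.CorE.P_MAJ
import Pool.Agent.CorE.P_FIN
import Pool.Agent.CorE.P_LIM
import Pool.Agent.CorE.P_LGR

/-!
# Corona solutions with exponentially integrable growth: assembly
-/

set_option autoImplicit false

namespace Pool.Agent.CorE

theorem a_HAR : T_HAR := p_HAR
theorem a_LOG : T_LOG := p_LOG
theorem a_AVG : T_AVG := p_AVG
theorem a_POS : T_POS := p_POS a_HAR a_LOG
theorem a_CHG : T_CHG := p_CHG a_POS a_AVG a_HAR a_LOG
theorem a_GRD : T_GRD := p_GRD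
theorem a_CHN : T_CHN := p_CHN a_HAR
theorem a_CHO : T_CHO := p_CHO
theorem a_GEO : T_GEO := p_GEO
theorem a_NIN : T_NIN := p_NIN a_GEO
theorem a_CON : T_CON := p_CON
theorem a_NOD : T_NOD := p_NOD a_LOG a_CHN a_GRD a_NIN a_CON
theorem a_GRW : T_GRW := p_GRW a_NOD a_LOG a_CHN a_CON a_NIN a_GEO
theorem a_LWB : T_LWB := p_LWB a_GEO a_HAR
theorem a_CMP : T_CMP := p_CMP a_GEO
theorem a_GRN : T_GRN := p_GRN a_CHG a_GEO a_NIN a_NOD a_LWB a_CMP
theorem a_ADD : T_ADD := p_ADD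
theorem a_REC : T_REC := p_REC
theorem a_DEC : T_DEC := p_DEC a_REC a_GEO
theorem a_JBD : T_JBD := p_JBD
theorem a_OSE : T_OSE := p_OSE a_CHO a_CON a_GEO
theorem a_LPO : T_LPO := p_LPO a_DEC a_JBD a_OSE
theorem a_WHO : T_WHO := p_WHO
theorem a_TAI : T_TAI := p_TAI
theorem a_SPL : T_SPL := p_SPL a_WHO a_TAI
theorem a_SYS : T_SYS := p_SYS a_SPL
theorem a_SCH : T_SCH := p_SCH
theorem a_JNT : T_JNT := p_JNT
theorem a_SLF : T_SLF := p_SLF a_CMP a_ADD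
theorem a_GLA : T_GLA := p_GLA
theorem a_MRT : T_MRT := p_MRT a_CMP a_ADD
theorem a_FGL : T_FGL := p_FGL a_LPO a_SLF a_SYS a_SCH a_MRT a_GLA a_JNT a_CMP
theorem a_MAJ : T_MAJ := p_MAJ
theorem a_FIN : T_FIN := p_FIN a_GRN a_FGL a_MAJ
theorem a_EXP : T_EXP := p_LIM a_GRW a_LOG a_NIN a_FIN

end Pool.Agent.CorE
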