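import Pool.Agent.Corona91698f.LogCorona
import Pool.Agent.Corona91698f.PorCount

/-!
# Corona solutions with exponentially integrable growth: definitions

Project COE (helper24), problem MP_91698f. The tree of squares (words over `D`), the maps `Psi`,
`Phi`, the nodes `Nd`, `NR`, `nodeX`, `nodeV`, and the lists `wd`, `lv` of words are those of the
library `Pool/Agent/Corona91698f`.
-/

set_option autoImplicit false

namespace Pool.Agent.CorE

open Complex Metric Set Filter Topology MeasureTheory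
open Pool.Corona91698f
open scoped Real

/-! ### sums of logarithms -/

/-- The function `V + Σ w_q log |z - c_q|`. -/
noncomputable def hp {ι : Type} (S : Finset ι) (c : ι → ℂ) (w : ι → ℝ) (V : ℝ) (z : ℂ) : ℝ :=
  V + ∑ q ∈ S, w q * Real.log (dist z (c q))

/-- The value which belongs to the charge `q`. -/
noncomputable def kp {ι : Type} [DecidableEq ι] (S : Finset ι) (c : ι → ℂ) (l : ℝ) (w : ι → ℝ)
    (V : ℝ) (q : ι) : ℝ :=
  V + w q * (Real.log l - 10) + ∑ q' ∈ S.erase q, w q' * Real.log (dist (c q) (c q'))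

/-- The points have distances at least `2 l`. -/
def Sep {ι : Type} (S : Finset ι) (c : ι → ℂ) (l : ℝ) : Prop :=
  0 < l ∧ ∀ q ∈ S, ∀ q' ∈ S, q ≠ q' → 2 * l ≤ dist (c q) (c q')

/-- The points at distance at least `l / 10` from all charges. -/
def Rg {ι : Type} (S : Finset ι) (c : ι → ℂ) (l : ℝ) : Set ℂ := {z | ∀ q ∈ S, l / 10 ≤ dist z (c q)}

/-! ### the tree -/

/-- The centre of the square of the word `v`. -/
noncomputable def cc (v : List D) : ℂ := Phi v ctr

/-- Twice the complex derivative of the potential of the charges of level `N`. -/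
noncomputable def ps (N : ℕ) (w : List D → ℝ) (z : ℂ) : ℂ := ∑ q ∈ lv N, (w q : ℂ) / (z - cc q)

/-- The potential of the charges of level `N`. -/
noncomputable def gr (N : ℕ) (w : List D → ℝ) (V : ℝ) (z : ℂ) : ℝ := hp (lv N) cc w V z

/-- The region of level `N` outside the small discs. -/
noncomputable def RN (N : ℕ) : Set ℂ := Rg (lv N) cc ((1 / 3) ^ N)

/-- The compact part of the standard node. -/
def XH : Set ℂ := {y | dist y ctr ≤ 87 / 100 ∧ ∀ d : D, 73 / 100 ≤ dist (psi d y) ctr}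

/-- An annulus. -/
def AH : Set ℂ := {y | 73 / 100 ≤ dist y ctr ∧ dist y ctr ≤ 87 / 100}

/-- The words of length at most `M` which extend `v`. -/
noncomputable def bl (M : ℕ) (v : List D) : Finset (List D) := (wd M).filter (fun p => v <+: p)

/-- Weights of the squares, positive and additive up to level `N`. -/
structure GD (N : ℕ) (w : List D → ℝ) : Prop where
  pos : ∀ v : List D, v.length ≤ N → 0 < w v
  add : ∀ p : List D, p.length < N → ∑ d : D, w (p ++ [d]) = w p

/-- The discrete Green function of level `N` with all its bounds. -/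
structure GB (N : ℕ) (w : List D → ℝ) (V C : ℝ) : Prop extends GD N w where
  one : w [] = 1
  nn : ∀ z ∈ RN N, 0 ≤ gr N w V z
  chi : ∀ p : List D, p.length < N → ∀ d : D, w p ≤ C * w (p ++ [d])
  low : ∀ p : List D, p.length < N → ∀ z, Psi p z ∈ XH → w p ≤ C * gr N w V z
  upp : ∀ p : List D, p.length < N → ∀ z, Psi p z ∈ XH →
    gr N w V z ≤ C * w p ∧ ‖ps N w z‖ ≤ C * 3 ^ p.length * w p
  ann : ∀ v : List D, v.length ≤ N → ∀ z, 75 / 100 ≤ dist (Psi v z) ctr →
    dist (Psi v z) ctr ≤ 79 / 100 → ‖ps N w z‖ ≤ C * 3 ^ v.length * w v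

/-- Contour mean over the circle around the square of `v`. -/
noncomputable def cm (v : List D) (h : ℂ → ℂ) : ℂ :=
  (2 * π * I : ℂ)⁻¹ * ∮ z in C(cc v, 77 / 100 * (1 / 3) ^ v.length), h z

/-- The part of the complement on which the solutions of level `N` live. -/
def Om (N : ℕ) : Set ℂ := {z | ∀ q ∈ lv N, 765 / 1000 < dist (Psi q z) ctr}

/-- Length of the longest common initial word. -/
def cpl : List D → List D → ℕ
  | a :: x, b :: y => if a = b then cpl x y + 1 else 0
  | _, _ => 0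

/-- The kernel of the Schur test. -/
noncomputable def kr (k : ℝ) (p u : List D) : ℝ :=
  k ^ (u.length - cpl p u) * (3 / 4) ^ (p.length - cpl p u)

/-! ### energies -/

/-- Integral over the boundary of a rectangle with the corners `z`, `z'`. -/
noncomputable def bdI (F : ℂ → ℂ) (z z' : ℂ) : ℂ :=
  (∫ x in z.re..z'.re, F (x + z.im * I)) - (∫ x in z.re..z'.re, F (x + z'.im * I)) +
    I • (∫ y in z.im..z'.im, F (z'.re + y * I)) - I • ∫ y in z.im..z'.im, F (z.re + y * I)

/-- The form whose `∂̄` has the real part `- h |f'| ^ 2`. -/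
noncomputable def FF {ι : Type} (S : Finset ι) (c : ι → ℂ) (w : ι → ℝ) (V : ℝ) (f : ℂ → ℂ)
    (z : ℂ) : ℂ :=
  (‖f z‖ ^ 2 : ℝ) * (∑ q ∈ S, (w q : ℂ) / (z - c q)) / 2 -
    (hp S c w V z : ℂ) * deriv f z * (starRingEnd ℂ) (f z)

/-- The square with half side `0.61` (in the coordinates of `v`). -/
def Sq (v : List D) : Set ℂ :=
  {z | |(Psi v z - ctr).re| ≤ 61 / 100 ∧ |(Psi v z - ctr).im| ≤ 61 / 100}

/-- The boundary term. -/
noncomputable def JJ (N : ℕ) (w : List D → ℝ) (V : ℝ) (f : ℂ → ℂ) (v : List D) : ℝ :=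
  (bdI (FF (lv N) cc w V f) (cc v - (61 / 100 * (1 / 3) ^ v.length : ℝ) * (1 + I))
    (cc v + (61 / 100 * (1 / 3) ^ v.length : ℝ) * (1 + I)) / (2 * I)).re

/-- The energy between the square of `p` and those of its children. -/
noncomputable def EN (N : ℕ) (w : List D → ℝ) (V : ℝ) (f : ℂ → ℂ) (p : List D) : ℝ :=
  ∫ z in Sq p \ ⋃ d : D, Sq (p ++ [d]), gr N w V z * ‖deriv f z‖ ^ 2

/-- Decrease of order `m`. -/
noncomputable def rk (m : ℕ) (z : ℂ) : ℝ := ((1 + dist z ctr) ^ m)⁻¹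

/-- Corona data on the complement of the square Cantor set. -/
structure Dat (n : ℕ) (δ : ℝ) (f : Fin n → ℂ → ℂ) : Prop where
  diff : ∀ j, DifferentiableOn ℂ (f j) squareCantorᶜ
  le : ∀ j, ∀ z ∈ squareCantorᶜ, ‖f j z‖ ≤ 1
  ge : ∀ z ∈ squareCantorᶜ, ∃ j, δ ≤ ‖f j z‖

/-- The theorem. -/
def T_EXP : Prop := ∀ (n : ℕ) (δ : ℝ), 0 < δ → ∃ c C : ℝ, 0 < c ∧ 0 < C ∧
  ∀ f : Fin n → ℂ → ℂ, Dat n δ f → ∃ (g : Fin n → ℂ → ℂ) (u : ℂ → ℝ),
    (∀ j, DifferentiableOn ℂ (g j) squareCantorᶜ) ∧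
    (∀ z ∈ squareCantorᶜ, ∑ j, f j z * g j z = 1) ∧
    InnerProductSpace.HarmonicOnNhd u squareCantorᶜ ∧
    (∀ z, 1 ≤ dist z ctr → u z ≤ C) ∧
    ∀ j, ∀ z ∈ squareCantorᶜ, Real.exp (c * ‖g j z‖) ≤ u z

end Pool.Agent.CorE
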