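import Pool.Agent.CorE.P_LGR

/-!
# Corona solutions with exponentially integrable growth: final form
-/

set_option autoImplicit false

namespace Pool.Agent.CorE

open Complex Metric Set Filter Topology MeasureTheory
open Pool.Corona91698f
open scoped Real

/-- The theorem with both bounds. -/
def T_ALL : Prop := ∀ (n : ℕ) (δ : ℝ), 0 < δ → ∃ c C : ℝ, 0 < c ∧ 0 < C ∧
  ∀ f : Fin n → ℂ → ℂ, (∀ j, DifferentiableOn ℂ (f j) squareCantorᶜ) →
    (∀ j, ∀ z ∈ squareCantorᶜ, ‖f j z‖ ≤ 1) → (∀ z ∈ squareCantorᶜ, ∃ j, δ ≤ ‖f j z‖) →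
    ∃ (g : Fin n → ℂ → ℂ) (u : ℂ → ℝ), (∀ j, DifferentiableOn ℂ (g j) squareCantorᶜ) ∧
      (∀ z ∈ squareCantorᶜ, ∑ j, f j z * g j z = 1) ∧
      InnerProductSpace.HarmonicOnNhd u squareCantorᶜ ∧ (∀ z, 2 ≤ ‖z‖ → u z ≤ C) ∧
      ∀ j, ∀ z ∈ squareCantorᶜ, Real.exp (c * ‖g j z‖) ≤ u z ∧
        ‖g j z‖ ≤ C * (1 + max 0 (Real.log (1 / infDist z squareCantor)))

theorem all_of_exp (hCHN : T_CHN) (hCON : T_CON) (hEXP : T_EXP) : T_ALL := by
  intro n δ hδ
  obtain ⟨B, hB1, hB⟩ := p_LGR hCHN hCON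
  obtain ⟨c, A, hc, hA, h⟩ := hEXP n δ hδ
  have hlB : 0 ≤ Real.log B := Real.log_nonneg hB1
  set A' : ℝ := max A 1 with hA'
  have hA'1 : 1 ≤ A' := le_max_right _ _
  have hlA : 0 ≤ Real.log A' := Real.log_nonneg hA'1
  set L : ℝ := (5 * Real.log B + Real.log A') / c with hL
  have hL0 : 0 ≤ L := by positivity
  refine ⟨c, A + L + 1, hc, by positivity, fun f h1 h2 h3 => ?_⟩
  obtain ⟨g, u, g1, g2, g3, g4, g5⟩ := h f ⟨h1, h2, h3⟩
  refine ⟨g, u, g1, g2, g3, ?_, ?_⟩
  · intro z hz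
    have h5 : 1 ≤ dist z ctr := by
      have h6 : ‖ctr‖ ≤ 1 := by
        rw [← sq_le_sq₀ (norm_nonneg _) (by norm_num), Complex.sq_norm, Complex.normSq_apply]
        simp only [ctr]
        norm_num
      rw [dist_eq_norm]
      have := norm_sub_norm_le z ctr
      linarith
    have := g4 z h5
    linarith
  · intro j z hz
    refine ⟨g5 j z hz, ?_⟩
    have hne : squareCantor.Nonempty := nonempty_sC
    have hd : 0 < infDist z squareCantor := infDist_pos' hz
    set d := infDist z squareCantor with hddef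
    obtain ⟨k, hk1, hk2⟩ : ∃ k : ℕ, 151 / 100 < (3 : ℝ) ^ k * d ∧
        (k : ℝ) ≤ 4 + 4 * max 0 (Real.log (1 / d)) := by
      have hl3 : (1 : ℝ) ≤ Real.log 3 := by
        rw [Real.le_log_iff_exp_le (by norm_num)]
        have := Real.exp_one_lt_d9
        linarith
      set L := max 0 (Real.log (1 / d)) with hL
      have hL0 : 0 ≤ L := le_max_left _ _
      refine ⟨⌊L⌋₊ + 2, ?_, ?_⟩
      · have a1 : L < (⌊L⌋₊ : ℝ) + 1 := Nat.lt_floor_add_one L
        have a2 : Real.log (1 / d) ≤ L := le_max_right _ _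
        have a3 : 1 / d ≤ Real.exp L := by
          rw [← Real.log_le_iff_le_exp (by positivity)]
          exact a2
        have a4 : Real.exp L ≤ (3 : ℝ) ^ (⌊L⌋₊ + 1) := by
          rw [← Real.exp_log (show (0 : ℝ) < 3 by norm_num), ← Real.exp_nat_mul]
          apply Real.exp_le_exp.mpr
          push_cast
          nlinarith
        have a5 : 1 ≤ (3 : ℝ) ^ (⌊L⌋₊ + 1) * d := by
          have := a3.trans a4
          rw [div_le_iff₀ hd] at this
          exact this
        have : (3 : ℝ) ^ (⌊L⌋₊ + 2) * d = 3 * ((3 : ℝ) ^ (⌊L⌋₊ + 1) * d) := by ring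
        rw [this]
        linarith
      · push_cast
        have := Nat.floor_le hL0
        linarith
    have h0 : ∀ z ∈ squareCantorᶜ, 0 ≤ u z := fun z hz =>
      (Real.exp_pos _).le.trans (g5 j z hz)
    have h6 := hB u A g3 h0 g4 z hz k hk1
    have h7 : Real.exp (c * ‖g j z‖) ≤ B ^ (k + 1) * A' :=
      (g5 j z hz).trans (h6.trans (mul_le_mul_of_nonneg_left (le_max_left _ _) (by positivity)))
    have h8 : c * ‖g j z‖ ≤ (k + 1) * Real.log B + Real.log A' := by
      rw [← Real.le_log_iff_exp_le (by positivity)] at h7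
      rw [Real.log_mul (by positivity) (by positivity), Real.log_pow] at h7
      push_cast at h7
      exact h7
    set M := max 0 (Real.log (1 / d)) with hM
    have hM0 : 0 ≤ M := le_max_left _ _
    have h9 : c * ‖g j z‖ ≤ (5 * Real.log B + Real.log A') * (1 + M) := by
      refine h8.trans ?_
      nlinarith [mul_nonneg hlB hM0, mul_nonneg hlA hM0, mul_le_mul_of_nonneg_right hk2 hlB]
    have h10 : ‖g j z‖ ≤ L * (1 + M) := by
      rw [hL, div_mul_eq_mul_div, le_div_iff₀ hc]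
      linarith
    refine h10.trans ?_
    nlinarith

end Pool.Agent.CorE
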