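import Pool.Agent.CorE.Targets

/-!
# COE, FGL: solutions of level N with exponential bounds (assembly)
-/

set_option autoImplicit false

namespace Pool.Agent.CorE

open Complex Metric Set Filter Topology MeasureTheory
open Pool.Corona91698f
open scoped Real

namespace FGL_

/-! ### sums over words -/

theorem mem_bl {M : ℕ} {v p : List D} : p ∈ bl M v ↔ p.length ≤ M ∧ v <+: p := by
  unfold bl
  rw [Finset.mem_filter, mem_wd]

theorem child_inj : Function.Injective fun x : List D × D => x.1 ++ [x.2] := by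
  rintro ⟨p, d⟩ ⟨p', d'⟩ h
  have h1 : p ++ [d] = p' ++ [d'] := h
  obtain ⟨h2, h3⟩ := List.append_inj' h1 rfl
  rw [Prod.mk.injEq]
  exact ⟨h2, by simpa using h3⟩

theorem sum_img (F : List D → ℝ) (M : ℕ) (v : List D) :
    ∑ p ∈ bl M v, ∑ d : D, F (p ++ [d]) =
      ∑ u ∈ ((bl M v) ×ˢ (Finset.univ : Finset D)).image (fun x => x.1 ++ [x.2]), F u := by
  rw [Finset.sum_image (fun x _ y _ h => child_inj h), Finset.sum_product]

theorem child_le {F : List D → ℝ} {M : ℕ} {v : List D} (hF : ∀ u ∈ bl (M + 1) v, 0 ≤ F u) :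
    ∑ p ∈ bl M v, ∑ d : D, F (p ++ [d]) ≤ ∑ u ∈ bl (M + 1) v, F u := by
  rw [sum_img]
  refine Finset.sum_le_sum_of_subset_of_nonneg ?_ fun u hu _ => hF u hu
  intro u hu
  rw [Finset.mem_image] at hu
  obtain ⟨⟨p, d⟩, h1, rfl⟩ := hu
  rw [Finset.mem_product] at h1
  obtain ⟨h2, h3⟩ := mem_bl.1 h1.1
  rw [mem_bl]
  exact ⟨by simpa using h2, h3.trans (List.prefix_append _ _)⟩

theorem le_child {F : List D → ℝ} {M : ℕ} {v : List D} (hv : 0 ≤ F v)
    (hF : ∀ p ∈ bl M v, ∀ d, 0 ≤ F (p ++ [d])) :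
    ∑ u ∈ bl (M + 1) v, F u ≤ F v + ∑ p ∈ bl M v, ∑ d : D, F (p ++ [d]) := by
  classical
  rw [sum_img]
  set T := ((bl M v) ×ˢ (Finset.univ : Finset D)).image (fun x => x.1 ++ [x.2]) with hT
  have hTn : ∀ u ∈ T, 0 ≤ F u := by
    intro u hu
    rw [hT, Finset.mem_image] at hu
    obtain ⟨⟨p, d⟩, h1, rfl⟩ := hu
    rw [Finset.mem_product] at h1
    exact hF p h1.1 d
  have hsub : bl (M + 1) v ⊆ insert v T := by
    intro u hu
    obtain ⟨h1, h2⟩ := mem_bl.1 hu
    rw [Finset.mem_insert]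
    rcases List.eq_nil_or_concat u with rfl | ⟨p, d, h₀⟩
    · left
      exact (List.prefix_nil.1 h2).symm
    · rw [List.concat_eq_append] at h₀
      subst h₀
      rcases List.prefix_concat_iff.1 h2 with h3 | h3
      · left
        exact h3.symm
      · right
        rw [hT, Finset.mem_image]
        refine ⟨(p, d), ?_, rfl⟩
        rw [Finset.mem_product]
        refine ⟨mem_bl.2 ⟨?_, h3⟩, Finset.mem_univ _⟩
        simpa using h1
  have h1 : ∑ u ∈ bl (M + 1) v, F u ≤ ∑ u ∈ insert v T, F u := by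
    refine Finset.sum_le_sum_of_subset_of_nonneg hsub fun u hu _ => ?_
    rcases Finset.mem_insert.1 hu with rfl | h
    · exact hv
    · exact hTn u h
  refine h1.trans ?_
  by_cases hvT : v ∈ T
  · rw [Finset.insert_eq_of_mem hvT]
    linarith
  · rw [Finset.sum_insert hvT]

theorem bl_mono {F : List D → ℝ} {M : ℕ} {v : List D} (hF : ∀ u ∈ bl (M + 1) v, 0 ≤ F u) :
    ∑ p ∈ bl M v, F p ≤ ∑ u ∈ bl (M + 1) v, F u := by
  refine Finset.sum_le_sum_of_subset_of_nonneg ?_ fun u hu _ => hF u hu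
  intro u hu
  obtain ⟨h1, h2⟩ := mem_bl.1 hu
  exact mem_bl.2 ⟨by omega, h2⟩

theorem sum_lv_child (K : ℕ) (F : List D → ℝ) :
    ∑ q ∈ lv (K + 1), F q = ∑ p ∈ lv K, ∑ d : D, F (p ++ [d]) := by
  rw [sum_lv_add K 1 F]
  refine Finset.sum_congr rfl fun p _ => ?_
  rw [sum_lv_succ 0 (fun q => F (p ++ q))]
  refine Finset.sum_congr rfl fun d _ => ?_
  simp [lv]

/-! ### circles -/

theorem circ {v : List D} {z : ℂ} (hz : z ∈ sphere (cc v) (77 / 100 * (1 / 3) ^ v.length)) :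
    dist (Psi v z) ctr = 77 / 100 := by
  have h1 := dist_Psi v z (cc v)
  have h2 : Psi v (cc v) = ctr := Psi_Phi v ctr
  rw [h2, mem_sphere.1 hz] at h1
  rw [h1]
  have h3 : (3 : ℝ) ^ v.length * (1 / 3) ^ v.length = 1 := by
    rw [← mul_pow]
    norm_num
  calc (3 : ℝ) ^ v.length * (77 / 100 * (1 / 3) ^ v.length)
      = 77 / 100 * (3 ^ v.length * (1 / 3) ^ v.length) := by ring
    _ = 77 / 100 := by rw [h3, mul_one]

theorem phi_near (x : List D) : dist (Phi x ctr) ctr < 71 / 100 := by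
  induction x with
  | nil =>
    rw [Phi_nil, dist_self]
    norm_num
  | cons d x ih =>
    rw [Phi_cons]
    have h1 := dist_phi' d (Phi x ctr) ctr
    have h2 := dist_phi_ctr d
    have h3 := dist_triangle (phi d (Phi x ctr)) (phi d ctr) ctr
    rw [h1] at h3
    linarith

theorem ne_cc {N : ℕ} {u q : List D} (hu : u.length < N) (hq : q ∈ lv N) {z : ℂ}
    (hz : z ∈ sphere (cc u) (77 / 100 * (1 / 3) ^ u.length)) : z ≠ cc q := by
  rintro rfl
  have h1 := circ hz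
  have h2 : dist (Psi q (cc q)) ctr ≤ 78 / 100 := by
    have : Psi q (cc q) = ctr := Psi_Phi q ctr
    rw [this, dist_self]
    norm_num
  rcases chain (v := u) (w := q) (by rw [h1]; norm_num) h2 with h3 | h3
  · obtain ⟨x, rfl⟩ := h3
    have h4 : Psi u (cc (u ++ x)) = Phi x ctr := by
      unfold cc
      rw [Phi_append, Psi_Phi]
    rw [h4] at h1
    have := phi_near x
    linarith
  · have h4 := h3.length_le
    rw [mem_lv.1 hq] at h4
    omega

theorem ps_cont {N : ℕ} (w : List D → ℝ) {u : List D} (hu : u.length < N) :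
    ContinuousOn (ps N w) (sphere (cc u) (77 / 100 * (1 / 3) ^ u.length)) := by
  unfold ps
  refine continuousOn_finsetSum _ fun q hq => ?_
  refine continuousOn_const.div (continuousOn_id.sub continuousOn_const) fun z hz => ?_
  exact sub_ne_zero.2 (ne_cc hu hq hz)

theorem rad_nonneg (u : List D) : (0 : ℝ) ≤ 77 / 100 * (1 / 3) ^ u.length := by positivity

theorem cm_congr {v : List D} {h h' : ℂ → ℂ}
    (e : ∀ z ∈ sphere (cc v) (77 / 100 * (1 / 3) ^ v.length), h z = h' z) : cm v h = cm v h' := by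
  unfold cm
  rw [circleIntegral.integral_congr (rad_nonneg v) e]

theorem cm_neg (v : List D) (h : ℂ → ℂ) : cm v (fun z => - h z) = - cm v h := by
  unfold cm
  have : (fun z => - h z) = fun z => (-1 : ℂ) * h z := by
    funext z
    ring
  rw [this, circleIntegral.integral_const_mul]
  ring

theorem cm_sub {N : ℕ} (w : List D → ℝ) {u : List D} (hu : u.length < N) {H : ℂ → ℂ} (a : ℂ)
    (hH : ContinuousOn H (sphere (cc u) (77 / 100 * (1 / 3) ^ u.length))) :
    cm u (fun z => (H z - a) * ps N w z) = cm u (fun z => H z * ps N w z) - a * cm u (ps N w) := by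
  unfold cm
  have h1 : (fun z => (H z - a) * ps N w z) = fun z => H z * ps N w z - a * ps N w z := by
    funext z
    ring
  have hp := ps_cont w hu
  have i1 : CircleIntegrable (fun z => H z * ps N w z) (cc u)
      (77 / 100 * (1 / 3) ^ u.length) := (hH.mul hp).circleIntegrable (rad_nonneg u)
  have i2 : CircleIntegrable (fun z => a * ps N w z) (cc u)
      (77 / 100 * (1 / 3) ^ u.length) :=
    (continuousOn_const.mul hp).circleIntegrable (rad_nonneg u)
  rw [h1, circleIntegral.integral_sub i1 i2, circleIntegral.integral_const_mul]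
  ring

/-! ### the jumps -/

variable {n : ℕ}

/-- commutator of two solutions -/
def cg (g : Option (List D) → Fin n → ℂ → ℂ) (R R' : Option (List D)) (i j : Fin n) (z : ℂ) : ℂ :=
  g R i z * g R' j z - g R j z * g R' i z

/-- the defect at `p` -/
noncomputable def MM (N : ℕ) (w : List D → ℝ) (g : Option (List D) → Fin n → ℂ → ℂ) (p : List D)
    (i j : Fin n) : ℂ :=
  ∑ d : D, cm (p ++ [d]) (fun z => (g (some (p ++ [d])) i z * g (some p) j z -
    g (some (p ++ [d])) j z * g (some p) i z) * ps N w z)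

/-- one correction -/
noncomputable def mq (N : ℕ) (w : List D → ℝ) (g : Option (List D) → Fin n → ℂ → ℂ) (p : List D)
    (i j : Fin n) : ℂ :=
  if p.length + 1 < N then MM N w g p i j / w p else 0

/-- the corrections -/
noncomputable def tt (N : ℕ) (w : List D → ℝ) (g : Option (List D) → Fin n → ℂ → ℂ) :
    Option (List D) → Fin n → Fin n → ℂ
  | none => fun _ _ => 0
  | some u => fun i j => ∑ k ∈ Finset.range u.length, mq N w g (u.take k) i j

theorem MM_anti (N : ℕ) (w : List D → ℝ) (g : Option (List D) → Fin n → ℂ → ℂ) (p : List D)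
    (i j : Fin n) : MM N w g p j i = - MM N w g p i j := by
  unfold MM
  rw [← Finset.sum_neg_distrib]
  refine Finset.sum_congr rfl fun d _ => ?_
  rw [← cm_neg]
  congr 1
  funext z
  ring

theorem mq_anti (N : ℕ) (w : List D → ℝ) (g : Option (List D) → Fin n → ℂ → ℂ) (p : List D)
    (i j : Fin n) : mq N w g p j i = - mq N w g p i j := by
  unfold mq
  split_ifs
  · rw [MM_anti, neg_div]
  · rw [neg_zero]

theorem tt_anti (N : ℕ) (w : List D → ℝ) (g : Option (List D) → Fin n → ℂ → ℂ)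
    (R : Option (List D)) (i j : Fin n) : tt N w g R j i = - tt N w g R i j := by
  cases R with
  | none => exact neg_zero.symm
  | some u =>
    show ∑ k ∈ Finset.range u.length, mq N w g (u.take k) j i =
      - ∑ k ∈ Finset.range u.length, mq N w g (u.take k) i j
    rw [← Finset.sum_neg_distrib]
    exact Finset.sum_congr rfl fun k _ => mq_anti N w g _ i j

theorem tt_nil (N : ℕ) (w : List D → ℝ) (g : Option (List D) → Fin n → ℂ → ℂ) (i j : Fin n) :
    tt N w g (some []) i j = 0 := by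
  show ∑ k ∈ Finset.range ([] : List D).length, mq N w g (([] : List D).take k) i j = 0
  simp

theorem tt_snoc (N : ℕ) (w : List D → ℝ) (g : Option (List D) → Fin n → ℂ → ℂ) (p : List D)
    (d : D) (i j : Fin n) :
    tt N w g (some (p ++ [d])) i j = tt N w g (some p) i j + mq N w g p i j := by
  show ∑ k ∈ Finset.range (p ++ [d]).length, mq N w g ((p ++ [d]).take k) i j =
    ∑ k ∈ Finset.range p.length, mq N w g (p.take k) i j + mq N w g p i j
  have h1 : (p ++ [d]).length = p.length + 1 := by simp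
  rw [h1, Finset.sum_range_succ]
  congr 1
  · refine Finset.sum_congr rfl fun k hk => ?_
    rw [Finset.mem_range] at hk
    rw [List.take_append_of_le_length hk.le]
  · rw [List.take_append_of_le_length le_rfl, List.take_length]

/-- the jumps -/
noncomputable def wj (N : ℕ) (w : List D → ℝ) (g : Option (List D) → Fin n → ℂ → ℂ)
    (i j : Fin n) (u : List D) (y : ℂ) : ℂ :=
  cg g (some u) (par u) i j (Phi u y) - (tt N w g (some u) i j - tt N w g (par u) i j)

theorem wj_anti (N : ℕ) (w : List D → ℝ) (g : Option (List D) → Fin n → ℂ → ℂ)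
    (i j : Fin n) (u : List D) (y : ℂ) : wj N w g j i u y = - wj N w g i j u y := by
  unfold wj cg
  rw [tt_anti N w g (some u) i j, tt_anti N w g (par u) i j]
  ring

theorem g_comp {g : Option (List D) → Fin n → ℂ → ℂ}
    (hgd : ∀ R i, DifferentiableOn ℂ (g R i) (NR R)) (R : Option (List D)) (i : Fin n)
    (v : List D) (y : ℂ) (hy : Phi v y ∈ NR R) :
    DifferentiableAt ℂ (fun y => g R i (Phi v y)) y :=
  DifferentiableAt.comp (g := g R i) (f := Phi v) y
    ((hgd R i).differentiableAt ((isOpen_NR R).mem_nhds hy)) (differentiable_Phi v y)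

theorem wj_diff (N : ℕ) (w : List D → ℝ) {g : Option (List D) → Fin n → ℂ → ℂ}
    (hgd : ∀ R i, DifferentiableOn ℂ (g R i) (NR R)) (i j : Fin n) (u : List D) :
    DifferentiableOn ℂ (wj N w g i j u) {z | (74 / 100 : ℝ) < dist z ctr ∧
      dist z ctr < 80 / 100} := by
  rintro y ⟨h1, h2⟩
  have a1 := annulus_some (v := u) h1 h2
  have a2 := annulus_par (v := u) h1 h2
  exact ((((g_comp hgd _ i u y a1).mul (g_comp hgd _ j u y a2)).sub
    ((g_comp hgd _ j u y a1).mul (g_comp hgd _ i u y a2))).sub_const _).differentiableWithinAt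

theorem on_circle {u : List D} {z : ℂ}
    (hz : z ∈ sphere (cc u) (77 / 100 * (1 / 3) ^ u.length)) :
    z ∈ NR (some u) ∧ z ∈ NR (par u) := by
  have h1 := circ hz
  have a1 := annulus_some (v := u) (y := Psi u z) (by rw [h1]; norm_num) (by rw [h1]; norm_num)
  have a2 := annulus_par (v := u) (y := Psi u z) (by rw [h1]; norm_num) (by rw [h1]; norm_num)
  rw [Phi_Psi] at a1 a2
  exact ⟨a1, a2⟩

theorem cg_cont {g : Option (List D) → Fin n → ℂ → ℂ}
    (hgd : ∀ R i, DifferentiableOn ℂ (g R i) (NR R)) (i j : Fin n) (u : List D) :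
    ContinuousOn (cg g (some u) (par u) i j)
      (sphere (cc u) (77 / 100 * (1 / 3) ^ u.length)) := by
  have h1 : ∀ i, ContinuousOn (g (some u) i) (sphere (cc u) (77 / 100 * (1 / 3) ^ u.length)) :=
    fun i => (hgd (some u) i).continuousOn.mono fun z hz => (on_circle hz).1
  have h2 : ∀ i, ContinuousOn (g (par u) i) (sphere (cc u) (77 / 100 * (1 / 3) ^ u.length)) :=
    fun i => (hgd (par u) i).continuousOn.mono fun z hz => (on_circle hz).2
  exact ((h1 i).mul (h2 j)).sub ((h1 j).mul (h2 i))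

/-- the jumps of the corrected cocycle have mean zero -/
theorem mean_zero {N : ℕ} {w : List D → ℝ} {g : Option (List D) → Fin n → ℂ → ℂ}
    (hgd : ∀ R i, DifferentiableOn ℂ (g R i) (NR R)) (hG : GD N w)
    (hcm : ∀ v : List D, v.length ≤ N → cm v (ps N w) = (w v : ℂ)) (i j : Fin n)
    {p : List D} (hp : p.length + 1 < N) :
    ∑ d : D, cm (p ++ [d])
      (fun z => wj N w g i j (p ++ [d]) (Psi (p ++ [d]) z) * ps N w z) = 0 := by
  have hwp : (w p : ℂ) ≠ 0 := by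
    have := hG.pos p (by omega)
    exact_mod_cast this.ne'
  have hadd : ∑ d : D, (w (p ++ [d]) : ℂ) = w p := by
    have := hG.add p (by omega)
    exact_mod_cast congrArg (fun x : ℝ => (x : ℂ)) this
  have h1 : ∀ d : D, cm (p ++ [d]) (fun z => wj N w g i j (p ++ [d]) (Psi (p ++ [d]) z) *
      ps N w z) = cm (p ++ [d]) (fun z => (g (some (p ++ [d])) i z * g (some p) j z -
    g (some (p ++ [d])) j z * g (some p) i z) * ps N w z) -
      MM N w g p i j / w p * (w (p ++ [d]) : ℂ) := by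
    intro d
    have hl : (p ++ [d]).length < N := by
      simp only [List.length_append, List.length_singleton]
      omega
    rw [← hcm (p ++ [d]) hl.le]
    have h2 := cg_cont hgd i j (p ++ [d])
    have h3 := cm_sub w hl (MM N w g p i j / w p) h2
    rw [par_snoc] at h3
    have h4 : cm (p ++ [d]) (fun z => cg g (some (p ++ [d])) (some p) i j z * ps N w z) =
        cm (p ++ [d]) (fun z => (g (some (p ++ [d])) i z * g (some p) j z -
          g (some (p ++ [d])) j z * g (some p) i z) * ps N w z) := rfl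
    rw [← h4, ← h3]
    refine cm_congr fun z _ => ?_
    unfold wj
    rw [par_snoc, Phi_Psi, tt_snoc]
    unfold mq
    rw [if_pos hp]
    ring
  rw [Finset.sum_congr rfl fun d _ => h1 d, Finset.sum_sub_distrib, ← Finset.mul_sum, hadd,
    div_mul_cancel₀ _ hwp]
  unfold MM
  exact sub_self _

/-! ### estimates -/

/-- oscillation of a node and its children -/
noncomputable def OO (o : List D → ℝ) (p : List D) : ℝ := o p + ∑ d : D, o (p ++ [d])

theorem OO_le {o : List D → ℝ} {b : ℝ} (ho : ∀ p, 0 ≤ o p ∧ o p ≤ b) (p : List D) :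
    0 ≤ OO o p ∧ OO o p ≤ 5 * b := by
  unfold OO
  have h1 : ∑ d : D, o (p ++ [d]) ≤ ∑ _d : D, b := Finset.sum_le_sum fun d _ => (ho _).2
  have h2 : ∑ _d : D, b = 4 * b := by
    rw [Finset.sum_const, card_D, nsmul_eq_mul]
    norm_num
  have h3 : 0 ≤ ∑ d : D, o (p ++ [d]) := Finset.sum_nonneg fun d _ => (ho _).1
  have h4 := ho p
  constructor
  · linarith [h4.1]
  · linarith [h4.2]

theorem OO_sum {K : ℕ} {w o : List D → ℝ} {CG Ao : ℝ} (hCG : 1 ≤ CG) (hG : GD (K + 2) w)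
    (hchi : ∀ p : List D, p.length < K + 2 → ∀ d : D, w p ≤ CG * w (p ++ [d]))
    (hs : ∀ v : List D, v.length < K + 2 → ∑ p ∈ bl (K + 1) v, w p * o p ^ 2 ≤ Ao * w v)
    (v : List D) (hv : v.length < K + 2) :
    ∑ p ∈ bl K v, w p * OO o p ^ 2 ≤ (2 + 8 * CG) * Ao * w v := by
  have hnn : ∀ u ∈ bl (K + 1) v, 0 ≤ w u * o u ^ 2 := by
    intro u hu
    have h1 := (mem_bl.1 hu).1
    exact mul_nonneg (hG.pos u (by omega)).le (sq_nonneg _)
  have h1 : ∀ p ∈ bl K v, w p * OO o p ^ 2 ≤ 2 * (w p * o p ^ 2) +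
      8 * CG * ∑ d : D, w (p ++ [d]) * o (p ++ [d]) ^ 2 := by
    intro p hp
    have hpl := (mem_bl.1 hp).1
    have hwp := (hG.pos p (by omega)).le
    have h2 : OO o p ^ 2 ≤ 2 * o p ^ 2 + 8 * ∑ d : D, o (p ++ [d]) ^ 2 := by
      unfold OO
      have h3 : (∑ d : D, o (p ++ [d])) ^ 2 ≤ 4 * ∑ d : D, o (p ++ [d]) ^ 2 := by
        have := sq_sum_le_card_mul_sum_sq (s := (Finset.univ : Finset D))
          (f := fun d => o (p ++ [d]))
        rw [card_D] at this
        exact_mod_cast this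
      nlinarith [sq_nonneg (o p - ∑ d : D, o (p ++ [d]))]
    have h4 : w p * ∑ d : D, o (p ++ [d]) ^ 2 ≤ CG * ∑ d : D, w (p ++ [d]) * o (p ++ [d]) ^ 2 := by
      rw [Finset.mul_sum, Finset.mul_sum]
      refine Finset.sum_le_sum fun d _ => ?_
      rw [← mul_assoc]
      exact mul_le_mul_of_nonneg_right (hchi p (by omega) d) (sq_nonneg _)
    calc w p * OO o p ^ 2 ≤ w p * (2 * o p ^ 2 + 8 * ∑ d : D, o (p ++ [d]) ^ 2) :=
          mul_le_mul_of_nonneg_left h2 hwp
      _ = 2 * (w p * o p ^ 2) + 8 * (w p * ∑ d : D, o (p ++ [d]) ^ 2) := by ring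
      _ ≤ 2 * (w p * o p ^ 2) + 8 * (CG * ∑ d : D, w (p ++ [d]) * o (p ++ [d]) ^ 2) := by linarith
      _ = _ := by ring
  have h5 := bl_mono hnn
  have h6 := child_le (F := fun u => w u * o u ^ 2) hnn
  have h7 := hs v hv
  have h8 : 0 ≤ CG := by linarith
  calc ∑ p ∈ bl K v, w p * OO o p ^ 2
      ≤ ∑ p ∈ bl K v, (2 * (w p * o p ^ 2) +
          8 * CG * ∑ d : D, w (p ++ [d]) * o (p ++ [d]) ^ 2) := Finset.sum_le_sum h1
    _ = 2 * ∑ p ∈ bl K v, w p * o p ^ 2 +
          8 * CG * ∑ p ∈ bl K v, ∑ d : D, w (p ++ [d]) * o (p ++ [d]) ^ 2 := by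
        rw [Finset.sum_add_distrib, ← Finset.mul_sum, ← Finset.mul_sum]
    _ ≤ 2 * (Ao * w v) + 8 * CG * (Ao * w v) := by
        have h9 : ∑ p ∈ bl K v, w p * o p ^ 2 ≤ Ao * w v := h5.trans h7
        have h10 : ∑ p ∈ bl K v, ∑ d : D, w (p ++ [d]) * o (p ++ [d]) ^ 2 ≤ Ao * w v :=
          h6.trans h7
        have h11 : 0 ≤ 8 * CG := by positivity
        have h12 := mul_le_mul_of_nonneg_left h10 h11
        linarith
    _ = _ := by ring

/-- bounds for the jumps -/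
noncomputable def mu (o : List D → ℝ) (a k : ℝ) (u : List D) : ℝ :=
  if u = [] then a else k * OO o u.dropLast

theorem mu_nil (o : List D → ℝ) (a k : ℝ) : mu o a k [] = a := by
  unfold mu
  rw [if_pos rfl]

theorem mu_snoc (o : List D → ℝ) (a k : ℝ) (p : List D) (d : D) :
    mu o a k (p ++ [d]) = k * OO o p := by
  unfold mu
  rw [if_neg (by simp), List.dropLast_concat]

theorem mu_le {o : List D → ℝ} {b a k : ℝ} (ha : 0 ≤ a) (hk : 0 ≤ k)
    (ho : ∀ p, 0 ≤ o p ∧ o p ≤ b) (u : List D) :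
    0 ≤ mu o a k u ∧ mu o a k u ≤ a + k * (5 * b) := by
  have hb : 0 ≤ b := (ho []).1.trans (ho []).2
  unfold mu
  split_ifs
  · exact ⟨ha, by have := mul_nonneg hk (show (0 : ℝ) ≤ 5 * b by positivity); linarith⟩
  · obtain ⟨h1, h2⟩ := OO_le ho u.dropLast
    exact ⟨mul_nonneg hk h1, by have := mul_le_mul_of_nonneg_left h2 hk; linarith⟩

theorem mu_sum {K : ℕ} {w o : List D → ℝ} {a k B CO : ℝ} (hG : GD (K + 2) w)
    (hmu : ∀ u, 0 ≤ mu o a k u ∧ mu o a k u ≤ B)
    (hs : ∀ v : List D, v.length < K + 2 → ∑ p ∈ bl K v, w p * OO o p ^ 2 ≤ CO * w v)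
    (v : List D) (hv : v.length < K + 2) :
    ∑ u ∈ bl (K + 1) v, w u * mu o a k u ^ 2 ≤ (B ^ 2 + k ^ 2 * CO) * w v := by
  have hwv := (hG.pos v hv.le).le
  have h1 := le_child (F := fun u => w u * mu o a k u ^ 2) (M := K) (v := v)
    (mul_nonneg hwv (sq_nonneg _)) (fun p hp d => by
      have h2 := (mem_bl.1 hp).1
      refine mul_nonneg (hG.pos _ ?_).le (sq_nonneg _)
      simp only [List.length_append, List.length_singleton]
      omega)
  have h3 : ∑ p ∈ bl K v, ∑ d : D, w (p ++ [d]) * mu o a k (p ++ [d]) ^ 2 =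
      k ^ 2 * ∑ p ∈ bl K v, w p * OO o p ^ 2 := by
    rw [Finset.mul_sum]
    refine Finset.sum_congr rfl fun p hp => ?_
    have h2 := (mem_bl.1 hp).1
    simp only [mu_snoc]
    rw [← Finset.sum_mul, hG.add p (by omega)]
    ring
  have h4 : w v * mu o a k v ^ 2 ≤ B ^ 2 * w v := by
    have := pow_le_pow_left₀ (hmu v).1 (hmu v).2 2
    nlinarith
  have h5 := mul_le_mul_of_nonneg_left (hs v hv) (sq_nonneg k)
  calc ∑ u ∈ bl (K + 1) v, w u * mu o a k u ^ 2
      ≤ w v * mu o a k v ^ 2 + ∑ p ∈ bl K v, ∑ d : D, w (p ++ [d]) * mu o a k (p ++ [d]) ^ 2 := h1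
    _ ≤ B ^ 2 * w v + k ^ 2 * (CO * w v) := by
        rw [h3]
        linarith
    _ = _ := by ring

theorem incr_sum {K : ℕ} {w ob μ : List D → ℝ} {Y : List D → ℂ} {C5 A1 A : ℝ}
    (hG : GD (K + 2) w)
    (hY : ∀ p : List D, p.length + 1 < K + 2 → ∀ d : D,
      ‖Y (p ++ [d]) - Y p‖ ≤ C5 * (ob p + ob (p ++ [d]) + μ (p ++ [d])))
    (h1 : ∀ v : List D, v.length < K + 2 → ∑ p ∈ bl (K + 1) v, w p * ob p ^ 2 ≤ A1 * w v)
    (h2 : ∀ v : List D, v.length < K + 2 → ∑ p ∈ bl (K + 1) v, w p * μ p ^ 2 ≤ A * w v)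
    (v : List D) (hv : v.length < K + 2) :
    ∑ p ∈ bl K v, ∑ d : D, w (p ++ [d]) * ‖Y (p ++ [d]) - Y p‖ ^ 2 ≤
      3 * C5 ^ 2 * (2 * A1 + A) * w v := by
  have hpos : ∀ u ∈ bl (K + 1) v, 0 ≤ w u := fun u hu => by
    have := (mem_bl.1 hu).1
    exact (hG.pos u (by omega)).le
  have n1 : ∀ u ∈ bl (K + 1) v, 0 ≤ w u * ob u ^ 2 := fun u hu =>
    mul_nonneg (hpos u hu) (sq_nonneg _)
  have n2 : ∀ u ∈ bl (K + 1) v, 0 ≤ w u * μ u ^ 2 := fun u hu =>
    mul_nonneg (hpos u hu) (sq_nonneg _)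
  have h3 : ∀ p ∈ bl K v, ∑ d : D, w (p ++ [d]) * ‖Y (p ++ [d]) - Y p‖ ^ 2 ≤
      3 * C5 ^ 2 * (w p * ob p ^ 2 + ∑ d : D, w (p ++ [d]) * ob (p ++ [d]) ^ 2 +
        ∑ d : D, w (p ++ [d]) * μ (p ++ [d]) ^ 2) := by
    intro p hp
    have hpl := (mem_bl.1 hp).1
    rw [← hG.add p (by omega), Finset.sum_mul, ← Finset.sum_add_distrib,
      ← Finset.sum_add_distrib, Finset.mul_sum]
    refine Finset.sum_le_sum fun d _ => ?_
    have hw : 0 ≤ w (p ++ [d]) := by
      refine (hG.pos _ ?_).le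
      simp only [List.length_append, List.length_singleton]
      omega
    have h4 := hY p (by omega) d
    have h5 : ‖Y (p ++ [d]) - Y p‖ ^ 2 ≤
        3 * C5 ^ 2 * (ob p ^ 2 + ob (p ++ [d]) ^ 2 + μ (p ++ [d]) ^ 2) := by
      have h6 := pow_le_pow_left₀ (norm_nonneg _) h4 2
      refine h6.trans ?_
      have h7 : (ob p + ob (p ++ [d]) + μ (p ++ [d])) ^ 2 ≤
          3 * (ob p ^ 2 + ob (p ++ [d]) ^ 2 + μ (p ++ [d]) ^ 2) := by
        nlinarith [sq_nonneg (ob p - ob (p ++ [d])), sq_nonneg (ob p - μ (p ++ [d])),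
          sq_nonneg (ob (p ++ [d]) - μ (p ++ [d]))]
      have h8 := mul_le_mul_of_nonneg_left h7 (sq_nonneg C5)
      calc (C5 * (ob p + ob (p ++ [d]) + μ (p ++ [d]))) ^ 2
          = C5 ^ 2 * (ob p + ob (p ++ [d]) + μ (p ++ [d])) ^ 2 := by ring
        _ ≤ C5 ^ 2 * (3 * (ob p ^ 2 + ob (p ++ [d]) ^ 2 + μ (p ++ [d]) ^ 2)) := h8
        _ = _ := by ring
    have h9 := mul_le_mul_of_nonneg_left h5 hw
    calc w (p ++ [d]) * ‖Y (p ++ [d]) - Y p‖ ^ 2 ≤ _ := h9
      _ = _ := by ring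
  have e1 : ∑ p ∈ bl K v, w p * ob p ^ 2 ≤ A1 * w v := (bl_mono n1).trans (h1 v hv)
  have e2 : ∑ p ∈ bl K v, ∑ d : D, w (p ++ [d]) * ob (p ++ [d]) ^ 2 ≤ A1 * w v :=
    (child_le (F := fun u => w u * ob u ^ 2) n1).trans (h1 v hv)
  have e3 : ∑ p ∈ bl K v, ∑ d : D, w (p ++ [d]) * μ (p ++ [d]) ^ 2 ≤ A * w v :=
    (child_le (F := fun u => w u * μ u ^ 2) n2).trans (h2 v hv)
  calc ∑ p ∈ bl K v, ∑ d : D, w (p ++ [d]) * ‖Y (p ++ [d]) - Y p‖ ^ 2
      ≤ ∑ p ∈ bl K v, 3 * C5 ^ 2 * (w p * ob p ^ 2 + ∑ d : D, w (p ++ [d]) * ob (p ++ [d]) ^ 2 +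
        ∑ d : D, w (p ++ [d]) * μ (p ++ [d]) ^ 2) := Finset.sum_le_sum h3
    _ = 3 * C5 ^ 2 * (∑ p ∈ bl K v, w p * ob p ^ 2 +
        ∑ p ∈ bl K v, ∑ d : D, w (p ++ [d]) * ob (p ++ [d]) ^ 2 +
        ∑ p ∈ bl K v, ∑ d : D, w (p ++ [d]) * μ (p ++ [d]) ^ 2) := by
        rw [← Finset.mul_sum, Finset.sum_add_distrib, Finset.sum_add_distrib]
    _ ≤ 3 * C5 ^ 2 * (A1 * w v + A1 * w v + A * w v) := by
        refine mul_le_mul_of_nonneg_left ?_ (by positivity)
        linarith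
    _ = _ := by ring

theorem z0_mem : (ctr + ((77 / 100 : ℝ) : ℂ)) ∈ Nd (some []) := by
  have h1 : dist (ctr + ((77 / 100 : ℝ) : ℂ)) ctr = 77 / 100 := by
    rw [dist_eq_norm, add_sub_cancel_left, Complex.norm_real]
    norm_num
  refine ⟨?_, fun d => ?_⟩
  · rw [Psi_nil, h1]
    norm_num
  · rw [Psi_nil]
    have := dist_psi_ge d (ctr + ((77 / 100 : ℝ) : ℂ))
    rw [h1] at this
    linarith

theorem kr_nonneg {k : ℝ} (hk : 0 ≤ k) (p u : List D) : 0 ≤ kr k p u := by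
  unfold kr
  positivity

/-- the points of `Om` near the square of `p ++ [d]` -/
theorem Om_Nd {K : ℕ} {p : List D} {d : D} (hp : p.length = K + 1) {z : ℂ} (hz : z ∈ Om (K + 2))
    (h : dist (Psi (p ++ [d]) z) ctr < 78 / 100) : z ∈ Nd (some p) := by
  refine ⟨?_, fun d' => ?_⟩
  · have := near_append (u := p) (v := [d]) (by simp) h.le
    linarith
  · have h1 : p ++ [d'] ∈ lv (K + 2) := by
      rw [mem_lv]
      simp [hp]
    have h2 := hz _ h1
    rw [Psi_snoc] at h2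
    linarith

/-- points in the overlap of two nodes are in the annulus -/
theorem overlap {u : List D} {z : ℂ} (h1 : z ∈ Nd (par u)) (h2 : z ∈ Nd (some u)) :
    (74 / 100 : ℝ) < dist (Psi u z) ctr ∧ dist (Psi u z) ctr < 80 / 100 := by
  have h3 := Nd_not_anc h1 (not_anc_par u)
  have h4 := h2.1
  constructor
  · linarith
  · linarith

/-- the bound for one correction -/
theorem mq_le {n : ℕ} {N : ℕ} {w : List D → ℝ} {g : Option (List D) → Fin n → ℂ → ℂ}
    {o : List D → ℝ} {C2 : ℝ} (hG : GD N w)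
    (hM : ∀ p : List D, p.length + 1 < N → ∀ i j : Fin n,
      ‖MM N w g p i j‖ ≤ C2 * w p * OO o p ^ 2) (p : List D) (i j : Fin n) :
    ‖mq N w g p i j‖ ≤ C2 * (if p.length + 1 < N then OO o p ^ 2 else 0) := by
  unfold mq
  split_ifs with h
  · have hwp := hG.pos p (by omega)
    rw [norm_div, Complex.norm_real, Real.norm_of_nonneg hwp.le, div_le_iff₀ hwp]
    refine (hM p h i j).trans (le_of_eq ?_)
    ring
  · rw [norm_zero, mul_zero]

theorem tt_le {n : ℕ} {N : ℕ} {w : List D → ℝ} {g : Option (List D) → Fin n → ℂ → ℂ}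
    {o : List D → ℝ} {C2 : ℝ} (hG : GD N w)
    (hM : ∀ p : List D, p.length + 1 < N → ∀ i j : Fin n,
      ‖MM N w g p i j‖ ≤ C2 * w p * OO o p ^ 2) (p : List D) (i j : Fin n) :
    ‖tt N w g (some p) i j‖ ≤ C2 * ∑ k ∈ Finset.range p.length,
      (if (p.take k).length + 1 < N then OO o (p.take k) ^ 2 else 0) := by
  show ‖∑ k ∈ Finset.range p.length, mq N w g (p.take k) i j‖ ≤ _
  rw [Finset.mul_sum]
  exact (norm_sum_le _ _).trans (Finset.sum_le_sum fun k _ => mq_le hG hM _ i j)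

/-- the bound for the jumps -/
theorem wj_le {n : ℕ} {N : ℕ} {w : List D → ℝ} {g : Option (List D) → Fin n → ℂ → ℂ}
    {o : List D → ℝ} {C2 b : ℝ} (hC2 : 0 < C2) (hG : GD N w)
    (ho : ∀ p, 0 ≤ o p ∧ o p ≤ b)
    (hgb : ∀ R i, ∀ z ∈ NR R, ‖g R i z‖ ≤ C2)
    (hM : ∀ p : List D, p.length + 1 < N → ∀ i j : Fin n,
      ‖MM N w g p i j‖ ≤ C2 * w p * OO o p ^ 2)
    (hc : ∀ p : List D, p.length + 1 < N → ∀ (i j : Fin n) (d : D) (z : ℂ), z ∈ NR (some p) →
      z ∈ NR (some (p ++ [d])) → ‖g (some (p ++ [d])) i z * g (some p) j z -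
        g (some (p ++ [d])) j z * g (some p) i z‖ ≤ C2 * OO o p)
    (i j : Fin n) (u : List D) (hu : u.length < N) {y : ℂ} (h1 : (74 / 100 : ℝ) < dist y ctr)
    (h2 : dist y ctr < 80 / 100) :
    ‖wj N w g i j u y‖ ≤ mu o (2 * C2 ^ 2) (C2 * (1 + 5 * b)) u := by
  have a1 := annulus_some (v := u) h1 h2
  have a2 := annulus_par (v := u) h1 h2
  rcases List.eq_nil_or_concat u with rfl | ⟨p, d, h₀⟩
  · rw [mu_nil]
    unfold wj
    have e1 : tt N w g (some []) i j - tt N w g (par []) i j = 0 := by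
      rw [tt_nil, par_nil]
      exact sub_self _
    rw [e1, sub_zero]
    unfold cg
    have b1 : ∀ i j, ‖g (some []) i (Phi [] y) * g (par []) j (Phi [] y)‖ ≤ C2 * C2 := by
      intro i j
      rw [norm_mul]
      exact mul_le_mul (hgb _ _ _ a1) (hgb _ _ _ a2) (norm_nonneg _) hC2.le
    refine (norm_sub_le _ _).trans ?_
    have := b1 i j
    have := b1 j i
    nlinarith
  · rw [List.concat_eq_append] at h₀
    subst h₀
    have hp : p.length + 1 < N := by simpa using hu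
    rw [mu_snoc]
    unfold wj
    rw [par_snoc] at a2 ⊢
    have e1 : tt N w g (some (p ++ [d])) i j - tt N w g (some p) i j = mq N w g p i j := by
      rw [tt_snoc]
      ring
    rw [e1]
    have e2 : ‖cg g (some (p ++ [d])) (some p) i j (Phi (p ++ [d]) y)‖ ≤ C2 * OO o p :=
      hc p hp i j d _ a2 a1
    have e3 := mq_le hG hM p i j
    rw [if_pos hp] at e3
    obtain ⟨o1, o2⟩ := OO_le ho p
    have e4 : OO o p ^ 2 ≤ 5 * b * OO o p := by nlinarith
    have e5 := mul_le_mul_of_nonneg_left e4 hC2.le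
    calc ‖cg g (some (p ++ [d])) (some p) i j (Phi (p ++ [d]) y) - mq N w g p i j‖
        ≤ C2 * OO o p + C2 * OO o p ^ 2 := (norm_sub_le _ _).trans (add_le_add e2 e3)
      _ ≤ C2 * OO o p + C2 * (5 * b * OO o p) := by linarith
      _ = _ := by ring

/-- the oscillations of all data together -/
theorem osc_all {n K : ℕ} {w : List D → ℝ} {oj : Fin n → List D → ℝ} {C1 : ℝ}
    (hG : GD (K + 2) w)
    (hs : ∀ j, ∀ v : List D, v.length < K + 2 →
      ∑ p ∈ bl (K + 1) v, w p * oj j p ^ 2 ≤ C1 * w v)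
    (v : List D) (hv : v.length < K + 2) :
    ∑ p ∈ bl (K + 1) v, w p * (∑ j, oj j p) ^ 2 ≤ (n * (n * C1)) * w v := by
  have h1 : ∀ p ∈ bl (K + 1) v, w p * (∑ j, oj j p) ^ 2 ≤ n * ∑ j, w p * oj j p ^ 2 := by
    intro p hp
    have hwp := (hG.pos p (by have := (mem_bl.1 hp).1; omega)).le
    have h2 : (∑ j, oj j p) ^ 2 ≤ n * ∑ j, oj j p ^ 2 := by
      have := sq_sum_le_card_mul_sum_sq (s := (Finset.univ : Finset (Fin n)))
        (f := fun j => oj j p)
      simpa using this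
    rw [← Finset.mul_sum]
    have h3 := mul_le_mul_of_nonneg_left h2 hwp
    linarith
  calc ∑ p ∈ bl (K + 1) v, w p * (∑ j, oj j p) ^ 2
      ≤ ∑ p ∈ bl (K + 1) v, n * ∑ j, w p * oj j p ^ 2 := Finset.sum_le_sum h1
    _ = n * ∑ j, ∑ p ∈ bl (K + 1) v, w p * oj j p ^ 2 := by
        rw [← Finset.mul_sum, Finset.sum_comm]
    _ ≤ n * ∑ _j : Fin n, C1 * w v := by
        refine mul_le_mul_of_nonneg_left ?_ (Nat.cast_nonneg n)
        exact Finset.sum_le_sum fun j _ => hs j v hv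
    _ = _ := by
        rw [Finset.sum_const, Finset.card_univ, Fintype.card_fin, nsmul_eq_mul]
        ring

/-- the sum over the words of length `K + 2` -/
theorem exp_sum {K : ℕ} {w : List D → ℝ} {C6 lam0 K1 : ℝ} {SA : List D → ℝ} (hG : GD (K + 2) w)
    (hK1 : 0 < K1)
    (h : ∑ q ∈ lv (K + 1), w q * Real.exp (lam0 * SA q) ≤ C6) :
    ∑ q ∈ lv (K + 2), w q * Real.exp (lam0 / K1 * (K1 * (1 + SA q.dropLast))) ≤
      Real.exp lam0 * C6 := by
  have e1 := sum_lv_child (K + 1)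
    (fun q => w q * Real.exp (lam0 / K1 * (K1 * (1 + SA q.dropLast))))
  have e2 : ∑ q ∈ lv (K + 2), w q * Real.exp (lam0 / K1 * (K1 * (1 + SA q.dropLast))) =
      Real.exp lam0 * ∑ q ∈ lv (K + 1), w q * Real.exp (lam0 * SA q) := by
    refine e1.trans ?_
    rw [Finset.mul_sum]
    refine Finset.sum_congr rfl fun p hp => ?_
    have hpl := mem_lv.1 hp
    simp only [List.dropLast_concat]
    rw [← Finset.sum_mul, hG.add p (by omega)]
    have e3 : lam0 / K1 * (K1 * (1 + SA p)) = lam0 + lam0 * SA p := by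
      field_simp
    rw [e3, Real.exp_add]
    ring
  rw [e2]
  exact mul_le_mul_of_nonneg_left h (Real.exp_pos _).le

end FGL_

open FGL_ in
theorem p_FGL (hLPO : T_LPO) (hSLF : T_SLF) (hSYS : T_SYS) (hSCH : T_SCH) (hMRT : T_MRT)
    (hGLA : T_GLA) (hJNT : T_JNT) (hCMP : T_CMP) : T_FGL := by
  classical
  intro n δ CG hδ hCG
  obtain ⟨C1, hC1, hlpo⟩ := hLPO CG
  obtain ⟨C2, hC2, hslf⟩ := hSLF n δ CG hδ
  obtain ⟨m, hm⟩ := hSCH CG hCG
  obtain ⟨C3, hC3, hsch⟩ := hm m le_rfl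
  obtain ⟨C4, hC4, hsys⟩ := hSYS m
  obtain ⟨C5, hC5, hmrt⟩ := hMRT CG
  have hn0 : (0 : ℝ) ≤ n := Nat.cast_nonneg n
  obtain ⟨Ao, hAo⟩ : ∃ x : ℝ, x = n * (n * C1) := ⟨_, rfl⟩
  obtain ⟨CO, hCO⟩ : ∃ x : ℝ, x = (2 + 8 * CG) * Ao := ⟨_, rfl⟩
  obtain ⟨k, hk⟩ : ∃ x : ℝ, x = C2 * (1 + 5 * (2 * n)) := ⟨_, rfl⟩
  obtain ⟨B, hB⟩ : ∃ x : ℝ, x = 2 * C2 ^ 2 + k * (5 * (2 * n)) := ⟨_, rfl⟩
  obtain ⟨A, hA⟩ : ∃ x : ℝ, x = B ^ 2 + k ^ 2 * CO := ⟨_, rfl⟩
  obtain ⟨b1, hb1⟩ : ∃ x : ℝ, x = C4 * (C3 * B) := ⟨_, rfl⟩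
  obtain ⟨A1, hA1⟩ : ∃ x : ℝ, x = C4 ^ 2 * (C3 * (A + B ^ 2)) := ⟨_, rfl⟩
  have hAo0 : 0 ≤ Ao := by rw [hAo]; positivity
  have hCG0 : 0 ≤ CG := by linarith
  have hCO0 : 0 ≤ CO := by rw [hCO]; positivity
  have hk0 : 0 ≤ k := by rw [hk]; positivity
  have hB0 : 0 < B := by rw [hB]; positivity
  have hA0 : 0 ≤ A := by rw [hA]; positivity
  have hb10 : 0 ≤ b1 := by rw [hb1]; positivity
  have hA10 : 0 ≤ A1 := by rw [hA1]; positivity
  obtain ⟨B', hB'⟩ : ∃ x : ℝ, x = (5 * (2 * n)) ^ 2 + CO + C5 * (b1 + b1 + B) +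
    3 * C5 ^ 2 * (2 * A1 + A) + 1 := ⟨_, rfl⟩
  have t1 : (0 : ℝ) ≤ (5 * (2 * n)) ^ 2 := sq_nonneg _
  have t2 : 0 ≤ C5 * (b1 + b1 + B) := by positivity
  have t3 : 0 ≤ 3 * C5 ^ 2 * (2 * A1 + A) := by positivity
  have hB'0 : 0 < B' := by rw [hB']; linarith
  obtain ⟨lam0, C6, hlam0, hC6, hjnt⟩ := hJNT (n * n) B' hB'0
  obtain ⟨c0, hc0⟩ : ∃ x : ℝ, x = C5 * b1 + (C5 * b1 + b1) := ⟨_, rfl⟩
  have hc00 : 0 ≤ c0 := by rw [hc0]; positivity
  obtain ⟨K1, hK1⟩ : ∃ x : ℝ, x = C2 + n * (c0 + 1 + C2) + 1 := ⟨_, rfl⟩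
  have hK10 : 0 < K1 := by rw [hK1]; positivity
  refine ⟨lam0 / K1, Real.exp lam0 * C6 + (C2 + n * b1), by positivity, by positivity, ?_⟩
  intro N w V f hN hGB hDat
  obtain ⟨K, rfl⟩ : ∃ K, N = K + 2 := ⟨N - 2, by omega⟩
  have hG : GD (K + 2) w := hGB.toGD
  have hN1 : 1 ≤ K + 2 := by omega
  -- oscillations
  choose oj hoj1 hoj2 hoj3 using fun j =>
    hlpo (K + 2) w V (f j) hN1 hGB (hDat.diff j) (hDat.le j)
  obtain ⟨o, ho⟩ : ∃ x : List D → ℝ, x = fun p => ∑ j, oj j p := ⟨_, rfl⟩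
  have hob : ∀ p, 0 ≤ o p ∧ o p ≤ 2 * n := by
    intro p
    rw [ho]
    refine ⟨Finset.sum_nonneg fun j _ => (hoj1 j p).1, ?_⟩
    calc ∑ j, oj j p ≤ ∑ _j : Fin n, (2 : ℝ) := Finset.sum_le_sum fun j _ => (hoj1 j p).2
      _ = 2 * n := by
        rw [Finset.sum_const, Finset.card_univ, Fintype.card_fin, nsmul_eq_mul]
        ring
  have hoo : ∀ j p x y, Psi p x ∈ nodeX → Psi p y ∈ nodeX → ‖f j x - f j y‖ ≤ o p := by
    intro j p x y hx hy
    rw [ho]
    exact (hoj2 j p x y hx hy).trans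
      (Finset.single_le_sum (f := fun j => oj j p) (fun j _ => (hoj1 j p).1) (Finset.mem_univ j))
  have hos : ∀ v : List D, v.length < K + 2 → ∑ p ∈ bl (K + 1) v, w p * o p ^ 2 ≤ Ao * w v := by
    intro v hv
    rw [ho, hAo]
    exact osc_all hG (fun j v hv => hoj3 j v hv) v hv
  have hOs : ∀ v : List D, v.length < K + 2 → ∑ p ∈ bl K v, w p * OO o p ^ 2 ≤ CO * w v := by
    intro v hv
    rw [hCO]
    exact OO_sum hCG hG hGB.chi hos v hv
  -- local solutions
  obtain ⟨g, hgd, hgb, hgs, hgp⟩ := hslf (K + 2) w V f o hN1 hGB hDat (fun p => (hob p).1) hoo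
  have hM : ∀ p : List D, p.length + 1 < K + 2 → ∀ i j : Fin n,
      ‖MM (K + 2) w g p i j‖ ≤ C2 * w p * OO o p ^ 2 := fun p hp i j => (hgp p hp i j).2
  have hc : ∀ p : List D, p.length + 1 < K + 2 → ∀ (i j : Fin n) (d : D) (z : ℂ),
      z ∈ NR (some p) → z ∈ NR (some (p ++ [d])) → ‖g (some (p ++ [d])) i z * g (some p) j z -
        g (some (p ++ [d])) j z * g (some p) i z‖ ≤ C2 * OO o p :=
    fun p hp i j d z h1 h2 => (hgp p hp i j).1 d z h1 h2
  -- the jumps
  obtain ⟨μ, hμ⟩ : ∃ x : List D → ℝ, x = mu o (2 * C2 ^ 2) k := ⟨_, rfl⟩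
  have hμb : ∀ u, 0 ≤ μ u ∧ μ u ≤ B := by
    intro u
    rw [hμ, hB]
    exact mu_le (by positivity) hk0 hob u
  have hwjb : ∀ i j u, u.length < K + 2 → ∀ z, (74 / 100 : ℝ) < dist z ctr →
      dist z ctr < 80 / 100 → ‖wj (K + 2) w g i j u z‖ ≤ μ u := by
    intro i j u hu z h1 h2
    rw [hμ, hk]
    exact wj_le hC2 hG hob hgb hM hc i j u hu h1 h2
  have hμs : ∀ v : List D, v.length < K + 2 → ∑ u ∈ bl (K + 1) v, w u * μ u ^ 2 ≤ A * w v := by
    intro v hv
    rw [hμ, hA]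
    exact mu_sum hG (fun u => by rw [← hμ]; exact hμb u) hOs v hv
  obtain ⟨s1, s2, s3⟩ := hsch (K + 2) w μ A B hN1 hG hGB.chi hμb hA0 hμs
  choose S hSd hSj hSo hSn hSe using fun i j => hsys (K + 2) (wj (K + 2) w g i j) μ hN1
    (fun u => (hμb u).1) (fun u hu => ⟨wj_diff (K + 2) w hgd i j u, hwjb i j u hu⟩)
  obtain ⟨T, hT⟩ : ∃ x : Option (List D) → Fin n → Fin n → ℂ → ℂ,
    x = fun R i j z => (S i j R z - S j i R z) / 2 := ⟨_, rfl⟩
  have half : ∀ (a b : ℂ) (r : ℝ), ‖a‖ ≤ r → ‖b‖ ≤ r → ‖(a - b) / 2‖ ≤ r := by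
    intro a b r ha hb
    rw [norm_div, Complex.norm_two, div_le_iff₀ (by norm_num)]
    have := norm_sub_le a b
    linarith
  obtain ⟨ob, hob'⟩ : ∃ x : List D → ℝ, x = fun p =>
    C4 * ∑ u ∈ wd (K + 2 - 1), kr ((1 / 3) ^ m) p u * μ u := ⟨_, rfl⟩
  have hκ0 : (0 : ℝ) ≤ (1 / 3) ^ m := by positivity
  have hob0 : ∀ p, 0 ≤ ob p := by
    intro p
    rw [hob']
    exact mul_nonneg hC4.le (Finset.sum_nonneg fun u _ =>
      mul_nonneg (kr_nonneg hκ0 p u) (hμb u).1)
  have hobb : ∀ p, ob p ≤ b1 := by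
    intro p
    rw [hob', hb1]
    exact mul_le_mul_of_nonneg_left (s1 p) hC4.le
  have hobs : ∀ v : List D, v.length < K + 2 → ∑ p ∈ bl (K + 1) v, w p * ob p ^ 2 ≤ A1 * w v := by
    intro v hv
    have h1 := s3 v hv
    have h2 : ∑ p ∈ bl (K + 1) v, w p * ob p ^ 2 = C4 ^ 2 * ∑ p ∈ bl (K + 1) v,
        w p * (∑ u ∈ wd (K + 2 - 1), kr ((1 / 3) ^ m) p u * μ u) ^ 2 := by
      rw [hob', Finset.mul_sum]
      refine Finset.sum_congr rfl fun p _ => ?_
      ring
    rw [h2, hA1]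
    have h3 := mul_le_mul_of_nonneg_left h1 (sq_nonneg C4)
    calc C4 ^ 2 * ∑ p ∈ bl (K + 1) v,
        w p * (∑ u ∈ wd (K + 2 - 1), kr ((1 / 3) ^ m) p u * μ u) ^ 2
        ≤ C4 ^ 2 * (C3 * (A + B ^ 2) * w v) := h3
      _ = _ := by ring
  have hTd : ∀ R i j, DifferentiableOn ℂ (T R i j) (Nd R) := by
    intro R i j
    rw [hT]
    exact ((hSd i j R).sub (hSd j i R)).div_const 2
  have hTanti : ∀ R i j z, T R j i z = - T R i j z := by
    intro R i j z
    rw [hT]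
    ring
  have hTj : ∀ i j (u : List D), u.length < K + 2 → ∀ z ∈ Nd (par u), z ∈ Nd (some u) →
      T (some u) i j z - T (par u) i j z = wj (K + 2) w g i j u (Psi u z) := by
    intro i j u hu z h1 h2
    have e1 := hSj i j u hu z h1 h2
    have e2 := hSj j i u hu z h1 h2
    rw [wj_anti (K + 2) w g i j u] at e2
    rw [hT]
    linear_combination e1 / 2 - e2 / 2
  have hTo : ∀ i j (p : List D), ∀ z ∈ Nd (some p), ∀ z' ∈ Nd (some p),
      ‖T (some p) i j z - T (some p) i j z'‖ ≤ ob p := by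
    intro i j p z hz z' hz'
    rw [hT, hob']
    have e1 := hSo i j p z hz z' hz'
    have e2 := hSo j i p z hz z' hz'
    have e3 : (S i j (some p) z - S j i (some p) z) / 2 - (S i j (some p) z' -
        S j i (some p) z') / 2 = ((S i j (some p) z - S i j (some p) z') -
          (S j i (some p) z - S j i (some p) z')) / 2 := by ring
    show ‖(S i j (some p) z - S j i (some p) z) / 2 - (S i j (some p) z' -
        S j i (some p) z') / 2‖ ≤ _
    rw [e3]
    exact half _ _ _ e1 e2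
  have hTn : ∀ i j, ∀ z ∈ Nd none, ‖T none i j z‖ ≤ b1 := by
    intro i j z hz
    rw [hT, hb1]
    have h3 := mul_le_mul_of_nonneg_left s2 hC4.le
    exact half _ _ _ ((hSn i j z hz).trans h3) ((hSn j i z hz).trans h3)
  have hTe : ∀ i j, ∀ z ∈ Nd (some []), ‖T (some []) i j z‖ ≤ b1 := by
    intro i j z hz
    rw [hT, hb1]
    have h3 := mul_le_mul_of_nonneg_left s2 hC4.le
    exact half _ _ _ ((hSe i j z hz).trans h3) ((hSe j i z hz).trans h3)
  -- the martingales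
  have hcm : ∀ v : List D, v.length ≤ K + 2 → cm v (ps (K + 2) w) = (w v : ℂ) :=
    fun v hv => (hCMP (K + 2) w hG.add v hv).1
  choose Y hY1 hY2 hY3 using fun i j => hmrt (K + 2) w V (fun R => T R i j)
    (fun u z => wj (K + 2) w g i j u (Psi u z)) μ ob hN1 hGB (fun R => hTd R i j)
    (fun u hu z h1 h2 => by
      obtain ⟨a1, a2⟩ := overlap h1 h2
      exact ⟨hTj i j u hu z h1 h2, hwjb i j u hu _ a1 a2⟩)
    (fun p _ z hz z' hz' => hTo i j p z hz z' hz')
    (fun p hp => mean_zero hgd hG hcm i j hp)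
  obtain ⟨τ, hτ⟩ : ∃ x : List D → ℝ, x = fun p =>
    if p.length + 1 < K + 2 then OO o p ^ 2 else 0 := ⟨_, rfl⟩
  have hτ0 : ∀ p, 0 ≤ τ p ∧ τ p ≤ B' := by
    intro p
    rw [hτ]
    have h1 := OO_le hob p
    have h2 := pow_le_pow_left₀ h1.1 h1.2 2
    show 0 ≤ (if p.length + 1 < K + 2 then OO o p ^ 2 else 0) ∧
      (if p.length + 1 < K + 2 then OO o p ^ 2 else 0) ≤ B'
    split_ifs
    · refine ⟨sq_nonneg _, ?_⟩
      rw [hB']
      linarith
    · exact ⟨le_rfl, hB'0.le⟩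
  have hwle : ∀ (x : ℝ) (v : List D), v.length < K + 2 → x ≤ B' → x * w v ≤ B' * w v :=
    fun x v hv hx => mul_le_mul_of_nonneg_right hx (hG.pos v hv.le).le
  have hGD1 : GD (K + 1) w := ⟨fun v hv => hG.pos v (by omega), fun p hp => hG.add p (by omega)⟩
  obtain ⟨e, he⟩ : ∃ x : Fin (n * n) ≃ Fin n × Fin n, x = finProdFinEquiv.symm := ⟨_, rfl⟩
  have hJ := hjnt (K + 1) w (fun a => Y (e a).1 (e a).2) τ hGD1 hτ0
    (fun a p hp => hY1 _ _ p (by omega))
    (fun a p hp d => by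
      refine (hY3 _ _ p (by omega) d).trans ?_
      have h1 := hobb p
      have h2 := hobb (p ++ [d])
      have h3 := (hμb (p ++ [d])).2
      have h4 : C5 * (ob p + ob (p ++ [d]) + μ (p ++ [d])) ≤ C5 * (b1 + b1 + B) :=
        mul_le_mul_of_nonneg_left (by linarith) hC5.le
      rw [hB']
      linarith)
    (fun a v hv => by
      refine (incr_sum hG (fun p hp d => hY3 _ _ p hp d) hobs hμs v (by omega)).trans
        (hwle _ v (by omega) ?_)
      rw [hB']
      linarith)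
    (fun v hv => by
      have h1 : ∑ p ∈ bl K v, w p * τ p = ∑ p ∈ bl K v, w p * OO o p ^ 2 := by
        refine Finset.sum_congr rfl fun p hp => ?_
        have h2 := (mem_bl.1 hp).1
        rw [hτ]
        show w p * (if p.length + 1 < K + 2 then OO o p ^ 2 else 0) = w p * OO o p ^ 2
        rw [if_pos (by omega)]
      show ∑ p ∈ bl K v, w p * τ p ≤ B' * w v
      rw [h1]
      refine (hOs v (by omega)).trans (hwle _ v (by omega) ?_)
      rw [hB']
      linarith)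
  rw [hGB.one, mul_one] at hJ
  -- gluing
  obtain ⟨G, hGd, hGs, hGe⟩ := hGLA n (K + 2) f g T (tt (K + 2) w g) hN1 hDat.diff hgd hgs hTd
    hTanti (fun R i j => tt_anti (K + 2) w g R i j)
    (fun u hu i j z h1 h2 => by
      have e1 := hTj i j u hu z h1 h2
      unfold wj cg at e1
      rw [Phi_Psi] at e1
      linear_combination e1)
  obtain ⟨SA, hSA⟩ : ∃ x : List D → ℝ, x = fun q =>
    ∑ a : Fin (n * n), ‖Y (e a).1 (e a).2 q - Y (e a).1 (e a).2 []‖ +
      ∑ k ∈ Finset.range (K + 1), τ (q.take k) := ⟨_, rfl⟩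
  have hSA0 : ∀ q, 0 ≤ SA q := by
    intro q
    rw [hSA]
    exact add_nonneg (Finset.sum_nonneg fun a _ => norm_nonneg _)
      (Finset.sum_nonneg fun k _ => (hτ0 _).1)
  have hfle : ∀ R j, ∀ z ∈ Nd R, ‖f j z‖ ≤ 1 := fun R j z hz => hDat.le j z (Nd_notMem hz)
  have hYn : ∀ i j, ‖Y i j []‖ ≤ C5 * b1 + b1 := by
    intro i j
    have h1 := hY2 i j [] (by simp) _ z0_mem
    have h2 := hTe i j _ z0_mem
    have h3 : C5 * ob [] ≤ C5 * b1 := mul_le_mul_of_nonneg_left (hobb []) hC5.le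
    have h4 : ‖Y i j []‖ ≤ ‖T (some []) i j (ctr + ((77 / 100 : ℝ) : ℂ)) - Y i j []‖ +
        ‖T (some []) i j (ctr + ((77 / 100 : ℝ) : ℂ))‖ := by
      have := norm_sub_le (T (some []) i j (ctr + ((77 / 100 : ℝ) : ℂ)))
        (T (some []) i j (ctr + ((77 / 100 : ℝ) : ℂ)) - Y i j [])
      rw [sub_sub_cancel] at this
      linarith
    exact h4.trans (add_le_add (h1.trans h3) h2)
  refine ⟨G, fun q => K1 * (1 + SA q.dropLast), hGd, hGs,
    fun q => mul_nonneg hK10.le (by have := hSA0 q.dropLast; linarith), ?_, ?_, ?_⟩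
  · have h1 := exp_sum (C6 := C6) (SA := SA) hG hK10 (by rw [hSA]; exact hJ)
    have h2 : 0 ≤ C2 + n * b1 := by positivity
    linarith
  · intro i q hq z hz hd
    rcases List.eq_nil_or_concat q with rfl | ⟨p, d, h₀⟩
    · have := mem_lv.1 hq
      simp at this
    rw [List.concat_eq_append] at h₀
    subst h₀
    have hpl : p.length = K + 1 := by
      have := mem_lv.1 hq
      simpa using this
    have hzN := Om_Nd hpl hz hd
    show ‖G i z‖ ≤ K1 * (1 + SA (p ++ [d]).dropLast)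
    rw [hGe (some p) (fun v hv => by
      obtain rfl := Option.some.inj hv
      omega) z hzN i, List.dropLast_concat]
    have h1 : ‖g (some p) i z‖ ≤ C2 := hgb _ _ _ (Nd_subset_NR _ hzN)
    have hA2 : ∀ j, ‖Y i j p - Y i j []‖ ≤
        ∑ a : Fin (n * n), ‖Y (e a).1 (e a).2 p - Y (e a).1 (e a).2 []‖ := by
      intro j
      have h2 := Finset.single_le_sum
        (f := fun a : Fin (n * n) => ‖Y (e a).1 (e a).2 p - Y (e a).1 (e a).2 []‖)
        (fun a _ => norm_nonneg _) (Finset.mem_univ (e.symm (i, j)))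
      simpa using h2
    obtain ⟨X1, hX1⟩ : ∃ x : ℝ, x = ∑ a : Fin (n * n),
      ‖Y (e a).1 (e a).2 p - Y (e a).1 (e a).2 []‖ := ⟨_, rfl⟩
    obtain ⟨X2, hX2⟩ : ∃ x : ℝ, x = ∑ k ∈ Finset.range (K + 1), τ (p.take k) := ⟨_, rfl⟩
    have hX10 : 0 ≤ X1 := by rw [hX1]; exact Finset.sum_nonneg fun a _ => norm_nonneg _
    have hX20 : 0 ≤ X2 := by rw [hX2]; exact Finset.sum_nonneg fun k _ => (hτ0 _).1
    have hSp : SA p = X1 + X2 := by rw [hSA, hX1, hX2]
    have h3 : ∀ j, ‖(T (some p) i j z + tt (K + 2) w g (some p) i j) * f j z‖ ≤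
        c0 + X1 + C2 * X2 := by
      intro j
      rw [norm_mul]
      have e1 : ‖tt (K + 2) w g (some p) i j‖ ≤ C2 * X2 := by
        have := tt_le hG hM p i j
        rw [hpl] at this
        rw [hX2, hτ]
        exact this
      have e2 : ‖T (some p) i j z‖ ≤ c0 + X1 := by
        have a1 := hY2 i j p (by omega) z hzN
        have a2 : C5 * ob p ≤ C5 * b1 := mul_le_mul_of_nonneg_left (hobb p) hC5.le
        have a3 := hA2 j
        rw [← hX1] at a3
        have a4 := hYn i j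
        have a5 : T (some p) i j z = (T (some p) i j z - Y i j p) + (Y i j p - Y i j []) +
          Y i j [] := by ring
        have a6 : ‖T (some p) i j z‖ ≤ ‖T (some p) i j z - Y i j p‖ + ‖Y i j p - Y i j []‖ +
            ‖Y i j []‖ := by
          conv_lhs => rw [a5]
          exact norm_add₃_le
        rw [hc0]
        linarith
      have e3 : ‖T (some p) i j z + tt (K + 2) w g (some p) i j‖ ≤ c0 + X1 + C2 * X2 :=
        (norm_add_le _ _).trans (add_le_add e2 e1)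
      have e4 := hfle _ j z hzN
      calc ‖T (some p) i j z + tt (K + 2) w g (some p) i j‖ * ‖f j z‖
          ≤ (c0 + X1 + C2 * X2) * 1 :=
            mul_le_mul e3 e4 (norm_nonneg _) (by positivity)
        _ = _ := mul_one _
    have h4 : ‖∑ j, (T (some p) i j z + tt (K + 2) w g (some p) i j) * f j z‖ ≤
        n * (c0 + X1 + C2 * X2) := by
      refine (norm_sum_le _ _).trans ((Finset.sum_le_sum fun j _ => h3 j).trans (le_of_eq ?_))
      rw [Finset.sum_const, Finset.card_univ, Fintype.card_fin, nsmul_eq_mul]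
    have h5 : C2 + n * (c0 + X1 + C2 * X2) ≤ K1 * (1 + SA p) := by
      rw [hSp, hK1]
      have p1 : 0 ≤ n * c0 * X1 := by positivity
      have p2 : 0 ≤ n * c0 * X2 := by positivity
      have p3 : 0 ≤ n * C2 * X1 := by positivity
      have p4 : 0 ≤ n * X2 := by positivity
      have p5 : 0 ≤ C2 * X1 := by positivity
      have p6 : 0 ≤ C2 * X2 := by positivity
      have p7 : 0 ≤ n * C2 := by positivity
      nlinarith
    exact ((norm_sub_le _ _).trans (add_le_add h1 h4)).trans h5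
  · intro i z hz
    have hzN : z ∈ Nd none := hz
    rw [hGe none (fun v hv => by simp at hv) z hzN i]
    have h1 : ‖g none i z‖ ≤ C2 := hgb _ _ _ (Nd_subset_NR _ hzN)
    have h3 : ∀ j, ‖(T none i j z + tt (K + 2) w g none i j) * f j z‖ ≤ b1 := by
      intro j
      have e1 : tt (K + 2) w g none i j = 0 := rfl
      rw [e1, add_zero, norm_mul]
      calc ‖T none i j z‖ * ‖f j z‖ ≤ b1 * 1 :=
            mul_le_mul (hTn i j z hzN) (hfle _ j z hzN) (norm_nonneg _) hb10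
        _ = b1 := mul_one _
    have h4 : ‖∑ j, (T none i j z + tt (K + 2) w g none i j) * f j z‖ ≤ n * b1 := by
      refine (norm_sum_le _ _).trans ((Finset.sum_le_sum fun j _ => h3 j).trans (le_of_eq ?_))
      rw [Finset.sum_const, Finset.card_univ, Fintype.card_fin, nsmul_eq_mul]
    have h5 := (norm_sub_le _ _).trans (add_le_add h1 h4)
    have h6 : 0 ≤ Real.exp lam0 * C6 := by positivity
    linarith

end Pool.Agent.CorE
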