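import Pool.Agent.CorE.Targets

/-!
# The discrete Green function (GRN)
-/

set_option autoImplicit false

namespace Pool.Agent.CorE

open Complex Metric Set Filter Topology MeasureTheory
open Pool.Corona91698f
open scoped Real

namespace GRN_

/-! ### weights -/

theorem gr_congr {N : ℕ} {w w0 : List D → ℝ} (h : ∀ q ∈ lv N, w q = w0 q) (V : ℝ) (z : ℂ) :
    gr N w V z = gr N w0 V z := by
  unfold gr hp
  congr 1
  exact Finset.sum_congr rfl fun q hq => by rw [h q hq]

theorem kp_congr {N : ℕ} {w w0 : List D → ℝ} (h : ∀ q ∈ lv N, w q = w0 q) (V l : ℝ)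
    {q : List D} (hq : q ∈ lv N) : kp (lv N) cc l w V q = kp (lv N) cc l w0 V q := by
  unfold kp
  rw [h q hq]
  congr 1
  exact Finset.sum_congr rfl fun q' hq' => by rw [h q' (Finset.mem_of_mem_erase hq')]

/-- the charge below `v` -/
noncomputable def W (N : ℕ) (w0 : List D → ℝ) (v : List D) : ℝ :=
  ∑ q ∈ (lv N).filter (fun q => v <+: q), w0 q

theorem W_top {N : ℕ} {w0 : List D → ℝ} {q : List D} (hq : q ∈ lv N) : W N w0 q = w0 q := by
  unfold W
  have : (lv N).filter (fun q' => q <+: q') = {q} := by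
    ext q'
    rw [Finset.mem_filter, Finset.mem_singleton]
    constructor
    · rintro ⟨h1, h2⟩
      exact (h2.eq_of_length (by rw [mem_lv.1 hq, mem_lv.1 h1])).symm
    · rintro rfl
      exact ⟨hq, List.prefix_rfl⟩
  rw [this, Finset.sum_singleton]

theorem W_add {N : ℕ} {w0 : List D → ℝ} {p : List D} (hp : p.length < N) :
    ∑ d : D, W N w0 (p ++ [d]) = W N w0 p := by
  unfold W
  simp only [Finset.sum_filter]
  rw [Finset.sum_comm]
  refine Finset.sum_congr rfl fun q hq => ?_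
  have hqN : q.length = N := mem_lv.1 hq
  by_cases h : p <+: q
  · obtain ⟨r, rfl⟩ := h
    rw [if_pos (List.prefix_append _ _)]
    cases r with
    | nil =>
      rw [List.append_nil] at hqN
      omega
    | cons d0 r =>
      rw [Finset.sum_eq_single d0]
      · rw [if_pos]
        exact ⟨r, by simp⟩
      · intro d _ hd
        rw [if_neg]
        rintro ⟨s, hs⟩
        rw [List.append_assoc, List.append_cancel_left_eq] at hs
        injection hs with hs1 _
        exact hd hs1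
      · intro h
        exact absurd (Finset.mem_univ _) h
  · rw [if_neg h]
    refine Finset.sum_eq_zero fun d _ => ?_
    rw [if_neg]
    intro h2
    exact h ((List.prefix_append _ _).trans h2)

theorem W_nil {N : ℕ} {w0 : List D → ℝ} : W N w0 [] = ∑ q ∈ lv N, w0 q := by
  unfold W
  rw [Finset.filter_true_of_mem]
  intro q _
  exact List.nil_prefix

theorem W_nonneg {N : ℕ} {w0 : List D → ℝ} (h : ∀ q ∈ lv N, 0 ≤ w0 q) (v : List D) :
    0 ≤ W N w0 v :=
  Finset.sum_nonneg fun q hq => h q (Finset.mem_filter.1 hq).1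

/-! ### geometry -/

theorem XH_of_ring {y : ℂ} (h1 : 75 / 100 ≤ dist y ctr) (h2 : dist y ctr ≤ 79 / 100) :
    y ∈ XH := by
  refine ⟨by linarith, fun d => ?_⟩
  have := dist_psi_ge d y
  linarith

theorem AH_of_ring {y : ℂ} (h1 : 75 / 100 ≤ dist y ctr) (h2 : dist y ctr ≤ 79 / 100) :
    y ∈ AH := ⟨by linarith, by linarith⟩

theorem XH_par {p : List D} {d : D} {z : ℂ} (h1 : 75 / 100 ≤ dist (Psi (p ++ [d]) z) ctr)
    (h2 : dist (Psi (p ++ [d]) z) ctr ≤ 79 / 100) : Psi p z ∈ XH := by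
  rw [Psi_snoc] at h1 h2
  refine ⟨?_, fun d' => ?_⟩
  · have := dist_le_of_psi d (Psi p z)
    linarith
  · by_cases hd : d' = d
    · rw [hd]
      linarith
    · by_contra hcon
      push Not at hcon
      exact hd (psi_disj (by linarith) (by linarith))

theorem dist_Psi_ctr (v : List D) (z : ℂ) :
    dist (Psi v z) ctr = 3 ^ v.length * dist z (cc v) := by
  have h : Psi v (cc v) = ctr := Psi_Phi v ctr
  rw [← dist_Psi v z (cc v), h]

theorem mem_RN (hNIN : T_NIN) {N : ℕ} {v : List D} (hv : v.length ≤ N) {z : ℂ}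
    (h1 : 75 / 100 ≤ dist (Psi v z) ctr) (h2 : dist (Psi v z) ctr ≤ 79 / 100) :
    z ∈ RN N := by
  rcases hv.lt_or_eq with h | h
  · refine (hNIN N).1 v h z (by linarith) fun d => ?_
    have := dist_psi_ge d (Psi v z)
    linarith
  · exact (hNIN N).2.1 v h z (by linarith) (by linarith)

/-- a point near the square of `v` -/
noncomputable def xx (v : List D) : ℂ := Phi v (ctr + 77 / 100)

theorem dist_xx (v : List D) : dist (Psi v (xx v)) ctr = 77 / 100 := by
  unfold xx
  rw [Psi_Phi, dist_eq_norm, add_sub_cancel_left]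
  norm_num

theorem cm_le {v : List D} {h : ℂ → ℂ} {B : ℝ}
    (hB : ∀ z, dist (Psi v z) ctr = 77 / 100 → ‖h z‖ ≤ 3 ^ v.length * B) :
    ‖cm v h‖ ≤ 77 / 100 * B := by
  unfold cm
  have e : (3 : ℝ) ^ v.length * (1 / 3) ^ v.length = 1 := by
    rw [← mul_pow]
    norm_num
  have h1 : ∀ z ∈ sphere (cc v) (77 / 100 * (1 / 3) ^ v.length),
      ‖h z‖ ≤ 3 ^ v.length * B := by
    intro z hz
    apply hB
    rw [dist_Psi_ctr, mem_sphere.1 hz]
    calc (3 : ℝ) ^ v.length * (77 / 100 * (1 / 3) ^ v.length)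
        = 77 / 100 * (3 ^ v.length * (1 / 3) ^ v.length) := by ring
      _ = 77 / 100 := by rw [e, mul_one]
  have h2 := circleIntegral.norm_two_pi_i_inv_smul_integral_le_of_norm_le_const
    (by positivity) h1
  rw [smul_eq_mul] at h2
  refine h2.trans (le_of_eq ?_)
  calc 77 / 100 * (1 / 3) ^ v.length * ((3 : ℝ) ^ v.length * B)
      = 77 / 100 * B * (3 ^ v.length * (1 / 3) ^ v.length) := by ring
    _ = 77 / 100 * B := by rw [e, mul_one]

/-! ### comparison -/

/-- the conclusion of NOD -/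
def NC (C : ℝ) (N : ℕ) (w : List D → ℝ) (V : ℝ) : Prop :=
  (∀ p : List D, p.length < N → ∀ x y, Psi p x ∈ XH → Psi p y ∈ XH →
    gr N w V x ≤ C * gr N w V y) ∧
  (∀ q : List D, q.length = N → ∀ x y, Psi q x ∈ AH → Psi q y ∈ AH →
    gr N w V x ≤ C * gr N w V y) ∧
  (∀ p : List D, p.length < N → ∀ x, Psi p x ∈ XH →
    ‖ps N w x‖ ≤ C * 3 ^ p.length * gr N w V x) ∧
  (∀ q : List D, q.length = N → ∀ x, Psi q x ∈ AH →
    ‖ps N w x‖ ≤ C * 3 ^ q.length * gr N w V x)

/-- a point in the ring around the square of `v` -/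
def Ri (v : List D) (z : ℂ) : Prop :=
  75 / 100 ≤ dist (Psi v z) ctr ∧ dist (Psi v z) ctr ≤ 79 / 100

theorem Ri.of_eq {v : List D} {z : ℂ} (h : dist (Psi v z) ctr = 77 / 100) : Ri v z :=
  ⟨by rw [h]; norm_num, by rw [h]; norm_num⟩

theorem Ri_xx (v : List D) : Ri v (xx v) := Ri.of_eq (dist_xx v)

theorem ring_le {C : ℝ} {N : ℕ} {w : List D → ℝ} {V : ℝ} (h : NC C N w V) {v : List D}
    (hv : v.length ≤ N) {x y : ℂ} (hx : Ri v x) (hy : Ri v y) :
    gr N w V x ≤ C * gr N w V y := by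
  rcases hv.lt_or_eq with h1 | h1
  · exact h.1 v h1 x y (XH_of_ring hx.1 hx.2) (XH_of_ring hy.1 hy.2)
  · exact h.2.1 v h1 x y (AH_of_ring hx.1 hx.2) (AH_of_ring hy.1 hy.2)

theorem ring_ps {C : ℝ} {N : ℕ} {w : List D → ℝ} {V : ℝ} (h : NC C N w V) {v : List D}
    (hv : v.length ≤ N) {x : ℂ} (hx : Ri v x) :
    ‖ps N w x‖ ≤ C * 3 ^ v.length * gr N w V x := by
  rcases hv.lt_or_eq with h1 | h1
  · exact h.2.2.1 v h1 x (XH_of_ring hx.1 hx.2)
  · exact h.2.2.2 v h1 x (AH_of_ring hx.1 hx.2)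

end GRN_

open GRN_ in
/-- The discrete Green function. -/
theorem p_GRN (hCHG : T_CHG) (hGEO : T_GEO) (hNIN : T_NIN) (hNOD : T_NOD) (hLWB : T_LWB)
    (hCMP : T_CMP) : T_GRN := by
  obtain ⟨CN, hCN1, hNOD⟩ := hNOD
  obtain ⟨CL, hCL0, hLWB⟩ := hLWB
  have hCN0 : 0 < CN := by linarith
  refine ⟨CN ^ 4 * (CL + 1), ?_, ?_⟩
  · have h1 : 1 ≤ CN ^ 4 := one_le_pow₀ hCN1
    nlinarith
  intro N hN
  have hne : (lv N).Nonempty :=
    ⟨List.replicate N (false, false), mem_lv.2 (by simp)⟩
  obtain ⟨w0, V, hw0, hsum, hkp, hnn, hmaj⟩ :=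
    hCHG (List D) (lv N) cc ((1 / 3) ^ N) hne (hGEO N).1
  obtain ⟨w, hw⟩ : ∃ w, w = W N w0 := ⟨_, rfl⟩
  have hww : ∀ q ∈ lv N, w q = w0 q := fun q hq => by rw [hw, W_top hq]
  have hadd : ∀ p : List D, p.length < N → ∑ d : D, w (p ++ [d]) = w p := by
    intro p hp
    rw [hw]
    exact W_add hp
  have hone : w [] = 1 := by rw [hw, W_nil, hsum]
  have hwnn : ∀ v, 0 ≤ w v := fun v => by rw [hw]; exact W_nonneg hw0 v
  have hgr : ∀ z ∈ RN N, 0 ≤ gr N w V z := by
    intro z hz
    rw [gr_congr hww]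
    exact hnn z hz
  have hNC : NC CN N w V := hNOD N w V hgr
  have hnnR : ∀ v : List D, v.length ≤ N → ∀ z, Ri v z → 0 ≤ gr N w V z := fun v hv z hz =>
    hgr z (mem_RN hNIN hv hz.1 hz.2)
  -- (i)
  have hi : ∀ v : List D, v.length ≤ N → gr N w V (xx v) ≤ CN * (CL * w v) := by
    intro v hv
    have h1 := hLWB N v w V (gr N w V (xx v) / CN) hv (fun q _ => hwnn q)
      (fun q hq _ => by rw [kp_congr hww V _ hq]; exact hkp q hq)
      (div_nonneg (hnnR v hv _ (Ri_xx v)) hCN0.le) (fun z hz => by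
        rw [div_le_iff₀ hCN0, mul_comm]
        exact ring_le hNC hv (Ri_xx v) (Ri.of_eq hz))
    have h2 : ∑ q ∈ (lv N).filter (fun q => v <+: q), w q = w v :=
      ((hCMP N w hadd v hv).2).symm
    rw [h2, div_le_iff₀ hCN0] at h1
    linarith
  -- (ii)
  have hii : ∀ v : List D, v.length ≤ N → w v ≤ CN * (CN * gr N w V (xx v)) := by
    intro v hv
    have h1 : ‖cm v (ps N w)‖ ≤ 77 / 100 * (CN * (CN * gr N w V (xx v))) := by
      apply cm_le
      intro z hz
      have h2 := ring_ps hNC hv (Ri.of_eq hz)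
      have h3 := ring_le hNC hv (Ri.of_eq hz) (Ri_xx v)
      calc ‖ps N w z‖ ≤ CN * 3 ^ v.length * gr N w V z := h2
        _ ≤ CN * 3 ^ v.length * (CN * gr N w V (xx v)) := by gcongr
        _ = _ := by ring
    rw [(hCMP N w hadd v hv).1, Complex.norm_real, Real.norm_of_nonneg (hwnn v)] at h1
    have h4 := hnnR v hv _ (Ri_xx v)
    have h5 : 0 ≤ CN * (CN * gr N w V (xx v)) := by positivity
    linarith
  -- (iii)
  have hiii : ∀ p : List D, p.length < N → ∀ d : D,
      gr N w V (xx p) ≤ CN * gr N w V (xx (p ++ [d])) := by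
    intro p hp d
    exact hNC.1 p hp _ _ (XH_of_ring (Ri_xx p).1 (Ri_xx p).2)
      (XH_par (Ri_xx (p ++ [d])).1 (Ri_xx (p ++ [d])).2)
  have hgpos : ∀ v : List D, v.length ≤ N → 0 < gr N w V (xx v) := by
    intro v
    induction v using List.reverseRecOn with
    | nil =>
      intro _
      have h1 := hii [] (by simp)
      rw [hone] at h1
      by_contra hcon
      push Not at hcon
      have h2 : CN * (CN * gr N w V (xx [])) ≤ 0 := by
        have : CN * gr N w V (xx []) ≤ 0 := mul_nonpos_of_nonneg_of_nonpos hCN0.le hcon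
        exact mul_nonpos_of_nonneg_of_nonpos hCN0.le this
      linarith
    | append_singleton p d ih =>
      intro hv
      rw [List.length_append, List.length_singleton] at hv
      have h1 := ih (by omega)
      have h2 := hiii p (by omega) d
      by_contra hcon
      push Not at hcon
      have : CN * gr N w V (xx (p ++ [d])) ≤ 0 := mul_nonpos_of_nonneg_of_nonpos hCN0.le hcon
      linarith
  have hwpos : ∀ v : List D, v.length ≤ N → 0 < w v := by
    intro v hv
    have h1 := hi v hv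
    have h2 := hgpos v hv
    by_contra hcon
    have h3 : w v = 0 := le_antisymm (not_lt.1 hcon) (hwnn v)
    rw [h3, mul_zero, mul_zero] at h1
    linarith
  -- constants
  have k1 : CN ^ 3 ≤ CN ^ 4 * (CL + 1) := by
    have h1 : CN ^ 3 ≤ CN ^ 4 := pow_le_pow_right₀ hCN1 (by norm_num)
    have h2 : 0 < CN ^ 4 := by positivity
    nlinarith
  have k2 : CN ^ 4 * CL ≤ CN ^ 4 * (CL + 1) := by
    have h2 : 0 < CN ^ 4 := by positivity
    nlinarith
  have k3 : CN ^ 3 * CL ≤ CN ^ 4 * (CL + 1) := by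
    have h1 : CN ^ 3 ≤ CN ^ 4 := pow_le_pow_right₀ hCN1 (by norm_num)
    have h2 : CN ^ 3 * CL ≤ CN ^ 4 * CL := mul_le_mul_of_nonneg_right h1 hCL0.le
    exact h2.trans k2
  have k4 : CN ^ 2 * CL ≤ CN ^ 4 * (CL + 1) := by
    have h1 : CN ^ 2 ≤ CN ^ 4 := pow_le_pow_right₀ hCN1 (by norm_num)
    have h2 : CN ^ 2 * CL ≤ CN ^ 4 * CL := mul_le_mul_of_nonneg_right h1 hCL0.le
    exact h2.trans k2
  refine ⟨w, V, ?_, ?_⟩
  · refine
      { pos := hwpos
        add := hadd
        one := hone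
        nn := hgr
        chi := ?_
        low := ?_
        upp := ?_
        ann := ?_ }
    · intro p hp d
      have hv : (p ++ [d]).length ≤ N := by
        rw [List.length_append, List.length_singleton]
        omega
      have h1 := hii p hp.le
      have h2 := hiii p hp d
      have h3 := hi (p ++ [d]) hv
      have h4 : 0 ≤ w (p ++ [d]) := hwnn _
      calc w p ≤ CN * (CN * gr N w V (xx p)) := h1
        _ ≤ CN * (CN * (CN * gr N w V (xx (p ++ [d])))) := by gcongr
        _ ≤ CN * (CN * (CN * (CN * (CL * w (p ++ [d]))))) := by gcongr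
        _ = CN ^ 4 * CL * w (p ++ [d]) := by ring
        _ ≤ _ := mul_le_mul_of_nonneg_right k2 h4
    · intro p hp z hz
      have h1 := hii p hp.le
      have hx : Psi p (xx p) ∈ XH := XH_of_ring (Ri_xx p).1 (Ri_xx p).2
      have h2 := hNC.1 p hp _ _ hx hz
      have h3 : 0 ≤ gr N w V z := by
        have := hgpos p hp.le
        by_contra hcon
        push Not at hcon
        have : CN * gr N w V z < 0 := mul_neg_of_pos_of_neg hCN0 hcon
        linarith
      calc w p ≤ CN * (CN * gr N w V (xx p)) := h1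
        _ ≤ CN * (CN * (CN * gr N w V z)) := by gcongr
        _ = CN ^ 3 * gr N w V z := by ring
        _ ≤ _ := mul_le_mul_of_nonneg_right k1 h3
    · intro p hp z hz
      have hx : Psi p (xx p) ∈ XH := XH_of_ring (Ri_xx p).1 (Ri_xx p).2
      have h2 := hNC.1 p hp _ _ hz hx
      have h3 := hi p hp.le
      have h4 : 0 ≤ w p := hwnn _
      have h5 : gr N w V z ≤ CN ^ 2 * CL * w p := by
        calc gr N w V z ≤ CN * gr N w V (xx p) := h2
          _ ≤ CN * (CN * (CL * w p)) := by gcongr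
          _ = _ := by ring
      refine ⟨h5.trans (mul_le_mul_of_nonneg_right k4 h4), ?_⟩
      calc ‖ps N w z‖ ≤ CN * 3 ^ p.length * gr N w V z := hNC.2.2.1 p hp z hz
        _ ≤ CN * 3 ^ p.length * (CN ^ 2 * CL * w p) := by gcongr
        _ = CN ^ 3 * CL * (3 ^ p.length * w p) := by ring
        _ ≤ CN ^ 4 * (CL + 1) * (3 ^ p.length * w p) :=
            mul_le_mul_of_nonneg_right k3 (by positivity)
        _ = _ := by ring
    · intro v hv z h1 h2
      have hR : Ri v z := ⟨h1, h2⟩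
      have h3 := ring_ps hNC hv hR
      have h4 := ring_le hNC hv hR (Ri_xx v)
      have h5 := hi v hv
      have h6 : 0 ≤ w v := hwnn _
      calc ‖ps N w z‖ ≤ CN * 3 ^ v.length * gr N w V z := h3
        _ ≤ CN * 3 ^ v.length * (CN * gr N w V (xx v)) := by gcongr
        _ ≤ CN * 3 ^ v.length * (CN * (CN * (CL * w v))) := by gcongr
        _ = CN ^ 3 * CL * (3 ^ v.length * w v) := by ring
        _ ≤ CN ^ 4 * (CL + 1) * (3 ^ v.length * w v) :=
            mul_le_mul_of_nonneg_right k3 (by positivity)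
        _ = _ := by ring
  · intro K hK
    obtain ⟨w', V', hV', hs', hn', hb'⟩ := hmaj K hK
    refine ⟨w', V', ?_, hs', hn', ?_⟩
    · rw [hV']
      exact Finset.sum_congr rfl fun q hq => by rw [hww q hq]
    · intro q hq z h1 h2
      have hqN : q.length = N := mem_lv.1 hq
      have e : (3 : ℝ) ^ N * (1 / 3) ^ N = 1 := by
        rw [← mul_pow]
        norm_num
      have h3 : (0 : ℝ) < (1 / 3) ^ N := by positivity
      have h4 : dist z (cc q) = dist (Psi q z) ctr * (1 / 3) ^ N := by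
        rw [dist_Psi_ctr, hqN]
        calc dist z (cc q) = dist z (cc q) * (3 ^ N * (1 / 3) ^ N) := by rw [e, mul_one]
          _ = _ := by ring
      refine hb' q hq z ?_ ?_
      · rw [h4]
        calc (1 / 3 : ℝ) ^ N / 10 = 1 / 10 * (1 / 3) ^ N := by ring
          _ ≤ _ := mul_le_mul_of_nonneg_right h1 h3.le
      · rw [h4]
        exact mul_le_mul_of_nonneg_right h2 h3.le

end Pool.Agent.CorE
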