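import Pool.Agent.CorE.Targets

/-!
# Block HAR: Harnack's inequality on a disc

Project COE (helper24), block HAR. Poisson's formula and the two bounds of the Poisson kernel on
the circle.
-/

set_option autoImplicit false

namespace Pool.Agent.CorE

open Complex Metric Set Filter Topology MeasureTheory
open Pool.Corona91698f
open scoped Real

theorem HAR_.ker_le (s R r : ℝ) (hR : 0 < R) (hs : s < 1)
    (hr : r ≤ s * R) : (R + r) / (R - r) ≤ (1 + s) / (1 - s) := by
  have h1 : 0 < 1 - s := by linarith
  have h2 : 0 < R - r := by nlinarith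
  rw [div_le_div_iff₀ h2 h1]
  nlinarith

theorem HAR_.le_ker (s R r : ℝ) (hR : 0 < R) (hs0 : 0 ≤ s) (hr0 : 0 ≤ r)
    (hr : r ≤ s * R) : (1 - s) / (1 + s) ≤ (R - r) / (R + r) := by
  have h1 : 0 < 1 + s := by linarith
  have h2 : 0 < R + r := by nlinarith
  rw [div_le_div_iff₀ h1 h2]
  nlinarith

theorem p_HAR : T_HAR := by
  intro F c R hR hF hpos s hs0 hs z hz
  have hzb : z ∈ ball c R := by
    rw [mem_ball]
    nlinarith
  have hr : ‖z - c‖ ≤ s * R := by
    rw [← dist_eq_norm]
    exact hz
  have hFR : InnerProductSpace.HarmonicOnNhd F (closedBall c |R|) := by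
    rw [abs_of_pos hR]
    exact hF
  have hP : Real.circleAverage (poissonKernel c z • F) c R = F z :=
    hF.circleAverage_poissonKernel_smul hzb
  have hM : Real.circleAverage F c R = F c := hFR.circleAverage_eq
  have hcF : ContinuousOn F (sphere c |R|) := hFR.continuousOn.mono sphere_subset_closedBall
  have hcP : ContinuousOn (poissonKernel c z) (sphere c |R|) := by
    rw [poissonKernel_eq_re_herglotzRieszKernel]
    exact Complex.continuous_re.comp_continuousOn (continuousOn_herglotzRieszKernel_sphere hzb)
  have hiP : CircleIntegrable (poissonKernel c z • F) c R := (hcP.smul hcF).circleIntegrable'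
  have hker : ∀ x ∈ sphere c |R|, (1 - s) / (1 + s) ≤ poissonKernel c z x ∧
      poissonKernel c z x ≤ (1 + s) / (1 - s) := by
    intro x hx
    rw [abs_of_pos hR] at hx
    have h1 := re_herglotzRieszKernel_le hx hzb
    have h2 := le_re_herglotzRieszKernel hx hzb
    have h3 : poissonKernel c z x = ((x - c + (z - c)) / ((x - c) - (z - c))).re := by
      rw [poissonKernel_eq_re_herglotzRieszKernel, Function.comp_apply, herglotzRieszKernel_def]
    rw [h3]
    exact ⟨(HAR_.le_ker s R _ hR hs0 (norm_nonneg _) hr).trans h2,
      h1.trans (HAR_.ker_le s R _ hR hs hr)⟩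
  have hnn : ∀ x ∈ sphere c |R|, 0 ≤ F x := by
    intro x hx
    rw [abs_of_pos hR] at hx
    exact hpos x hx
  constructor
  · have h := Real.circleAverage_mono (f₁ := ((1 - s) / (1 + s)) • F)
      (f₂ := poissonKernel c z • F) (c := c) (R := R)
      (hcF.const_smul _).circleIntegrable' hiP (by
        intro x hx
        simp only [Pi.smul_apply, Pi.smul_apply', smul_eq_mul]
        exact mul_le_mul_of_nonneg_right (hker x hx).1 (hnn x hx))
    rw [Real.circleAverage_smul, hM, hP, smul_eq_mul] at h
    exact h
  · have h := Real.circleAverage_mono (f₁ := poissonKernel c z • F)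
      (f₂ := ((1 + s) / (1 - s)) • F) (c := c) (R := R) hiP
      (hcF.const_smul _).circleIntegrable' (by
        intro x hx
        simp only [Pi.smul_apply, Pi.smul_apply', smul_eq_mul]
        exact mul_le_mul_of_nonneg_right (hker x hx).2 (hnn x hx))
    rw [Real.circleAverage_smul, hM, hP, smul_eq_mul] at h
    exact h

end Pool.Agent.CorE
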