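import Pool.Agent.CorE.Defs

/-!
# Corona solutions with exponentially integrable growth: compiled targets

Project COE (helper24). Every `T_X` has its complete proof in the docstring; block `X` delivers
`theorem p_X : T_X` (or with the hypotheses named in the docstring) in `Pool/Agent/CorE/P_X.lean`,
which imports `Pool.Agent.CorE.Targets`, helper lemmas in the namespace `Pool.Agent.CorE.X_`.
-/

set_option autoImplicit false

namespace Pool.Agent.CorE

open Complex Metric Set Filter Topology MeasureTheory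
open Pool.Corona91698f
open scoped Real

/-! ### A. Sums of logarithms -/

/-- HAR: Harnack's inequality on a disc.

PROOF. Poisson's formula (Mathlib: HarmonicOnNhd.circleAverage_poissonKernel_smul in
Analysis/Complex/Harmonic/Poisson.lean): F z is the circle average of P * F with the Poisson kernel
P = (R^2 - |z-c|^2)/|w - z|^2, which lies between (1-s)/(1+s) and (1+s)/(1-s) if |z - c| ≤ s R,
|w - c| = R; F ≥ 0 on the circle and F c is the circle average of F. -/
def T_HAR : Prop := ∀ (F : ℂ → ℝ) (c : ℂ) (R : ℝ), 0 < R →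
  InnerProductSpace.HarmonicOnNhd F (closedBall c R) → (∀ z ∈ sphere c R, 0 ≤ F z) →
  ∀ s : ℝ, 0 ≤ s → s < 1 → ∀ z, dist z c ≤ s * R →
    (1 - s) / (1 + s) * F c ≤ F z ∧ F z ≤ (1 + s) / (1 - s) * F c

/-- LOG: sums of logarithms are harmonic.

PROOF. Real.log (dist z c) = Real.log ‖z - c‖ is harmonic for z ≠ c (AnalyticAt.harmonicAt_log_norm
or its variant), constants and linear combinations of harmonic functions are harmonic. -/
def T_LOG : Prop := ∀ (ι : Type) (S : Finset ι) (c : ι → ℂ) (w : ι → ℝ) (V : ℝ),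
  InnerProductSpace.HarmonicOnNhd (hp S c w V) {z | ∀ q ∈ S, z ≠ c q}

/-- AVG: circle averages around a charge.

PROOF. circleAverage of log |z - c q'| over |z - c q| = l is log |c q - c q'| for q' ≠ q (the point
c q' is outside, |c q - c q'| ≥ 2 l) and log l for q' = q (Mathlib: circleAverage_log_norm_sub_const
and relatives). The sum is V + w q log l + sum over q' ≠ q of w q' log |c q - c q'|
= kp q + 10 w q. -/
def T_AVG : Prop := ∀ (ι : Type) [DecidableEq ι] (S : Finset ι) (c : ι → ℂ) (l : ℝ) (w : ι → ℝ)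
  (V : ℝ), Sep S c l → ∀ q ∈ S,
  Real.circleAverage (hp S c w V) (c q) l = kp S c l w V q + 10 * w q

/-- POS: positivity. Hypotheses hHAR : T_HAR, hLOG : T_LOG.

PROOF. h = hp S c w V is continuous on the closed set R = Rg S c l (no charge in R), and tends to
+∞ (case 0 < sum w) or to V ≥ 0 (case sum w = 0) as |z| → ∞ (h z = V + (sum w) log |z| +
sum w q log(|z - c q|/|z|)). Suppose h takes a value < 0 on R. Then h has a minimum m < 0 over R,
attained on a nonempty compact set; let z* be a point of this set with the largest real part. If z* were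
in the interior of R then, by the mean value property on a small circle (LOG, circleAverage_eq), h = m
on this circle, which contains a point with a larger real part: contradiction. So |z* - c q| = l/10
for some q in S. F = h - w q log|z - c q| is the function hp (S.erase q) c w V, harmonic on the ball
B(c q, 2l); on |z - c q| = l (contained in R: the other charges are at distance ≥ 2l - l) we have
h ≥ m, so Phi = F - m + w q log l ≥ 0 there. Phi(c q) = kp q + 10 w q - m. Phi(z*) = h z* - w q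
log(l/10) - m + w q log l = w q log 10. By HAR with s = 1/10: w q log 10 ≥ 0 (as Phi(c q) ≥ 0, for
Phi ≥ 0 on the circle) and w q log 10 ≥ (9/11)(kp q + 10 w q - m). So w q ≥ 0 and
w q (log 10 - 90/11) ≥ (9/11)(kp q - m) > 0, which is impossible as log 10 < 90/11. -/
def T_POS : Prop := ∀ (ι : Type) [DecidableEq ι] (S : Finset ι) (c : ι → ℂ) (l : ℝ) (w : ι → ℝ)
  (V : ℝ), Sep S c l → (∀ q ∈ S, 0 ≤ kp S c l w V q) →
  (0 < ∑ q ∈ S, w q ∨ (∑ q ∈ S, w q = 0 ∧ 0 ≤ V)) → ∀ z ∈ Rg S c l, 0 ≤ hp S c w V z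

/-- CHG: equilibrium charges and harmonic majorants. Hypotheses hPOS : T_POS, hAVG : T_AVG,
hHAR : T_HAR, hLOG : T_LOG.

PROOF. If hp ≥ 0 on Rg then (AVG; the circle |z - c q| = l lies in Rg) 10 w q = average - kp q ≥
- kp q (*). The linear map (w, V) ↦ (kp, sum w) on (S → ℝ) × ℝ is injective: let kp = 0 and
sum w = 0; replacing (w, V) by (-w, -V) we may assume V ≥ 0; POS gives hp ≥ 0 on Rg; (*) gives
w ≥ 0, so w = 0 and V = kp = 0 (S is nonempty). So it is bijective
(LinearMap.injective_iff_surjective). Let (w, V) be the solution with kp = 0, sum w = 1: POS gives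
hp ≥ 0 on Rg, (*) gives w ≥ 0. For K ≥ 0 let (w', V') be the solution with kp = K, sum w' = 0. By the
symmetry of log |c q - c q'|: sum w q K q = V' sum w q + sum w q (w' q (log l - 10) + sum over
q' ≠ q of w' q' log|c q - c q'|) = V' + sum w' q (kp w V q - V) = V'. So V' ≥ 0 and hp S c w' V' ≥ 0
on Rg by POS. Lower bound: let |z - c q| = s l, 1/10 ≤ s ≤ 4/5. Phi = hp (S.erase q) c w' V' +
w' q log l is harmonic on B(c q, 2l) and equal to hp S c w' V' ≥ 0 on |z - c q| = l; Phi(c q) = K q +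
10 w' q ≥ 0 and hp z = Phi(z) + w' q log s ≥ (1-s)/(1+s) (K q + 10 w' q) + w' q log s by HAR. If
w' q ≥ 0 this is ≥ K q/9 because 10 (1-s)/(1+s) + log s ≥ 0 on [1/10, 4/5]. If w' q < 0 then
w' q ≥ - K q/10 and the same number σ = 10 (1-s)/(1+s) + log s ≥ 0 gives
hp z ≥ (1-s)/(1+s) K q - σ K q/10 = K q log(1/s)/10 ≥ K q log(5/4)/10 ≥ K q/50. -/
def T_CHG : Prop := ∀ (ι : Type) [DecidableEq ι] (S : Finset ι) (c : ι → ℂ) (l : ℝ), S.Nonempty →
  Sep S c l → ∃ (w : ι → ℝ) (V : ℝ), (∀ q ∈ S, 0 ≤ w q) ∧ ∑ q ∈ S, w q = 1 ∧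
    (∀ q ∈ S, kp S c l w V q = 0) ∧ (∀ z ∈ Rg S c l, 0 ≤ hp S c w V z) ∧
    ∀ K : ι → ℝ, (∀ q ∈ S, 0 ≤ K q) → ∃ (w' : ι → ℝ) (V' : ℝ), V' = ∑ q ∈ S, w q * K q ∧
      ∑ q ∈ S, w' q = 0 ∧ (∀ z ∈ Rg S c l, 0 ≤ hp S c w' V' z) ∧
      ∀ q ∈ S, ∀ z, l / 10 ≤ dist z (c q) → dist z (c q) ≤ 4 / 5 * l → K q / 50 ≤ hp S c w' V' z

/-- GRD: gradient estimate.

PROOF. The function y ↦ sum w q/(y - c q) is holomorphic on the ball, so it has a primitive F there
with F z = hp z (real); Re F and hp have the same real derivative (d log|y - c| = Re(dy/(y - c))), so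
Re F = hp ≥ 0 on the ball. If Re F z = 0 use F + ε. The function (F - F z)/(F + F z) maps the ball to the
unit disc and z to 0, so its derivative at z, F'(z)/(2 Re F z), is at most 1/ρ in modulus (Schwarz
lemma: Complex.norm_deriv_le_div_of_mapsTo_ball or similar). -/
def T_GRD : Prop := ∀ (ι : Type) (S : Finset ι) (c : ι → ℂ) (w : ι → ℝ) (V : ℝ) (z : ℂ) (ρ : ℝ),
  0 < ρ → (∀ y ∈ ball z ρ, ∀ q ∈ S, y ≠ c q) → (∀ y ∈ ball z ρ, 0 ≤ hp S c w V y) →
  ‖∑ q ∈ S, (w q : ℂ) / (z - c q)‖ ≤ 2 / ρ * hp S c w V z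

/-- CHN: Harnack chains. Hypothesis hHAR : T_HAR.

PROOF. Write x ~ y if there is C > 0 with h x ≤ C h y and h y ≤ C h x for all nonnegative harmonic h
on U. For x in U with closedBall x (2r) in U all y with |y - x| ≤ r satisfy h y ≤ 3 h x and h x ≤ 3 h y
(HAR, s = 1/2). So ~ is an equivalence relation with open classes on U, and there is only one class
(U preconnected). For compact K cover K by finitely many such balls B(x_i, r_i); C = 9 max C_ij. -/
def T_CHN : Prop := ∀ U K : Set ℂ, IsOpen U → IsPreconnected U → IsCompact K → K ⊆ U →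
  ∃ C : ℝ, 1 ≤ C ∧ ∀ h : ℂ → ℝ, InnerProductSpace.HarmonicOnNhd h U → (∀ z ∈ U, 0 ≤ h z) →
    ∀ x ∈ K, ∀ y ∈ K, h x ≤ C * h y

/-- CHO: the oscillation of a holomorphic function is controlled by its energy.

PROOF. As CHN. If closedBall x (2r) ⊆ U and |y - x| ≤ r then for t on the segment [x,y] the mean value
property of (f')^2 (holomorphic) over B(t, r) gives |f'(t)|^2 ≤ (π r^2)^(-1) times the integral of
|f'|^2 over U, so |f y - f x| ≤ r sup |f'| and |f y - f x|^2 ≤ π^(-1) * energy. x ~ y if there is C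
with |f x - f y|^2 ≤ C * energy for all f: an equivalence relation ((a+b)^2 ≤ 2a^2 + 2b^2) with open
classes. Finitely many balls cover K. (Mean value over a disc: integrate circle averages in polar
coordinates, or use a Mathlib lemma on averages over balls; any constant will do, for instance
|g(t)| ≤ C r^(-2) times the integral of |g| over B(t, r) for holomorphic g.) -/
def T_CHO : Prop := ∀ U K : Set ℂ, IsOpen U → IsPreconnected U → IsCompact K → K ⊆ U →
  ∃ C : ℝ, 0 < C ∧ ∀ f : ℂ → ℂ, DifferentiableOn ℂ f U →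
    IntegrableOn (fun z => ‖deriv f z‖ ^ 2) U → ∀ x ∈ K, ∀ y ∈ K,
    ‖f x - f y‖ ^ 2 ≤ C * ∫ z in U, ‖deriv f z‖ ^ 2

/-! ### B. Geometry of the tree -/

/-- GEO: positions of the centres.

PROOF. (1) dist (Phi x ctr) ctr ≤ .7073 (1 - 3^(-|x|)) by induction on x: dist_phi' and dist_phi_ctr
(.4715 ≤ .7073 * 2/3). For q = v ++ x, Psi v (cc q) = Phi x ctr. (2) v not a initial word of q, |v| ≤ |q|:
let a be the longest common initial word, v = a ++ d :: v', q = a ++ d' :: q', d ≠ d'. Psi a (cc q) =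
Phi (d' :: q') ctr and dist (psi d' (that)) ctr = dist (Phi q' ctr) ctr < 1, so by psi_disj
dist (psi d (that)) ctr ≥ 1, and dist_psi_ge (3 (t - .4715) ≥ t for t ≥ 1) keeps ≥ 1 along v'.
(3) Sep: q ≠ q' of length N, a the common initial word, k = N - |a| - 1: dist (cc q) (cc q') = 3^(-|a|) *
dist (phi d x) (phi d' x') with x, x' within .7073 (1 - 3^(-k)) of ctr, and by dist_phi_phi this is
≥ 3^(-|a|) (2/3) (1 - .7073 (1 - 3^(-k))) ≥ 3^(-|a|) (2/3) 3^(-k) = 2 * 3^(-N). -/
def T_GEO : Prop := ∀ N : ℕ, Sep (lv N) cc ((1 / 3) ^ N) ∧ ∀ v q : List D, v.length ≤ N →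
  q.length = N →
  (v <+: q → dist (Psi v (cc q)) ctr ≤ 7073 / 10000 * (1 - (1 / 3) ^ (N - v.length))) ∧
  (¬ v <+: q → 1 ≤ dist (Psi v (cc q)) ctr)

/-- NIN: the nodes are in the region. Hypothesis hGEO : T_GEO.

PROOF. dist z (cc q) = 3^(-|p|) dist (Psi p z) (Psi p (cc q)). (1) p of length < N. If p is not a initial word
of q: dist (Psi p z) (Psi p (cc q)) ≥ 1 - .9 = .1, and 3^(-|p|)/10 ≥ 3^(-N)/10. If q = p ++ d :: x, k = |x|:
dist (psi d (Psi p z)) (Phi x ctr) ≥ .72 - .7073 (1 - 3^(-k)) ≥ 3^(-k)/10, multiply by 3^(-|p|-1).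
(2) |q| = N: distance to cc q is ≥ 3^(-N)/10; for q' ≠ q: ≥ 2 * 3^(-N) - 3^(-N). (3) exterior:
dist z (cc q) ≥ .72 - .7073 (1 - 3^(-N)) ≥ 3^(-N)/10. -/
def T_NIN : Prop := ∀ N : ℕ,
  (∀ p : List D, p.length < N → ∀ z, dist (Psi p z) ctr < 9 / 10 →
    (∀ d, 72 / 100 < dist (psi d (Psi p z)) ctr) → z ∈ RN N) ∧
  (∀ q : List D, q.length = N → ∀ z, 1 / 10 ≤ dist (Psi q z) ctr → dist (Psi q z) ctr ≤ 1 →
    z ∈ RN N) ∧
  (∀ z, 72 / 100 ≤ dist z ctr → z ∈ RN N)

/-- CON: the standard node is connected.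

PROOF. In coordinates (X, Y) = y - ctr; the centres phi d ctr are at (±1/3, ±1/3), and
dist (psi d y) ctr = 3 dist y (phi d ctr) (dist_psi_ctr), so the discs of radius b/3 in
[.24, .2434] around them are removed from the ball of radius a. The set is the union of: the vertical
strip |X| < 1/3 - b/3 and the horizontal strip |Y| < 1/3 - b/3; the four caps X > 1/3 + b/3,
X < -(1/3 + b/3), Y > .., Y < ..; (all intersected with the ball: convex sets, contained in the
node); and the four annuli b/3 < |y - phi d ctr| < 345/1000 (contained: .4715 + .345 < .83, the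
distance of two centres is ≥ 2/3 > .345 + .2434). If y is in none of the strips and caps then |X|, |Y|
are in [1/3 - b/3, 1/3 + b/3] and y is within sqrt 2 b/3 < .345 of some phi d ctr. Both strips
contain ctr; the cap X > .. meets the horizontal strip in (.7, 0) etc.; the annulus around (1/3, 1/3)
meets the vertical strip in (1/3 - .3, 1/3) etc. Annuli are preconnected (second statement): image of
the connected set (b, a) × ℝ under (r, t) ↦ c + r exp(i t). Union of preconnected sets with common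
points: IsPreconnected.union. -/
def T_CON : Prop := (∀ a b : ℝ, 83 / 100 ≤ a → a ≤ 9 / 10 → 72 / 100 ≤ b → b ≤ 73 / 100 →
    IsPreconnected {y : ℂ | dist y ctr < a ∧ ∀ d : D, b < dist (psi d y) ctr}) ∧
  ∀ (c : ℂ) (a b : ℝ), 0 ≤ b → IsPreconnected {y : ℂ | b < dist y c ∧ dist y c < a}

/-- NOD: comparison inside a node. Hypotheses hHAR : T_HAR, hLOG : T_LOG, hCHN : T_CHN,
hGRD : T_GRD, hNIN : T_NIN, hCON : T_CON.

PROOF. h(y) = gr N w V (Phi p y) = V - (sum w) |p| log 3 + sum w q log|y - Psi p (cc q)| is again of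
the form hp, with the charges Psi p (cc q). By NIN (1) it is ≥ 0 and there is no charge on
U = {dist y ctr < .9, dist (psi d y) ctr > .72}: harmonic by LOG. XH is compact and contained in U;
CHN with CON gives the first statement with a constant independent of N, p, w, V; the second
statement with U = {.72 < dist y ctr < .9}, K = AH and NIN (2). Third, fourth: GRD for h (or for gr
itself) on a ball of radius ρ0 around x (ρ0 > 0 with ball x ρ0 ⊆ U for all x in K, for instance .003);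
the derivative scales with 3^|p|. -/
def T_NOD : Prop := ∃ C : ℝ, 1 ≤ C ∧ ∀ (N : ℕ) (w : List D → ℝ) (V : ℝ),
  (∀ z ∈ RN N, 0 ≤ gr N w V z) →
  (∀ p : List D, p.length < N → ∀ x y, Psi p x ∈ XH → Psi p y ∈ XH →
    gr N w V x ≤ C * gr N w V y) ∧
  (∀ q : List D, q.length = N → ∀ x y, Psi q x ∈ AH → Psi q y ∈ AH →
    gr N w V x ≤ C * gr N w V y) ∧
  (∀ p : List D, p.length < N → ∀ x, Psi p x ∈ XH →
    ‖ps N w x‖ ≤ C * 3 ^ p.length * gr N w V x) ∧
  (∀ q : List D, q.length = N → ∀ x, Psi q x ∈ AH →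
    ‖ps N w x‖ ≤ C * 3 ^ q.length * gr N w V x)

/-- GRW: growth of harmonic functions in the tree. Hypotheses hNOD : T_NOD, hHAR : T_HAR,
hLOG : T_LOG, hCHN : T_CHN, hCON : T_CON, hNIN : T_NIN, hGEO : T_GEO.

PROOF. All charges are in dist z ctr < .7073, so by Mathlib's circleAverage of log |z - c| (c inside
the circle) the average of gr over the circle around ctr of radius R ≥ 72/100 is V + (sum w) log R = V.
Since gr ≥ 0 there (NIN (3)), V ≥ 0 and there is a point on the circle with gr ≤ V. With R = 4/5 this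
point is in XH (dist (psi d y) ctr ≥ 3 (.8 - .4715)); NOD gives gr ≤ C V on XH. If gr ≤ A on
Psi p z ∈ XH, |p| + 1 < N, then, for every d, the points with dist (Psi (p ++ [d]) z) ctr = 4/5 have
Psi p z ∈ XH and Psi (p ++ [d]) z ∈ XH, so gr ≤ C A on Psi (p ++ [d]) z ∈ XH: induction. Exterior,
R = dist z ctr ≥ 87/100: h(y) = gr (ctr + R y) is nonnegative and harmonic on {.9 < |y| < 1.1}
(.9 * .87 ≥ .72) and has a value ≤ V on |y| = 1; CHN with K = {|y| = 1}. -/
def T_GRW : Prop := ∃ C : ℝ, 1 ≤ C ∧ ∀ (N : ℕ) (w : List D → ℝ) (V : ℝ), 1 ≤ N →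
  (∀ z ∈ RN N, 0 ≤ gr N w V z) → ∑ q ∈ lv N, w q = 0 →
  (∀ p : List D, p.length < N → ∀ z, Psi p z ∈ XH → gr N w V z ≤ C ^ (p.length + 1) * V) ∧
  ∀ z, 87 / 100 ≤ dist z ctr → gr N w V z ≤ C * V

/-- LWB: the charge below v is at least as large as the potential near v. Hypotheses hGEO : T_GEO,
hHAR : T_HAR, hLOG : T_LOG.

PROOF. Coordinates y = Psi v z, y_q = Psi v (cc q), R = 77/100, k = N - |v|. For q above v (v <+: q):
|y_q - ctr| ≤ .7073; for the others ≥ 1. Let b_q(y) = log|R - (y - ctr) conj(y_q - ctr)/R|,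
harmonic on a neighbourhood of the closed ball B = closedBall ctr R and equal to log|y - y_q| on
its boundary circle. H^(y) = V - |v| log 3 * (sum of all w) + sum over q not above v of w q log|y - y_q|
+ sum over q above v of w q b_q(y) is harmonic near B and equal to gr on the circle, so ≥ m there, so
H^ ≥ m on B (minimum principle: HAR applied to H^ - m, or the Poisson formula). For q0 above v the
equation kp q0 = 0 gives H^(y_q0) = sum over q ≠ q0 above v of w q (b_q(y_q0) - log|y_q0 - y_q|)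
+ w q0 (b_q0(y_q0) + k log 3 + 10). Here b ≤ log(.77 + .7073^2/.77) ≤ 1/2, and if the longest common
initial word of q, q0 has length |v| + j, j < k, then |y_q0 - y_q| ≥ (19/100) 3^(-j) (as in GEO), so
- log|y_q0 - y_q| ≤ 2 + j log 3. Sum over the 4^k words q0 above v: there are at most 4^(k-j) words q0
with given j for given q, so 4^k m ≤ sum over q of w q (sum_{j<k} 4^(k-j) (5/2 + j log 3) + 11 +
k log 3) ≤ C 4^k sum w q, because the sums of 4^(-j) (5/2 + 2j) and k 4^(-k) are bounded. -/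
def T_LWB : Prop := ∃ C : ℝ, 0 < C ∧ ∀ (N : ℕ) (v : List D) (w : List D → ℝ) (V m : ℝ),
  v.length ≤ N → (∀ q ∈ lv N, 0 ≤ w q) →
  (∀ q ∈ lv N, v <+: q → kp (lv N) cc ((1 / 3) ^ N) w V q = 0) → 0 ≤ m →
  (∀ z, dist (Psi v z) ctr = 77 / 100 → m ≤ gr N w V z) →
  m ≤ C * ∑ q ∈ (lv N).filter (fun q => v <+: q), w q

/-- CMP: the contour mean of `ps`. Hypothesis hGEO : T_GEO.

PROOF. The circle integral of 1/(z - cc q) over C(cc v, .77 * 3^(-|v|)) is 2 π I if v <+: q (then
dist (cc q) (cc v) = 3^(-|v|) dist (Psi v (cc q)) ctr < radius) and 0 otherwise (≥ 1 * 3^(-|v|) >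
radius). So cm v (ps N w) = sum of w q over the q in lv N above v, and this is w v by induction on
N - |v| from the additivity (q above v, |v| < N: q is above exactly one v ++ [d]). -/
def T_CMP : Prop := ∀ (N : ℕ) (w : List D → ℝ),
  (∀ p : List D, p.length < N → ∑ d : D, w (p ++ [d]) = w p) → ∀ v : List D, v.length ≤ N →
  cm v (ps N w) = (w v : ℂ) ∧ w v = ∑ q ∈ (lv N).filter (fun q => v <+: q), w q

/-- GRN: the discrete Green function. Hypotheses hCHG : T_CHG, hGEO : T_GEO, hNIN : T_NIN,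
hNOD : T_NOD, hLWB : T_LWB, hCMP : T_CMP.

PROOF. CHG with S = lv N, c = cc, l = 3^(-N) (GEO) gives w0 ≥ 0 on lv N, V, and the majorants. Put
w v = sum of w0 q over the q in lv N above v (|v| ≤ N; w q = w0 q for |q| = N, so gr, ps, kp are the
same for w and w0), w v = 1 for |v| > N. add: the q above p (|p| < N) are above exactly one p ++ [d].
one: w [] = 1. nn: CHG. Let h_v = gr at Phi v (ctr + 77/100) (|v| ≤ N); this point x has Psi v x in XH
∩ AH, and, if v = p ++ [d], Psi p x ∈ XH. By NOD (|v| < N: XH; |v| = N: AH): gr ≥ h_v/C on the circle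
dist (Psi v z) ctr = 77/100, so by LWB h_v ≤ C w v (i). By CMP (contour integral of ps; length
2 π * .77 * 3^(-|v|)) and NOD: w v ≤ C h_v (ii). NOD: h_p ≤ C h_(p ++ [d]) and conversely (iii).
low, upp, ann, chi follow from (i), (ii), (iii) and NOD. pos: by (i), (ii) w [] = 1 ≤ C h_[], (iii)
h_v > 0 for all v, and w v ≥ h_v/C > 0. -/
def T_GRN : Prop := ∃ C : ℝ, 1 ≤ C ∧ ∀ N : ℕ, 1 ≤ N → ∃ (w : List D → ℝ) (V : ℝ), GB N w V C ∧
  ∀ K : List D → ℝ, (∀ q ∈ lv N, 0 ≤ K q) → ∃ (w' : List D → ℝ) (V' : ℝ),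
    V' = ∑ q ∈ lv N, w q * K q ∧ ∑ q ∈ lv N, w' q = 0 ∧ (∀ z ∈ RN N, 0 ≤ gr N w' V' z) ∧
    ∀ q ∈ lv N, ∀ z, 1 / 10 ≤ dist (Psi q z) ctr → dist (Psi q z) ctr ≤ 4 / 5 →
      K q / 50 ≤ gr N w' V' z

/-! ### C. Contour means and the energy inequality -/

/-- ADD: Cauchy's theorem on a node.

PROOF. Rescale by Phi p: F(y) = h(Phi p y) is holomorphic on {dist y ctr < .78, dist (psi d y) ctr >
.76 for all d}, and the circle integral over |y - ctr| = .77 equals the sum of those over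
|y - phi d ctr| = .77/3. For instance: by the Laurent splitting (laurent_full in Split.lean, applied
around phi d ctr for each d in turn) F = F0 + sum F_d near the circles with F_d holomorphic on
dist (psi d y) ctr > .765 and tending to 0 at infinity, F0 = F - sum F_d extends holomorphically to
the ball of radius .78 (on a neighbourhood of each closed hole by the splitting): its circle integrals
vanish (Cauchy). For F_d: the integral over |y - phi d ctr| = .77/3 equals that over the large circle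
|y - phi d ctr| = R (Mathlib: circle integrals over concentric circles of a function holomorphic on
the closed annulus between them agree), which differs from the integral over |y - ctr| = R by o(1) as
R → ∞ (F_d(y) = a/y + O(1/y^2)), and the integrals over |y - ctr| = R do not depend on R ≥ .77;
the integral of F_d over |y - phi d' ctr| = .77/3, d' ≠ d, is 0 (Cauchy). Any other proof is welcome
(decomposition into rectangles and sectors, homotopy). -/
def T_ADD : Prop := ∀ (p : List D) (h : ℂ → ℂ), DifferentiableOn ℂ h (Nd (some p)) →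
  cm p h = ∑ d : D, cm (p ++ [d]) h

/-- REC: the energy identity on a rectangle.

PROOF. Mathlib: integral_boundary_rect_of_hasFDerivAt_real_off_countable (or its variant for
functions with real derivative F' on the closed rectangle): the boundary integral bdI F z z' is the
integral over the rectangle of I F'(1) - F'(I) = 2 I dbar F, where dbar F = (F'(1) + I F'(I))/2 (up
to the orientation convention, which agrees with the definition of bdI). With ps = sum w/(z - c),
h = hp: dbar(|f|^2 ps/2) = f conj(f') ps/2 and dbar(h f' conj f) = (conj ps/2) f' conj f +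
h f' conj f' (because dbar h = conj(ps)/2, dbar conj f = conj f'). So dbar F = (A - conj A)/2 -
h |f'|^2 with A = f conj(f') ps: the real part of dbar F is - h |f'|^2. Divide by 2 I. -/
def T_REC : Prop := ∀ (ι : Type) (S : Finset ι) (c : ι → ℂ) (w : ι → ℝ) (V : ℝ) (f : ℂ → ℂ)
  (z z' : ℂ) (U : Set ℂ), z.re ≤ z'.re → z.im ≤ z'.im → IsOpen U →
  {u : ℂ | z.re ≤ u.re ∧ u.re ≤ z'.re ∧ z.im ≤ u.im ∧ u.im ≤ z'.im} ⊆ U → DifferentiableOn ℂ f U →
  (∀ q ∈ S, c q ∉ U) →
  (bdI (FF S c w V f) z z' / (2 * I)).re =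
    - ∫ u in {u : ℂ | z.re ≤ u.re ∧ u.re ≤ z'.re ∧ z.im ≤ u.im ∧ u.im ≤ z'.im},
      hp S c w V u * ‖deriv f u‖ ^ 2

/-- DEC: the energy between a square and its children. Hypotheses hREC : T_REC, hGEO : T_GEO.

PROOF. In the coordinates Psi p z - ctr the square Sq p is [-.61, .61]^2 and Sq (p ++ [d]) is the
square with half side .61/3 around (±1/3, ±1/3): with b0 = -.61, b1 = -1/3 - .61/3, b2 = -1/3 + .61/3,
b3 = 1/3 - .61/3, b4 = 1/3 + .61/3, b5 = .61 the closure of Sq p minus the four squares is the union of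
the 9 rectangles: full height over [b0,b1], [b2,b3], [b4,b5], and over the columns [b1,b2], [b3,b4] the
rows [b0,b1], [b2,b3], [b4,b5]. Boundary integrals are additive (interval integrals over adjacent
intervals; common sides cancel): bdI of the large square is the sum over the 9 rectangles and the 4
small squares (all 13 pieces; F is continuous on all the segments). REC on each of the 9 rectangles: no
point of the square Cantor set and no charge of level N > |p| is in them (in these coordinates both lie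
in the four squares of half side 1/6 around (±1/3, ±1/3) or outside the ball of radius 1 around ctr,
see T_GEO (centres) and squareCantor_dist', psi_disj for the set); U = a small neighbourhood of the
rectangle, for instance the complement of the square Cantor set minus the charges. The set integral
EN over Sq p minus the 4 closed squares is the sum of the integrals over the rectangles (their
overlaps are segments of measure zero). -/
def T_DEC : Prop := ∀ (N : ℕ) (w : List D → ℝ) (V : ℝ) (f : ℂ → ℂ),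
  DifferentiableOn ℂ f squareCantorᶜ → ∀ p : List D, p.length < N →
  JJ N w V f p - ∑ d : D, JJ N w V f (p ++ [d]) = - EN N w V f p

/-- JBD: the boundary terms.

PROOF. The sides have length 2 * .61 * 3^(-|v|). On them y = Psi v z has
max(|Re|, |Im|)(y - ctr) = .61, so dist y ctr ≤ .863 and dist (psi d y) ctr ≥ 3 (.61 - 1/3) = .83: y is
in XH, so by upp gr ≤ C w v and |ps| ≤ C 3^|v| w v; gr ≥ 0 (NIN is not needed: low). The ball
B(y, 1/10) contains no point of the form Psi v e, e in the square Cantor set (such points have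
max(|Re|,|Im|)(. - ctr) ≤ 1/2 or distance ≥ 1 from ctr: exists_psi_mem / Psi_mem_of_near, and
squareCantor ⊆ [0,1]^2), so |f'(z)| ≤ 10 * 3^|v| (Cauchy). |FF| ≤ C 3^|v| w v. -/
def T_JBD : Prop := ∀ CG : ℝ, ∃ C : ℝ, 0 < C ∧ ∀ (N : ℕ) (w : List D → ℝ) (V : ℝ) (f : ℂ → ℂ),
  GB N w V CG → DifferentiableOn ℂ f squareCantorᶜ → (∀ z ∈ squareCantorᶜ, ‖f z‖ ≤ 1) →
  ∀ v : List D, v.length < N → |JJ N w V f v| ≤ C * w v

/-- OSE: oscillation on a node and energy. Hypotheses hCHO : T_CHO, hCON : T_CON, hNIN : T_NIN,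
hGEO : T_GEO.

PROOF. U1 = {y | dist y ctr < .83, dist (psi d y) ctr > .73}, nodeX ⊆ U1 compact: CHO with CON,
applied to y ↦ f (Phi p y) (the integral of |f'|^2 dA is invariant under the scaling Phi p; f' is
bounded on the closure of Phi p U1, a compact subset of the complement of the square Cantor set):
|f x - f y|^2 ≤ C * integral of |f'|^2 over U1(p) = {z | Psi p z ∈ U1}. On U1(p) w p ≤ C gr (low,
U1 ⊆ XH). So w p |f x - f y|^2 ≤ C * integral over U1(p) of gr |f'|^2. Inclusion: p = r ++ [e]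
(r = p.dropLast). z ∈ U1(p) is in Sq r: Psi r z - ctr = (Psi p z - ctr)/3 + (±1/3, ±1/3), and
.83/3 + 1/3 = .61. And z is in no Sq (p ++ [d, a, b]): in the coordinates psi d (Psi p z) - ctr the
square Sq (p ++ [d,a,b]) has max norm ≤ 1/3 + 1/9 + .61/9 = .5123, Euclidean norm < .73. So z ∈ Sq s
minus the union of the Sq (s ++ [d]) for some s = r ++ x with |x| ≤ 3 (descend from r as long as z is in a
child square). The sets Sq s minus children, s = r ++ x, x ∈ wd 3, have gr ≥ 0 (they are in RN N: for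
|s| < N a charge is in some max-norm square of half side (1/2)(1 - 3^(-k)) of a child of s or far
away, so the distance is ≥ 3^(-N)/10) and the integrand is integrable there (continuous on the
closure, which avoids the square Cantor set and the charges), so the integral over U1(p) is at most
the sum of the EN (r ++ x), x ∈ wd 3. (|r ++ x| ≤ |p| + 2 < N.) -/
def T_OSE : Prop := ∀ CG : ℝ, ∃ C : ℝ, 0 < C ∧ ∀ (N : ℕ) (w : List D → ℝ) (V : ℝ) (f : ℂ → ℂ),
  GB N w V CG → DifferentiableOn ℂ f squareCantorᶜ →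
  (∀ s : List D, s.length < N → 0 ≤ EN N w V f s) ∧
  ∀ p : List D, p ≠ [] → p.length + 5 ≤ N → ∀ x y, Psi p x ∈ nodeX → Psi p y ∈ nodeX →
    w p * ‖f x - f y‖ ^ 2 ≤ C * ∑ s ∈ wd 3, EN N w V f (p.dropLast ++ s)

/-- LPO: Littlewood-Paley inequality. Hypotheses hDEC : T_DEC, hJBD : T_JBD, hOSE : T_OSE.

PROOF. Put o p = min 2 (sqrt (C (w p)^(-1) sum_{s ∈ wd 3} EN (p.dropLast ++ s))) if p ≠ [] and
|p| + 5 ≤ N, and o p = 2 otherwise (|f| ≤ 1 gives oscillation ≤ 2 everywhere on nodeX-nodes, which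
avoid the square Cantor set). Fix v, |v| < N. The sum of w p (o p)^2 over p above v: the term p = v
is ≤ 4 w v; the p with N - 5 < |p| < N: at most 5 levels, the sum of w p over one level of p above v is
w v (additivity): ≤ 20 w v. The others: p strictly above v, |p| ≤ N - 5, r = p.dropLast above v, every r
has 4 children p: ≤ 4 C sum over r above v with |r| ≤ N - 6 of sum_{s ∈ wd 3} EN (r ++ s). Every word t
is r ++ s with s ∈ wd 3 for at most 4 words r, so this is ≤ 16 C * (sum of EN t over t above v,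
|t| ≤ N - 3) (EN ≥ 0). By DEC and induction on M the sum of EN t over the t above v, |t| < M
(M ≤ N - 1), is the sum of JJ t over t above v with |t| = M, minus JJ v, at most
C (sum of w t) + C w v = 2 C w v by JBD. (If N is small the sums are empty.) -/
def T_LPO : Prop := ∀ CG : ℝ, ∃ C : ℝ, 0 < C ∧ ∀ (N : ℕ) (w : List D → ℝ) (V : ℝ) (f : ℂ → ℂ),
  1 ≤ N → GB N w V CG → DifferentiableOn ℂ f squareCantorᶜ → (∀ z ∈ squareCantorᶜ, ‖f z‖ ≤ 1) →
  ∃ o : List D → ℝ, (∀ p, 0 ≤ o p ∧ o p ≤ 2) ∧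
    (∀ p x y, Psi p x ∈ nodeX → Psi p y ∈ nodeX → ‖f x - f y‖ ≤ o p) ∧
    ∀ v : List D, v.length < N → ∑ p ∈ bl (N - 1) v, w p * o p ^ 2 ≤ C * w v

/-! ### D. Splitting -/

/-- WHO: W is Hoelder continuous.

PROOF. Functional equation W z = (3/4) sum over d of W (psi d z) (from Wn (n+1) z = 3/4 sum Wn n
(psi d z) and Wn → W). W is bounded by 7922 and holomorphic on {dist z ctr > .71}, so it is
Lipschitz on {dist z ctr ≥ 9/10} with a constant L (Cauchy estimate on balls of radius .19; chains or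
the explicit derivative bound and a path; for the present use both points lie in a convex
neighbourhood, see below). Induction on v: v = [] trivial with C = 2 * 7922. v = d :: v': z, z' with
dist (Psi v z) ctr < .78, so dist (Psi v' (psi d z)) ctr < .78, by induction
|W (psi d z) - W (psi d z')| ≤ C (3/4)^|v'|. For d' ≠ d: psi d z, psi d z' are within .78 of ctr
(near_prefix), so psi d' z, psi d' z' are at distance ≥ 1 from ctr (psi_disj) for all points of the
segment, so |W (psi d' z) - W (psi d' z')| ≤ L * 3 |z - z'| ≤ 5 L 3^(-|v|) (dist_Psi: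
|z - z'| ≤ 1.56 * 3^(-|v|)). So C_(k+1) (3/4)^(k+1) ≤ (3/4) C_k (3/4)^k + 12 L 3^(-k-1): C_k stays
bounded as the sum of (4/9)^k converges. -/
def T_WHO : Prop := ∃ C : ℝ, 0 < C ∧ ∀ (v : List D) (z z' : ℂ), dist (Psi v z) ctr < 78 / 100 →
  dist (Psi v z') ctr < 78 / 100 → ‖W z - W z'‖ ≤ C * (3 / 4) ^ v.length

/-- TAI: expansion at infinity in powers of W.

PROOF. Induction on m. m = 0: |F z| ≤ C B/(1 + dist z ctr) for dist z ctr ≥ .76: Schwarz lemma for
u ↦ F(ctr + 1/u) (see `tail` and `schwarz2` in Split.lean). Step: F_m = F - sum_{k < m} b_k W^(k+1) is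
holomorphic on {dist z ctr > .75} (W_differentiableAt; the square Cantor set is inside
dist < .71), bounded by C B rk (m+1). So (z - ctr)^(m+1) F_m(z) is bounded by C' B near infinity, it has
a limit b_m there (removable singularity at u = 0), |b_m| ≤ C' B, and
F_m - b_m (z - ctr)^(-(m+1)) = O(B |z|^(-m-2)) with constants (Schwarz lemma for
(z - ctr)^(m+1) F_m - b_m). Since W z = (z - ctr)^(-1) + O(|z|^(-2)) (W_far or similar in
Capacity.lean: |W z - (z - ctr)^(-1)| ≤ C |z|^(-2)), W^(m+1) = (z - ctr)^(-(m+1)) + O(|z|^(-m-2)). -/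
def T_TAI : Prop := ∀ m : ℕ, ∃ C : ℝ, 0 < C ∧ ∀ (F : ℂ → ℂ) (B : ℝ), 0 ≤ B →
  DifferentiableOn ℂ F {z | (75 / 100 : ℝ) < dist z ctr} →
  (∀ z, (75 / 100 : ℝ) < dist z ctr → ‖F z‖ ≤ B) → Tendsto F (cocompact ℂ) (𝓝 0) →
  ∃ b : Fin m → ℂ, (∀ k, ‖b k‖ ≤ C * B) ∧ ∀ z, (76 / 100 : ℝ) ≤ dist z ctr →
    ‖F z - ∑ k : Fin m, b k * W z ^ (k.val + 1)‖ ≤ C * B * rk (m + 1) z

/-- SPL: splitting of order m. Hypotheses hWHO : T_WHO, hTAI : T_TAI.

PROOF. laurent_full (c = ctr, r1 = .74, ra = .749, rb = .791, r2 = .80): w = wp + wm on the annulus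
(.749, .791), wp holomorphic on the ball of radius .791, |wp| ≤ C M on dist < .79, wm holomorphic on
dist > .749, |wm| ≤ C M on dist > .75, wm → 0 at infinity. TAI for F = wm:
P = sum b_k W^(k+1). win = wp + P, wout = P - wm. Then w = win - wout; |win| ≤ C M; |wout| ≤ C M rk m
on dist > .76 (rk (m+1) ≤ rk m). Hoelder: |W^k(z) - W^k(z')| ≤ C |W z - W z'|, WHO; wp is Lipschitz
with constant C M on the ball of radius .78 (Cauchy), |z - z'| ≤ 1.56 * 3^(-|v|); for v ≠ [] the
points are in the ball of radius .76 (near_prefix). For M = 0 everything is 0. -/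
def T_SPL : Prop := ∀ m : ℕ, ∃ C : ℝ, 0 < C ∧ ∀ (w : ℂ → ℂ) (M : ℝ), 0 ≤ M →
  DifferentiableOn ℂ w {z | (74 / 100 : ℝ) < dist z ctr ∧ dist z ctr < 80 / 100} →
  (∀ z, (74 / 100 : ℝ) < dist z ctr → dist z ctr < 80 / 100 → ‖w z‖ ≤ M) →
  ∃ win wout : ℂ → ℂ, DifferentiableOn ℂ win (ball ctr (79 / 100) ∩ squareCantorᶜ) ∧
    DifferentiableOn ℂ wout {z | (75 / 100 : ℝ) < dist z ctr} ∧
    (∀ z, (75 / 100 : ℝ) < dist z ctr → dist z ctr < 79 / 100 → w z = win z - wout z) ∧
    (∀ z, dist z ctr < 78 / 100 → ‖win z‖ ≤ C * M) ∧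
    (∀ z, (76 / 100 : ℝ) < dist z ctr → ‖wout z‖ ≤ C * M * rk m z) ∧
    ∀ (v : List D) (z z' : ℂ), dist (Psi v z) ctr < 78 / 100 → dist (Psi v z') ctr < 78 / 100 →
      ‖win z - win z'‖ ≤ C * M * (3 / 4) ^ v.length

/-- SYS: the system of functions s. Hypothesis hSPL : T_SPL.

PROOF. (Model: `cousin` in Cousin.lean, with finite sums.) S R z = sum over u in wd (N-1) of
(win_u (Psi u z) if anc R u, else wout_u (Psi u z)), SPL for wj u with M = μ u. Differentiability on
Nd R: Nd_anc, Nd_not_anc, Psi_notMem. Jump: anc_par, not_anc_par: only the term u differs.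
Oscillation on Nd (some p), for the term u, L = cpl p u: (a) u <+: p (L = |u|): win, Hoelder with the
word x, p = u ++ x: Psi x (Psi u z) = Psi p z: C μ (3/4)^(|p| - |u|). (b) p <+: u, p ≠ u, u = p ++ d :: y,
e = |u| - |p| ≥ 1: dist (psi d (Psi p z)) ctr > .76 and dist_psi_ge_q give
dist (Psi u z) ctr - .71 ≥ 3^(e-1) * .05, so |wout_u| ≤ C μ (60)^m 3^(-me). (c) otherwise p = a ++ d' :: y',
u = a ++ d :: y, d ≠ d', e = |u| - |a|, e' = |p| - |a|: for all z with dist (Psi (a ++ [d']) z) ctr < 1 we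
have dist (Psi (a ++ [d]) z) ctr ≥ 1 (psi_disj), dist (Psi u z) ctr - .71 ≥ .29 * 3^(e-1), so the function
wout_u ∘ Psi u is holomorphic on the ball {dist (Psi (a ++ [d']) z) ctr < 1} and bounded by
C μ 60^m 3^(-me) there; on the concentric ball of radius .78 (in these coordinates) it is Lipschitz with
constant C times this bound (Cauchy), and z, z' in Nd (some p) are both in this ball with distance
≤ 1.56 * 3^(-(e'-1)) in these coordinates: oscillation ≤ C μ 3^(-me) 3^(-e') ≤ C μ 3^(-me) (3/4)^(e').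
Bounds on Nd none: dist z ctr > .76, the term u = [] is ≤ C μ [], the others as in (b) (e = |u|, first
dist (Psi u z) ctr - .71 ≥ 3^|u| (dist z ctr - .71)). On Nd (some []): win_[] ≤ C μ [], others as (b)
with p = []. -/
def T_SYS : Prop := ∀ m : ℕ, ∃ C : ℝ, 0 < C ∧ ∀ (N : ℕ) (wj : List D → ℂ → ℂ) (μ : List D → ℝ),
  1 ≤ N → (∀ u, 0 ≤ μ u) →
  (∀ u : List D, u.length < N → DifferentiableOn ℂ (wj u)
    {z | (74 / 100 : ℝ) < dist z ctr ∧ dist z ctr < 80 / 100} ∧
    ∀ z, (74 / 100 : ℝ) < dist z ctr → dist z ctr < 80 / 100 → ‖wj u z‖ ≤ μ u) →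
  ∃ S : Option (List D) → ℂ → ℂ, (∀ R, DifferentiableOn ℂ (S R) (Nd R)) ∧
    (∀ u : List D, u.length < N → ∀ z ∈ Nd (par u), z ∈ Nd (some u) →
      S (some u) z - S (par u) z = wj u (Psi u z)) ∧
    (∀ p, ∀ z ∈ Nd (some p), ∀ z' ∈ Nd (some p),
      ‖S (some p) z - S (some p) z'‖ ≤ C * ∑ u ∈ wd (N - 1), kr ((1 / 3) ^ m) p u * μ u) ∧
    (∀ z ∈ Nd none, ‖S none z‖ ≤ C * ∑ u ∈ wd (N - 1), ((1 / 3) ^ m) ^ u.length * μ u) ∧
    ∀ z ∈ Nd (some []), ‖S (some []) z‖ ≤ C * ∑ u ∈ wd (N - 1), ((1 / 3) ^ m) ^ u.length * μ u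

/-! ### E. Trees -/

/-- SCH: Schur test.

PROOF. κ = 3^(-m) with κ ≤ 1/8 and κ CG ≤ 1/2 (m0). (1) For every p: sum over u of kr p u ≤ 8: the u
with cpl p u = L and |u| = L + e are at most 4^e many; sum_L (3/4)^(|p|-L) sum_e (4κ)^e ≤ 4 * 2.
(2) Cauchy-Schwarz: (sum_u kr p u μ u)^2 ≤ 8 sum_u kr p u (μ u)^2. (3) Let |v| < N, u fixed,
Σ(u) = sum over p above v (|p| < N) of w p kr p u. If u is above v: group the p by L = cpl p u
(|v| ≤ L ≤ |u|) and |p| = L + e': these p are above a = u.take L, and the sum of w p over the words p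
above a of a given length ≤ N is w a; so Σ(u) ≤ sum_L κ^(|u|-L) sum_e' (3/4)^e' w(u.take L) ≤
4 sum_k (κ CG)^k w u ≤ 8 w u. These u contribute ≤ 64 A w v in total. If u is not above v and
L0 = cpl v u: for all p above v cpl p u = L0 if L0 < |v| (L0 < |v| holds: otherwise v would be a
initial word of u), so Σ(u) ≤ κ^(|u|-L0) (3/4)^(|v|-L0) * 4 w v, and the sum over these u (at most 4^e with
given L0, |u| = L0 + e) is ≤ 4 w v * sum_{L0 < |v|} (3/4)^(|v|-L0) sum_e (4κ)^e ≤ 32 w v; with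
(μ u)^2 ≤ B^2 they contribute ≤ 256 B^2 w v. -/
def T_SCH : Prop := ∀ CG : ℝ, 1 ≤ CG → ∃ m₀ : ℕ, ∀ m : ℕ, m₀ ≤ m → ∃ C : ℝ, 0 < C ∧
  ∀ (N : ℕ) (w μ : List D → ℝ) (A B : ℝ), 1 ≤ N → GD N w →
  (∀ p : List D, p.length < N → ∀ d : D, w p ≤ CG * w (p ++ [d])) →
  (∀ u, 0 ≤ μ u ∧ μ u ≤ B) → 0 ≤ A →
  (∀ v : List D, v.length < N → ∑ u ∈ bl (N - 1) v, w u * μ u ^ 2 ≤ A * w v) →
  (∀ p : List D, ∑ u ∈ wd (N - 1), kr ((1 / 3) ^ m) p u * μ u ≤ C * B) ∧
  (∑ u ∈ wd (N - 1), ((1 / 3) ^ m) ^ u.length * μ u ≤ C * B) ∧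
  ∀ v : List D, v.length < N → ∑ p ∈ bl (N - 1) v,
    w p * (∑ u ∈ wd (N - 1), kr ((1 / 3) ^ m) p u * μ u) ^ 2 ≤ C * (A + B ^ 2) * w v

/-- JNT: the inequality of John and Nirenberg on a tree.

PROOF. For v <+: q, |q| ≤ M, put A(v,q) = sum_i |Y i q - Y i v| + sum of τ (q.take k), |v| ≤ k < |q|:
A(v,q) ≤ A(v,p) + A(p,q) for v <+: p <+: q, A(p, p ++ [d]) ≤ (n+1) B. E_v[φ] = (w v)^(-1) * sum over
q above v, |q| = M, of w q φ(q). By orthogonality of martingale differences E_v|Y i q - Y i v|^2 =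
(w v)^(-1) sum over p above v, |p| < M, sum_d w(p++[d]) |Y i (p++[d]) - Y i p|^2 ≤ B, so
E_v[A(v,q)] ≤ n sqrt B + B =: B1 (the mean of the τ part is (w v)^(-1) sum w p τ p ≤ B). Stopping:
let T = 4 (B1 + (n+1) B + 1) and for v consider the minimal words p above v (|p| ≤ M) with
A(v,p) > T. Claim: the sum of w p over them is ≤ w v/4 * (something < 1): for such p
A(v,p) ≤ sum_i |Y i p - Y i v| + τ-part, and |Y i p - Y i v| ≤ E_p|Y i q - Y i v| (martingale), the
τ-part up to p is ≤ the τ-part up to q; so T w p ≤ sum over q above p of w q A(v,q), and the sum over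
the stopped p is ≤ w v B1, so the stopped mass is ≤ (B1/T) w v ≤ w v/4. At a stopped p
A(v,p) ≤ T + (n+1) B ≤ 2 T. With lam = 1/(4T): Φ = the maximum over the finitely many v (|v| ≤ M) of
E_v[exp(lam A(v,q))]: if no stopping on the way to q then A(v,q) ≤ T, otherwise
A(v,q) ≤ 2 T + A(p,q): Φ ≤ exp(lam T) + (1/4) exp(2 lam T) Φ ≤ 2 + (1/2) Φ (exp(1/4) ≤ 2,
exp(1/2)/4 ≤ 1/2), so Φ ≤ 4. Take v = []. (One can also do it by induction on M - |v| instead of
stopping: any proof.) -/
def T_JNT : Prop := ∀ (n : ℕ) (B : ℝ), 0 < B → ∃ lam C : ℝ, 0 < lam ∧ 0 < C ∧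
  ∀ (M : ℕ) (w : List D → ℝ) (Y : Fin n → List D → ℂ) (τ : List D → ℝ), GD M w →
  (∀ p, 0 ≤ τ p ∧ τ p ≤ B) →
  (∀ i, ∀ p : List D, p.length < M → ∑ d : D, (w (p ++ [d]) : ℂ) * Y i (p ++ [d]) = w p * Y i p) →
  (∀ i, ∀ p : List D, p.length < M → ∀ d : D, ‖Y i (p ++ [d]) - Y i p‖ ≤ B) →
  (∀ i, ∀ v : List D, v.length < M → ∑ p ∈ bl (M - 1) v,
    ∑ d : D, w (p ++ [d]) * ‖Y i (p ++ [d]) - Y i p‖ ^ 2 ≤ B * w v) →
  (∀ v : List D, v.length < M → ∑ p ∈ bl (M - 1) v, w p * τ p ≤ B * w v) →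
  ∑ q ∈ lv M, w q * Real.exp (lam * (∑ i, ‖Y i q - Y i []‖ +
    ∑ k ∈ Finset.range M, τ (q.take k))) ≤ C * w []

/-! ### F. Corona -/

/-- SLF: local solutions. Hypotheses hCMP : T_CMP, hADD : T_ADD.

PROOF. Let a(v)_k = cm v (f_k ps)/w v for |v| < N. For z with Psi v z ∈ nodeX: a(v)_k - f_k z =
cm v ((f_k - f_k z) ps)/w v (CMP), so |a(v)_k - f_k z| ≤ C2 o v (ann; the circle dist (Psi v .) ctr =
.77 is in nodeX). Let ε0 = min 1 (δ^2/(2 n C2)) > 0. Call v calm if |v| < N and o v ≤ ε0: then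
|sum_k f_k z conj(a(v)_k) - sum |f_k z|^2| ≤ n C2 ε0 ≤ δ^2/2, so |D_v z| ≥ δ^2/2 with
D_v = sum_k f_k conj(a(v)_k), and g (some v) i = conj(a(v)_i)/D_v; for the other v and for none take
the solutions of the library (node_corona, exterior_corona, as in log_corona). All are bounded by C on
NR R. Let |p| + 1 < N, u = p ++ [d], O = o p + sum_d o (p ++ [d]). On the annulus
NR (some p) ∩ NR (some u) let w_ij = g^u_i g^p_j - g^u_j g^p_i. If O > ε0: |w| ≤ C ≤ (C/ε0) O and the sum
over d of cm u (w ps) is ≤ C sum w u = C w p ≤ (C/ε0^2) w p O^2 (|cm u (h ps)| ≤ sup|h| * C w u by ann;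
w_ij is defined and holomorphic on the circle). If O ≤ ε0: p and the u are calm,
w_ij = b^u_ij/(D_u D_p), b^u_ij = conj(a(u)_i a(p)_j - a(u)_j a(p)_i) = conj((a(u) - a(p))_i a(p)_j
- (a(u) - a(p))_j a(p)_i), |b^u| ≤ C O; with s = sum_k |a(p)_k|^2 (≥ δ^2/4: |s - D_p z| ≤ C O, else
enlarge C) |D_u D_p - s^2| ≤ C O, so |w_ij - b^u_ij/s^2| ≤ C O^2 and |w| ≤ C O. By ADD
w p a(p)_k = cm p (f_k ps) = sum_d cm (p++[d]) (f_k ps) = sum_d w(p++[d]) a(p++[d])_k (f_k ps is
holomorphic on Nd (some p), |p| < N: the charges are in the discs of the children by GEO, or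
because ps is a finite sum and cc q ∉ Nd (some p)), so sum_d w(p++[d]) b^(p++[d])_ij = 0 and, with
cm u (ps) = w u, the sum over d of cm u (w_ij ps) is the sum of cm u ((w_ij - b^u_ij/s^2) ps), at most
C O^2 sum_d w(p++[d]) = C w p O^2. -/
def T_SLF : Prop := ∀ (n : ℕ) (δ CG : ℝ), 0 < δ → ∃ C : ℝ, 0 < C ∧ ∀ (N : ℕ) (w : List D → ℝ)
  (V : ℝ) (f : Fin n → ℂ → ℂ) (o : List D → ℝ), 1 ≤ N → GB N w V CG → Dat n δ f →
  (∀ p, 0 ≤ o p) →
  (∀ j p x y, Psi p x ∈ nodeX → Psi p y ∈ nodeX → ‖f j x - f j y‖ ≤ o p) →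
  ∃ g : Option (List D) → Fin n → ℂ → ℂ, (∀ R i, DifferentiableOn ℂ (g R i) (NR R)) ∧
    (∀ R i, ∀ z ∈ NR R, ‖g R i z‖ ≤ C) ∧ (∀ R, ∀ z ∈ NR R, ∑ j, f j z * g R j z = 1) ∧
    ∀ p : List D, p.length + 1 < N → ∀ i j,
      (∀ (d : D) (z : ℂ), z ∈ NR (some p) → z ∈ NR (some (p ++ [d])) →
        ‖g (some (p ++ [d])) i z * g (some p) j z - g (some (p ++ [d])) j z * g (some p) i z‖ ≤
          C * (o p + ∑ d : D, o (p ++ [d]))) ∧
      ‖∑ d : D, cm (p ++ [d]) (fun z => (g (some (p ++ [d])) i z * g (some p) j z -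
          g (some (p ++ [d])) j z * g (some p) i z) * ps N w z)‖ ≤
        C * w p * (o p + ∑ d : D, o (p ++ [d])) ^ 2

/-- GLA: gluing.

PROOF. As in log_corona (LogCorona.lean): G R i z = g R i z - sum_j (S R i j z + t R i j) f_j z on Nd R;
for R = some u, R' = par u, |u| < N, on the overlap
G (some u) i - G (par u) i = g_i^u - g_i^par - sum_j (g_i^u g_j^par - g_j^u g_i^par) f_j = 0 by
sum f g = 1. Om N is covered by the Nd R with R = none or R = some v, |v| < N: z ∈ Om N is not in the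
square Cantor set (a point of it has some q of length N with dist (Psi q z) ctr < .71:
exists_psi_mem), so z ∈ Nd R for some R (Nd_cover); if R = some v with |v| ≥ N let q = v.take N,
dist (Psi q z) ctr < .78 by Nd_anc, > .765 as z ∈ Om N; then z ∈ Nd (par q) (near_prefix; for the
other digits psi_disj). Overlaps: Nd_overlap. sum f G = 1 by antisymm_sum. -/
def T_GLA : Prop := ∀ (n N : ℕ) (f : Fin n → ℂ → ℂ) (g : Option (List D) → Fin n → ℂ → ℂ)
  (S : Option (List D) → Fin n → Fin n → ℂ → ℂ) (t : Option (List D) → Fin n → Fin n → ℂ),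
  1 ≤ N → (∀ j, DifferentiableOn ℂ (f j) squareCantorᶜ) →
  (∀ R i, DifferentiableOn ℂ (g R i) (NR R)) → (∀ R, ∀ z ∈ NR R, ∑ j, f j z * g R j z = 1) →
  (∀ R i j, DifferentiableOn ℂ (S R i j) (Nd R)) → (∀ R i j z, S R j i z = - S R i j z) →
  (∀ R i j, t R j i = - t R i j) →
  (∀ u : List D, u.length < N → ∀ i j, ∀ z ∈ Nd (par u), z ∈ Nd (some u) →
    S (some u) i j z + t (some u) i j - S (par u) i j z - t (par u) i j =
      g (some u) i z * g (par u) j z - g (some u) j z * g (par u) i z) →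
  ∃ G : Fin n → ℂ → ℂ, (∀ i, DifferentiableOn ℂ (G i) (Om N)) ∧
    (∀ z ∈ Om N, ∑ j, f j z * G j z = 1) ∧
    ∀ R : Option (List D), (∀ v, R = some v → v.length < N) → ∀ z ∈ Nd R, ∀ i,
      G i z = g R i z - ∑ j, (S R i j z + t R i j) * f j z

/-- MRT: the martingale. Hypotheses hCMP : T_CMP, hADD : T_ADD.

PROOF. Y p = cm p (S (some p) ps)/w p for |p| < N (0 otherwise). |S (some p) z - Y p| ≤ C ob p for z in
Nd (some p): S z - Y p = cm p ((S z - S) ps)/w p by CMP; ann; the circle dist (Psi p .) ctr = .77 is in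
Nd (some p). Martingale: on the circle of u = p ++ [d] S (some u) = S (some p) + wt u, so
sum_d cm u (S (some u) ps) = sum_d cm u (S (some p) ps) + sum_d cm u (wt u ps) = cm p (S (some p) ps)
by ADD (S (some p) ps is holomorphic on Nd (some p)). Increments: for z on the circle of u,
|Y u - S (some u) z| ≤ C ob u, |S (some u) z - S (some p) z| ≤ μ u, |S (some p) z - Y p| ≤ C ob p. -/
def T_MRT : Prop := ∀ CG : ℝ, ∃ C : ℝ, 0 < C ∧ ∀ (N : ℕ) (w : List D → ℝ) (V : ℝ)
  (S : Option (List D) → ℂ → ℂ) (wt : List D → ℂ → ℂ) (μ ob : List D → ℝ), 1 ≤ N →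
  GB N w V CG → (∀ R, DifferentiableOn ℂ (S R) (Nd R)) →
  (∀ u : List D, u.length < N → ∀ z ∈ Nd (par u), z ∈ Nd (some u) →
    S (some u) z - S (par u) z = wt u z ∧ ‖wt u z‖ ≤ μ u) →
  (∀ p : List D, p.length < N → ∀ z ∈ Nd (some p), ∀ z' ∈ Nd (some p),
    ‖S (some p) z - S (some p) z'‖ ≤ ob p) →
  (∀ p : List D, p.length + 1 < N →
    ∑ d : D, cm (p ++ [d]) (fun z => wt (p ++ [d]) z * ps N w z) = 0) →
  ∃ Y : List D → ℂ, (∀ p : List D, p.length + 1 < N →
      ∑ d : D, (w (p ++ [d]) : ℂ) * Y (p ++ [d]) = w p * Y p) ∧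
    (∀ p : List D, p.length < N → ∀ z ∈ Nd (some p), ‖S (some p) z - Y p‖ ≤ C * ob p) ∧
    ∀ p : List D, p.length + 1 < N → ∀ d : D,
      ‖Y (p ++ [d]) - Y p‖ ≤ C * (ob p + ob (p ++ [d]) + μ (p ++ [d]))

/-- FGL: solutions of level N with exponential bounds. Hypotheses hLPO : T_LPO, hSLF : T_SLF,
hSYS : T_SYS, hSCH : T_SCH, hMRT : T_MRT, hGLA : T_GLA, hJNT : T_JNT, hCMP : T_CMP.

PROOF. o = sum over j of the functions o of LPO for f_j: 0 ≤ o ≤ 2n, sum of w p (o p)^2 over p above v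
≤ C w v. SLF gives g. O p = o p + sum_d o (p ++ [d]) ≤ 10 n; by chi (w p ≤ CG w (p++[d])) the sum of
w p (O p)^2 over p above v with |p| + 1 < N is ≤ C w v. For |p| + 1 < N let M p i j be the sum over d of
the cm in SLF; M is antisymmetric in i, j, |M p i j| ≤ C w p (O p)^2. t none = 0, t (some []) = 0,
t (some (p ++ [d])) = t (some p) + M p/w p for |p| + 1 < N (recursion on the list; constant
afterwards): |t (some p) i j| ≤ C sum over k < |p| of τ (p.take k), τ p = (O p)^2 (0 if |p| + 1 ≥ N).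
Jumps: for u = p ++ [d], |u| < N: wj u i j y = (g^u_i g^p_j - g^u_j g^p_i)(Phi u y) - M p i j/w p on the
annulus .74 < dist y ctr < .80 (annulus_some, annulus_par), bounded by μ u = C O p; for u = []
the same without M, bounded by μ [] = C; μ u = 0 for |u| ≥ N. SYS with m ≥ m0 from SCH, for each
(i, j), then antisymmetrised: (S i j - S j i)/2. The jump of S is g^u_i g^p_j - g^u_j g^p_i - (t u - t p):
GLA gives G. The zero mean: sum_d cm (p++[d]) (wt ps) = M p - (M p/w p) sum_d cm (p++[d]) ps =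
M p - M p = 0 by CMP. MRT with ob p = C sum_u kr p u μ u gives Y_ij. SCH (μ ≤ B; sum of w u (μ u)^2 over
u above v, |u| < N: u = v contributes ≤ B^2 w v, the others are w u C (O p)^2 with p above v, and
sum_d w (p++[d]) = w p): sum of w p (ob p)^2 over p above v ≤ C w v, ob ≤ C. So
the increments of Y are bounded and satisfy the condition of JNT with M = N - 1 (for the sum over d:
w (p++[d]) ≤ w p and the terms ob (p++[d]), μ (p++[d]) are summed over the words p ++ [d] above v).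
JNT for the family Y_ij (index Fin (n*n) or Fin n × Fin n through an equivalence) and τ: the sum over
p in lv (N-1) of w p exp(lam (sum |Y_ij p - Y_ij []| + sum_k τ (p.take k))) ≤ C. |Y_ij []| ≤ C (MRT and
the bound of S on Nd (some [])). For q ∈ lv N, q = p ++ [d], and z ∈ Om N with dist (Psi q z) ctr < .78:
z ∈ Nd (some p) and |G_i z| ≤ C + sum_j (|S_ij z| + |t_ij|) ≤ Kq q := C1 (1 + sum_ij |Y_ij p - Y_ij []| +
sum_k τ (p.take k)). Take lam' = lam/C1 and w q ≤ w p: the sum over q of w q exp(lam' Kq q) ≤ C. On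
dist z ctr > .76 (Nd none): |G| ≤ C by the bound of S on Nd none, t none = 0. -/
def T_FGL : Prop := ∀ (n : ℕ) (δ CG : ℝ), 0 < δ → 1 ≤ CG → ∃ lam C : ℝ, 0 < lam ∧ 0 < C ∧
  ∀ (N : ℕ) (w : List D → ℝ) (V : ℝ) (f : Fin n → ℂ → ℂ), 2 ≤ N → GB N w V CG → Dat n δ f →
  ∃ (G : Fin n → ℂ → ℂ) (Kq : List D → ℝ), (∀ j, DifferentiableOn ℂ (G j) (Om N)) ∧
    (∀ z ∈ Om N, ∑ j, f j z * G j z = 1) ∧ (∀ q, 0 ≤ Kq q) ∧
    ∑ q ∈ lv N, w q * Real.exp (lam * Kq q) ≤ C ∧
    (∀ j, ∀ q ∈ lv N, ∀ z ∈ Om N, dist (Psi q z) ctr < 78 / 100 → ‖G j z‖ ≤ Kq q) ∧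
    ∀ j z, 76 / 100 < dist z ctr → ‖G j z‖ ≤ C

/-- MAJ: the maximum principle. Hypotheses hLOG : T_LOG, hNIN : T_NIN, hGEO : T_GEO.

PROOF. Let D0 = {z | dist z ctr < 4/5, .77 < dist (Psi q z) ctr for all q ∈ lv N}, bounded and open. On
the compact closure the function φ_θ(z) = |exp(c e^(iθ) G z)| - 50 gr N w' V' z - A (θ real) is
continuous (closure ⊆ Om N ∩ RN N, no charges) and satisfies the mean value inequality on small circles
in D0 (the modulus of a holomorphic function is at most its circle average, gr is harmonic by LOG),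
so its maximum over the closure is attained at a boundary point (take a maximum point with the largest
real part). Boundary points: dist z ctr = 4/5, there |exp(..)| ≤ exp(c|G|) ≤ A and gr ≥ 0; or
dist (Psi q z) ctr = .77 for some q, there exp(c|G z|) ≤ 50 gr. (A ≥ 0 because it bounds an
exponential.) So φ_θ ≤ 0 on D0 for all θ; choose θ with e^(iθ) G z = |G z|. The remaining points of
Om N (dist z ctr ≥ 4/5 or dist (Psi q z) ctr in (.765, .77]) satisfy the claim by hypothesis. -/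
def T_MAJ : Prop := ∀ (N : ℕ) (w' : List D → ℝ) (V' : ℝ) (G : ℂ → ℂ) (c A : ℝ), 1 ≤ N → 0 < c →
  (∀ z ∈ RN N, 0 ≤ gr N w' V' z) → DifferentiableOn ℂ G (Om N) →
  (∀ z, 76 / 100 < dist z ctr → Real.exp (c * ‖G z‖) ≤ A) →
  (∀ q ∈ lv N, ∀ z ∈ Om N, dist (Psi q z) ctr < 78 / 100 →
    Real.exp (c * ‖G z‖) ≤ 50 * gr N w' V' z) →
  ∀ z ∈ Om N, Real.exp (c * ‖G z‖) ≤ 50 * gr N w' V' z + A

/-- FIN: the theorem of level N. Hypotheses hGRN : T_GRN, hFGL : T_FGL, hMAJ : T_MAJ.

PROOF. GRN gives w, V with GB; FGL gives G, Kq with lam, C. K q = exp(lam Kq q); GRN gives w', V' with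
V' = sum w q K q ≤ C, gr ≥ K q/50 ≥ exp(lam |G_j z|)/50 for z ∈ Om N with dist (Psi q z) ctr < .78
(z has dist (Psi q z) ctr > .765 ≥ 1/10). MAJ with c = lam, A = exp(lam C). -/
def T_FIN : Prop := ∀ (n : ℕ) (δ : ℝ), 0 < δ → ∃ c C : ℝ, 0 < c ∧ 0 < C ∧
  ∀ f : Fin n → ℂ → ℂ, Dat n δ f → ∀ N : ℕ, 2 ≤ N → ∃ (w' : List D → ℝ) (V' : ℝ)
    (G : Fin n → ℂ → ℂ), V' ≤ C ∧ ∑ q ∈ lv N, w' q = 0 ∧ (∀ z ∈ RN N, 0 ≤ gr N w' V' z) ∧
    (∀ j, DifferentiableOn ℂ (G j) (Om N)) ∧ (∀ z ∈ Om N, ∑ j, f j z * G j z = 1) ∧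
    ∀ j, ∀ z ∈ Om N, Real.exp (c * ‖G j z‖) ≤ 50 * gr N w' V' z + C

/-- LIM: passage to the limit, conclusion T_EXP. Hypotheses hFIN : T_FIN, hGRW : T_GRW,
hGRD : T_GRD, hLOG : T_LOG, hHAR : T_HAR, hNIN : T_NIN, hCON : T_CON.

PROOF. u_N = 50 gr N w' V' + C, positive. Let Ω = squareCantorᶜ. (1) Local bounds: every point z of Ω has
dist z ctr > .865 (then dist z ctr ≥ 87/100 or Psi [] z ∈ XH) or Psi p z ∈ interior of XH for some p (if z
is in Nd (some p) then dist (Psi p z) ctr < .78 and dist (psi d (Psi p z)) ctr > .76: inside XH with a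
neighbourhood). By GRW u_N ≤ C_z on a neighbourhood of z for all N > |p|, and this neighbourhood is in
RN N and Om N for N large. (2) So |G_j^N| ≤ c^(-1) log u_N is bounded near z, locally uniformly in N, and
so are the holomorphic functions ps N w' (GRD). (3) Montel / Arzela-Ascoli: there is a subsequence N_k
(or use an ultrafilter on ℕ finer than atTop: limits along it exist pointwise by boundedness; the
functions are locally equi-Lipschitz by Cauchy's estimate, so the convergence is locally uniform)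
along which all G_j^N converge locally uniformly on Ω to holomorphic g_j, and u_N (locally
equi-Lipschitz, gradient |ps|) converge locally uniformly to u. u is harmonic: on a ball in Ω u_N is the
real part of a holomorphic function (harmonic functions on balls: Mathlib
HarmonicOnNhd.. exists analytic function with given real part; or the primitive of 50 ps N w'), the
limits of these (normalised to be real at the centre) are holomorphic with real part u. (4) Limits of
the inequalities and of sum f_j G_j = 1. u ≤ C' for dist z ctr ≥ 1 by GRW. -/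
def T_LIM : Prop := T_FIN → T_EXP

end Pool.Agent.CorE
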